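import Pool.Agent.Lib.CSol.Defs

section

open scoped InnerProductSpace ComplexConjugate

namespace Pool.Agent.Lib.CSol

namespace HLA

variable {V : Type*} [NormedAddCommGroup V] [InnerProductSpace ℂ V] (h : HLA V)
  [FiniteDimensional ℂ V]

private theorem D03_norm (hf : h.Flat) (x v : V) : ‖h.D x v‖ = ‖h.A x v‖ := by
  have h1 : ⟪h.D x v, h.D x v⟫_ℂ = ⟪h.A x v, h.A x v⟫_ℂ := by
    rw [h.inner_D_left, ← hf.comm x x v, h.inner_D_right]
  rw [inner_self_eq_norm_sq_to_K, inner_self_eq_norm_sq_to_K] at h1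
  have h2 : ‖h.D x v‖ ^ 2 = ‖h.A x v‖ ^ 2 := by exact_mod_cast h1
  exact (pow_left_inj₀ (norm_nonneg _) (norm_nonneg _) two_ne_zero).1 h2

private theorem D03_kill (hf : h.Flat) (x y z : V) : h.D (h.A y x) z = 0 := by
  refine ext_inner_right ℂ fun w => ?_
  rw [h.inner_D_left, hf.kill, inner_zero_right, inner_zero_left]

/-- TASK D03. Consequences of `Flat`.
(a) `H x = 0`: `‖D x x‖ = ‖A x x‖` (`comm x x`: `⟪D x x, D x x⟫ = ⟪x, A x (D x x)⟫
= ⟪x, D x (A x x)⟫ = ⟪A x x, A x x⟫`) and `D (A x x) = 0` (adjoint of `kill`). -/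
theorem Flat.H_zero (hf : h.Flat) (x : V) : h.H x = 0 := by
  unfold H
  rw [D03_norm h hf, D03_kill h hf, inner_zero_right]
  simp

/-- (b) `D (A y x) = 0`: the adjoint of `kill`. -/
theorem Flat.D_kill (hf : h.Flat) (x y z : V) : h.D (h.A y x) z = 0 :=
  D03_kill h hf x y z

private theorem D03_range (hf : h.Flat) (x z : V) : ∃ z', h.D x z = h.A x z' := by
  obtain ⟨r, ⟨z', rfl⟩, s, hs, hrs⟩ :=
    (LinearMap.range (h.A x)).exists_add_mem_mem_orthogonal (h.D x z)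
  have h1 : h.D x s = 0 := by
    refine ext_inner_right ℂ fun w => ?_
    rw [h.inner_D_left, inner_zero_left, ← inner_conj_symm]
    rw [(Submodule.mem_orthogonal _ _).1 hs (h.A x w) ⟨w, rfl⟩, map_zero]
  have h2 : h.A x s = 0 := by
    rw [← norm_eq_zero, ← D03_norm h hf, h1, norm_zero]
  have h3 : ⟪s, h.D x z⟫_ℂ = 0 := by
    rw [h.inner_D_right, h2, inner_zero_left]
  have h4 : ⟪s, h.A x z'⟫_ℂ = 0 := by
    rw [← inner_conj_symm, (Submodule.mem_orthogonal _ _).1 hs (h.A x z') ⟨z', rfl⟩, map_zero]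
  rw [hrs, inner_add_right, h4, zero_add] at h3
  have h5 : s = 0 := inner_self_eq_zero.1 h3
  refine ⟨z', ?_⟩
  rw [hrs, h5, add_zero]

/-- (c) `D (D x z) = 0`: `D x` is normal (`comm x x`), hence `range (D x) = range (A x)`
(`ker (D x) = ker (A x)` from `‖D x v‖ = ‖A x v‖`, and `range T = (ker T^*)ᗮ`), so
`D x z = A x z'` and (b) applies. -/
theorem Flat.D_kill' (hf : h.Flat) (x y z : V) : h.D (h.D x z) y = 0 := by
  obtain ⟨z', hz'⟩ := D03_range h hf x z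
  rw [hz']
  exact D03_kill h hf z' x y

/-- (d) For an orthonormal basis `b`, `∑ i, A (b i) (b i) = 0`: for `z : V`,
`⟪∑ i A (b i) (b i), z⟫ = ∑ i ⟪b i, D (b i) z⟫ = trace (x ↦ D x z)` and the linear map
`L = (x ↦ D x z)` satisfies `L (L x) = D (D x z) z = 0` by (c), so its trace is `0`
(`LinearMap.isNilpotent_trace_of_isNilpotent` or `trace` of a nilpotent map). -/
theorem Flat.zeta (hf : h.Flat) {n : ℕ} (b : OrthonormalBasis (Fin n) ℂ V) :
    ∑ i, h.A (b i) (b i) = 0 := by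
  refine ext_inner_right ℂ fun z => ?_
  rw [inner_zero_left, sum_inner]
  have h1 : IsNilpotent (h.D.flip z) := by
    refine ⟨2, ?_⟩
    ext x
    rw [pow_two]
    exact Flat.D_kill' h hf x z z
  have h2 := (LinearMap.isNilpotent_trace_of_isNilpotent h1).eq_zero
  rw [LinearMap.trace_eq_sum_inner _ b] at h2
  rw [← h2]
  refine Finset.sum_congr rfl fun i _ => ?_
  rw [LinearMap.flip_apply, h.inner_D_right]

/-- (e) Real characters are parallel: `D x l = 0`. Let `B x = D x l` (symmetric, `hl.sym`).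
`B (A y x) = D (A y x) l = 0` by (b). So `⟪x', D y (B x)⟫ = ⟪A y x', B x⟫ = ⟪B (A y x'), x⟫ = 0`:
`D y (B x) = 0`; since `‖A y v‖ = ‖D y v‖` (normality, `comm y y`), `A y (B x) = 0`. Hence
`⟪B x, B x⟫ = ⟪D x l, B x⟫ = ⟪l, A x (B x)⟫ = 0`. -/
theorem Flat.char (hf : h.Flat) (l : V) (hl : h.IsChar l) (x : V) : h.D x l = 0 := by
  have h1 : ∀ y, h.D y (h.D x l) = 0 := by
    intro y
    refine ext_inner_left ℂ fun w => ?_
    rw [h.inner_D_right, ← hl.sym, D03_kill h hf, inner_zero_left, inner_zero_right]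
  have h2 : h.A x (h.D x l) = 0 := by
    rw [← norm_eq_zero, ← D03_norm h hf, h1, norm_zero]
  have h3 : ⟪h.D x l, h.D x l⟫_ℂ = 0 := by
    rw [h.inner_D_left, h2, inner_zero_right]
  exact inner_self_eq_zero.1 h3

end HLA

end Pool.Agent.Lib.CSol
end

section

open scoped InnerProductSpace ComplexConjugate

namespace Pool.Agent.Lib.CSol

namespace HLA

variable {V : Type*} [NormedAddCommGroup V] [InnerProductSpace ℂ V] (h : HLA V)
  [FiniteDimensional ℂ V]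

/-- TASK E01. The real characters `c̄ w + c w̄`... : if `(m, m')` is a complex character then
`conj c • m + c • m'` is a real one. (`sym`: `⟪D x m, y⟫ = ⟪x, D y m'⟫`, and by conjugation
`⟪D x m', y⟫ = ⟪x, D y m⟫`.) -/
theorem IsChar2.real (m m' : V) (hm : h.IsChar2 m m') (c : ℂ) :
    h.IsChar (conj c • m + c • m') := by
  refine ⟨fun x y => ?_, fun x y => ?_⟩
  · rw [inner_add_left, inner_smul_left, inner_smul_left, hm.br, hm.br', mul_zero, mul_zero,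
      add_zero]
  · have h1 : ⟪h.D x m', y⟫_ℂ = ⟪x, h.D y m⟫_ℂ := by
      rw [← inner_conj_symm, ← hm.sym, inner_conj_symm]
    rw [map_add, map_smul, map_smul, map_add, map_smul, map_smul, inner_add_left,
      inner_add_right, inner_smul_left, inner_smul_left, inner_smul_right, inner_smul_right,
      h1, hm.sym, Complex.conj_conj]
    ring

/-- For a weight vector `(η, θ)` and a real character `l`: `D η l = -⟪l, η⟫ • m'` and
`D θ l = -⟪l, θ⟫ • m`. Proof: for all `z`,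
`⟪z, D η l⟫ = ⟪D z l, η⟫ = ⟪l, A z η⟫ = -⟪z, m'⟫ * ⟪l, η⟫` (`hl.sym`, adjoint, `w1`). -/
theorem wt_D (m m' η θ l : V) (hw : h.IsWt m m' η θ) (hl : h.IsChar l) :
    h.D η l = -(⟪l, η⟫_ℂ • m') ∧ h.D θ l = -(⟪l, θ⟫_ℂ • m) := by
  constructor
  · refine ext_inner_left ℂ fun z => ?_
    rw [← hl.sym, h.inner_D_left, hw.w1, inner_neg_right, inner_smul_right, inner_neg_right,
      inner_smul_right]
    ring
  · refine ext_inner_left ℂ fun z => ?_
    rw [← hl.sym, h.inner_D_left, hw.w2, inner_neg_right, inner_smul_right, inner_neg_right,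
      inner_smul_right]
    ring

/-- If `(m, m') ≠ (0, 0)`, real characters kill the weight vector: `⟪l, η⟫ = -⟪θ, l⟫`.
Proof: `0 = ⟪l, br x η⟫ = ⟪m, x⟫ ⟪l, η⟫ - ⟪l, A θ x⟫` (`hl.br`, `w3`) and
`⟪l, A θ x⟫ = ⟪D θ l, x⟫ = -⟪θ, l⟫ ⟪m, x⟫`; so `⟪m, x⟫ (⟪l, η⟫ + ⟪θ, l⟫) = 0` for all `x`;
similarly from `w4`, `⟪m', x⟫ (⟪l, θ⟫ + ⟪η, l⟫) = 0` (take the conjugate). -/
theorem wt_real (m m' η θ l : V) (hw : h.IsWt m m' η θ) (hl : h.IsChar l)
    (hne : m ≠ 0 ∨ m' ≠ 0) : ⟪l, η⟫_ℂ = -⟪θ, l⟫_ℂ := by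
  obtain ⟨d1, d2⟩ := h.wt_D m m' η θ l hw hl
  rcases hne with hne | hne
  · have h1 := hl.br m η
    rw [hw.w3, inner_sub_right, inner_smul_right, ← h.inner_D_left, d2, inner_neg_left,
      inner_smul_left, inner_conj_symm] at h1
    have h2 : ⟪m, m⟫_ℂ * (⟪l, η⟫_ℂ + ⟪θ, l⟫_ℂ) = 0 := by
      rw [← h1]; ring
    rcases mul_eq_zero.1 h2 with h3 | h3
    · exact absurd (inner_self_eq_zero.1 h3) hne
    · exact eq_neg_of_add_eq_zero_left h3
  · have h1 := hl.br m' θ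
    rw [hw.w4, inner_sub_right, inner_smul_right, ← h.inner_D_left, d1, inner_neg_left,
      inner_smul_left, inner_conj_symm] at h1
    have h2 : ⟪m', m'⟫_ℂ * (⟪l, θ⟫_ℂ + ⟪η, l⟫_ℂ) = 0 := by
      rw [← h1]; ring
    rcases mul_eq_zero.1 h2 with h3 | h3
    · exact absurd (inner_self_eq_zero.1 h3) hne
    · have h4 := congrArg conj (eq_neg_of_add_eq_zero_right h3)
      rw [map_neg, inner_conj_symm, inner_conj_symm] at h4
      exact h4

end HLA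

end Pool.Agent.Lib.CSol
end

section

open scoped InnerProductSpace ComplexConjugate

namespace Pool.Agent.Lib.CSol

namespace HLA

variable {V : Type*} [NormedAddCommGroup V] [InnerProductSpace ℂ V] (h : HLA V)
  [FiniteDimensional ℂ V]

/-- TASK E02. The weight vanishes on `η, θ`, given Step 2 (`S2`). If `m = m' = 0` trivial.
Otherwise for `c : ℂ` put `l = conj c • m + c • m'` (real character, `IsChar2.real`). Claim
`⟪l, η⟫ = 0`. If not, `⟪l, θ⟫ ≠ 0` by `wt_real`, and by `wt_D`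
`m' = D (-(⟪l,η⟫)⁻¹ • η) l`, `m = D (-(⟪l,θ⟫)⁻¹ • θ) l`, so `l = D x l` for
`x = c • (-(⟪l,η⟫)⁻¹ • η) + conj c • (-(⟪l,θ⟫)⁻¹ • θ)`; `S2` gives `l = 0`, contradiction. So
`⟪conj c • m + c • m', η⟫ = c * ⟪m, η⟫ + conj c * ⟪m', η⟫ = 0` for all `c`; take `c = 1, I`.
Then `⟪l, θ⟫ = 0` for all these `l` by `wt_real` again, and so `⟪m, θ⟫ = ⟪m', θ⟫ = 0`. -/
theorem wt_vanish (S2 : ∀ l, h.IsChar l → ∀ x, h.D x l = l → l = 0) (m m' η θ : V)
    (hm : h.IsChar2 m m') (hw : h.IsWt m m' η θ) :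
    ⟪m, η⟫_ℂ = 0 ∧ ⟪m', η⟫_ℂ = 0 ∧ ⟪m, θ⟫_ℂ = 0 ∧ ⟪m', θ⟫_ℂ = 0 := by
  by_cases hne : m ≠ 0 ∨ m' ≠ 0
  swap
  · push Not at hne
    obtain ⟨rfl, rfl⟩ := hne
    simp
  have key : ∀ c : ℂ, ⟪conj c • m + c • m', η⟫_ℂ = 0 := by
    intro c
    by_contra hcon
    have hl := IsChar2.real h m m' hm c
    have hr := h.wt_real m m' η θ _ hw hl hne
    obtain ⟨d1, d2⟩ := h.wt_D m m' η θ _ hw hl
    obtain ⟨l, hldef⟩ : ∃ l : V, l = conj c • m + c • m' := ⟨_, rfl⟩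
    rw [← hldef] at hl hr d1 d2 hcon
    have hcon2 : ⟪l, θ⟫_ℂ ≠ 0 := by
      intro h0
      apply hcon
      rw [hr, ← inner_conj_symm, h0, map_zero, neg_zero]
    have h3 : h.D (c • (-(⟪l, η⟫_ℂ)⁻¹ • η) + conj c • (-(⟪l, θ⟫_ℂ)⁻¹ • θ)) l = l := by
      rw [map_add, LinearMap.add_apply, map_smul, map_smul, map_smul, map_smul,
        LinearMap.smul_apply, LinearMap.smul_apply, LinearMap.smul_apply, LinearMap.smul_apply,
        d1, d2]
      have e1 : -(⟪l, η⟫_ℂ)⁻¹ • -(⟪l, η⟫_ℂ • m') = m' := by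
        rw [neg_smul, smul_neg, neg_neg, smul_smul, inv_mul_cancel₀ hcon, one_smul]
      have e2 : -(⟪l, θ⟫_ℂ)⁻¹ • -(⟪l, θ⟫_ℂ • m) = m := by
        rw [neg_smul, smul_neg, neg_neg, smul_smul, inv_mul_cancel₀ hcon2, one_smul]
      rw [e1, e2, add_comm, ← hldef]
    exact hcon (by rw [S2 l hl _ h3, inner_zero_left])
  have key2 : ∀ c : ℂ, ⟪conj c • m + c • m', θ⟫_ℂ = 0 := by
    intro c
    have hl := IsChar2.real h m m' hm c
    have hr := h.wt_real m m' η θ _ hw hl hne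
    rw [key c, eq_comm, neg_eq_zero] at hr
    rw [← inner_conj_symm, hr, map_zero]
  have fin : ∀ v : V, (∀ c : ℂ, ⟪conj c • m + c • m', v⟫_ℂ = 0) →
      ⟪m, v⟫_ℂ = 0 ∧ ⟪m', v⟫_ℂ = 0 := by
    intro v hv
    have h1 := hv 1
    have h2 := hv Complex.I
    rw [inner_add_left, inner_smul_left, inner_smul_left, Complex.conj_conj] at h1 h2
    rw [map_one, one_mul, one_mul] at h1
    rw [Complex.conj_I] at h2
    have h3 : ⟪m, v⟫_ℂ - ⟪m', v⟫_ℂ = 0 := by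
      have h4 : Complex.I * (⟪m, v⟫_ℂ - ⟪m', v⟫_ℂ) = 0 := by rw [← h2]; ring
      exact (mul_eq_zero.1 h4).resolve_left Complex.I_ne_zero
    constructor
    · linear_combination (h1 + h3) / 2
    · linear_combination (h1 - h3) / 2
  exact ⟨(fin η key).1, (fin η key).2, (fin θ key2).1, (fin θ key2).2⟩

end HLA

end Pool.Agent.Lib.CSol
end

section

open scoped InnerProductSpace ComplexConjugate

namespace Pool.Agent.Lib.CSol

namespace HLA

variable {V : Type*} [NormedAddCommGroup V] [InnerProductSpace ℂ V] (h : HLA V)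
  [FiniteDimensional ℂ V]

/-- TASK F01. Trace of `h.j1`: `∑ i ⟪b i, A (A (b i) x) x⟫ = tr D (A x x) + conj (tr D (A x x))`.
Proof: inner product of `h.j1 x (b i) x` with `b i`, summed:
`∑ ⟪b i, A x (br x (b i))⟫ = ∑ ⟪b i, br x (A x (b i))⟫` (traces of `A x ∘ br x` and
`br x ∘ A x`, `LinearMap.trace_eq_sum_inner`, `LinearMap.trace_mul_comm`), so
`0 = ∑ ⟪b i, br (A x x) (b i)⟫ - ∑ ⟪b i, A (A (b i) x) x⟫ + ∑ ⟪b i, A (A x x) (b i)⟫`; the first is
`tr (br (A x x)) = tr (D (A x x))` (`h.Uni`), the last is the conjugate of `tr (D (A x x))`. -/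
theorem T_formula (hu : h.Uni) (x : V) {n : ℕ} (b : OrthonormalBasis (Fin n) ℂ V) :
    ∑ i, ⟪b i, h.A (h.A (b i) x) x⟫_ℂ = LinearMap.trace ℂ V (h.D (h.A x x))
      + conj (LinearMap.trace ℂ V (h.D (h.A x x))) := by
  have hA : conj (LinearMap.trace ℂ V (h.D (h.A x x))) = ∑ i, ⟪b i, h.A (h.A x x) (b i)⟫_ℂ := by
    rw [LinearMap.trace_eq_sum_inner _ b, map_sum]
    refine Finset.sum_congr rfl fun i _ => ?_
    rw [h.inner_D_right, inner_conj_symm]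
  have hD : LinearMap.trace ℂ V (h.D (h.A x x)) = ∑ i, ⟪b i, h.br (h.A x x) (b i)⟫_ℂ := by
    rw [← hu, LinearMap.trace_eq_sum_inner _ b]
  have hc : ∑ i, ⟪b i, h.A x (h.br x (b i))⟫_ℂ = ∑ i, ⟪b i, h.br x (h.A x (b i))⟫_ℂ := by
    have h1 := LinearMap.trace_eq_sum_inner ((h.A x) * (h.br x)) b
    have h2 := LinearMap.trace_eq_sum_inner ((h.br x) * (h.A x)) b
    rw [LinearMap.trace_mul_comm] at h1
    exact h1.symm.trans h2
  have hi : ∀ i, ⟪b i, h.A (h.A (b i) x) x⟫_ℂ = ⟪b i, h.br (h.A x x) (b i)⟫_ℂ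
      + ⟪b i, h.A (h.A x x) (b i)⟫_ℂ + ⟪b i, h.br x (h.A x (b i))⟫_ℂ
      - ⟪b i, h.A x (h.br x (b i))⟫_ℂ := by
    intro i
    rw [h.j1 x (b i) x, h.br_skew (b i) (h.A x x)]
    simp only [inner_add_right, inner_sub_right, inner_neg_right]
    ring
  rw [hA, hD, Finset.sum_congr rfl fun i _ => hi i, Finset.sum_sub_distrib,
    Finset.sum_add_distrib, Finset.sum_add_distrib, hc]
  ring

end HLA

end Pool.Agent.Lib.CSol
end

section

open scoped InnerProductSpace ComplexConjugate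

namespace Pool.Agent.Lib.CSol

namespace HLA

variable {V : Type*} [NormedAddCommGroup V] [InnerProductSpace ℂ V] (h : HLA V)
  [FiniteDimensional ℂ V]

theorem F02_basis (e : V) (he : ‖e‖ = 1) {n : ℕ} (b : OrthonormalBasis (Fin n) ℂ (ℂ ∙ e)ᗮ) :
    ∃ b' : OrthonormalBasis (Fin (n + 1)) ℂ V, (∀ i : Fin n, b' i.castSucc = (b i : V)) ∧
      b' (Fin.last n) = e := by
  have hbe : ∀ i, ⟪e, (b i : V)⟫_ℂ = 0 := fun i =>
    Submodule.mem_orthogonal_singleton_iff_inner_right.1 (b i).2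
  have heb : ∀ i, ⟪(b i : V), e⟫_ℂ = 0 := fun i =>
    Submodule.mem_orthogonal_singleton_iff_inner_left.1 (b i).2
  have hbb : ∀ i j, ⟪(b i : V), (b j : V)⟫_ℂ = if i = j then 1 else 0 := fun i j => by
    have := orthonormal_iff_ite.1 b.orthonormal i j
    exact this
  have hee : ⟪e, e⟫_ℂ = 1 := by
    rw [inner_self_eq_norm_sq_to_K, he]
    simp
  have hon : Orthonormal ℂ (Fin.snoc (α := fun _ => V) (fun i => (b i : V)) e :
      Fin (n + 1) → V) := by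
    rw [orthonormal_iff_ite]
    intro i j
    refine Fin.lastCases ?_ (fun i' => ?_) i
    · refine Fin.lastCases ?_ (fun j' => ?_) j
      · rw [Fin.snoc_last, hee, if_pos rfl]
      · have h2 : Fin.last n ≠ j'.castSucc := (Fin.castSucc_lt_last j').ne'
        simp [hbe, h2]
    · refine Fin.lastCases ?_ (fun j' => ?_) j
      · have h2 : i'.castSucc ≠ Fin.last n := (Fin.castSucc_lt_last i').ne
        simp [heb]
      · simp [hbb, Fin.castSucc_inj]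
  have hsp : (Submodule.span ℂ (Set.range (Fin.snoc (α := fun _ => V) (fun i => (b i : V)) e :
      Fin (n + 1) → V)))ᗮ = ⊥ := by
    rw [Submodule.eq_bot_iff]
    intro x hx
    have h1 : ∀ i, ⟪(Fin.snoc (α := fun _ => V) (fun i => (b i : V)) e : Fin (n + 1) → V) i,
        x⟫_ℂ = 0 := fun i => (Submodule.mem_orthogonal _ _).1 hx _
          (Submodule.subset_span (Set.mem_range_self i))
    have h2 : ⟪e, x⟫_ℂ = 0 := by
      have := h1 (Fin.last n)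
      rwa [Fin.snoc_last] at this
    have h3 : ∀ i, ⟪(b i : V), x⟫_ℂ = 0 := fun i => by
      have := h1 i.castSucc
      rwa [Fin.snoc_castSucc] at this
    have hxU : x ∈ (ℂ ∙ e)ᗮ := Submodule.mem_orthogonal_singleton_iff_inner_right.2 h2
    have h4 : (⟨x, hxU⟩ : (ℂ ∙ e)ᗮ) = 0 := by
      rw [← b.sum_repr ⟨x, hxU⟩]
      refine Finset.sum_eq_zero fun i _ => ?_
      rw [b.repr_apply_apply]
      have h5 : ⟪b i, (⟨x, hxU⟩ : (ℂ ∙ e)ᗮ)⟫_ℂ = 0 := h3 i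
      rw [h5, zero_smul]
    exact congrArg Subtype.val h4
  refine ⟨OrthonormalBasis.mkOfOrthogonalEqBot hon hsp, fun i => ?_, ?_⟩
  · rw [OrthonormalBasis.coe_of_orthogonal_eq_bot_mk, Fin.snoc_castSucc]
  · rw [OrthonormalBasis.coe_of_orthogonal_eq_bot_mk, Fin.snoc_last]

theorem F02_trace (e : V) (he : ‖e‖ = 1) {n : ℕ} (b : OrthonormalBasis (Fin n) ℂ (ℂ ∙ e)ᗮ)
    (T : V →ₗ[ℂ] V) :
    LinearMap.trace ℂ V T = ∑ i, ⟪(b i : V), T (b i : V)⟫_ℂ + ⟪e, T e⟫_ℂ := by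
  obtain ⟨b', h1, h2⟩ := F02_basis e he b
  rw [LinearMap.trace_eq_sum_inner T b', Fin.sum_univ_castSucc, h2]
  congr 1
  exact Finset.sum_congr rfl fun i _ => by rw [h1]

/-- TASK F02. `e` a unit vector with `D x e = 0` for all `x`, `U = (ℂ ∙ e)ᗮ` nice, `b` an
orthonormal basis of `U`. Then `2 re ∑ i ⟪b i, D (A e e) (b i)⟫ = - ∑ i ‖A (b i) e‖²`.
Proof. The family `b 0, ..., b (n-1), e` is an orthonormal basis `b'` of `V` (indexed by
`Fin (n+1)`, e.g. via `OrthonormalBasis.mk` with `Fin.snoc`, or prove `T_formula` style sums for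
it directly). Apply `T_formula` at `x = e`. Term `e`: `⟪e, A (A e e) e⟫ = ⟪D (A e e) e, e⟫ = 0`.
Term `b i =: u`: `v = A u e ∈ U` (`⟪e, A u e⟫ = ⟪D u e, e⟫ = 0`), and
`⟪u, A v e⟫ = ⟪D v u, e⟫ = -⟪D u v, e⟫ = -⟪v, A u e⟫ = -‖v‖²`, because `D v u + D u v ∈ U`
(polarise `N.DU`). And `tr D (A e e) = ∑ ⟪b i, D (A e e) (b i)⟫ + ⟪e, D (A e e) e⟫`, last term
`0`. -/
theorem T_e (hu : h.Uni) (e : V) (he : ‖e‖ = 1) (he1 : ∀ x, h.D x e = 0)
    (N : h.Nice (ℂ ∙ e)ᗮ) {n : ℕ} (b : OrthonormalBasis (Fin n) ℂ (ℂ ∙ e)ᗮ) :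
    2 * (∑ i, ⟪(b i : V), h.D (h.A e e) (b i : V)⟫_ℂ).re = -∑ i, ‖h.A (b i : V) e‖ ^ 2 := by
  obtain ⟨b', h1, h2⟩ := F02_basis e he b
  have hT := h.T_formula hu e b'
  rw [Fin.sum_univ_castSucc, h2] at hT
  have hlast : ⟪e, h.A (h.A e e) e⟫_ℂ = 0 := by
    rw [← h.inner_D_left, he1, inner_zero_left]
  rw [hlast, add_zero] at hT
  have htr : LinearMap.trace ℂ V (h.D (h.A e e)) =
      ∑ i, ⟪(b i : V), h.D (h.A e e) (b i : V)⟫_ℂ := by
    rw [F02_trace e he b (h.D (h.A e e)), he1, inner_zero_right, add_zero]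
  rw [htr] at hT
  have hterm : ∀ i, ⟪b' i.castSucc, h.A (h.A (b' i.castSucc) e) e⟫_ℂ =
      -((‖h.A (b i : V) e‖ : ℂ) ^ 2) := by
    intro i
    rw [h1 i]
    set u : V := (b i : V) with hu'
    set v : V := h.A u e with hv
    have huU : u ∈ (ℂ ∙ e)ᗮ := (b i).2
    have hvU : v ∈ (ℂ ∙ e)ᗮ := by
      rw [Submodule.mem_orthogonal_singleton_iff_inner_right, hv, ← h.inner_D_left, he1,
        inner_zero_left]
    have hsum : h.D u v + h.D v u ∈ (ℂ ∙ e)ᗮ := by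
      have e1 := N.DU (u + v) (Submodule.add_mem _ huU hvU)
      have e2 := N.DU u huU
      have e3 := N.DU v hvU
      have e4 : h.D u v + h.D v u = h.D (u + v) (u + v) - h.D u u - h.D v v := by
        simp only [map_add, LinearMap.add_apply]
        abel
      rw [e4]
      exact Submodule.sub_mem _ (Submodule.sub_mem _ e1 e2) e3
    have h0 : ⟪h.D u v + h.D v u, e⟫_ℂ = 0 :=
      Submodule.mem_orthogonal_singleton_iff_inner_left.1 hsum
    rw [inner_add_left, h.inner_D_left, h.inner_D_left] at h0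
    have h5 : ⟪v, h.A u e⟫_ℂ = (‖v‖ : ℂ) ^ 2 := by
      rw [← hv]
      exact inner_self_eq_norm_sq_to_K v
    rw [h5] at h0
    exact eq_neg_of_add_eq_zero_right h0
  rw [Finset.sum_congr rfl fun i _ => hterm i] at hT
  have hre := congrArg Complex.re hT
  rw [Complex.add_re, Complex.conj_re, ← two_mul] at hre
  rw [← hre, Finset.sum_neg_distrib, Complex.neg_re, Complex.re_sum]
  congr 1
  refine Finset.sum_congr rfl fun i _ => ?_
  rw [← Complex.ofReal_pow, Complex.ofReal_re]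

end HLA

end Pool.Agent.Lib.CSol
end

section

open scoped InnerProductSpace ComplexConjugate

namespace Pool.Agent.Lib.CSol

namespace HLA

variable {V : Type*} [NormedAddCommGroup V] [InnerProductSpace ℂ V] (h : HLA V)
  [FiniteDimensional ℂ V]

omit [FiniteDimensional ℂ V] in
private theorem F03_split (e : V) (he : ‖e‖ = 1) {n : ℕ}
    (b : OrthonormalBasis (Fin n) ℂ (ℂ ∙ e)ᗮ) (v : V) :
    ‖v‖ ^ 2 = ‖⟪e, v⟫_ℂ‖ ^ 2 + ∑ i, ‖⟪(b i : V), v⟫_ℂ‖ ^ 2 := by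
  have hee : ⟪e, e⟫_ℂ = 1 := by
    rw [inner_self_eq_norm_sq_to_K, he]; norm_num
  have hmem : v - ⟪e, v⟫_ℂ • e ∈ (ℂ ∙ e)ᗮ := by
    rw [Submodule.mem_orthogonal_singleton_iff_inner_right, inner_sub_right, inner_smul_right, hee,
      mul_one, sub_self]
  have h1 := b.sum_sq_norm_inner_right (⟨v - ⟪e, v⟫_ℂ • e, hmem⟩ : (ℂ ∙ e)ᗮ)
  have h2 : ∀ i, ⟪(b i : V), e⟫_ℂ = 0 := fun i =>
    Submodule.mem_orthogonal_singleton_iff_inner_left.1 (b i).2
  have h3 : ∀ i, ⟪b i, (⟨v - ⟪e, v⟫_ℂ • e, hmem⟩ : (ℂ ∙ e)ᗮ)⟫_ℂ = ⟪(b i : V), v⟫_ℂ := by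
    intro i
    rw [Submodule.coe_inner]
    change ⟪(b i : V), v - ⟪e, v⟫_ℂ • e⟫_ℂ = _
    rw [inner_sub_right, inner_smul_right, h2, mul_zero, sub_zero]
  simp only [h3] at h1
  rw [h1]
  have h4 : ‖(⟨v - ⟪e, v⟫_ℂ • e, hmem⟩ : (ℂ ∙ e)ᗮ)‖ = ‖v - ⟪e, v⟫_ℂ • e‖ := rfl
  rw [h4]
  have h5 : v = ⟪e, v⟫_ℂ • e + (v - ⟪e, v⟫_ℂ • e) := by abel
  have h6 : ⟪⟪e, v⟫_ℂ • e, v - ⟪e, v⟫_ℂ • e⟫_ℂ = 0 := by
    rw [inner_smul_left, Submodule.mem_orthogonal_singleton_iff_inner_right.1 hmem, mul_zero]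
  have h7 := norm_add_sq_eq_norm_sq_add_norm_sq_of_inner_eq_zero _ _ h6
  rw [← h5, norm_smul, he, mul_one] at h7
  nlinarith [h7]

private theorem F03_hs (e : V) (he : ‖e‖ = 1) (he1 : ∀ x, h.D x e = 0) {n : ℕ}
    (b : OrthonormalBasis (Fin n) ℂ (ℂ ∙ e)ᗮ) :
    ∑ i, ‖h.D e (b i : V)‖ ^ 2 = ∑ i, ‖h.A e (b i : V)‖ ^ 2 + ‖h.A e e‖ ^ 2 := by
  have h1 : ∀ v, ‖⟪e, h.A e v⟫_ℂ‖ ^ 2 = 0 := by
    intro v
    rw [← h.inner_D_left, he1, inner_zero_left, norm_zero]; norm_num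
  have h2 : ∀ i, ‖h.D e (b i : V)‖ ^ 2 = ‖⟪(b i : V), h.A e e⟫_ℂ‖ ^ 2
      + ∑ j, ‖⟪(b i : V), h.A e (b j : V)⟫_ℂ‖ ^ 2 := by
    intro i
    rw [F03_split e he b (h.D e (b i : V)), h.inner_D_right, ← inner_conj_symm (b i : V) (h.A e e),
      Complex.norm_conj]
    congr 1
    refine Finset.sum_congr rfl fun j _ => ?_
    rw [h.inner_D_right, ← inner_conj_symm (b i : V), Complex.norm_conj]
  have h3 : ∀ v, ∑ i, ‖⟪(b i : V), h.A e v⟫_ℂ‖ ^ 2 = ‖h.A e v‖ ^ 2 := by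
    intro v
    rw [F03_split e he b (h.A e v), h1, zero_add]
  simp only [h2]
  rw [Finset.sum_add_distrib, h3, Finset.sum_comm]
  simp only [h3]
  ring

/-- TASK F03. In the situation of F02: `∑ i E2 (b i) e = ‖A e e‖² + 2 ∑ i ‖A (b i) e‖²`.
Proof. For `u = b i`: `D u e = 0`, `D (A u u) e = 0`, `D (A e u) e = 0`,
`⟪e, D (A u e) u⟫ = -‖A u e‖²` (as in F02). `∑ ⟪A e e, A u u⟫ = 0` (`N.zeta`). So
`∑ E2 = ∑ ‖D e (b i)‖² - ∑ ‖A (b i) e‖² - ∑ ‖A e (b i)‖² - 2 re ∑ ⟪b i, D (A e e) (b i)⟫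
  + 2 ∑ ‖A (b i) e‖²`. Use F02, and
`∑ i ‖D e (b i)‖² = ∑ i ‖A e (b i)‖² + ‖A e e‖²`: Hilbert-Schmidt norms of `D e` and its adjoint
`A e` over the orthonormal basis `b, e` of `V` agree, and `D e e = 0`. -/
theorem E2_sum_e (hu : h.Uni) (e : V) (he : ‖e‖ = 1) (he1 : ∀ x, h.D x e = 0)
    (N : h.Nice (ℂ ∙ e)ᗮ) {n : ℕ} (b : OrthonormalBasis (Fin n) ℂ (ℂ ∙ e)ᗮ) :
    ∑ i, h.E2 (b i : V) e = ‖h.A e e‖ ^ 2 + 2 * ∑ i, ‖h.A (b i : V) e‖ ^ 2 := by
  have hee : ⟪e, e⟫_ℂ = 1 := by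
    rw [inner_self_eq_norm_sq_to_K, he]; norm_num
  have hpol : ∀ u ∈ (ℂ ∙ e)ᗮ, ∀ v ∈ (ℂ ∙ e)ᗮ, ⟪e, h.D v u⟫_ℂ = -⟪e, h.D u v⟫_ℂ := by
    intro u hu' v hv
    have h1 := N.DU (u + v) (add_mem hu' hv)
    have h2 := N.DU u hu'
    have h3 := N.DU v hv
    rw [Submodule.mem_orthogonal_singleton_iff_inner_right] at h1 h2 h3
    simp only [map_add, LinearMap.add_apply, inner_add_right] at h1
    rw [h2, h3] at h1
    linear_combination h1
  have hkey : ∀ u ∈ (ℂ ∙ e)ᗮ, (⟪e, h.D (h.A u e) u⟫_ℂ).re = -‖h.A u e‖ ^ 2 := by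
    intro u hu'
    have hv : h.A u e ∈ (ℂ ∙ e)ᗮ := by
      rw [Submodule.mem_orthogonal_singleton_iff_inner_right, ← h.inner_D_left, he1,
        inner_zero_left]
    rw [hpol u hu' _ hv, h.inner_D_right, inner_self_eq_norm_sq_to_K, Complex.neg_re]
    norm_cast
  have hE : ∀ i, h.E2 (b i : V) e = ‖h.D e (b i : V)‖ ^ 2 - ‖h.A e (b i : V)‖ ^ 2
      + ‖h.A (b i : V) e‖ ^ 2
      - 2 * (⟪h.A e e, h.A (b i : V) (b i : V)⟫_ℂ).re
      - 2 * (⟪(b i : V), h.D (h.A e e) (b i : V)⟫_ℂ).re := by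
    intro i
    rw [E2, hkey _ (b i).2, he1, he1, he1, inner_zero_right, inner_zero_right, zero_add,
      Complex.zero_re]
    ring
  simp only [hE]
  have hz : ∑ i, (⟪h.A e e, h.A (b i : V) (b i : V)⟫_ℂ).re = 0 := by
    rw [← Complex.re_sum, ← inner_sum, N.zeta n b, inner_zero_right, Complex.zero_re]
  have hT := h.T_e hu e he he1 N b
  rw [Complex.re_sum] at hT
  have hS := F03_hs h e he he1 b
  simp only [Finset.sum_sub_distrib, Finset.sum_add_distrib, ← Finset.mul_sum]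
  rw [hz, hS]
  linarith

end HLA

end Pool.Agent.Lib.CSol
end
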