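import Pool.Agent.Lib.CSol.Defs
import Pool.Agent.Lib.CSol.Mg.G012

section

open scoped InnerProductSpace ComplexConjugate TensorProduct

namespace Pool.Agent.Lib.CSol

/-- TASK M05. Solvability. `ℂ ⊗[ℝ] 𝔤` is a solvable complex Lie algebra (instance). The complex
linear map `Φ : ℂ ⊗[ℝ] 𝔤 → g.Cx`, `c ⊗ X ↦ c • g.pr (ψ X) (ψ X)`, is a homomorphism of Lie
algebras (check on pure tensors; `⁅pr x x, pr y y⁆ = pr ⟦x,y⟧ ⟦x,y⟧` by `fst_lie`, `snd_lie` and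
`hb`) and surjective: `pr a 0 = (1/2) • (pr a a - I • pr (I • a) (I • a))`,
`pr 0 a = (1/2) • (pr a a + I • pr (I • a) (I • a))`. Use
`Function.Surjective.lieAlgebra_isSolvable`. -/
theorem solv_of_real {𝔤 : Type*} [LieRing 𝔤] [LieAlgebra ℝ 𝔤] [LieAlgebra.IsSolvable 𝔤]
    {V : Type*} [NormedAddCommGroup V] [InnerProductSpace ℂ V] [Module ℝ V] [IsScalarTower ℝ ℂ V]
    (g : HLA V) (ψ : 𝔤 →ₗ[ℝ] V) (hψ : Function.Surjective ψ)
    (hb : ∀ x y, ψ ⁅x, y⁆ = g.br (ψ x) (ψ y) + g.A (ψ y) (ψ x) - g.A (ψ x) (ψ y)) :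
    g.Solv := by
  have hrs : ∀ (r : ℝ) (v : V), r • v = (r : ℂ) • v := fun r v => by
    rw [← algebraMap_smul ℂ r v]; rfl
  let φ : 𝔤 →ₗ[ℝ] g.Cx :=
    { toFun := fun X => g.pr (ψ X) (ψ X)
      map_add' := fun X Y => by rw [map_add]; rfl
      map_smul' := fun r X => by
        refine g.cx_ext ?_ ?_
        · rw [g.fst_pr, map_smul, hrs]; rfl
        · rw [g.snd_pr, map_smul, hrs]
          change _ = conj ((r : ℂ)) • ψ X
          rw [Complex.conj_ofReal] }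
  have hφ : ∀ X, φ X = g.pr (ψ X) (ψ X) := fun _ => rfl
  have hφb : ∀ X Y, φ ⁅X, Y⁆ = ⁅φ X, φ Y⁆ := fun X Y =>
    g.cx_ext (by rw [hφ, hφ, hφ, g.fst_lie, g.fst_pr, hb]; rfl)
      (by rw [hφ, hφ, hφ, g.snd_lie, g.snd_pr, hb]; rfl)
  let L : ℂ ⊗[ℝ] 𝔤 →ₗ[ℂ] g.Cx := φ.liftBaseChange ℂ
  have hL : ∀ (c : ℂ) (X : 𝔤), L (c ⊗ₜ X) = c • φ X := fun c X => by
    simp only [L, LinearMap.liftBaseChange_tmul]
  have hLb : ∀ x y : ℂ ⊗[ℝ] 𝔤, L ⁅x, y⁆ = ⁅L x, L y⁆ := by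
    intro x y
    induction x using TensorProduct.induction_on with
    | zero => simp only [zero_lie, map_zero]
    | add x₁ x₂ h1 h2 => simp only [add_lie, map_add, h1, h2]
    | tmul c X =>
      induction y using TensorProduct.induction_on with
      | zero =>
        have e : ⁅(c ⊗ₜ[ℝ] X : ℂ ⊗[ℝ] 𝔤), (0 : ℂ ⊗[ℝ] 𝔤)⁆ = 0 :=
          @lie_zero (ℂ ⊗[ℝ] 𝔤) (ℂ ⊗[ℝ] 𝔤) _ _ _ _
        rw [e, map_zero, lie_zero]
      | add y₁ y₂ h1 h2 =>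
        have e : ⁅(c ⊗ₜ[ℝ] X : ℂ ⊗[ℝ] 𝔤), y₁ + y₂⁆
            = ⁅(c ⊗ₜ[ℝ] X : ℂ ⊗[ℝ] 𝔤), y₁⁆ + ⁅(c ⊗ₜ[ℝ] X : ℂ ⊗[ℝ] 𝔤), y₂⁆ :=
          @lie_add (ℂ ⊗[ℝ] 𝔤) (ℂ ⊗[ℝ] 𝔤) _ _ _ _ _ _
        rw [e, map_add, map_add, lie_add, h1, h2]
      | tmul d Y =>
        rw [LieAlgebra.ExtendScalars.bracket_tmul, hL, hL, hL, hφb, smul_lie, lie_smul, mul_smul]
  let Φ : ℂ ⊗[ℝ] 𝔤 →ₗ⁅ℂ⁆ g.Cx := { L with map_lie' := fun {x y} => hLb x y }
  have hΦ : Function.Surjective Φ := by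
    intro y
    obtain ⟨X, hX⟩ := hψ (g.fst y)
    obtain ⟨Y, hY⟩ := hψ (Complex.I • g.fst y)
    obtain ⟨Z, hZ⟩ := hψ (g.snd y)
    obtain ⟨W, hW⟩ := hψ (Complex.I • g.snd y)
    refine ⟨(1 / 2 : ℂ) ⊗ₜ X + (-(Complex.I) / 2 : ℂ) ⊗ₜ Y + (1 / 2 : ℂ) ⊗ₜ Z
      + (Complex.I / 2 : ℂ) ⊗ₜ W, ?_⟩
    change L _ = y
    rw [map_add, map_add, map_add, hL, hL, hL, hL, hφ, hφ, hφ, hφ, hX, hY, hZ, hW]
    refine g.cx_ext ?_ ?_
    · simp only [g.fst_add, g.fst_smul, g.fst_pr, smul_smul]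
      rw [show (-(Complex.I) / 2 : ℂ) * Complex.I = 1 / 2 by
          rw [div_mul_eq_mul_div, neg_mul, Complex.I_mul_I, neg_neg],
        show (Complex.I / 2 : ℂ) * Complex.I = -(1 / 2) by
          rw [div_mul_eq_mul_div, Complex.I_mul_I, neg_div]]
      module
    · simp only [g.snd_add, g.snd_smul, g.snd_pr, smul_smul]
      rw [show conj (-(Complex.I) / 2 : ℂ) * Complex.I = -(1 / 2) by
          rw [map_div₀, map_neg, Complex.conj_I, neg_neg, map_ofNat, div_mul_eq_mul_div,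
            Complex.I_mul_I, neg_div],
        show conj (Complex.I / 2 : ℂ) * Complex.I = 1 / 2 by
          rw [map_div₀, Complex.conj_I, map_ofNat, div_mul_eq_mul_div, neg_mul,
            Complex.I_mul_I, neg_neg],
        show conj (1 / 2 : ℂ) = 1 / 2 by rw [map_div₀, map_one, map_ofNat]]
      module
  exact hΦ.lieAlgebra_isSolvable

end Pool.Agent.Lib.CSol
end

section

open scoped InnerProductSpace ComplexConjugate

namespace Pool.Agent.Lib.CSol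

namespace HLA

variable {V : Type*} [NormedAddCommGroup V] [InnerProductSpace ℂ V] (h : HLA V)
  [FiniteDimensional ℂ V]

/-- complex valued version of `H` -/
private noncomputable def A01_HC (x : V) : ℂ :=
  ⟪h.D x x, h.D x x⟫_ℂ - ⟪h.A x x, h.A x x⟫_ℂ - 2 * ⟪x, h.D (h.A x x) x⟫_ℂ

private theorem A01_HC_re (x : V) : (h.A01_HC x).re = h.H x := by
  have e1 : (⟪h.D x x, h.D x x⟫_ℂ).re = ‖h.D x x‖ ^ 2 :=
    inner_self_eq_norm_sq (𝕜 := ℂ) (h.D x x)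
  have e2 : (⟪h.A x x, h.A x x⟫_ℂ).re = ‖h.A x x‖ ^ 2 :=
    inner_self_eq_norm_sq (𝕜 := ℂ) (h.A x x)
  rw [A01_HC, H, Complex.sub_re, Complex.sub_re, e1, e2, Complex.mul_re]
  simp

private noncomputable def A01_E (u x : V) : ℂ :=
  ⟪h.D u x + h.D x u, h.D u x + h.D x u⟫_ℂ - ⟪h.A u x, h.A u x⟫_ℂ - ⟪h.A x u, h.A x u⟫_ℂ
    - (⟪h.A x x, h.A u u⟫_ℂ + ⟪h.A u u, h.A x x⟫_ℂ)
    - 2 * (⟪x, h.D (h.A u u) x⟫_ℂ + ⟪u, h.D (h.A x x) u⟫_ℂ
      + ⟪x, h.D (h.A u x) u⟫_ℂ + ⟪u, h.D (h.A x u) x⟫_ℂ)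

private theorem A01_E_re (u x : V) : (h.A01_E u x).re = h.E2 u x := by
  have e1 : (⟪h.D u x + h.D x u, h.D u x + h.D x u⟫_ℂ).re = ‖h.D u x + h.D x u‖ ^ 2 :=
    inner_self_eq_norm_sq (𝕜 := ℂ) _
  have e2 : (⟪h.A u x, h.A u x⟫_ℂ).re = ‖h.A u x‖ ^ 2 :=
    inner_self_eq_norm_sq (𝕜 := ℂ) _
  have e3 : (⟪h.A x u, h.A x u⟫_ℂ).re = ‖h.A x u‖ ^ 2 :=
    inner_self_eq_norm_sq (𝕜 := ℂ) _
  have e4 : (⟪h.A u u, h.A x x⟫_ℂ).re = (⟪h.A x x, h.A u u⟫_ℂ).re :=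
    inner_re_symm (𝕜 := ℂ) _ _
  rw [A01_E, E2, Complex.sub_re, Complex.sub_re, Complex.sub_re, Complex.sub_re, e1, e2, e3,
    Complex.add_re, e4, Complex.mul_re]
  simp only [Complex.add_re, Complex.re_ofNat, Complex.im_ofNat, zero_mul, sub_zero]
  ring

private theorem A01_key (u x : V) (t : ℝ) :
    h.A01_HC (u + (t : ℂ) • x) + h.A01_HC (u + (-(t : ℂ)) • x)
      + h.A01_HC (u + ((t : ℂ) * Complex.I) • x)
      + h.A01_HC (u + (-((t : ℂ) * Complex.I)) • x) = 4 * h.A01_HC u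
      + 4 * (t : ℂ) ^ 2 * h.A01_E u x
      + 4 * (t : ℂ) ^ 4 * h.A01_HC x := by
  simp only [A01_HC, A01_E, map_add, LinearMap.add_apply, map_smul, LinearMap.map_smulₛₗ,
    LinearMap.smul_apply, inner_add_left, inner_add_right, inner_smul_left, inner_smul_right,
    map_mul, map_neg, Complex.conj_ofReal, Complex.conj_I, map_neg]
  have hI : Complex.I ^ 2 = -1 := Complex.I_sq
  have hI3 : Complex.I ^ 3 = -Complex.I := by
    rw [pow_succ, hI]; ring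
  have hI4 : Complex.I ^ 4 = 1 := Complex.I_pow_four
  ring_nf
  simp only [hI, hI3, hI4]
  ring

theorem H_avg (u x : V) (t : ℝ) :
    h.H (u + (t : ℂ) • x) + h.H (u - (t : ℂ) • x) + h.H (u + ((t : ℂ) * Complex.I) • x)
      + h.H (u - ((t : ℂ) * Complex.I) • x) = 4 * h.H u + 4 * t ^ 2 * h.E2 u x
      + 4 * t ^ 4 * h.H x := by
  have hk := congrArg Complex.re (h.A01_key u x t)
  have c1 : u + (-(t : ℂ)) • x = u - (t : ℂ) • x := by rw [neg_smul, sub_eq_add_neg]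
  have c2 : u + (-((t : ℂ) * Complex.I)) • x = u - ((t : ℂ) * Complex.I) • x := by
    rw [neg_smul, sub_eq_add_neg]
  have c3 : (4 * (t : ℂ) ^ 2 * h.A01_E u x) = ((4 * t ^ 2 : ℝ) : ℂ) * h.A01_E u x := by
    push_cast; ring
  have c4 : (4 * (t : ℂ) ^ 4 * h.A01_HC x) = ((4 * t ^ 4 : ℝ) : ℂ) * h.A01_HC x := by
    push_cast; ring
  have c5 : (4 * h.A01_HC u) = ((4 : ℝ) : ℂ) * h.A01_HC u := by
    push_cast; ring
  rw [c1, c2, c3, c4, c5] at hk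
  simp only [Complex.add_re, Complex.re_ofReal_mul, A01_HC_re, A01_E_re] at hk
  exact hk

end HLA

end Pool.Agent.Lib.CSol
end

section

open scoped InnerProductSpace ComplexConjugate

namespace Pool.Agent.Lib.CSol

namespace HLA

variable {V : Type*} [NormedAddCommGroup V] [InnerProductSpace ℂ V] (h : HLA V)
  [FiniteDimensional ℂ V]

/-- TASK A02. If `H ≤ 0` and `H u = 0` then `E2 u x ≤ 0`: by `H_avg`,
`4 t² E2 + 4 t⁴ H x ≤ 0` for all real `t`; divide by `4 t²` and let `t → 0`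
(e.g. if `E2 > 0`, take `t² = E2 / (2 (|H x| + 1))`). -/
theorem E2_nonpos (hH : ∀ x, h.H x ≤ 0) (u : V) (hu : h.H u = 0) (x : V) : h.E2 u x ≤ 0 := by
  by_contra hcon
  push Not at hcon
  set E := h.E2 u x with hE
  set K := h.H x with hK
  have hpos : 0 < 2 * (|K| + 1) := by positivity
  obtain ⟨t, ht⟩ : ∃ t : ℝ, t ^ 2 = E / (2 * (|K| + 1)) :=
    ⟨Real.sqrt (E / (2 * (|K| + 1))), Real.sq_sqrt (by positivity)⟩
  have h1 := h.H_avg u x t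
  have a1 := hH (u + (t : ℂ) • x)
  have a2 := hH (u - (t : ℂ) • x)
  have a3 := hH (u + ((t : ℂ) * Complex.I) • x)
  have a4 := hH (u - ((t : ℂ) * Complex.I) • x)
  have h2 : 4 * t ^ 2 * E + 4 * t ^ 4 * K ≤ 0 := by
    rw [hu] at h1
    rw [← hE, ← hK] at h1
    linarith
  have ht2 : 0 < t ^ 2 := by rw [ht]; positivity
  have h3 : E + t ^ 2 * K ≤ 0 := by
    have : 4 * t ^ 2 * (E + t ^ 2 * K) ≤ 0 := by nlinarith
    by_contra hc
    push Not at hc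
    have : 0 < 4 * t ^ 2 * (E + t ^ 2 * K) := by positivity
    linarith
  have h4 : t ^ 2 * |K| ≤ E / 2 := by
    rw [ht, div_mul_eq_mul_div, div_le_div_iff₀ hpos (by norm_num)]
    nlinarith [abs_nonneg K]
  have h5 : -(t ^ 2 * |K|) ≤ t ^ 2 * K := by
    have := neg_abs_le K
    nlinarith
  linarith

end HLA

end Pool.Agent.Lib.CSol
end

section

open scoped InnerProductSpace ComplexConjugate

namespace Pool.Agent.Lib.CSol

namespace HLA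

variable {V : Type*} [NormedAddCommGroup V] [InnerProductSpace ℂ V] (h : HLA V)
  [FiniteDimensional ℂ V]

/-- TASK F04. So `A x e = 0` for all `x`: each `E2 (b i) e ≤ 0` (`E2_nonpos`, `N.H0`), so by
`E2_sum_e` `A e e = 0` and `A (b i) e = 0`; `V` is spanned by `e` and the `b i`, and
`x ↦ A x e` is conjugate linear. (Take `b = stdOrthonormalBasis ℂ U`.) -/
theorem A_e_zero (hu : h.Uni) (hH : ∀ x, h.H x ≤ 0) (e : V) (he : ‖e‖ = 1)
    (he1 : ∀ x, h.D x e = 0) (N : h.Nice (ℂ ∙ e)ᗮ) (x : V) : h.A x e = 0 := by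
  have hee : ⟪e, e⟫_ℂ = 1 := by
    rw [inner_self_eq_norm_sq_to_K, he]; norm_num
  let b := stdOrthonormalBasis ℂ (ℂ ∙ e)ᗮ
  have h1 := h.E2_sum_e hu e he he1 N b
  have h2 : ∑ i, h.E2 (b i : V) e ≤ 0 :=
    Finset.sum_nonpos fun i _ => h.E2_nonpos hH _ (N.H0 _ (b i).2) e
  have h3 : 0 ≤ ∑ i, ‖h.A (b i : V) e‖ ^ 2 := Finset.sum_nonneg fun i _ => sq_nonneg _
  have h4 : ‖h.A e e‖ ^ 2 = 0 := le_antisymm (by linarith) (sq_nonneg _)
  have h5 : ∑ i, ‖h.A (b i : V) e‖ ^ 2 = 0 := le_antisymm (by nlinarith [sq_nonneg ‖h.A e e‖]) h3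
  have h6 : h.A e e = 0 := norm_eq_zero.1 (pow_eq_zero_iff (two_ne_zero) |>.1 h4)
  have h7 : ∀ i, h.A (b i : V) e = 0 := fun i => norm_eq_zero.1 (pow_eq_zero_iff (two_ne_zero) |>.1
    ((Finset.sum_eq_zero_iff_of_nonneg fun i _ => sq_nonneg _).1 h5 i (Finset.mem_univ i)))
  have hmem : x - ⟪e, x⟫_ℂ • e ∈ (ℂ ∙ e)ᗮ := by
    rw [Submodule.mem_orthogonal_singleton_iff_inner_right, inner_sub_right, inner_smul_right, hee,
      mul_one, sub_self]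
  have h8 : x - ⟪e, x⟫_ℂ • e = ∑ i, ⟪b i, (⟨_, hmem⟩ : (ℂ ∙ e)ᗮ)⟫_ℂ • (b i : V) := by
    have := congrArg (Submodule.subtype (ℂ ∙ e)ᗮ) (b.sum_repr' (⟨_, hmem⟩ : (ℂ ∙ e)ᗮ))
    simpa only [map_sum, map_smul, Submodule.subtype_apply] using this.symm
  have h9 : h.A (x - ⟪e, x⟫_ℂ • e) e = 0 := by
    rw [h8, map_sum, LinearMap.sum_apply]
    refine Finset.sum_eq_zero fun i _ => ?_
    rw [LinearMap.map_smulₛₗ, LinearMap.smul_apply, h7, smul_zero]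
  rw [map_sub, LinearMap.map_smulₛₗ, LinearMap.sub_apply, LinearMap.smul_apply, h6, smul_zero,
    sub_zero] at h9
  exact h9

end HLA

end Pool.Agent.Lib.CSol
end
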