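import Pool.Agent.Lib.CSol.Defs

section

open scoped InnerProductSpace ComplexConjugate

namespace Pool.Agent.Lib.CSol

namespace HLA

variable {V : Type*} [NormedAddCommGroup V] [InnerProductSpace ℂ V] (h : HLA V)
  [FiniteDimensional ℂ V]

/-- TASK A04. Existence of an adapted frame. `B = h.D.flip l : V →ₗ[ℂ] V` (`B x = D x l`) is
symmetric by `hl.sym` (`LinearMap.IsSymmetric`). Take the orthonormal eigenvector basis
`(hB.eigenvectorBasis rfl)` with real eigenvalues; let `u` be the eigenvectors with eigenvalue `0`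
and `w` those with nonzero eigenvalue (reindex the two subtypes of `Fin n` by `Fin p`, `Fin q`,
e.g. with `Fintype.equivFin`). `expand` is `OrthonormalBasis.sum_repr'`, `trace_eq` is
`LinearMap.trace_eq_sum_inner`, with the sum over `Fin n` split into the two subtypes
(`Fintype.sum_subtype_add_sum_subtype` or `Finset.sum_filter_add_sum_filter_not`). -/
theorem exists_frame (l : V) (hl : h.IsChar l) : ∃ p q : ℕ, Nonempty (h.Frame l p q) := by
  classical
  have hB : (h.D.flip l).IsSymmetric := fun x y => hl.sym x y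
  let b := hB.eigenvectorBasis (rfl : Module.finrank ℂ V = Module.finrank ℂ V)
  let ev : Fin (Module.finrank ℂ V) → ℝ :=
    hB.eigenvalues (rfl : Module.finrank ℂ V = Module.finrank ℂ V)
  have hb : ∀ i, h.D (b i) l = (ev i : ℂ) • b i := fun i =>
    hB.apply_eigenvectorBasis (rfl : Module.finrank ℂ V = Module.finrank ℂ V) i
  let P : Fin (Module.finrank ℂ V) → Prop := fun i => ev i = 0
  let eu := (Fintype.equivFin {i // P i}).symm
  let ew := (Fintype.equivFin {i // ¬ P i}).symm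
  let e : Fin (Fintype.card {i // P i}) ⊕ Fin (Fintype.card {i // ¬ P i})
      ≃ Fin (Module.finrank ℂ V) := (Equiv.sumCongr eu ew).trans (Equiv.sumCompl P)
  let c := b.reindex e.symm
  have hcl : ∀ i, c (Sum.inl i) = b (eu i).1 := fun i => by
    simp [c, e]
  have hcr : ∀ j, c (Sum.inr j) = b (ew j).1 := fun j => by
    simp [c, e]
  have hon := orthonormal_iff_ite.mp c.orthonormal
  refine ⟨Fintype.card {i // P i}, Fintype.card {i // ¬ P i}, ⟨?_⟩⟩
  refine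
    { u := fun i => c (Sum.inl i)
      w := fun j => c (Sum.inr j)
      beta := fun j => ev (ew j).1
      beta_ne := fun j => (ew j).2
      Bu := ?_
      Bw := ?_
      uu := ?_
      ww := ?_
      uw := ?_
      expand := ?_
      trace_eq := ?_ }
  · intro i
    change h.D (c (Sum.inl i)) l = 0
    rw [hcl, hb]
    have h1 : ev (eu i).1 = 0 := (eu i).2
    rw [h1, Complex.ofReal_zero, zero_smul]
  · intro j
    change h.D (c (Sum.inr j)) l = (ev (ew j).1 : ℂ) • c (Sum.inr j)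
    rw [hcr, hb]
  · intro i k
    change ⟪c (Sum.inl i), c (Sum.inl k)⟫_ℂ = _
    rw [hon]
    simp only [Sum.inl.injEq]
  · intro i k
    change ⟪c (Sum.inr i), c (Sum.inr k)⟫_ℂ = _
    rw [hon]
    simp only [Sum.inr.injEq]
  · intro i j
    change ⟪c (Sum.inl i), c (Sum.inr j)⟫_ℂ = _
    rw [hon]
    simp
  · intro x
    have h1 := c.sum_repr' x
    rw [Fintype.sum_sum_type] at h1
    exact h1.symm
  · intro T
    have h1 := LinearMap.trace_eq_sum_inner T c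
    rw [Fintype.sum_sum_type] at h1
    exact h1

end HLA

end Pool.Agent.Lib.CSol
end

section

open scoped InnerProductSpace ComplexConjugate

namespace Pool.Agent.Lib.CSol

namespace HLA

variable {V : Type*} [NormedAddCommGroup V] [InnerProductSpace ℂ V] (h : HLA V)
  [FiniteDimensional ℂ V]

private theorem A05_zero (l : V) (hl : h.IsChar l) {p q : ℕ} (F : h.Frame l p q) {x : V}
    (hx : x ∈ h.K l) (j : Fin q) : ⟪F.w j, x⟫_ℂ = 0 := by
  have h1 := hl.sym (F.w j) x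
  rw [F.Bw, h.mem_K.1 hx, inner_zero_right, inner_smul_left] at h1
  rcases mul_eq_zero.1 h1 with h2 | h2
  · exfalso
    apply F.beta_ne j
    rw [Complex.conj_ofReal] at h2
    exact_mod_cast h2
  · exact h2

private theorem A05_expand (l : V) (hl : h.IsChar l) {p q : ℕ} (F : h.Frame l p q) {x : V}
    (hx : x ∈ h.K l) : x = ∑ i, ⟪F.u i, x⟫_ℂ • F.u i := by
  have h1 := F.expand x
  have h2 : ∑ j, ⟪F.w j, x⟫_ℂ • F.w j = 0 := by
    refine Finset.sum_eq_zero fun j _ => ?_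
    rw [A05_zero h l hl F hx j, zero_smul]
  rw [h2, add_zero] at h1
  exact h1

/-- TASK A05. The `u i` form an orthonormal basis of `K l` (they lie in `K l` by `F.Bu`; if
`x ∈ K l` then `x ⟂ w j`: `beta j • ⟪w j, x⟫ = ⟪D (w j) l, x⟫ = ⟪w j, D x l⟫ = 0` (`hl.sym`,
`F.beta_ne`), so `F.expand` gives `x = ∑ ⟪u i, x⟫ u i`). -/
theorem Frame.exists_basis (l : V) (hl : h.IsChar l) {p q : ℕ} (F : h.Frame l p q) :
    ∃ b : OrthonormalBasis (Fin p) ℂ (h.K l), ∀ i, (b i : V) = F.u i := by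
  have hmem : ∀ i, F.u i ∈ h.K l := fun i => h.mem_K.2 (F.Bu i)
  set v : Fin p → h.K l := fun i => ⟨F.u i, hmem i⟩ with hv
  have hon : Orthonormal ℂ v := by
    rw [orthonormal_iff_ite]
    intro i j
    exact F.uu i j
  have hsp : ⊤ ≤ Submodule.span ℂ (Set.range v) := by
    rintro ⟨x, hx⟩ -
    have h1 : (⟨x, hx⟩ : h.K l) = ∑ i, ⟪F.u i, x⟫_ℂ • v i := by
      apply Subtype.ext
      rw [Submodule.coe_sum]
      simpa [hv] using A05_expand h l hl F hx
    rw [h1]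
    exact Submodule.sum_mem _ fun i _ => Submodule.smul_mem _ _ (Submodule.subset_span ⟨i, rfl⟩)
  refine ⟨OrthonormalBasis.mk hon hsp, fun i => ?_⟩
  rw [OrthonormalBasis.coe_mk]

/-- `u i ∈ K l`. -/
theorem Frame.u_mem (l : V) {p q : ℕ} (F : h.Frame l p q) (i : Fin p) : F.u i ∈ h.K l :=
  h.mem_K.2 (F.Bu i)

/-- `w j ∈ (K l)ᗮ`. -/
theorem Frame.w_mem (l : V) (hl : h.IsChar l) {p q : ℕ} (F : h.Frame l p q) (j : Fin q) :
    F.w j ∈ (h.K l)ᗮ := by
  rw [Submodule.mem_orthogonal]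
  intro u hu
  rw [← inner_conj_symm, A05_zero h l hl F hu j, map_zero]

/-- Elements of `K l` are combinations of the `u i`. -/
theorem Frame.expand_K (l : V) (hl : h.IsChar l) {p q : ℕ} (F : h.Frame l p q) {x : V}
    (hx : x ∈ h.K l) : x = ∑ i, ⟪F.u i, x⟫_ℂ • F.u i :=
  A05_expand h l hl F hx

/-- Elements of `(K l)ᗮ` are combinations of the `w j`. -/
theorem Frame.expand_perp (l : V) {p q : ℕ} (F : h.Frame l p q) {x : V}
    (hx : x ∈ (h.K l)ᗮ) : x = ∑ j, ⟪F.w j, x⟫_ℂ • F.w j := by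
  have h1 := F.expand x
  have h2 : ∑ i, ⟪F.u i, x⟫_ℂ • F.u i = 0 := by
    refine Finset.sum_eq_zero fun i _ => ?_
    rw [(Submodule.mem_orthogonal _ _).1 hx _ (h.mem_K.2 (F.Bu i)), zero_smul]
  rw [h2, zero_add] at h1
  exact h1

/-- `x ∈ K l` iff `x ⟂ w j` for all `j`. -/
theorem Frame.mem_iff (l : V) (hl : h.IsChar l) {p q : ℕ} (F : h.Frame l p q) (x : V) :
    x ∈ h.K l ↔ ∀ j, ⟪F.w j, x⟫_ℂ = 0 := by
  refine ⟨fun hx j => A05_zero h l hl F hx j, fun hx => ?_⟩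
  have h1 := F.expand x
  have h2 : ∑ j, ⟪F.w j, x⟫_ℂ • F.w j = 0 := by
    refine Finset.sum_eq_zero fun j _ => ?_
    rw [hx j, zero_smul]
  rw [h2, add_zero] at h1
  rw [h1]
  exact Submodule.sum_mem _ fun i _ => Submodule.smul_mem _ _ (h.mem_K.2 (F.Bu i))

end HLA

end Pool.Agent.Lib.CSol
end

section

open scoped InnerProductSpace ComplexConjugate

namespace Pool.Agent.Lib.CSol

namespace HLA

variable {V : Type*} [NormedAddCommGroup V] [InnerProductSpace ℂ V] (h : HLA V)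
  [FiniteDimensional ℂ V]

/-- TASK A06. `∑ i, A (u i) (u i) = 0` from `N.zeta` and `Frame.exists_basis`. -/
theorem frame_zeta (l : V) (hl : h.IsChar l) {p q : ℕ} (F : h.Frame l p q)
    (N : h.Nice (h.K l)) : ∑ i, h.A (F.u i) (F.u i) = 0 := by
  obtain ⟨b, hb⟩ := Frame.exists_basis h l hl F
  have h1 := N.zeta p b
  simpa only [hb] using h1

end HLA

end Pool.Agent.Lib.CSol
end

section

open scoped InnerProductSpace ComplexConjugate

namespace Pool.Agent.Lib.CSol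

namespace HLA

variable {V : Type*} [NormedAddCommGroup V] [InnerProductSpace ℂ V] (h : HLA V)
  [FiniteDimensional ℂ V]

/-- TASK A09. Hilbert-Schmidt norms of `A x` on `K l` and of its adjoint. Proof: both sides are
`∑ i k, ‖⟪u k, A x (u i)⟫‖^2`: `A x (u i) = ∑ k ⟪u k, A x (u i)⟫ u k` (`Frame.expand_K`), and
`⟪u k, D x (u i)⟫ = ⟪A x (u k), u i⟫` (`inner_D_right`). -/
theorem hs_K (l : V) (hl : h.IsChar l) {p q : ℕ} (F : h.Frame l p q) (x : V)
    (hx : ∀ i, h.A x (F.u i) ∈ h.K l) :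
    ∑ i, ∑ k, ‖⟪F.u k, h.D x (F.u i)⟫_ℂ‖ ^ 2 = ∑ i, ‖h.A x (F.u i)‖ ^ 2 := by
  obtain ⟨b, hb⟩ := Frame.exists_basis h l hl F
  have h1 : ∀ i, ∑ k, ‖⟪F.u k, h.A x (F.u i)⟫_ℂ‖ ^ 2 = ‖h.A x (F.u i)‖ ^ 2 := by
    intro i
    have h2 := b.sum_sq_norm_inner_right (⟨h.A x (F.u i), hx i⟩ : h.K l)
    have h3 : ∀ k, ⟪b k, (⟨h.A x (F.u i), hx i⟩ : h.K l)⟫_ℂ = ⟪F.u k, h.A x (F.u i)⟫_ℂ := by
      intro k
      rw [Submodule.coe_inner, hb k]
    simp only [h3] at h2
    rw [h2]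
    rfl
  rw [Finset.sum_comm]
  refine Finset.sum_congr rfl fun i _ => ?_
  rw [← h1 i]
  refine Finset.sum_congr rfl fun k _ => ?_
  rw [h.inner_D_right, ← inner_conj_symm, Complex.norm_conj]

end HLA

end Pool.Agent.Lib.CSol
end

section

open scoped InnerProductSpace ComplexConjugate

namespace Pool.Agent.Lib.CSol

namespace HLA

variable {V : Type*} [NormedAddCommGroup V] [InnerProductSpace ℂ V] (h : HLA V)
  [FiniteDimensional ℂ V]

/-- TASK A03. `K l` is closed under the bracket and under `A`. Proof: `x ∈ K l ↔ D x l = 0`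
(`mem_K`). `D (br x y) l = D x (D y l) - D y (D x l) = 0` (`D_br`). For `x, y ∈ K l` and all `z`:
`⟪D (A x y) l, z⟫ = ⟪A x y, D z l⟫` (`hl.sym`) `= ⟪y, D x (D z l)⟫` (`inner_D_right`), and
`D x (D z l) = D z (D x l) + D (br x z) l = D (br x z) l` (`D_br`), and
`⟪y, D (br x z) l⟫ = ⟪D y l, br x z⟫ = 0`. So `D (A x y) l = 0`. -/
theorem K_br (l : V) {x y : V} (hx : x ∈ h.K l) (hy : y ∈ h.K l) : h.br x y ∈ h.K l := by
  rw [mem_K] at hx hy ⊢
  rw [D_br, hx, hy, map_zero, map_zero, sub_zero]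

theorem K_A (l : V) (hl : h.IsChar l) {x y : V} (hx : x ∈ h.K l) (hy : y ∈ h.K l) :
    h.A x y ∈ h.K l := by
  rw [mem_K] at hx hy ⊢
  refine ext_inner_right ℂ fun z => ?_
  rw [hl.sym, ← inner_D_right, inner_zero_left]
  have h1 : h.D x (h.D z l) = h.D (h.br x z) l := by
    rw [D_br, hx, map_zero, sub_zero]
  rw [h1, ← hl.sym, hy, inner_zero_left]

/-- `D u w ∈ (K l)ᗮ` for `u ∈ K l`, `w ∈ (K l)ᗮ`: `⟪v, D u w⟫ = ⟪A u v, w⟫ = 0` for
`v ∈ K l`. -/
theorem K_perp (l : V) (hl : h.IsChar l) {u w : V} (hu : u ∈ h.K l) (hw : w ∈ (h.K l)ᗮ) :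
    h.D u w ∈ (h.K l)ᗮ := by
  rw [Submodule.mem_orthogonal] at hw ⊢
  intro v hv
  rw [inner_D_right]
  exact hw _ (h.K_A l hl hu hv)

end HLA

end Pool.Agent.Lib.CSol
end

section

open scoped InnerProductSpace ComplexConjugate

namespace Pool.Agent.Lib.CSol

namespace HLA

variable {V : Type*} [NormedAddCommGroup V] [InnerProductSpace ℂ V] (h : HLA V)
  [FiniteDimensional ℂ V]

/-- TASK A10. For `v, u ∈ K l` and `x ∈ (K l)ᗮ`: `⟪x, D v u⟫ = - ⟪x, D u v⟫` (polarise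
`N.DU`: `D (u+v) (u+v), D u u, D v v ∈ K l`). -/
theorem nice_anti (l : V) (N : h.Nice (h.K l)) {u v x : V} (hu : u ∈ h.K l) (hv : v ∈ h.K l)
    (hx : x ∈ (h.K l)ᗮ) : ⟪x, h.D v u⟫_ℂ = -⟪x, h.D u v⟫_ℂ := by
  have h1 := N.DU (u + v) ((h.K l).add_mem hu hv)
  have h2 := N.DU u hu
  have h3 := N.DU v hv
  have h4 : h.D u v + h.D v u ∈ h.K l := by
    have e : h.D u v + h.D v u = h.D (u + v) (u + v) - h.D u u - h.D v v := by
      simp only [map_add, LinearMap.add_apply]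
      abel
    rw [e]
    exact (h.K l).sub_mem ((h.K l).sub_mem h1 h2) h3
  have h5 : ⟪x, h.D u v + h.D v u⟫_ℂ = 0 :=
    (Submodule.mem_orthogonal' _ _).1 hx _ h4
  rw [inner_add_right] at h5
  exact eq_neg_of_add_eq_zero_right h5

/-- Consequence: for `u ∈ K l`, `x ∈ (K l)ᗮ` and `v ∈ K l` with `⟪v, A u x⟫ = ⟪v, v⟫`
(for instance `v` the projection of `A u x` to `K l`): `⟪x, D v u⟫ = - ‖v‖²`.
Indeed `⟪x, D v u⟫ = -⟪x, D u v⟫ = -⟪A u x, v⟫ = - conj ⟪v, A u x⟫`. -/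
theorem nice_anti_self (l : V) (N : h.Nice (h.K l)) {u v x : V} (hu : u ∈ h.K l)
    (hv : v ∈ h.K l) (hx : x ∈ (h.K l)ᗮ) (hv' : ⟪v, h.A u x⟫_ℂ = ⟪v, v⟫_ℂ) :
    ⟪x, h.D v u⟫_ℂ = -((‖v‖ ^ 2 : ℝ) : ℂ) := by
  rw [h.nice_anti l N hu hv hx, h.inner_D_right, ← inner_conj_symm, hv', inner_conj_symm,
    inner_self_eq_norm_sq_to_K]
  norm_cast

end HLA

end Pool.Agent.Lib.CSol
end
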