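import Pool.Agent.Lib.CSol.Mg.G004

section

open scoped InnerProductSpace ComplexConjugate

namespace Pool.Agent.Lib.CSol

namespace HLA

variable {V : Type*} [NormedAddCommGroup V] [InnerProductSpace ℂ V] (h : HLA V)
  [FiniteDimensional ℂ V]

/-- TASK A11. Pointwise formula for `E2 u x`, `u ∈ K l`, `x ∈ (K l)ᗮ`, when `A x` maps `K l` to
`K l`. Notation `P y = ∑ k ⟪u k, y⟫ u k`, `Q y = ∑ j ⟪w j, y⟫ w j`, `y = P y + Q y`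
(`F.expand`). Proof: `D u x ∈ (K l)ᗮ` (`K_perp`), so
`‖D u x + D x u‖² = ‖D u x + Q (D x u)‖² + ‖P (D x u)‖²` and
`‖P (D x u)‖² = ∑ k ‖⟪u k, D x u⟫‖²`. The last term of `E2`: `A x u ∈ K l`, so
`D (A x u) x ∈ (K l)ᗮ` (`K_perp`) and `⟪u, D (A x u) x⟫ = 0`. The other terms are kept. -/
theorem E2_point (l : V) (hl : h.IsChar l) {p q : ℕ} (F : h.Frame l p q)
    {u x : V} (hu : u ∈ h.K l) (hx : x ∈ (h.K l)ᗮ) (hxu : h.A x u ∈ h.K l) :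
    h.E2 u x = ‖h.D u x + ∑ j, ⟪F.w j, h.D x u⟫_ℂ • F.w j‖ ^ 2
      + ∑ k, ‖⟪F.u k, h.D x u⟫_ℂ‖ ^ 2 - ‖h.A u x‖ ^ 2 - ‖h.A x u‖ ^ 2
      - 2 * (⟪h.A x x, h.A u u⟫_ℂ).re
      - 2 * ((⟪x, h.D (h.A u u) x⟫_ℂ).re + (⟪u, h.D (h.A x x) u⟫_ℂ).re
        + (⟪x, h.D (h.A u x) u⟫_ℂ).re) := by
  have hon : Orthonormal ℂ F.u := by
    classical
    rw [orthonormal_iff_ite]
    intro i j
    rw [F.uu i j]
  have hP : ‖∑ i, ⟪F.u i, h.D x u⟫_ℂ • F.u i‖ ^ 2 = ∑ k, ‖⟪F.u k, h.D x u⟫_ℂ‖ ^ 2 := by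
    rw [← inner_self_eq_norm_sq (𝕜 := ℂ), hon.inner_sum, map_sum]
    refine Finset.sum_congr rfl fun i _ => ?_
    rw [RCLike.conj_mul]
    norm_cast
  have hPmem : (∑ i, ⟪F.u i, h.D x u⟫_ℂ • F.u i) ∈ h.K l :=
    (h.K l).sum_mem fun i _ => (h.K l).smul_mem _ (Frame.u_mem h l F i)
  have hQmem : (∑ j, ⟪F.w j, h.D x u⟫_ℂ • F.w j) ∈ (h.K l)ᗮ :=
    ((h.K l)ᗮ).sum_mem fun i _ => ((h.K l)ᗮ).smul_mem _ (Frame.w_mem h l hl F i)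
  have hsum : ‖h.D u x + h.D x u‖ ^ 2 = ‖h.D u x + ∑ j, ⟪F.w j, h.D x u⟫_ℂ • F.w j‖ ^ 2
      + ∑ k, ‖⟪F.u k, h.D x u⟫_ℂ‖ ^ 2 := by
    have e : h.D u x + h.D x u = (h.D u x + ∑ j, ⟪F.w j, h.D x u⟫_ℂ • F.w j)
        + ∑ i, ⟪F.u i, h.D x u⟫_ℂ • F.u i := by
      conv_lhs => rw [F.expand (h.D x u)]
      abel
    have horth : ⟪h.D u x + ∑ j, ⟪F.w j, h.D x u⟫_ℂ • F.w j,
        ∑ i, ⟪F.u i, h.D x u⟫_ℂ • F.u i⟫_ℂ = 0 :=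
      (Submodule.mem_orthogonal' _ _).1
        (((h.K l)ᗮ).add_mem (h.K_perp l hl hu hx) hQmem) _ hPmem
    rw [e, norm_add_sq (𝕜 := ℂ), horth, hP]
    simp
  have hlast : ⟪u, h.D (h.A x u) x⟫_ℂ = 0 :=
    (Submodule.mem_orthogonal _ _).1 (h.K_perp l hl hxu hx) _ hu
  rw [E2, hsum, hlast]
  simp

end HLA

end Pool.Agent.Lib.CSol
end

section

open scoped InnerProductSpace ComplexConjugate

namespace Pool.Agent.Lib.CSol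

namespace HLA

variable {V : Type*} [NormedAddCommGroup V] [InnerProductSpace ℂ V] (h : HLA V)
  [FiniteDimensional ℂ V]

/-- TASK A07. The trace formula (★). Proof: `h.Uni` at `z` and `F.trace_eq` for `h.br z` and for
`h.D z`; for every `j`,
`beta j * ⟪w j, br z (w j)⟫ = ⟪D (w j) l, br z (w j)⟫` (beta real, `F.Bw`)
`= ⟪w j, D (br z (w j)) l⟫` (`hl.sym`) `= ⟪w j, D z (D (w j) l) - D (w j) (D z l)⟫` (`D_br`)
`= beta j * ⟪w j, D z (w j)⟫ - ⟪w j, D (w j) (D z l)⟫`. Divide by `beta j`. -/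
theorem star_trace (hu : h.Uni) (l : V) (hl : h.IsChar l) {p q : ℕ} (F : h.Frame l p q) (z : V) :
    ∑ i, ⟪F.u i, h.br z (F.u i)⟫_ℂ = ∑ i, ⟪F.u i, h.D z (F.u i)⟫_ℂ
      + ∑ j, ((F.beta j : ℂ))⁻¹ * ⟪F.w j, h.D (F.w j) (h.D z l)⟫_ℂ := by
  have h1 := hu z
  rw [F.trace_eq, F.trace_eq] at h1
  have h2 : ∀ j, ⟪F.w j, h.br z (F.w j)⟫_ℂ = ⟪F.w j, h.D z (F.w j)⟫_ℂ
      - ((F.beta j : ℂ))⁻¹ * ⟪F.w j, h.D (F.w j) (h.D z l)⟫_ℂ := by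
    intro j
    have hb : (F.beta j : ℂ) ≠ 0 := by exact_mod_cast F.beta_ne j
    have h3 := hl.sym (F.w j) (h.br z (F.w j))
    rw [F.Bw, inner_smul_left, Complex.conj_ofReal, h.D_br, F.Bw, map_smul, inner_sub_right,
      inner_smul_right] at h3
    apply mul_left_cancel₀ hb
    rw [h3, mul_sub, ← mul_assoc, mul_inv_cancel₀ hb, one_mul]
  have h4 : ∑ j, ⟪F.w j, h.br z (F.w j)⟫_ℂ = ∑ j, ⟪F.w j, h.D z (F.w j)⟫_ℂ
      - ∑ j, ((F.beta j : ℂ))⁻¹ * ⟪F.w j, h.D (F.w j) (h.D z l)⟫_ℂ := by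
    rw [← Finset.sum_sub_distrib]
    exact Finset.sum_congr rfl fun j _ => h2 j
  rw [h4] at h1
  linear_combination h1

end HLA

end Pool.Agent.Lib.CSol
end

section

open scoped InnerProductSpace ComplexConjugate

namespace Pool.Agent.Lib.CSol

namespace HLA

variable {V : Type*} [NormedAddCommGroup V] [InnerProductSpace ℂ V] (h : HLA V)
  [FiniteDimensional ℂ V]

/-- TASK C01. Relation between `br (u)` and `D (u)` on `(K l)ᗮ`: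
`beta k * ⟪w k, br u (w j)⟫ = beta j * ⟪w k, D u (w j)⟫` for `u ∈ K l`. Proof:
`beta k * ⟪w k, br u (w j)⟫ = ⟪D (w k) l, br u (w j)⟫ = ⟪w k, D (br u (w j)) l⟫` (`hl.sym`)
and `D (br u (w j)) l = D u (D (w j) l) - D (w j) (D u l) = beta j • D u (w j)`. -/
theorem rel_a (l : V) (hl : h.IsChar l) {p q : ℕ} (F : h.Frame l p q) {u : V}
    (hu : u ∈ h.K l) (k j : Fin q) :
    (F.beta k : ℂ) * ⟪F.w k, h.br u (F.w j)⟫_ℂ = (F.beta j : ℂ) * ⟪F.w k, h.D u (F.w j)⟫_ℂ := by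
  have hu' : h.D u l = 0 := h.mem_K.mp hu
  have h1 : h.D (h.br u (F.w j)) l = (F.beta j : ℂ) • h.D u (F.w j) := by
    rw [h.D_br, hu', map_zero, sub_zero, F.Bw, map_smul]
  have h2 : (F.beta k : ℂ) * ⟪F.w k, h.br u (F.w j)⟫_ℂ = ⟪h.D (F.w k) l, h.br u (F.w j)⟫_ℂ := by
    rw [F.Bw, inner_smul_left, Complex.conj_ofReal]
  rw [h2, hl.sym, h1, inner_smul_right]

/-- Symmetry: `beta k * ⟪w k, A (w j) u⟫ = beta j * ⟪w j, A (w k) u⟫` for `u ∈ K l`. Proof: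
`beta k ⟪w k, A (w j) u⟫ = ⟪D (w k) l, A (w j) u⟫ = ⟪D (w j) (D (w k) l), u⟫` and
`D (w j) (D (w k) l) - D (w k) (D (w j) l) = D (br (w j) (w k)) l`, which is orthogonal to `u`:
`⟪D y l, u⟫ = ⟪y, D u l⟫ = 0`. -/
theorem rel_s (l : V) (hl : h.IsChar l) {p q : ℕ} (F : h.Frame l p q) {u : V}
    (hu : u ∈ h.K l) (k j : Fin q) :
    (F.beta k : ℂ) * ⟪F.w k, h.A (F.w j) u⟫_ℂ = (F.beta j : ℂ) * ⟪F.w j, h.A (F.w k) u⟫_ℂ := by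
  have hu' : h.D u l = 0 := h.mem_K.mp hu
  have key : ∀ a b : Fin q, (F.beta a : ℂ) * ⟪F.w a, h.A (F.w b) u⟫_ℂ =
      ⟪h.D (F.w b) (h.D (F.w a) l), u⟫_ℂ := by
    intro a b
    rw [h.inner_D_left, F.Bw, inner_smul_left, Complex.conj_ofReal]
  have h3 : ⟪h.D (h.br (F.w j) (F.w k)) l, u⟫_ℂ = 0 := by
    rw [hl.sym, hu', inner_zero_right]
  rw [h.D_br, inner_sub_left] at h3
  rw [key, key]
  exact sub_eq_zero.mp h3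

end HLA

end Pool.Agent.Lib.CSol
end
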