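import Pool.Agent.Lib.CSol.Defs
import Pool.Agent.Lib.CSol.Mg.G012

section

open scoped InnerProductSpace ComplexConjugate

namespace Pool.Agent.Lib.CSol

namespace HLA

variable {V : Type*} [NormedAddCommGroup V] [InnerProductSpace ℂ V] (h : HLA V)
  [FiniteDimensional ℂ V]

/-- The situation in Step 6 (A) after `A_e_zero`; `U = (ℂ ∙ e)ᗮ`. -/
structure SplitE (e : V) : Prop where
  norm : ‖e‖ = 1
  De : ∀ x, h.D x e = 0
  Ae : ∀ x, h.A x e = 0
  bre : ∀ x y, ⟪e, h.br x y⟫_ℂ = 0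
  commU : ∀ u ∈ (ℂ ∙ e)ᗮ, ∀ v ∈ (ℂ ∙ e)ᗮ, ∀ z, h.D u (h.A v z) = h.A v (h.D u z)
  killU : ∀ u ∈ (ℂ ∙ e)ᗮ, ∀ v ∈ (ℂ ∙ e)ᗮ, ∀ z, h.A (h.A v u) z = 0

/-- TASK F05. `D (br e u) = 0` for `u ∈ U`, and `D e` commutes with `D u`. Proof:
`v = br e u ∈ U` (`bre`), `D v = D e ∘ D u - D u ∘ D e` (`D_br`), so
`∑ ‖A v (b i)‖²= tr (D v ∘ A v) = tr (D e ∘ D u ∘ A v) - tr (D u ∘ D e ∘ A v)
 = tr (D e ∘ (D u ∘ A v - A v ∘ D u)) = 0` (cyclicity of the trace, `commU`), so `A v = 0`,
`D v = 0`. -/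
theorem D_br_e (e : V) (s : h.SplitE e) {u : V} (hu : u ∈ (ℂ ∙ e)ᗮ) (z : V) :
    h.D e (h.D u z) = h.D u (h.D e z) := by
  have hv : h.br e u ∈ (ℂ ∙ e)ᗮ := by
    rw [Submodule.mem_orthogonal_singleton_iff_inner_right]
    exact s.bre e u
  have h1 : LinearMap.trace ℂ V (h.D (h.br e u) ∘ₗ h.A (h.br e u)) = 0 := by
    have h2 : h.D (h.br e u) ∘ₗ h.A (h.br e u) =
        h.D e ∘ₗ (h.D u ∘ₗ h.A (h.br e u)) - h.D u ∘ₗ (h.D e ∘ₗ h.A (h.br e u)) := by
      ext w
      simp only [LinearMap.comp_apply, LinearMap.sub_apply]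
      exact h.D_br e u _
    have h3 : h.D u ∘ₗ h.A (h.br e u) = h.A (h.br e u) ∘ₗ h.D u := by
      ext w
      exact s.commU u hu _ hv w
    have h4 := LinearMap.trace_comp_comm' (h.D u) (h.D e ∘ₗ h.A (h.br e u))
    rw [h2, map_sub, h3, ← LinearMap.comp_assoc (h.D u) (h.A (h.br e u)) (h.D e), h4, sub_self]
  rw [LinearMap.trace_eq_sum_inner _ (stdOrthonormalBasis ℂ V)] at h1
  have h4 : ∀ i, ⟪stdOrthonormalBasis ℂ V i, (h.D (h.br e u) ∘ₗ h.A (h.br e u))
      (stdOrthonormalBasis ℂ V i)⟫_ℂ =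
      ((‖h.A (h.br e u) (stdOrthonormalBasis ℂ V i)‖ ^ 2 : ℝ) : ℂ) := by
    intro i
    rw [LinearMap.comp_apply, h.inner_D_right, inner_self_eq_norm_sq_to_K]
    norm_cast
  simp only [h4] at h1
  rw [← Complex.ofReal_sum, Complex.ofReal_eq_zero,
    Finset.sum_eq_zero_iff_of_nonneg fun i _ => sq_nonneg _] at h1
  have h5 : h.A (h.br e u) = 0 := (stdOrthonormalBasis ℂ V).toBasis.ext fun i => by
    rw [OrthonormalBasis.coe_toBasis, LinearMap.zero_apply]
    exact norm_eq_zero.1 (pow_eq_zero_iff (two_ne_zero) |>.1 (h1 i (Finset.mem_univ i)))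
  have h6 : h.D (h.br e u) z = 0 := by
    rw [D_def, h5, map_zero, LinearMap.zero_apply]
  rw [h.D_br] at h6
  exact sub_eq_zero.1 h6

end HLA

end Pool.Agent.Lib.CSol
end

section

open scoped InnerProductSpace ComplexConjugate

namespace Pool.Agent.Lib.CSol

namespace HLA

variable {V : Type*} [NormedAddCommGroup V] [InnerProductSpace ℂ V] (h : HLA V)
  [FiniteDimensional ℂ V]

/-- TASK F07 (Fuglede in finite dimension). If `N` is normal and `T N = N T` then
`T N^* = N^* T`. Proof: for `M = T N^* - N^* T` and `M' = T N - N T = 0`: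
`tr (M^* M) = tr (M'^* M')` by cyclicity of the trace and `N N^* = N^* N`; so
`∑ ‖M (b i)‖² = tr (M^* M) = 0`. (Or use the Fuglede theorem if Mathlib has it, or orthogonality
and invariance of eigenspaces.) -/
theorem fuglede (N T : V →ₗ[ℂ] V)
    (hN : N * LinearMap.adjoint N = LinearMap.adjoint N * N) (hT : T * N = N * T) :
    T * LinearMap.adjoint N = LinearMap.adjoint N * T := by
  have : CompleteSpace V := FiniteDimensional.complete ℂ V
  let N' : V →L[ℂ] V := LinearMap.toContinuousLinearMap N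
  let T' : V →L[ℂ] V := LinearMap.toContinuousLinearMap T
  have e1 : ContinuousLinearMap.adjoint N' =
      LinearMap.toContinuousLinearMap (LinearMap.adjoint N) :=
    (LinearMap.adjoint_toContinuousLinearMap N).symm
  have h1 : IsStarNormal N' := by
    refine ⟨?_⟩
    rw [commute_iff_eq, ContinuousLinearMap.star_eq_adjoint, e1]
    ext x
    exact (LinearMap.congr_fun hN x).symm
  have h2 : Commute T' N' := by
    rw [commute_iff_eq]
    ext x
    exact LinearMap.congr_fun hT x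
  have h3 := h1.commute_star_right h2
  rw [commute_iff_eq, ContinuousLinearMap.star_eq_adjoint, e1] at h3
  ext x
  exact DFunLike.congr_fun h3 x

end HLA

end Pool.Agent.Lib.CSol
end

section

open scoped InnerProductSpace ComplexConjugate

namespace Pool.Agent.Lib.CSol

namespace HLA

variable {V : Type*} [NormedAddCommGroup V] [InnerProductSpace ℂ V] (h : HLA V)
  [FiniteDimensional ℂ V]

/-- TASK G01. A linear functional `f` on `h.Cx` killing all brackets is
`f y = ⟪m, fst y⟫ + ⟪snd y, m'⟫` with `IsChar2 m m'`. Proof: `a ↦ f (pr a 0)` is linear, so it is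
`⟪m, ·⟫` (Riesz: `InnerProductSpace.toDual`, finite dimension), `b ↦ conj (f (pr 0 b))` is linear
(`pr 0 (c • b) = conj c • pr 0 b`), so `f (pr 0 b) = ⟪b, m'⟫`. The brackets:
`⁅pr a 0, pr a' 0⁆ = pr (br a a') 0`, `⁅pr 0 b, pr 0 b'⁆ = pr 0 (br b b')`,
`⁅pr a 0, pr 0 b⁆ = pr (A b a) (-A a b)`; so `⟪m, br a a'⟫ = 0`, `⟪br b b', m'⟫ = 0`,
`⟪m, A b a⟫ = ⟪A a b, m'⟫`, i.e. `⟪D b m, a⟫ = ⟪b, D a m'⟫`. -/
theorem char_of_functional (f : Module.Dual ℂ h.Cx) (hf : ∀ y z : h.Cx, f ⁅y, z⁆ = 0) :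
    ∃ m m' : V, h.IsChar2 m m' ∧ ∀ y : h.Cx, f y = ⟪m, h.fst y⟫_ℂ + ⟪h.snd y, m'⟫_ℂ := by
  let g1 : V →ₗ[ℂ] ℂ :=
    { toFun := fun a => f (h.pr a 0)
      map_add' := fun a a' => by
        have e : h.pr (a + a') 0 = h.pr a 0 + h.pr a' 0 :=
          h.cx_ext rfl (by simp)
        rw [e, map_add]
      map_smul' := fun c a => by
        have e : h.pr (c • a) 0 = c • h.pr a 0 := h.cx_ext rfl (by simp)
        rw [e, map_smul]
        rfl }
  let g2 : V →ₗ[ℂ] ℂ :=
    { toFun := fun b => conj (f (h.pr 0 b))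
      map_add' := fun a a' => by
        have e : h.pr 0 (a + a') = h.pr 0 a + h.pr 0 a' :=
          h.cx_ext (by simp) rfl
        rw [e, map_add, map_add]
      map_smul' := fun c a => by
        have e : h.pr 0 (c • a) = conj c • h.pr 0 a :=
          h.cx_ext (by simp) (by simp)
        rw [e, map_smul, smul_eq_mul, map_mul, Complex.conj_conj]
        rfl }
  obtain ⟨m, hm⟩ : ∃ m : V, ∀ a, ⟪m, a⟫_ℂ = f (h.pr a 0) :=
    ⟨(InnerProductSpace.toDual ℂ V).symm (LinearMap.toContinuousLinearMap g1), fun a => by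
      rw [InnerProductSpace.toDual_symm_apply]
      rfl⟩
  obtain ⟨m', hm'⟩ : ∃ m' : V, ∀ b, ⟪m', b⟫_ℂ = conj (f (h.pr 0 b)) :=
    ⟨(InnerProductSpace.toDual ℂ V).symm (LinearMap.toContinuousLinearMap g2), fun b => by
      rw [InnerProductSpace.toDual_symm_apply]
      rfl⟩
  have hm2 : ∀ b, ⟪b, m'⟫_ℂ = f (h.pr 0 b) := fun b => by
    rw [← inner_conj_symm, hm', Complex.conj_conj]
  have hfy : ∀ y : h.Cx, f y = ⟪m, h.fst y⟫_ℂ + ⟪h.snd y, m'⟫_ℂ := by
    intro y
    have e : y = h.pr (h.fst y) 0 + h.pr 0 (h.snd y) := h.cx_ext (by simp) (by simp)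
    rw [hm, hm2, ← map_add, ← e]
  refine ⟨m, m', ⟨fun x y => ?_, fun x y => ?_, fun x y => ?_⟩, hfy⟩
  · have e := hf (h.pr x 0) (h.pr y 0)
    rw [hfy, fst_lie, snd_lie] at e
    simpa using e
  · have e := hf (h.pr 0 x) (h.pr 0 y)
    rw [hfy, fst_lie, snd_lie] at e
    have e2 : ⟪h.br x y, m'⟫_ℂ = 0 := by simpa using e
    rw [← inner_conj_symm, e2, map_zero]
  · have e := hf (h.pr y 0) (h.pr 0 x)
    rw [hfy, fst_lie, snd_lie] at e
    have e2 : ⟪m, h.A x y⟫_ℂ + -⟪h.A y x, m'⟫_ℂ = 0 := by simpa using e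
    rw [h.inner_D_left, h.inner_D_right]
    exact add_neg_eq_zero.mp e2

end HLA

end Pool.Agent.Lib.CSol
end

section

open scoped InnerProductSpace ComplexConjugate

namespace Pool.Agent.Lib.CSol

namespace HLA

variable {V : Type*} [NormedAddCommGroup V] [InnerProductSpace ℂ V] (h : HLA V)
  [FiniteDimensional ℂ V]

/-- `(c, d) ↦ Σ c i b i + conj (Σ conj (d i) b i)` -/
noncomputable def g03Map : ((Fin (Module.finrank ℂ V) → ℂ) × (Fin (Module.finrank ℂ V) → ℂ))
    →ₗ[ℂ] h.Cx where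
  toFun p := h.pr (∑ i, p.1 i • Module.finBasis ℂ V i)
    (∑ i, conj (p.2 i) • Module.finBasis ℂ V i)
  map_add' p q := h.cx_ext
    (by
      simp only [fst_pr, fst_add, Prod.fst_add, Pi.add_apply, add_smul, Finset.sum_add_distrib])
    (by
      simp only [snd_pr, snd_add, Prod.snd_add, Pi.add_apply, map_add, add_smul,
        Finset.sum_add_distrib])
  map_smul' c p := h.cx_ext
    (by
      simp only [fst_pr, fst_smul, Prod.smul_fst, Pi.smul_apply, smul_eq_mul, mul_smul,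
        Finset.smul_sum, RingHom.id_apply])
    (by
      simp only [snd_pr, snd_smul, Prod.smul_snd, Pi.smul_apply, smul_eq_mul, map_mul, mul_smul,
        Finset.smul_sum, RingHom.id_apply])

instance : FiniteDimensional ℂ h.Cx := by
  refine Module.Finite.of_surjective h.g03Map ?_
  intro y
  refine ⟨(fun i => (Module.finBasis ℂ V).repr (h.fst y) i,
    fun i => conj ((Module.finBasis ℂ V).repr (h.snd y) i)), ?_⟩
  refine h.cx_ext ?_ ?_
  · change ∑ i, (Module.finBasis ℂ V).repr (h.fst y) i • Module.finBasis ℂ V i = h.fst y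
    exact (Module.finBasis ℂ V).sum_repr _
  · change ∑ i, conj (conj ((Module.finBasis ℂ V).repr (h.snd y) i)) • Module.finBasis ℂ V i
      = h.snd y
    simp only [Complex.conj_conj]
    exact (Module.finBasis ℂ V).sum_repr _

/-- TASK G03. A nonzero solvable `h` has a nonzero real character. Proof: `h.Cx` is nontrivial and
solvable, so `LieAlgebra.derivedSeries ℂ h.Cx 1 < ⊤` (`LieAlgebra.derivedSeries_lt_top_of_solvable`);
it contains all brackets; there is a nonzero linear functional vanishing on it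
(`Submodule.exists_le_ker_of_lt_top` or similar). `char_of_functional` gives `(m, m') ≠ 0`. By
`IsChar2.real` with `c = 1` and `c = I`, `m + m'` and `-I • m + I • m'` are real characters, not
both `0`. (Finite dimensionality of `h.Cx`: `fst`, `snd` identify the real vector space with
`V × V`; e.g. the complex linear equivalence of `h.Cx` with `V × V` twisted by conjugation of
coordinates in a basis, or: `h.Cx` is spanned over `ℂ` by `pr (b i) 0`, `pr 0 (b i)` for a basis
`b` of `V`, `Module.Finite.of_...`.) -/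
theorem exists_char [Nontrivial V] (hs : h.Solv) : ∃ l : V, l ≠ 0 ∧ h.IsChar l := by
  have : LieAlgebra.IsSolvable h.Cx := hs
  have : Nontrivial h.Cx := by
    obtain ⟨v, hv⟩ := exists_ne (0 : V)
    refine ⟨h.pr v 0, 0, fun he => hv ?_⟩
    have := congrArg h.fst he
    simpa using this
  have hlt := LieAlgebra.derivedSeries_lt_top_of_solvable ℂ h.Cx
  have hlt' : ((LieAlgebra.derivedSeries ℂ h.Cx 1 : LieIdeal ℂ h.Cx) : Submodule ℂ h.Cx) < ⊤ := by
    rw [lt_top_iff_ne_top] at hlt ⊢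
    intro he
    apply hlt
    rw [← LieSubmodule.toSubmodule_eq_top]
    exact he
  obtain ⟨f, hf0, hfk⟩ := Submodule.exists_le_ker_of_lt_top _ hlt'
  have hbr : ∀ y z : h.Cx, f ⁅y, z⁆ = 0 := by
    intro y z
    have hmem : ⁅y, z⁆ ∈ LieAlgebra.derivedSeries ℂ h.Cx 1 := by
      rw [LieAlgebra.derivedSeries_def, LieAlgebra.derivedSeriesOfIdeal_succ,
        LieAlgebra.derivedSeriesOfIdeal_zero]
      exact LieSubmodule.lie_mem_lie (LieSubmodule.mem_top _) (LieSubmodule.mem_top _)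
    exact hfk hmem
  obtain ⟨m, m', hm, hfe⟩ := h.char_of_functional f hbr
  by_contra hno
  have h1 : conj (1 : ℂ) • m + (1 : ℂ) • m' = 0 := by
    by_contra hne
    exact hno ⟨_, hne, IsChar2.real h m m' hm 1⟩
  have h2 : conj Complex.I • m + Complex.I • m' = 0 := by
    by_contra hne
    exact hno ⟨_, hne, IsChar2.real h m m' hm Complex.I⟩
  rw [map_one, one_smul, one_smul] at h1
  rw [Complex.conj_I, neg_smul, neg_add_eq_zero] at h2
  have h3 : m = m' := smul_right_injective V Complex.I_ne_zero h2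
  have h4 : m = 0 := by
    rw [← h3, ← two_smul ℂ m] at h1
    exact (smul_eq_zero.mp h1).resolve_left two_ne_zero
  have h5 : m' = 0 := by rw [← h3]; exact h4
  apply hf0
  ext y
  rw [hfe y, h4, h5]
  simp

end HLA

end Pool.Agent.Lib.CSol
end
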