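import Pool.Agent.Lib.CSol.Mg.G010
import Pool.Agent.Lib.CSol.Mg.G012
import Pool.Agent.Lib.CSol.Mg.G004
import Pool.Agent.Lib.CSol.Mg.G005
import Pool.Agent.Lib.CSol.Mg.G016

section

open scoped InnerProductSpace ComplexConjugate

namespace Pool.Agent.Lib.CSol

namespace HLA

variable {V : Type*} [NormedAddCommGroup V] [InnerProductSpace ℂ V] (h : HLA V)
  [FiniteDimensional ℂ V]

/-- TASK D01. `D` of the subalgebra: `D^U x y = P_U (D x y)`. Proof: both sides are in `U`; for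
`z ∈ U`: `⟪D^U x y, z⟫ = ⟪y, A x z⟫ = ⟪D x y, z⟫ = ⟪P_U (D x y), z⟫`. -/
theorem sub_D (U : Submodule ℂ V) (hb : ∀ x ∈ U, ∀ y ∈ U, h.br x y ∈ U)
    (hA : ∀ x ∈ U, ∀ y ∈ U, h.A x y ∈ U) (x y : U) :
    (((h.sub U hb hA).D x y : U) : V) = U.starProjection (h.D x y) := by
  have key : (h.sub U hb hA).D x y = U.orthogonalProjectionOnto (h.D x y) := by
    refine ext_inner_right ℂ fun z => ?_
    rw [inner_D_left]
    have h1 : ⟪U.orthogonalProjectionOnto (h.D x y), z⟫_ℂ = ⟪h.D x y, (z : V)⟫_ℂ := by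
      rw [Submodule.coe_inner, Submodule.coe_orthogonalProjectionOnto_apply,
        Submodule.inner_starProjection_left_eq_right,
        Submodule.starProjection_eq_self_iff.mpr z.2]
    rw [h1, inner_D_left, Submodule.coe_inner, sub_A]
  rw [key, Submodule.coe_orthogonalProjectionOnto_apply]

/-- `H^U u = H u - ‖D u u - P_U (D u u)‖²`. (`‖P v‖² = ‖v‖² - ‖v - P v‖²`; the other terms of
`H` do not change: `⟪u, P_U v⟫ = ⟪u, v⟫` for `u ∈ U`.) -/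
theorem sub_H (U : Submodule ℂ V) (hb : ∀ x ∈ U, ∀ y ∈ U, h.br x y ∈ U)
    (hA : ∀ x ∈ U, ∀ y ∈ U, h.A x y ∈ U) (u : U) :
    (h.sub U hb hA).H u = h.H u - ‖h.D u u - U.starProjection (h.D u u)‖ ^ 2 := by
  have hp : ‖h.D u u‖ ^ 2 = ‖U.starProjection (h.D u u)‖ ^ 2 +
      ‖h.D u u - U.starProjection (h.D u u)‖ ^ 2 := by
    have h1 : ⟪U.starProjection (h.D u u), h.D u u - U.starProjection (h.D u u)⟫_ℂ = 0 :=
      Submodule.inner_right_of_mem_orthogonal (U.starProjection_apply_mem _)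
        (U.sub_starProjection_mem_orthogonal _)
    have h2 := norm_add_sq_eq_norm_sq_add_norm_sq_of_inner_eq_zero _ _ h1
    rw [add_sub_cancel] at h2
    simpa [sq] using h2
  have e1 : ‖(h.sub U hb hA).D u u‖ ^ 2 = ‖U.starProjection (h.D u u)‖ ^ 2 := by
    rw [← sub_D h U hb hA u u, Submodule.coe_norm]
  have e2 : ‖(h.sub U hb hA).A u u‖ ^ 2 = ‖h.A u u‖ ^ 2 := by
    rw [← sub_A h U hb hA u u, Submodule.coe_norm]
  have e3 : ⟪u, (h.sub U hb hA).D ((h.sub U hb hA).A u u) u⟫_ℂ =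
      ⟪(u : V), h.D (h.A u u) u⟫_ℂ := by
    rw [Submodule.coe_inner, sub_D, sub_A, ← Submodule.inner_starProjection_left_eq_right,
        Submodule.starProjection_eq_self_iff.mpr u.2]
  unfold H
  rw [e1, e2, e3, hp]
  ring

end HLA

end Pool.Agent.Lib.CSol
end

section

open scoped InnerProductSpace ComplexConjugate

namespace Pool.Agent.Lib.CSol

namespace HLA

variable {V : Type*} [NormedAddCommGroup V] [InnerProductSpace ℂ V] (h : HLA V)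
  [FiniteDimensional ℂ V]

/-- TASK D04. If the subalgebra `U` is flat and `H ≤ 0` on `V`, then `U` is nice.
`H0`, `DU`: by `Flat.H_zero` for `h.sub U hb hA` and `sub_H`,
`H u = ‖D u u - P_U (D u u)‖² ≥ 0`, and `≤ 0`; so both vanish, and `D u u = P_U (D u u) ∈ U`.
`kill`: from `Flat.kill` of the subalgebra. `zeta`: `Flat.zeta` for the subalgebra. -/
theorem nice_of_flat (hH : ∀ x, h.H x ≤ 0) (U : Submodule ℂ V)
    (hb : ∀ x ∈ U, ∀ y ∈ U, h.br x y ∈ U) (hA : ∀ x ∈ U, ∀ y ∈ U, h.A x y ∈ U)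
    (hf : (h.sub U hb hA).Flat) : h.Nice U := by
  have hD : ∀ u : U, h.H u = 0 ∧ h.D u u - U.starProjection (h.D u u) = 0 := by
    intro u
    have h1 := h.sub_H U hb hA u
    rw [Flat.H_zero _ hf u] at h1
    have h2 := hH (u : V)
    have h3 : ‖h.D (u : V) u - U.starProjection (h.D (u : V) u)‖ ^ 2 ≤ 0 := by linarith
    have h4 : ‖h.D (u : V) u - U.starProjection (h.D (u : V) u)‖ ^ 2 = 0 :=
      le_antisymm h3 (sq_nonneg _)
    refine ⟨by linarith, ?_⟩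
    exact norm_eq_zero.1 (pow_eq_zero_iff two_ne_zero |>.1 h4)
  refine ⟨fun u hu => (hD ⟨u, hu⟩).1, fun u hu => ?_, fun u hu v hv w hw => ?_, fun n b => ?_⟩
  · have h1 := (hD ⟨u, hu⟩).2
    rw [sub_eq_zero] at h1
    change h.D u u = _ at h1
    rw [h1]
    exact Submodule.starProjection_apply_mem U _
  · have h1 := hf.kill ⟨u, hu⟩ ⟨v, hv⟩ ⟨w, hw⟩
    have h2 := congrArg (Subtype.val) h1
    exact h2
  · have h1 := Flat.zeta _ hf b
    have h2 := congrArg (Subtype.val) h1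
    rw [Submodule.coe_zero, Submodule.coe_sum] at h2
    exact h2

end HLA

end Pool.Agent.Lib.CSol
end

section

open scoped InnerProductSpace ComplexConjugate

namespace Pool.Agent.Lib.CSol

namespace HLA

variable {V : Type*} [NormedAddCommGroup V] [InnerProductSpace ℂ V] (h : HLA V)
  [FiniteDimensional ℂ V]

/-- TASK D05. The subalgebra `K l ⊕ conj (K l)` is unimodular. Take a frame `F`
(`exists_frame`) and the orthonormal basis `b` of `K l` given by the `u i`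
(`Frame.exists_basis`). By `LinearMap.trace_eq_sum_inner`, for `z ∈ K l` the trace of
`(h.sub ..).br z` is `∑ i ⟪u i, br z (u i)⟫` and that of `(h.sub ..).D z` is
`∑ i ⟪u i, P_U (D z (u i))⟫ = ∑ i ⟪u i, D z (u i)⟫` (`sub_D`). They agree by `star_trace`, as
`D z l = 0`. -/
theorem K_uni (hu : h.Uni) (l : V) (hl : h.IsChar l) :
    (h.sub (h.K l) (fun _ hx _ hy => h.K_br l hx hy) (fun _ hx _ hy => h.K_A l hl hx hy)).Uni := by
  intro z
  obtain ⟨p, q, ⟨F⟩⟩ := h.exists_frame l hl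
  obtain ⟨b, hb⟩ := Frame.exists_basis h l hl F
  rw [LinearMap.trace_eq_sum_inner _ b, LinearMap.trace_eq_sum_inner _ b]
  have e1 : ∀ i, ⟪b i, (h.sub (h.K l) (fun _ hx _ hy => h.K_br l hx hy)
      (fun _ hx _ hy => h.K_A l hl hx hy)).br z (b i)⟫_ℂ = ⟪F.u i, h.br z (F.u i)⟫_ℂ := by
    intro i
    rw [Submodule.coe_inner, sub_br, hb i]
  have e2 : ∀ i, ⟪b i, (h.sub (h.K l) (fun _ hx _ hy => h.K_br l hx hy)
      (fun _ hx _ hy => h.K_A l hl hx hy)).D z (b i)⟫_ℂ = ⟪F.u i, h.D z (F.u i)⟫_ℂ := by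
    intro i
    rw [Submodule.coe_inner, sub_D, hb i]
    have hm : h.D (z : V) (F.u i) - (h.K l).starProjection (h.D (z : V) (F.u i)) ∈ (h.K l)ᗮ :=
      (h.K l).sub_starProjection_mem_orthogonal _
    have hz : ⟪F.u i, h.D (z : V) (F.u i) -
        (h.K l).starProjection (h.D (z : V) (F.u i))⟫_ℂ = 0 :=
      (Submodule.mem_orthogonal _ _).1 hm _ (Frame.u_mem h l F i)
    rw [inner_sub_right, sub_eq_zero] at hz
    exact hz.symm
  rw [Finset.sum_congr rfl fun i _ => e1 i, Finset.sum_congr rfl fun i _ => e2 i,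
    h.star_trace hu l hl F z]
  have hz : h.D (z : V) l = 0 := h.mem_K.1 z.2
  simp [hz]

end HLA

end Pool.Agent.Lib.CSol
end

section

open scoped InnerProductSpace ComplexConjugate

namespace Pool.Agent.Lib.CSol

namespace HLA

variable {V : Type*} [NormedAddCommGroup V] [InnerProductSpace ℂ V] (h : HLA V)
  [FiniteDimensional ℂ V]

private theorem G05_trace (e : V) (he : e ≠ 0) (c : ℂ) (T : V →ₗ[ℂ] V) (hT : T e = c • e) :
    LinearMap.trace ℂ (ℂ ∙ e)ᗮ (((ℂ ∙ e)ᗮ.orthogonalProjectionOnto : V →ₗ[ℂ] (ℂ ∙ e)ᗮ).comp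
      (T.comp (ℂ ∙ e)ᗮ.subtype)) = LinearMap.trace ℂ V T - c := by
  have hee : ⟪e, e⟫_ℂ ≠ 0 := inner_self_ne_zero.mpr he
  let f : V →ₗ[ℂ] ℂ := (⟪e, e⟫_ℂ)⁻¹ • (innerₛₗ ℂ e)
  have h1 : T = (T.comp (ℂ ∙ e)ᗮ.subtype).comp
      ((ℂ ∙ e)ᗮ.orthogonalProjectionOnto : V →ₗ[ℂ] (ℂ ∙ e)ᗮ) + f.smulRight (c • e) := by
    ext v
    have h2 : (((ℂ ∙ e)ᗮ.orthogonalProjectionOnto v : (ℂ ∙ e)ᗮ) : V) =
        v - (⟪e, v⟫_ℂ / ⟪e, e⟫_ℂ) • e := by
      rw [← Submodule.starProjection_apply, Submodule.starProjection_orthogonal_val,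
        Submodule.starProjection_singleton]
      congr 2
      rw [inner_self_eq_norm_sq_to_K]
      push_cast
      rfl
    simp only [LinearMap.add_apply, LinearMap.comp_apply, Submodule.subtype_apply,
      ContinuousLinearMap.coe_coe, h2, map_sub, map_smul, hT, LinearMap.smulRight_apply]
    change T v = T v - (⟪e, v⟫_ℂ / ⟪e, e⟫_ℂ) • c • e + ((⟪e, e⟫_ℂ)⁻¹ * ⟪e, v⟫_ℂ) • c • e
    rw [div_eq_inv_mul, sub_add_cancel]
  rw [LinearMap.trace_comp_comm']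
  have h3 : LinearMap.trace ℂ V (f.smulRight (c • e)) = c := by
    rw [LinearMap.trace_smulRight]
    change (⟪e, e⟫_ℂ)⁻¹ * ⟪e, c • e⟫_ℂ = c
    rw [inner_smul_right]
    field_simp
  have h4 := congrArg (LinearMap.trace ℂ V) h1
  rw [map_add, h3] at h4
  rw [h4]
  ring

/-- TASK G05. Unimodularity of the quotient by a weight vector `e`: `D x e = ⟪m, x⟫ • e`,
`br x e = ⟪m, x⟫ • e`, `U = (ℂ ∙ e)ᗮ`. Proof: with an orthonormal basis `b` of `U` and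
`e / ‖e‖`: `tr_V (br x) = ∑ ⟪b i, br x (b i)⟫ + ⟪m, x⟫`,
`tr_V (D x) = ∑ ⟪b i, D x (b i)⟫ + ⟪m, x⟫`. -/
theorem quo_uni (hu : h.Uni) (e m : V) (he : e ≠ 0) (he1 : ∀ x, h.D x e = ⟪m, x⟫_ℂ • e)
    (he2 : ∀ x, h.br x e = ⟪m, x⟫_ℂ • e)
    (hA : ∀ x : V, ∀ y ∈ (ℂ ∙ e)ᗮ, h.A x y ∈ (ℂ ∙ e)ᗮ)
    (hA' : ∀ x : V, ∀ y ∈ (ℂ ∙ e)ᗮᗮ, h.A x y ∈ (ℂ ∙ e)ᗮᗮ) (hI : ∀ x ∈ (ℂ ∙ e)ᗮᗮ, h.A x = 0)
    (hb : ∀ x : V, ∀ y ∈ (ℂ ∙ e)ᗮᗮ, h.br x y ∈ (ℂ ∙ e)ᗮᗮ) :
    (h.quo (ℂ ∙ e)ᗮ hA hA' hI hb).Uni := by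
  intro x
  have h1 : (h.quo (ℂ ∙ e)ᗮ hA hA' hI hb).br x =
      ((ℂ ∙ e)ᗮ.orthogonalProjectionOnto : V →ₗ[ℂ] (ℂ ∙ e)ᗮ).comp
        ((h.br (x : V)).comp (ℂ ∙ e)ᗮ.subtype) := rfl
  have h2 : (h.quo (ℂ ∙ e)ᗮ hA hA' hI hb).D x =
      ((ℂ ∙ e)ᗮ.orthogonalProjectionOnto : V →ₗ[ℂ] (ℂ ∙ e)ᗮ).comp
        ((h.D (x : V)).comp (ℂ ∙ e)ᗮ.subtype) := by
    refine LinearMap.ext fun y => ?_
    have h3 := quo_D h (ℂ ∙ e)ᗮ hA hA' hI hb x y
    change (h.quo (ℂ ∙ e)ᗮ hA hA' hI hb).D x y =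
      (ℂ ∙ e)ᗮ.orthogonalProjectionOnto (h.D (x : V) (y : V))
    rw [← h3]
    exact (Submodule.orthogonalProjectionOnto_mem_subspace_eq_self _).symm
  rw [h1, h2, G05_trace e he ⟪m, x⟫_ℂ _ (he2 x), G05_trace e he ⟪m, x⟫_ℂ _ (he1 x), hu]

end HLA

end Pool.Agent.Lib.CSol
end

section

open scoped InnerProductSpace ComplexConjugate

namespace Pool.Agent.Lib.CSol

namespace HLA

variable {V : Type*} [NormedAddCommGroup V] [InnerProductSpace ℂ V] (h : HLA V)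
  [FiniteDimensional ℂ V]

/-- TASK G07. No weight vector lies in `V` (type `(1,0)`), given `NC` and the induction hypothesis
`IH` for proper quotients. Let `e ≠ 0` with `IsWt m (-m) e 0` and `D x e = ⟪m, x⟫ • e`. By `w4`,
`A e = 0`; by `w3`, `br x e = ⟪m, x⟫ • e`. Let `U = (ℂ ∙ e)ᗮ`, `Uᗮ = ℂ ∙ e`. The hypotheses of
`quo` hold: `hA`: `⟪e, A x y⟫ = ⟪D x e, y⟫ = conj.. * ⟪e, y⟫ = 0`; `hA'`: `A x e = ⟪x, m⟫ • e`
(`w1`); `hI`: `A e = 0`; `hb`. If `U = ⊥` then `V = ℂ ∙ e`, so `A = 0` and `br = 0`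
(`br_self`), `D x e = 0`, and `NC` gives `e = 0`. Otherwise `U` is nontrivial, the quotient is
solvable (`quo_solv`), unimodular (`quo_uni`), `H ≤ 0` (`quo_H`), so flat by `IH`; it has a real
character `l' ≠ 0` (`exists_char`), and `Flat.char` gives `D' x l' = 0`. Then in `V`:
`D x l' = 0` for `x ∈ U` (`quo_D`) and for `x = e` (`D e = 0`, adjoint of `A e = 0`), so for all
`x`; `⟪l', br x y⟫ = 0` for all `x, y` (for `x, y ∈ U` from the quotient character,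
`⟪l', P_U v⟫ = ⟪l', v⟫`; `br x e ∈ ℂ ∙ e ⟂ l'`). `NC` gives `l' = 0`, contradiction. -/
theorem no_wt_in_V (hu : h.Uni) (hH : ∀ x, h.H x ≤ 0) (hs : h.Solv)
    (NC : ∀ l, (∀ x, h.D x l = 0) → (∀ x y, ⟪l, h.br x y⟫_ℂ = 0) → l = 0)
    (IH : ∀ (U : Submodule ℂ V) (g : HLA U), U ≠ ⊤ → g.Solv → g.Uni → (∀ x, g.H x ≤ 0) → g.Flat)
    (e m : V) (hw : h.IsWt m (-m) e 0) (hD : ∀ x, h.D x e = ⟪m, x⟫_ℂ • e) : e = 0 := by
  by_contra he
  have hbe : ∀ x, h.br x e = ⟪m, x⟫_ℂ • e := fun x => by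
    rw [hw.w3, map_zero, LinearMap.zero_apply, sub_zero]
  have hAe0 : h.A e = 0 := by
    refine LinearMap.ext fun x => ?_
    have h1 := hw.w4 x
    rw [map_zero, smul_zero, zero_sub] at h1
    rw [LinearMap.zero_apply]
    exact neg_eq_zero.mp h1.symm
  have hDe0 : h.D e = 0 := by
    rw [D_def, hAe0, map_zero]
  have hmem : ∀ y : V, y ∈ (ℂ ∙ e)ᗮᗮ → ∃ c : ℂ, c • e = y := fun y hy => by
    rw [Submodule.orthogonal_orthogonal] at hy
    exact Submodule.mem_span_singleton.mp hy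
  have hmem' : ∀ c : ℂ, c • e ∈ (ℂ ∙ e)ᗮᗮ := fun c =>
    Submodule.le_orthogonal_orthogonal _ (Submodule.mem_span_singleton.mpr ⟨c, rfl⟩)
  have hA : ∀ x : V, ∀ y ∈ (ℂ ∙ e)ᗮ, h.A x y ∈ (ℂ ∙ e)ᗮ := by
    intro x y hy
    rw [Submodule.mem_orthogonal_singleton_iff_inner_right] at hy ⊢
    rw [← h.inner_D_left, hD, inner_smul_left, hy, mul_zero]
  have hA' : ∀ x : V, ∀ y ∈ (ℂ ∙ e)ᗮᗮ, h.A x y ∈ (ℂ ∙ e)ᗮᗮ := by
    intro x y hy
    obtain ⟨c, rfl⟩ := hmem y hy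
    rw [map_smul, hw.w1, ← neg_smul, smul_smul]
    exact hmem' _
  have hI : ∀ x ∈ (ℂ ∙ e)ᗮᗮ, h.A x = 0 := by
    intro x hx
    obtain ⟨c, rfl⟩ := hmem x hx
    rw [LinearMap.map_smulₛₗ, hAe0, smul_zero]
  have hb : ∀ x : V, ∀ y ∈ (ℂ ∙ e)ᗮᗮ, h.br x y ∈ (ℂ ∙ e)ᗮᗮ := by
    intro x y hy
    obtain ⟨c, rfl⟩ := hmem y hy
    rw [map_smul, hbe, smul_smul]
    exact hmem' _
  have hdec : ∀ v : V, ∃ u ∈ (ℂ ∙ e)ᗮ, ∃ c : ℂ, v = u + c • e := by
    intro v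
    obtain ⟨c, hc⟩ := Submodule.mem_span_singleton.mp
      ((ℂ ∙ e).orthogonalProjectionOnto v).2
    refine ⟨v - (ℂ ∙ e).starProjection v, (ℂ ∙ e).sub_starProjection_mem_orthogonal v, c, ?_⟩
    rw [hc, Submodule.starProjection_apply, sub_add_cancel]
  have hUtop : (ℂ ∙ e)ᗮ ≠ ⊤ := by
    intro h1
    have h2 : e ∈ (ℂ ∙ e)ᗮ := h1 ▸ Submodule.mem_top
    rw [Submodule.mem_orthogonal_singleton_iff_inner_right] at h2
    exact he (inner_self_eq_zero.mp h2)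
  rcases subsingleton_or_nontrivial ((ℂ ∙ e)ᗮ : Submodule ℂ V) with hsing | hnon
  · have hall : ∀ v : V, ∃ c : ℂ, v = c • e := by
      intro v
      obtain ⟨u, hu1, c, hc⟩ := hdec v
      have h1 : (⟨u, hu1⟩ : (ℂ ∙ e)ᗮ) = 0 := Subsingleton.elim _ _
      have h2 : u = 0 := congrArg Subtype.val h1
      exact ⟨c, by rw [hc, h2, zero_add]⟩
    refine he (NC e (fun x => ?_) fun x y => ?_)
    · obtain ⟨c, rfl⟩ := hall x
      rw [map_smul, hDe0, smul_zero, LinearMap.zero_apply]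
    · obtain ⟨c, rfl⟩ := hall x
      obtain ⟨d, rfl⟩ := hall y
      rw [map_smul, map_smul, LinearMap.smul_apply, h.br_self, smul_zero, smul_zero,
        inner_zero_right]
  · obtain ⟨Q, hQ⟩ : ∃ Q : HLA (ℂ ∙ e)ᗮ, Q = h.quo (ℂ ∙ e)ᗮ hA hA' hI hb := ⟨_, rfl⟩
    have hQs : Q.Solv := by
      rw [hQ]
      exact h.quo_solv _ hA hA' hI hb hs
    have hQf : Q.Flat := by
      refine IH _ Q hUtop hQs ?_ fun x => ?_
      · rw [hQ]
        exact h.quo_uni hu e m he hD hbe hA hA' hI hb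
      · rw [hQ, quo_H]
        exact hH x
    obtain ⟨l, hl0, hl⟩ := Q.exists_char hQs
    have hDl : ∀ x : (ℂ ∙ e)ᗮ, h.D x (l : V) = 0 := by
      intro x
      have h1 := hQf.char Q l hl x
      rw [hQ] at h1
      rw [← h.quo_D (ℂ ∙ e)ᗮ hA hA' hI hb x l, h1, Submodule.coe_zero]
    have hle : ⟪(l : V), e⟫_ℂ = 0 :=
      Submodule.mem_orthogonal_singleton_iff_inner_left.mp l.2
    have hl2 : (l : V) = 0 := by
      refine NC _ (fun x => ?_) fun x y => ?_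
      · obtain ⟨u, hu1, c, rfl⟩ := hdec x
        rw [map_add, map_smul, hDe0, smul_zero, add_zero]
        exact hDl ⟨u, hu1⟩
      · obtain ⟨u, hu1, c, rfl⟩ := hdec x
        obtain ⟨v, hv1, d, rfl⟩ := hdec y
        have h1 : ⟪(l : V), h.br u v⟫_ℂ = 0 := by
          have h2 := hl.br ⟨u, hu1⟩ ⟨v, hv1⟩
          rw [hQ] at h2
          have h3 : ⟪l, (ℂ ∙ e)ᗮ.orthogonalProjectionOnto (h.br u v)⟫_ℂ = 0 := h2
          rwa [Submodule.inner_orthogonalProjectionOnto_eq_of_mem_left] at h3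
        have h4 : h.br e v = -(⟪m, v⟫_ℂ • e) := by
          rw [h.br_skew, hbe]
        simp only [map_add, map_smul, LinearMap.add_apply, LinearMap.smul_apply, hbe, h4,
          inner_add_right, inner_smul_right, inner_neg_right, hle, h1]
        simp
    exact hl0 (Subtype.ext hl2)

end HLA

end Pool.Agent.Lib.CSol
end
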