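import Pool.Agent.Lib.CSol.Mg.G010
import Pool.Agent.Lib.CSol.Mg.G011
import Pool.Agent.Lib.CSol.Mg.G012
import Pool.Agent.Lib.CSol.Mg.G003

section

open scoped InnerProductSpace ComplexConjugate

namespace Pool.Agent.Lib.CSol

namespace HLA

variable {V : Type*} [NormedAddCommGroup V] [InnerProductSpace ℂ V] (h : HLA V)
  [FiniteDimensional ℂ V]

/-- TASK D06. Let `e` be a unit vector with `D x e = 0` for all `x` and `⟪e, br x y⟫ = 0`. Then
`U = (ℂ ∙ e)ᗮ` is closed under `br` and `A` (in fact `br x y ∈ U`, `A x y ∈ U` for all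
`x, y : V`: `⟪e, A x y⟫ = ⟪D x e, y⟫ = 0`). -/
theorem perp_br (e : V) (he2 : ∀ x y, ⟪e, h.br x y⟫_ℂ = 0) (x y : V) :
    h.br x y ∈ (ℂ ∙ e)ᗮ :=
  Submodule.mem_orthogonal_singleton_iff_inner_right.2 (he2 x y)

theorem perp_A (e : V) (he1 : ∀ x, h.D x e = 0) (x y : V) : h.A x y ∈ (ℂ ∙ e)ᗮ := by
  refine Submodule.mem_orthogonal_singleton_iff_inner_right.2 ?_
  rw [← h.inner_D_left, he1, inner_zero_left]

end HLA

end Pool.Agent.Lib.CSol
end

section

open scoped InnerProductSpace ComplexConjugate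

namespace Pool.Agent.Lib.CSol

namespace HLA

variable {V : Type*} [NormedAddCommGroup V] [InnerProductSpace ℂ V] (h : HLA V)
  [FiniteDimensional ℂ V]

theorem D07_basis (e : V) (he : ‖e‖ = 1) {n : ℕ} (b : OrthonormalBasis (Fin n) ℂ (ℂ ∙ e)ᗮ) :
    ∃ b' : OrthonormalBasis (Fin (n + 1)) ℂ V, (∀ i : Fin n, b' i.castSucc = (b i : V)) ∧
      b' (Fin.last n) = e := by
  have hbe : ∀ i, ⟪e, (b i : V)⟫_ℂ = 0 := fun i =>
    Submodule.mem_orthogonal_singleton_iff_inner_right.1 (b i).2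
  have heb : ∀ i, ⟪(b i : V), e⟫_ℂ = 0 := fun i =>
    Submodule.mem_orthogonal_singleton_iff_inner_left.1 (b i).2
  have hbb : ∀ i j, ⟪(b i : V), (b j : V)⟫_ℂ = if i = j then 1 else 0 := fun i j => by
    have := orthonormal_iff_ite.1 b.orthonormal i j
    exact this
  have hee : ⟪e, e⟫_ℂ = 1 := by
    rw [inner_self_eq_norm_sq_to_K, he]
    simp
  have hon : Orthonormal ℂ (Fin.snoc (α := fun _ => V) (fun i => (b i : V)) e :
      Fin (n + 1) → V) := by
    rw [orthonormal_iff_ite]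
    intro i j
    refine Fin.lastCases ?_ (fun i' => ?_) i
    · refine Fin.lastCases ?_ (fun j' => ?_) j
      · rw [Fin.snoc_last, hee, if_pos rfl]
      · have h2 : Fin.last n ≠ j'.castSucc := (Fin.castSucc_lt_last j').ne'
        simp [hbe, h2]
    · refine Fin.lastCases ?_ (fun j' => ?_) j
      · have h2 : i'.castSucc ≠ Fin.last n := (Fin.castSucc_lt_last i').ne
        simp [heb]
      · simp [hbb, Fin.castSucc_inj]
  have hsp : (Submodule.span ℂ (Set.range (Fin.snoc (α := fun _ => V) (fun i => (b i : V)) e :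
      Fin (n + 1) → V)))ᗮ = ⊥ := by
    rw [Submodule.eq_bot_iff]
    intro x hx
    have h1 : ∀ i, ⟪(Fin.snoc (α := fun _ => V) (fun i => (b i : V)) e : Fin (n + 1) → V) i,
        x⟫_ℂ = 0 := fun i => (Submodule.mem_orthogonal _ _).1 hx _
          (Submodule.subset_span (Set.mem_range_self i))
    have h2 : ⟪e, x⟫_ℂ = 0 := by
      have := h1 (Fin.last n)
      rwa [Fin.snoc_last] at this
    have h3 : ∀ i, ⟪(b i : V), x⟫_ℂ = 0 := fun i => by
      have := h1 i.castSucc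
      rwa [Fin.snoc_castSucc] at this
    have hxU : x ∈ (ℂ ∙ e)ᗮ := Submodule.mem_orthogonal_singleton_iff_inner_right.2 h2
    have h4 : (⟨x, hxU⟩ : (ℂ ∙ e)ᗮ) = 0 := by
      rw [← b.sum_repr ⟨x, hxU⟩]
      refine Finset.sum_eq_zero fun i _ => ?_
      rw [b.repr_apply_apply]
      have h5 : ⟪b i, (⟨x, hxU⟩ : (ℂ ∙ e)ᗮ)⟫_ℂ = 0 := h3 i
      rw [h5, zero_smul]
    exact congrArg Subtype.val h4
  refine ⟨OrthonormalBasis.mkOfOrthogonalEqBot hon hsp, fun i => ?_, ?_⟩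
  · rw [OrthonormalBasis.coe_of_orthogonal_eq_bot_mk, Fin.snoc_castSucc]
  · rw [OrthonormalBasis.coe_of_orthogonal_eq_bot_mk, Fin.snoc_last]

theorem D07_trace (e : V) (he : ‖e‖ = 1) {n : ℕ} (b : OrthonormalBasis (Fin n) ℂ (ℂ ∙ e)ᗮ)
    (T : V →ₗ[ℂ] V) :
    LinearMap.trace ℂ V T = ∑ i, ⟪(b i : V), T (b i : V)⟫_ℂ + ⟪e, T e⟫_ℂ := by
  obtain ⟨b', h1, h2⟩ := D07_basis e he b
  rw [LinearMap.trace_eq_sum_inner T b', Fin.sum_univ_castSucc, h2]
  congr 1
  exact Finset.sum_congr rfl fun i _ => by rw [h1]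

/-- TASK D07. In the situation of D06 the subalgebra `U = (ℂ ∙ e)ᗮ` is unimodular: extend an
orthonormal basis `b` of `U` by `e` to compute traces (or use the decomposition
`V = U ⊕ ℂ e`): `trace_V (br u) = ∑ ⟪b i, br u (b i)⟫ + ⟪e, br u e⟫`, the last term is `0`
(`he2`), and `trace_V (D u) = ∑ ⟪b i, D u (b i)⟫ + ⟪e, D u e⟫`, the last term is `0` (`he1`);
`sub_D`. -/
theorem perp_uni (hu : h.Uni) (e : V) (he : ‖e‖ = 1) (he1 : ∀ x, h.D x e = 0)
    (he2 : ∀ x y, ⟪e, h.br x y⟫_ℂ = 0) :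
    (h.sub (ℂ ∙ e)ᗮ (fun x _ y _ => h.perp_br e he2 x y)
      (fun x _ y _ => h.perp_A e he1 x y)).Uni := by
  intro x
  set b := stdOrthonormalBasis ℂ (ℂ ∙ e)ᗮ with hb
  rw [LinearMap.trace_eq_sum_inner _ b, LinearMap.trace_eq_sum_inner _ b]
  have h1 := D07_trace e he b (h.br (x : V))
  have h2 := D07_trace e he b (h.D (x : V))
  rw [he2, add_zero] at h1
  rw [he1, inner_zero_right, add_zero] at h2
  have h3 := hu (x : V)
  rw [h1, h2] at h3
  refine Eq.trans ?_ (h3.trans ?_)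
  · refine Finset.sum_congr rfl fun i _ => ?_
    rfl
  · refine Finset.sum_congr rfl fun i _ => ?_
    rw [Submodule.coe_inner, h.sub_D, ← Submodule.inner_starProjection_left_eq_right,
      Submodule.starProjection_eq_self_iff.2 (b i).2]

end HLA

end Pool.Agent.Lib.CSol
end

section

open scoped InnerProductSpace ComplexConjugate

namespace Pool.Agent.Lib.CSol

namespace HLA

variable {V : Type*} [NormedAddCommGroup V] [InnerProductSpace ℂ V] (h : HLA V)
  [FiniteDimensional ℂ V]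

/-- The conclusions of `wt_vanish`, bundled. -/
structure WtV (m m' η θ : V) : Prop where
  mη : ⟪m, η⟫_ℂ = 0
  m'η : ⟪m', η⟫_ℂ = 0
  mθ : ⟪m, θ⟫_ℂ = 0
  m'θ : ⟪m', θ⟫_ℂ = 0

/-- TASK E03. Consequences. `A v v' = 0` for `v, v' ∈ {η, θ}` (`w1`, `w2`; `⟪η, m'⟫ = 0` etc.). -/
theorem wt_A (m m' η θ : V) (hw : h.IsWt m m' η θ) (hv : WtV m m' η θ) :
    h.A η η = 0 ∧ h.A θ η = 0 ∧ h.A η θ = 0 ∧ h.A θ θ = 0 := by
  have h1 : ⟪η, m'⟫_ℂ = 0 := inner_eq_zero_symm.1 hv.m'η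
  have h2 : ⟪θ, m'⟫_ℂ = 0 := inner_eq_zero_symm.1 hv.m'θ
  have h3 : ⟪η, m⟫_ℂ = 0 := inner_eq_zero_symm.1 hv.mη
  have h4 : ⟪θ, m⟫_ℂ = 0 := inner_eq_zero_symm.1 hv.mθ
  refine ⟨?_, ?_, ?_, ?_⟩
  · rw [hw.w1, h1, zero_smul, neg_zero]
  · rw [hw.w1, h2, zero_smul, neg_zero]
  · rw [hw.w2, h3, zero_smul, neg_zero]
  · rw [hw.w2, h4, zero_smul, neg_zero]

/-- `br η θ = 0` (`w4` with `x = η`). -/
theorem wt_br (m m' η θ : V) (hw : h.IsWt m m' η θ) (hv : WtV m m' η θ) :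
    h.br η θ = 0 := by
  rw [hw.w4, hv.m'η, zero_smul, zero_sub, (h.wt_A m m' η θ hw hv).1, neg_zero]

/-- For `v = a • η + b • θ`: `A v v = 0` and, as `H v = ‖D v v‖² ≤ 0`, `D v v = 0`. -/
theorem wt_Dvv (hH : ∀ x, h.H x ≤ 0) (m m' η θ : V) (hw : h.IsWt m m' η θ)
    (hv : WtV m m' η θ) (a b : ℂ) : h.D (a • η + b • θ) (a • η + b • θ) = 0 := by
  obtain ⟨h1, h2, h3, h4⟩ := h.wt_A m m' η θ hw hv
  have hA : h.A (a • η + b • θ) (a • η + b • θ) = 0 := by
    simp only [map_add, LinearMap.map_smulₛₗ, LinearMap.add_apply, LinearMap.smul_apply,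
      map_smul, h1, h2, h3, h4, smul_zero, add_zero]
  have hHv := hH (a • η + b • θ)
  rw [H, hA, map_zero, LinearMap.zero_apply, inner_zero_right, norm_zero] at hHv
  simp only [Complex.zero_re, mul_zero, sub_zero, ne_eq, OfNat.ofNat_ne_zero, not_false_eq_true,
    zero_pow] at hHv
  have h5 : ‖h.D (a • η + b • θ) (a • η + b • θ)‖ = 0 := by
    have h6 := norm_nonneg (h.D (a • η + b • θ) (a • η + b • θ))
    nlinarith
  exact norm_eq_zero.1 h5

/-- For a real character `l = conj c • m + c • m'`, `D η l = 0` and `D θ l = 0` (`wt_D`); taking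
`c = 1, I`: `D η m = D η m' = D θ m = D θ m' = 0`. -/
theorem wt_Dm (m m' η θ : V) (hm : h.IsChar2 m m') (hw : h.IsWt m m' η θ)
    (hv : WtV m m' η θ) : h.D η m = 0 ∧ h.D η m' = 0 ∧ h.D θ m = 0 ∧ h.D θ m' = 0 := by
  have key : ∀ c : ℂ, h.D η (conj c • m + c • m') = 0 ∧ h.D θ (conj c • m + c • m') = 0 := by
    intro c
    obtain ⟨h1, h2⟩ := h.wt_D m m' η θ _ hw (IsChar2.real h m m' hm c)
    constructor
    · rw [h1, inner_add_left, inner_smul_left, inner_smul_left, hv.mη, hv.m'η, mul_zero, mul_zero,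
        add_zero, zero_smul, neg_zero]
    · rw [h2, inner_add_left, inner_smul_left, inner_smul_left, hv.mθ, hv.m'θ, mul_zero, mul_zero,
        add_zero, zero_smul, neg_zero]
  have fin : ∀ v : V, (∀ c : ℂ, h.D v (conj c • m + c • m') = 0) →
      h.D v m = 0 ∧ h.D v m' = 0 := by
    intro v hc
    have e1 := hc 1
    have e2 := hc Complex.I
    rw [map_one, one_smul, one_smul, map_add] at e1
    rw [Complex.conj_I, map_add, map_smul, map_smul] at e2
    have e3 : h.D v m' = h.D v m := by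
      have e4 : Complex.I • (h.D v m' - h.D v m) = 0 := by
        rw [smul_sub]
        rw [neg_smul, neg_add_eq_sub] at e2
        exact e2
      rcases smul_eq_zero.1 e4 with e5 | e5
      · exact absurd e5 Complex.I_ne_zero
      · exact sub_eq_zero.1 e5
    rw [e3, ← two_smul ℂ] at e1
    rcases smul_eq_zero.1 e1 with e5 | e5
    · exact absurd e5 two_ne_zero
    · exact ⟨e5, e3.trans e5⟩
  obtain ⟨a1, a2⟩ := fin η fun c => (key c).1
  obtain ⟨a3, a4⟩ := fin θ fun c => (key c).2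
  exact ⟨a1, a2, a3, a4⟩

/-- `⟪m, A v x⟫ = 0` and `⟪m', A v x⟫ = 0` for `v = η, θ` (`⟪m, A η x⟫ = ⟪D η m, x⟫`). -/
theorem wt_mA (m m' η θ : V) (hm : h.IsChar2 m m') (hw : h.IsWt m m' η θ)
    (hv : WtV m m' η θ) (x : V) : ⟪m, h.A η x⟫_ℂ = 0 ∧ ⟪m', h.A η x⟫_ℂ = 0 ∧
      ⟪m, h.A θ x⟫_ℂ = 0 ∧ ⟪m', h.A θ x⟫_ℂ = 0 := by
  obtain ⟨a1, a2, a3, a4⟩ := h.wt_Dm m m' η θ hm hw hv
  refine ⟨?_, ?_, ?_, ?_⟩
  · rw [← h.inner_D_left, a1, inner_zero_left]
  · rw [← h.inner_D_left, a2, inner_zero_left]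
  · rw [← h.inner_D_left, a3, inner_zero_left]
  · rw [← h.inner_D_left, a4, inner_zero_left]

/-- `D (A η x) m = D θ (D x m)` and `D (A θ x) m = D η (D x m)`, and the same for `m'`.
Proof (first one): for all `y`, `⟪D (A η x) m, y⟫ = ⟪A η x, D y m'⟫ = ⟪x, D η (D y m')⟫`
(`hm.sym`), `D η (D y m') = D y (D η m') + D (br η y) m' = D (br η y) m'` (`D_br`, `wt_Dm`),
`br η y = -br y η = -⟪m, y⟫ • η + A θ y` (`w3`), `D η m' = 0`, so it is `D (A θ y) m'`;
`⟪x, D (A θ y) m'⟫ = ⟪D x m, A θ y⟫ = ⟪D θ (D x m), y⟫`. For `m'` use the conjugate symmetry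
`⟪D x m', y⟫ = ⟪x, D y m⟫`, and `w4` for `θ`. -/
theorem wt_DAm (m m' η θ : V) (hm : h.IsChar2 m m') (hw : h.IsWt m m' η θ)
    (hv : WtV m m' η θ) (x : V) :
    h.D (h.A η x) m = h.D θ (h.D x m) ∧ h.D (h.A θ x) m = h.D η (h.D x m) ∧
    h.D (h.A η x) m' = h.D θ (h.D x m') ∧ h.D (h.A θ x) m' = h.D η (h.D x m') := by
  obtain ⟨a1, a2, a3, a4⟩ := h.wt_Dm m m' η θ hm hw hv
  have b1 : ∀ y, h.br η y = h.A θ y - ⟪m, y⟫_ℂ • η := by
    intro y
    rw [h.br_skew, hw.w3]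
    abel
  have b2 : ∀ y, h.br θ y = h.A η y - ⟪m', y⟫_ℂ • θ := by
    intro y
    rw [h.br_skew, hw.w4]
    abel
  have c1 : ∀ y v, h.D η v = 0 → h.D η (h.D y v) = h.D (h.A θ y) v := by
    intro y v hv0
    have h1 := h.D_br η y v
    rw [hv0, map_zero, sub_zero, b1, map_sub, map_smul, LinearMap.sub_apply,
      LinearMap.smul_apply, hv0, smul_zero, sub_zero] at h1
    exact h1.symm
  have c2 : ∀ y v, h.D θ v = 0 → h.D θ (h.D y v) = h.D (h.A η y) v := by
    intro y v hv0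
    have h1 := h.D_br θ y v
    rw [hv0, map_zero, sub_zero, b2, map_sub, map_smul, LinearMap.sub_apply,
      LinearMap.smul_apply, hv0, smul_zero, sub_zero] at h1
    exact h1.symm
  refine ⟨?_, ?_, ?_, ?_⟩
  · exact (c2 x m a3).symm
  · exact (c1 x m a1).symm
  · exact (c2 x m' a4).symm
  · exact (c1 x m' a2).symm

end HLA

end Pool.Agent.Lib.CSol
end

section

open scoped InnerProductSpace ComplexConjugate

namespace Pool.Agent.Lib.CSol

namespace HLA

variable {V : Type*} [NormedAddCommGroup V] [InnerProductSpace ℂ V] (h : HLA V)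
  [FiniteDimensional ℂ V]

omit [FiniteDimensional ℂ V] in
private theorem E04_pow (T S : Module.End ℂ V) (hT : T * S - S * T = T) (k : ℕ) :
    T ^ k * S - S * T ^ k = (k : ℂ) • T ^ k := by
  induction k with
  | zero => simp
  | succ k ih =>
    have e1 : T ^ k * S = S * T ^ k + (k : ℂ) • T ^ k := by rw [← ih]; abel
    have e2 : T * S = S * T + T := by
      have h3 : T * S = (T * S - S * T) + S * T := by abel
      rw [h3, hT]; abel
    rw [pow_succ', mul_assoc, e1, mul_add, ← mul_assoc, e2, add_mul, mul_smul_comm, mul_assoc]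
    push_cast
    rw [add_smul, one_smul]
    abel

private theorem E04_nilp (T S : Module.End ℂ V) (hT : T * S - S * T = T) : IsNilpotent T := by
  by_contra hn
  have hne : ∀ k : ℕ, T ^ k ≠ 0 := fun k hk => hn ⟨k, hk⟩
  let φ : Module.End ℂ (Module.End ℂ V) := LinearMap.mulRight ℂ S - LinearMap.mulLeft ℂ S
  have hφ : ∀ k : ℕ, Module.End.HasEigenvalue φ (k : ℂ) := by
    intro k
    refine Module.End.hasEigenvalue_of_hasEigenvector (x := T ^ k) ?_
    rw [Module.End.hasEigenvector_iff, Module.End.mem_eigenspace_iff]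
    refine ⟨?_, hne k⟩
    change T ^ k * S - S * T ^ k = (k : ℂ) • T ^ k
    exact E04_pow T S hT k
  have hfin : Set.Finite {μ : ℂ | Module.End.HasEigenvalue φ μ} :=
    Module.End.finite_hasEigenvalue φ
  have hinf : Set.Infinite (Set.range fun k : ℕ => (k : ℂ)) :=
    Set.infinite_range_of_injective Nat.cast_injective
  refine hinf (hfin.subset ?_)
  rintro _ ⟨k, rfl⟩
  exact hφ k

private theorem E04_aux (p q n u : V) (hbr : ∀ x, h.br x q = ⟪n, x⟫_ℂ • q - h.A p x)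
    (hn : ∀ x, ⟪n, h.A p x⟫_ℂ = 0) (hu1 : ⟪n, u⟫_ℂ = 1) (hu2 : h.A p u = 0) :
    IsNilpotent (h.A p) ∧ IsNilpotent (h.A q) := by
  have hu : h.br u q = q := by rw [hbr, hu1, hu2, one_smul, sub_zero]
  have n1 : IsNilpotent (h.A q) := by
    refine E04_nilp (h.A q : Module.End ℂ V) (h.A u : Module.End ℂ V) ?_
    ext z
    have h1 := h.rep u q z
    rw [hu] at h1
    rw [LinearMap.sub_apply, Module.End.mul_apply, Module.End.mul_apply]
    exact h1.symm
  have n2 : IsNilpotent (h.br q) := by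
    refine E04_nilp (h.br q : Module.End ℂ V) (-(h.br u) : Module.End ℂ V) ?_
    ext z
    have h1 := h.jac u q z
    rw [hu] at h1
    rw [LinearMap.sub_apply, Module.End.mul_apply, Module.End.mul_apply, LinearMap.neg_apply,
      LinearMap.neg_apply, map_neg, h1]
    abel
  refine ⟨?_, n1⟩
  obtain ⟨k, hk⟩ := n2
  have key : ∀ (j : ℕ) (x : V), ((h.A p : Module.End ℂ V) ^ (j + 1)) x =
      ((h.br q : Module.End ℂ V) ^ j) (h.A p x) := by
    intro j
    induction j with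
    | zero => intro x; simp
    | succ j ih =>
      intro x
      rw [pow_succ' _ (j + 1), Module.End.mul_apply, ih, pow_succ' _ j, Module.End.mul_apply,
        ← ih, pow_succ' _ j, Module.End.mul_apply]
      have h1 := hbr (h.A p (((h.A p : Module.End ℂ V) ^ j) x))
      rw [hn, zero_smul, zero_sub, h.br_skew] at h1
      exact (neg_injective h1).symm
  refine ⟨k + 1, ?_⟩
  ext x
  rw [key, hk, LinearMap.zero_apply, LinearMap.zero_apply]

/-- TASK E04. Nilpotency. Suppose there is `u` with `⟪m', u⟫ = 1` and `A η u = 0`. Then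
`br u θ = θ` (`w4`), so `A θ = A (br u θ) = A θ * A u - A u * A θ` (`h.rep`): `T = [T, S]` implies
`T` nilpotent, so `A θ` is nilpotent. Also `br u (br θ y) - br θ (br u y) = br θ y` (`h.jac`): the
operator `br θ` is nilpotent by the same argument. On `K' = ker ⟪m,·⟫ ∩ ker ⟪m',·⟫`,
`A η y = - br y θ = br θ y` (`w4`), and `A η` maps `V` into `K'` (`wt_mA`), so
`(A η)^(k+1) = (br θ)^k ∘ A η` and `A η` is nilpotent.
(`T = [T,S]` nilpotent: e.g. `T^k S - S T^k = k T^k`, so `S ↦ [·,S]` has the eigenvalue `k` on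
`T^k` for every `k`; in finite dimension `T^k = 0` for some `k`. Or see
`LinearMap.isNilpotent...`; traces: `k tr T^k = tr [T^k, S] = 0` for all `k ≥ 1`.) -/
theorem wt_nilp1 (m m' η θ : V) (hm : h.IsChar2 m m') (hw : h.IsWt m m' η θ)
    (hv : WtV m m' η θ) (u : V) (hu1 : ⟪m', u⟫_ℂ = 1) (hu2 : h.A η u = 0) :
    IsNilpotent (h.A η) ∧ IsNilpotent (h.A θ) := by
  exact h.E04_aux η θ m' u hw.w4 (fun x => (h.wt_mA m m' η θ hm hw hv x).2.1) hu1 hu2

/-- The symmetric case: `⟪m, u⟫ = 1` and `A θ u = 0` (`br u η = η` by `w3`, `A η` nilpotent,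
`br η` nilpotent, `A θ y = br η y` on `K'`). -/
theorem wt_nilp2 (m m' η θ : V) (hm : h.IsChar2 m m') (hw : h.IsWt m m' η θ)
    (hv : WtV m m' η θ) (u : V) (hu1 : ⟪m, u⟫_ℂ = 1) (hu2 : h.A θ u = 0) :
    IsNilpotent (h.A η) ∧ IsNilpotent (h.A θ) := by
  exact (h.E04_aux θ η m u hw.w3 (fun x => (h.wt_mA m m' η θ hm hw hv x).2.2.1) hu1 hu2).symm

end HLA

end Pool.Agent.Lib.CSol
end

section

open scoped InnerProductSpace ComplexConjugate

namespace Pool.Agent.Lib.CSol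

namespace HLA

variable {V : Type*} [NormedAddCommGroup V] [InnerProductSpace ℂ V] (h : HLA V)
  [FiniteDimensional ℂ V]

/-- TASK E06. `v = z • η + conj z • θ`. If `x = A v y` and `A v x = 0`, then `D v x + D x v = 0`.
Proof: `H v = 0` (`A v v = 0`, `D v v = 0`). `⟪m, x⟫ = ⟪m', x⟫ = 0` (`wt_mA`), so `A x v = 0`
(`w1`, `w2`, conjugate linearity in `x` is not needed: `A x η = -⟪x, m'⟫ • η = 0`). Also
`⟪m, A x x⟫ = ⟪D x m, x⟫` and `D x m = D (A v y) m = D v' (D y m)` where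
`v' = z • η + conj z • θ = v` (`wt_DAm`: `A v = conj z • A η + z • A θ`, so
`D (A v y) m = conj z • D θ (D y m) + z • D η (D y m) = D v (D y m)`), so
`⟪D x m, x⟫ = ⟪D y m, A v x⟫ = 0`; the same for `m'`. Hence `A (A x x) v = 0`. Therefore all
terms of `E2 v x` except `‖D v x + D x v‖²` vanish: `A v x = 0`, `A x v = 0`, `A v v = 0`,
`⟪v, D (A x x) v⟫ = ⟪A (A x x) v, v⟫ = 0`. Now use `E2_nonpos`. -/
theorem wt_top (hH : ∀ x, h.H x ≤ 0) (m m' η θ : V) (hm : h.IsChar2 m m')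
    (hw : h.IsWt m m' η θ) (hv : WtV m m' η θ) (z : ℂ) (x y : V)
    (hxy : x = h.A (z • η + conj z • θ) y) (hx : h.A (z • η + conj z • θ) x = 0) :
    h.D (z • η + conj z • θ) x + h.D x (z • η + conj z • θ) = 0 := by
  obtain ⟨a1, a2, a3, a4⟩ := h.wt_A m m' η θ hw hv
  have hAv : ∀ y : V, h.A (z • η + conj z • θ) y = conj z • h.A η y + z • h.A θ y := by
    intro y
    rw [map_add, LinearMap.map_smulₛₗ, LinearMap.map_smulₛₗ, LinearMap.add_apply,
      LinearMap.smul_apply, LinearMap.smul_apply, Complex.conj_conj]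
  have hDv : ∀ y : V, h.D (z • η + conj z • θ) y = z • h.D η y + conj z • h.D θ y := by
    intro y
    rw [map_add, map_smul, map_smul, LinearMap.add_apply, LinearMap.smul_apply,
      LinearMap.smul_apply]
  have hAvv : h.A (z • η + conj z • θ) (z • η + conj z • θ) = 0 := by
    rw [hAv, map_add, map_add, map_smul, map_smul, map_smul, map_smul, a1, a2, a3, a4]
    simp
  have hDvv : h.D (z • η + conj z • θ) (z • η + conj z • θ) = 0 :=
    h.wt_Dvv hH m m' η θ hw hv z (conj z)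
  have hHv : h.H (z • η + conj z • θ) = 0 := by
    unfold H
    rw [hAvv, hDvv]
    simp
  have mx : ⟪m, x⟫_ℂ = 0 ∧ ⟪m', x⟫_ℂ = 0 := by
    obtain ⟨b1, b2, b3, b4⟩ := h.wt_mA m m' η θ hm hw hv y
    rw [hxy, hAv, inner_add_right, inner_smul_right, inner_smul_right, b1, b3,
      inner_add_right, inner_smul_right, inner_smul_right, b2, b4]
    simp
  have xm : ⟪x, m⟫_ℂ = 0 ∧ ⟪x, m'⟫_ℂ = 0 :=
    ⟨inner_eq_zero_symm.mp mx.1, inner_eq_zero_symm.mp mx.2⟩
  have hAw : ∀ w : V, ⟪w, m⟫_ℂ = 0 → ⟪w, m'⟫_ℂ = 0 → h.A w (z • η + conj z • θ) = 0 := by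
    intro w h1 h2
    rw [map_add, map_smul, map_smul, hw.w1, hw.w2, h1, h2]
    simp
  have hAxv : h.A x (z • η + conj z • θ) = 0 := hAw x xm.1 xm.2
  obtain ⟨d1, d2, d3, d4⟩ := h.wt_DAm m m' η θ hm hw hv y
  have hDm : h.D x m = h.D (z • η + conj z • θ) (h.D y m) := by
    rw [hDv, ← d1, ← d2]
    have : h.D x m = h.D (h.A (z • η + conj z • θ) y) m := by rw [← hxy]
    rw [this, hAv, map_add, map_smul, map_smul, LinearMap.add_apply, LinearMap.smul_apply,
      LinearMap.smul_apply]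
    exact add_comm _ _
  have hDm' : h.D x m' = h.D (z • η + conj z • θ) (h.D y m') := by
    rw [hDv, ← d3, ← d4]
    have : h.D x m' = h.D (h.A (z • η + conj z • θ) y) m' := by rw [← hxy]
    rw [this, hAv, map_add, map_smul, map_smul, LinearMap.add_apply, LinearMap.smul_apply,
      LinearMap.smul_apply]
    exact add_comm _ _
  have n1 : ⟪h.A x x, m⟫_ℂ = 0 := by
    apply inner_eq_zero_symm.mp
    rw [← inner_D_left, hDm, inner_D_left, hx, inner_zero_right]
  have n2 : ⟪h.A x x, m'⟫_ℂ = 0 := by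
    apply inner_eq_zero_symm.mp
    rw [← inner_D_left, hDm', inner_D_left, hx, inner_zero_right]
  have hAAxx : h.A (h.A x x) (z • η + conj z • θ) = 0 := hAw _ n1 n2
  have hE := h.E2_nonpos hH _ hHv x
  unfold E2 at hE
  rw [hx, hAxv, hAvv, inner_D_right (h := h) (h.A x x), hAAxx] at hE
  simp only [map_zero, LinearMap.zero_apply, inner_zero_right, inner_zero_left, norm_zero,
    Complex.zero_re] at hE
  have h0 : ‖h.D (z • η + conj z • θ) x + h.D x (z • η + conj z • θ)‖ ^ 2 ≤ 0 := by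
    linarith
  have h1 : ‖h.D (z • η + conj z • θ) x + h.D x (z • η + conj z • θ)‖ = 0 := by
    by_contra hne
    have := pow_pos (lt_of_le_of_ne (norm_nonneg _) (Ne.symm hne)) 2
    linarith
  exact norm_eq_zero.mp h1

end HLA

end Pool.Agent.Lib.CSol
end
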