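import Pool.Agent.Lib.CSol.Defs
import Pool.Agent.Lib.ThZ.Mg.G006
import Pool.Agent.Lib.CSol.Mg.G013

section

open scoped InnerProductSpace ComplexConjugate

namespace Pool.Agent.Lib.CSol

open Pool.Agent.Lib.MP_a150d7_gt Pool.Agent.Lib.ThZ

variable {E : Type*} [NormedAddCommGroup E] [InnerProductSpace ℝ E] [FiniteDimensional ℝ E]

/-- A model of the real Hermitian Lie algebra `(E, br, J)` in complex form: `ψ x` is the
`(1,0)`-part of `x`. -/
structure Model (br : E →ₗ[ℝ] E →ₗ[ℝ] E) (J : E →ₗ[ℝ] E) (n : ℕ) where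
  g : HLA (EuclideanSpace ℂ (Fin n))
  ψ : E ≃ₗ[ℝ] EuclideanSpace ℂ (Fin n)
  ψJ : ∀ x, ψ (J x) = Complex.I • ψ x
  inn : ∀ x y, (⟪ψ x, ψ y⟫_ℂ).re = ⟪x, y⟫_ℝ
  ψA : ∀ x y, ψ (Ac br J x y) = -(g.A (ψ x) (ψ y))
  ψb : ∀ x y, ψ (br x y) = g.br (ψ x) (ψ y) + g.A (ψ y) (ψ x) - g.A (ψ x) (ψ y)

end Pool.Agent.Lib.CSol
end

section

open scoped InnerProductSpace ComplexConjugate TensorProduct

namespace Pool.Agent.Lib.CSol

open Pool.Agent.Lib.MP_a150d7_gt Pool.Agent.Lib.ThZ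

variable {E : Type*} [NormedAddCommGroup E] [InnerProductSpace ℝ E] [FiniteDimensional ℝ E]

/-- the coordinate map of a unitary frame -/
private noncomputable def m01Psi {J : E →ₗ[ℝ] E} (hJJ : ∀ x, J (J x) = -x)
    (hiso : ∀ x y, ⟪J x, J y⟫_ℝ = ⟪x, y⟫_ℝ) {n : ℕ} (f : Frame J n) :
    E ≃ₗ[ℝ] EuclideanSpace ℂ (Fin n) where
  toFun x := WithLp.toLp 2 (fun k => f.co k x)
  map_add' x y := by
    ext k
    exact f.co_add k x y
  map_smul' a x := by
    ext k
    exact (f.co_smul k a x).trans (Complex.real_smul).symm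
  invFun v := f.vec (fun k => v k)
  left_inv x := f.vec_co x
  right_inv v := by
    ext k
    exact f.co_vec hJJ hiso (fun k => v k) k

/-- TASK M01. Existence of a real linear isometry `ψ : E ≃ ℂ^n` with `ψ (J x) = I • ψ x`. From
`exists_frame J` (`ThZ/Z13b`) take a frame `f`; put `ψ x = toLp (fun k => conj (f.co k x))`?? CHECK
THE CONVENTION: `f.co k (J x) = I * f.co k x` (`Frame.co_J` in `ThZ/Z13`), so
`ψ x = WithLp.toLp 2 (fun k => f.co k x)`, with inverse `f.vec`. `inn`: both sides are quadratic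
forms; `re ⟪ψ x, ψ y⟫ = ∑ k, re (conj (f.co k x) * f.co k y)
= ∑ k (⟪x, e k⟫ ⟪y, e k⟫ + ⟪x, J (e k)⟫ ⟪y, J (e k)⟫) = ⟪x, y⟫` (expand `x` by `f.span`; there is
also `Frame.inner_eq` in one of the `ThZ` files). -/
theorem exists_psi (J : E →ₗ[ℝ] E) (hJJ : ∀ x, J (J x) = -x)
    (hiso : ∀ x y, ⟪J x, J y⟫_ℝ = ⟪x, y⟫_ℝ) :
    ∃ (n : ℕ) (ψ : E ≃ₗ[ℝ] EuclideanSpace ℂ (Fin n)), (∀ x, ψ (J x) = Complex.I • ψ x) ∧
      ∀ x y, (⟪ψ x, ψ y⟫_ℂ).re = ⟪x, y⟫_ℝ := by
  obtain ⟨n, ⟨f⟩⟩ := exists_frame J hJJ hiso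
  refine ⟨n, m01Psi hJJ hiso f, fun x => ?_, fun x y => ?_⟩
  · ext k
    exact f.co_J hJJ hiso k x
  · have h1 : ⟪m01Psi hJJ hiso f x, m01Psi hJJ hiso f y⟫_ℂ = ∑ k, ⟪f.co k x, f.co k y⟫_ℂ := by
      rw [PiLp.inner_apply]
      rfl
    rw [h1, Complex.re_sum]
    have h2 : ⟪x, y⟫_ℝ = ∑ k, (⟪y, f.e k⟫_ℝ * ⟪x, f.e k⟫_ℝ
        + ⟪y, J (f.e k)⟫_ℝ * ⟪x, J (f.e k)⟫_ℝ) := by
      conv_lhs => rw [f.span y]
      rw [inner_sum]
      refine Finset.sum_congr rfl fun k _ => ?_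
      rw [inner_add_right, real_inner_smul_right, real_inner_smul_right]
    rw [h2]
    refine Finset.sum_congr rfl fun k _ => ?_
    rw [RCLike.inner_apply, Complex.mul_re, Complex.conj_re, Complex.conj_im]
    show ⟪y, f.e k⟫_ℝ * ⟪x, f.e k⟫_ℝ - ⟪y, J (f.e k)⟫_ℝ * -⟪x, J (f.e k)⟫_ℝ = _
    ring

end Pool.Agent.Lib.CSol
end

section

open scoped InnerProductSpace ComplexConjugate TensorProduct

namespace Pool.Agent.Lib.CSol

open Pool.Agent.Lib.MP_a150d7_gt Pool.Agent.Lib.ThZ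

variable {E : Type*} [NormedAddCommGroup E] [InnerProductSpace ℝ E] [FiniteDimensional ℝ E]

/-- TASK M03. `H` of the model is the quartic form `Qf (Ac br J)`. `ψ (At (Ac br J) x y) =
- g.D (ψ x) (ψ y)`: for all `z`, `⟪At (Ac br J) x y, z⟫ = ⟪y, Ac x z⟫ = - re ⟪ψ y, g.A (ψ x) (ψ z)⟫
= - re ⟪g.D (ψ x) (ψ y), ψ z⟫`; a vector `v` with `re ⟪v, w⟫ = 0` for all `w` is `0`. Then all three
terms of `Qf` match those of `H` (`‖ψ v‖ = ‖v‖`). -/
theorem psi_At {br : E →ₗ[ℝ] E →ₗ[ℝ] E} {J : E →ₗ[ℝ] E} {n : ℕ} (M : Model br J n)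
    (x y : E) : M.ψ (At (Ac br J) x y) = -(M.g.D (M.ψ x) (M.ψ y)) := by
  have key : ∀ z : E, (⟪M.ψ (At (Ac br J) x y) + M.g.D (M.ψ x) (M.ψ y), M.ψ z⟫_ℂ).re = 0 := by
    intro z
    rw [inner_add_left, Complex.add_re, M.inn, inner_At, ← M.inn, M.ψA, inner_neg_right,
      Complex.neg_re, M.g.inner_D_left, neg_add_cancel]
  have h0 := key (M.ψ.symm (M.ψ (At (Ac br J) x y) + M.g.D (M.ψ x) (M.ψ y)))
  rw [LinearEquiv.apply_symm_apply] at h0
  have h1 : M.ψ (At (Ac br J) x y) + M.g.D (M.ψ x) (M.ψ y) = 0 := by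
    apply inner_self_eq_zero (𝕜 := ℂ).mp
    apply Complex.ext
    · rw [h0, Complex.zero_re]
    · have := inner_self_im (𝕜 := ℂ) (M.ψ (At (Ac br J) x y) + M.g.D (M.ψ x) (M.ψ y))
      rw [Complex.zero_im]
      exact this
  exact eq_neg_of_add_eq_zero_left h1

omit [FiniteDimensional ℝ E] in
private theorem m03_norm {br : E →ₗ[ℝ] E →ₗ[ℝ] E} {J : E →ₗ[ℝ] E} {n : ℕ} (M : Model br J n)
    (v : E) : ‖M.ψ v‖ ^ 2 = ‖v‖ ^ 2 := by
  rw [← real_inner_self_eq_norm_sq v, ← M.inn]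
  exact (inner_self_eq_norm_sq (𝕜 := ℂ) (M.ψ v)).symm

theorem model_H {br : E →ₗ[ℝ] E →ₗ[ℝ] E} {J : E →ₗ[ℝ] E} {n : ℕ} (M : Model br J n)
    (x : E) : M.g.H (M.ψ x) = Qf (Ac br J) x := by
  have h1 : ‖M.g.D (M.ψ x) (M.ψ x)‖ ^ 2 = ‖At (Ac br J) x x‖ ^ 2 := by
    rw [← m03_norm M, psi_At M, norm_neg]
  have h2 : ‖M.g.A (M.ψ x) (M.ψ x)‖ ^ 2 = ‖Ac br J x x‖ ^ 2 := by
    rw [← m03_norm M, M.ψA, norm_neg]
  have h3 : (⟪M.ψ x, M.g.D (M.g.A (M.ψ x) (M.ψ x)) (M.ψ x)⟫_ℂ).re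
      = ⟪Ac br J (Ac br J x x) x, x⟫_ℝ := by
    rw [← M.inn, M.ψA, M.ψA, map_neg, LinearMap.neg_apply, neg_neg, M.g.inner_D_right]
  unfold HLA.H Qf
  rw [h1, h2, h3]

end Pool.Agent.Lib.CSol
end

section

open scoped InnerProductSpace ComplexConjugate TensorProduct

namespace Pool.Agent.Lib.CSol

open Pool.Agent.Lib.MP_a150d7_gt Pool.Agent.Lib.ThZ

variable {E : Type*} [NormedAddCommGroup E] [InnerProductSpace ℝ E] [FiniteDimensional ℝ E]

/-- The real trace as a sum over a complex basis. -/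
private theorem M04_trace_sum {W : Type*} [NormedAddCommGroup W] [InnerProductSpace ℂ W]
    {n : ℕ} (b : OrthonormalBasis (Fin n) ℂ W) (T : W →ₗ[ℝ] W) :
    LinearMap.trace ℝ W T = ∑ j, ((⟪b j, T (b j)⟫_ℂ).re + (⟪b j, T (Complex.I • b j)⟫_ℂ).im) := by
  rw [LinearMap.trace_eq_matrix_trace ℝ (Complex.basisOneI.smulTower b.toBasis), Matrix.trace,
    Fintype.sum_prod_type_right]
  refine Finset.sum_congr rfl fun j _ => ?_
  simp only [Fin.sum_univ_two, Matrix.diag_apply, LinearMap.toMatrix_apply,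
    Module.Basis.smulTower_apply, Module.Basis.smulTower_repr, OrthonormalBasis.coe_toBasis,
    OrthonormalBasis.coe_toBasis_repr_apply, OrthonormalBasis.repr_apply_apply,
    Complex.coe_basisOneI, Complex.coe_basisOneI_repr, Matrix.cons_val_zero, Matrix.cons_val_one,
    one_smul]

private theorem M04_linear {W : Type*} [NormedAddCommGroup W] [InnerProductSpace ℂ W]
    {n : ℕ} (b : OrthonormalBasis (Fin n) ℂ W) (T : W →ₗ[ℝ] W) (S : W →ₗ[ℂ] W)
    (h : ∀ x, T x = S x) : LinearMap.trace ℝ W T = 2 * (LinearMap.trace ℂ W S).re := by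
  rw [M04_trace_sum b T, LinearMap.trace_eq_sum_inner S b, Complex.re_sum, Finset.mul_sum]
  refine Finset.sum_congr rfl fun j _ => ?_
  rw [h, h, map_smul, inner_smul_right, Complex.mul_im, Complex.I_re, Complex.I_im]
  ring

private theorem M04_anti {W : Type*} [NormedAddCommGroup W] [InnerProductSpace ℂ W]
    {n : ℕ} (b : OrthonormalBasis (Fin n) ℂ W) (T : W →ₗ[ℝ] W)
    (h : ∀ x, T (Complex.I • x) = -(Complex.I • T x)) : LinearMap.trace ℝ W T = 0 := by
  rw [M04_trace_sum b T]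
  refine Finset.sum_eq_zero fun j _ => ?_
  rw [h, inner_neg_right, inner_smul_right, Complex.neg_im, Complex.mul_im, Complex.I_re,
    Complex.I_im]
  ring

/-- TASK M04. Unimodularity. For `x : E`, the real linear map `ψ ∘ br x ∘ ψ⁻¹` of `ℂ^n` is
`T₁ + T₂ - T₃`, `T₁ = g.br (ψ x)` and `T₃ = g.A (ψ x)` complex linear, `T₂ y = g.A y (ψ x)`
antilinear. The real trace of a complex linear map is `2 re` of its complex trace
(`LinearMap.trace_restrictScalars`/`Complex` or `Frame.trace_linear` in `ThZ/Z15*`), that of an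
antilinear map is `0` (`T = -I T I`, trace of `I T I` = trace of `T I I = -trace T`...). Hence
`re tr (g.br v) = re tr (g.A v) = re tr (g.D v)` for all `v` (`tr (g.D v) = conj (tr (g.A v))`).
Replace `v` by `I • v`: the imaginary parts agree too. -/
theorem model_uni {br : E →ₗ[ℝ] E →ₗ[ℝ] E} {J : E →ₗ[ℝ] E} {n : ℕ} (M : Model br J n)
    (huni : ∀ x, LinearMap.trace ℝ E (br x) = 0) : M.g.Uni := by
  set b := EuclideanSpace.basisFun (Fin n) ℂ with hb
  -- the real parts of the traces of `br v` and `A v` agree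
  have key : ∀ v, (LinearMap.trace ℂ _ (M.g.br v)).re = (LinearMap.trace ℂ _ (M.g.A v)).re := by
    intro v
    obtain ⟨x, rfl⟩ := M.ψ.surjective v
    let T₁ : EuclideanSpace ℂ (Fin n) →ₗ[ℝ] EuclideanSpace ℂ (Fin n) :=
      (M.g.br (M.ψ x)).restrictScalars ℝ
    let T₃ : EuclideanSpace ℂ (Fin n) →ₗ[ℝ] EuclideanSpace ℂ (Fin n) :=
      (M.g.A (M.ψ x)).restrictScalars ℝ
    let T₂ : EuclideanSpace ℂ (Fin n) →ₗ[ℝ] EuclideanSpace ℂ (Fin n) :=
      { toFun := fun y => M.g.A y (M.ψ x)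
        map_add' := fun y z => by rw [map_add, LinearMap.add_apply]
        map_smul' := fun c y => by
          rw [← Complex.coe_smul, LinearMap.map_smulₛₗ, LinearMap.smul_apply, Complex.conj_ofReal,
            RingHom.id_apply, Complex.coe_smul] }
    have h1 : M.ψ.conj (br x) = T₁ + T₂ - T₃ := by
      ext1 y
      rw [LinearEquiv.conj_apply_apply, M.ψb, LinearEquiv.apply_symm_apply]
      rfl
    have h2 : LinearMap.trace ℝ _ (M.ψ.conj (br x)) = 0 := by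
      rw [LinearMap.trace_conj', huni]
    rw [h1, map_sub, map_add, M04_linear b T₁ (M.g.br (M.ψ x)) (fun _ => rfl),
      M04_linear b T₃ (M.g.A (M.ψ x)) (fun _ => rfl), M04_anti b T₂ (fun y => by
        show M.g.A (Complex.I • y) (M.ψ x) = -(Complex.I • M.g.A y (M.ψ x))
        rw [LinearMap.map_smulₛₗ, LinearMap.smul_apply, Complex.conj_I, neg_smul])] at h2
    linarith
  have hD : ∀ v, LinearMap.trace ℂ _ (M.g.D v) = conj (LinearMap.trace ℂ _ (M.g.A v)) := by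
    intro v
    rw [LinearMap.trace_eq_sum_inner _ b, LinearMap.trace_eq_sum_inner _ b, map_sum]
    refine Finset.sum_congr rfl fun j _ => ?_
    rw [HLA.inner_D_right, inner_conj_symm]
  have key2 : ∀ v, (LinearMap.trace ℂ _ (M.g.br v)).re = (LinearMap.trace ℂ _ (M.g.D v)).re := by
    intro v
    rw [key, hD, Complex.conj_re]
  intro v
  refine Complex.ext (key2 v) ?_
  have h3 := key2 (Complex.I • v)
  rw [map_smul, map_smul, map_smul, map_smul, smul_eq_mul, smul_eq_mul, Complex.mul_re,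
    Complex.mul_re, Complex.I_re, Complex.I_im] at h3
  linarith

end Pool.Agent.Lib.CSol
end

section

open scoped InnerProductSpace ComplexConjugate TensorProduct

namespace Pool.Agent.Lib.CSol

open Pool.Agent.Lib.MP_a150d7_gt Pool.Agent.Lib.ThZ

variable {E : Type*} [NormedAddCommGroup E] [InnerProductSpace ℝ E] [FiniteDimensional ℝ E]

/-- TASK M06. Flatness of the model gives flatness of the connection `D x y = Ac x y - At x y`.
Apply `ψ`: with `M x = g.D x - g.A x` (in the model) the claim is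
`M x (M y z) - M y (M x z) - M ⟦x, y⟧ z = 0`, `⟦x, y⟧ = br x y + A y x - A x y`:
`D (A y x) = 0` (adjoint of `kill`: `⟪D (A y x) z, w⟫ = ⟪z, A (A y x) w⟫ = 0`), `A (A y x) = 0`,
`D (br x y) = [D x, D y]` (`HLA.D_br`), `A (br x y) = [A y, A x]` (`rep`),
`[D x, A y] = 0` (`comm`). -/
theorem model_flat {br : E →ₗ[ℝ] E →ₗ[ℝ] E} {J : E →ₗ[ℝ] E} {n : ℕ} (M : Model br J n)
    (hf : M.g.Flat) (x y z : E) :
    (Ac br J x (Ac br J y z - At (Ac br J) y z) - At (Ac br J) x (Ac br J y z - At (Ac br J) y z))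
    - (Ac br J y (Ac br J x z - At (Ac br J) x z)
        - At (Ac br J) y (Ac br J x z - At (Ac br J) x z))
    - (Ac br J (br x y) z - At (Ac br J) (br x y) z) = 0 := by
  have hD : ∀ a b c : EuclideanSpace ℂ (Fin n), M.g.D (M.g.A b a) c = 0 := by
    intro a b c
    refine ext_inner_right ℂ fun w => ?_
    rw [HLA.inner_D_left, hf.kill, inner_zero_right, inner_zero_left]
  have key : ∀ a b : E, M.ψ (Ac br J a b - At (Ac br J) a b)
      = M.g.D (M.ψ a) (M.ψ b) - M.g.A (M.ψ a) (M.ψ b) := by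
    intro a b
    rw [map_sub, M.ψA, psi_At]
    abel
  apply M.ψ.injective
  rw [map_zero, map_sub, map_sub, key, key, key, key, key, M.ψb]
  simp only [map_add, map_sub, LinearMap.add_apply, LinearMap.sub_apply, HLA.D_br, M.g.rep,
    hf.kill, hD, hf.comm]
  abel

end Pool.Agent.Lib.CSol
end

section

open scoped InnerProductSpace ComplexConjugate

namespace Pool.Agent.Lib.CSol

namespace HLA

variable {V : Type*} [NormedAddCommGroup V] [InnerProductSpace ℂ V] (h : HLA V)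
  [FiniteDimensional ℂ V]

private theorem e05_A (η θ : V) (z : ℂ) (x : V) :
    h.A (z • η + conj z • θ) x = conj z • h.A η x + z • h.A θ x := by
  rw [map_add, LinearMap.map_smulₛₗ, LinearMap.map_smulₛₗ]
  simp only [LinearMap.add_apply, LinearMap.smul_apply, Complex.conj_conj]

private theorem e05_p (m m' η θ : V) (hw : h.IsWt m m' η θ) (z : ℂ) (x : V) :
    h.br x (z • η + conj z • θ) + h.A (z • η + conj z • θ) x =
      (z * ⟪m, x⟫_ℂ) • η + (conj z * ⟪m', x⟫_ℂ) • θ := by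
  rw [e05_A, map_add, map_smul, map_smul, hw.w3, hw.w4]
  module

private theorem e05_pol (hH : ∀ x, h.H x ≤ 0) (m m' η θ : V) (hw : h.IsWt m m' η θ)
    (hv : WtV m m' η θ) (a b c d : ℂ) :
    h.D (a • η + b • θ) (c • η + d • θ) = -h.D (c • η + d • θ) (a • η + b • θ) := by
  have h1 := h.wt_Dvv hH m m' η θ hw hv a b
  have h2 := h.wt_Dvv hH m m' η θ hw hv c d
  have h3 := h.wt_Dvv hH m m' η θ hw hv (a + c) (b + d)
  have e : (a + c) • η + (b + d) • θ = (a • η + b • θ) + (c • η + d • θ) := by module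
  rw [e] at h3
  generalize a • η + b • θ = p at *
  generalize c • η + d • θ = v at *
  rw [map_add, map_add, LinearMap.add_apply, LinearMap.add_apply, h1, h2, zero_add, add_zero] at h3
  exact eq_neg_of_add_eq_zero_right h3

/-- TASK E05. Let `v = z • η + conj z • θ`, `T = A v = conj z • A η + z • A θ`. Then for `x : V`,
`p = br x v + A v x = (z * ⟪m, x⟫) • η + (conj z * ⟪m', x⟫) • θ` (`w3`, `w4`), and
`D p v = - D v p` (polarise `wt_Dvv`), so
`D (A v x) v = D (p - br x v) v = D p v - D x (D v v) + D v (D x v) = D v (D x v - p)`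
(`D_br`, `wt_Dvv`). -/
theorem wt_DAv (hH : ∀ x, h.H x ≤ 0) (m m' η θ : V) (hw : h.IsWt m m' η θ)
    (hv : WtV m m' η θ) (z : ℂ) (x : V) :
    h.D (h.A (z • η + conj z • θ) x) (z • η + conj z • θ) =
      h.D (z • η + conj z • θ) (h.D x (z • η + conj z • θ) -
        ((z * ⟪m, x⟫_ℂ) • η + (conj z * ⟪m', x⟫_ℂ) • θ)) := by
  have h1 := h.e05_p m m' η θ hw z x
  have h2 := h.e05_pol hH m m' η θ hw hv (z * ⟪m, x⟫_ℂ) (conj z * ⟪m', x⟫_ℂ) z (conj z)
  have h3 := h.wt_Dvv hH m m' η θ hw hv z (conj z)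
  generalize (z * ⟪m, x⟫_ℂ) • η + (conj z * ⟪m', x⟫_ℂ) • θ = p at *
  generalize z • η + conj z • θ = v at *
  have h4 : h.A v x = p - h.br x v := by rw [← h1]; abel
  rw [h4, map_sub, LinearMap.sub_apply, h2, h.D_br, h3, map_zero, map_sub]
  abel

/-- Iterate: with `v` as above and `k ≥ 0`,
`D ((A v)^(k+1) x) v = (D v)^(k+1) (D x v - p x)`. Induction on `k`: for `y = (A v)^k x`, `k ≥ 1`,
`⟪m, y⟫ = ⟪m', y⟫ = 0` (`wt_mA`), so `p y = 0`. -/
theorem wt_DAv_pow (hH : ∀ x, h.H x ≤ 0) (m m' η θ : V) (hm : h.IsChar2 m m')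
    (hw : h.IsWt m m' η θ) (hv : WtV m m' η θ) (z : ℂ) (x : V) (k : ℕ) :
    h.D ((h.A (z • η + conj z • θ) ^ (k + 1)) x) (z • η + conj z • θ) =
      (h.D (z • η + conj z • θ) ^ (k + 1)) (h.D x (z • η + conj z • θ) -
        ((z * ⟪m, x⟫_ℂ) • η + (conj z * ⟪m', x⟫_ℂ) • θ)) := by
  induction k with
  | zero =>
    rw [zero_add, pow_one, pow_one]
    exact h.wt_DAv hH m m' η θ hw hv z x
  | succ k ih =>
    have h1 := h.wt_DAv hH m m' η θ hw hv z ((h.A (z • η + conj z • θ) ^ (k + 1)) x)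
    have hy : (h.A (z • η + conj z • θ) ^ (k + 1)) x =
        h.A (z • η + conj z • θ) ((h.A (z • η + conj z • θ) ^ k) x) := by
      rw [pow_succ']
      rfl
    have hA := h.wt_mA m m' η θ hm hw hv ((h.A (z • η + conj z • θ) ^ k) x)
    have m1 : ⟪m, (h.A (z • η + conj z • θ) ^ (k + 1)) x⟫_ℂ = 0 := by
      rw [hy, e05_A, inner_add_right, inner_smul_right, inner_smul_right, hA.1, hA.2.2.1, mul_zero,
        mul_zero, add_zero]
    have m2 : ⟪m', (h.A (z • η + conj z • θ) ^ (k + 1)) x⟫_ℂ = 0 := by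
      rw [hy, e05_A, inner_add_right, inner_smul_right, inner_smul_right, hA.2.1, hA.2.2.2, mul_zero,
        mul_zero, add_zero]
    rw [m1, m2, mul_zero, mul_zero, zero_smul, zero_smul, add_zero, sub_zero, ih] at h1
    rw [pow_succ' (h.A (z • η + conj z • θ)), pow_succ' (h.D (z • η + conj z • θ))]
    exact h1

end HLA

end Pool.Agent.Lib.CSol
end
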