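import Pool.Agent.Lib.CSol.Mg.G004
import Pool.Agent.Lib.CSol.Mg.G005

section

open scoped InnerProductSpace ComplexConjugate

namespace Pool.Agent.Lib.CSol

namespace HLA

variable {V : Type*} [NormedAddCommGroup V] [InnerProductSpace ℂ V] (h : HLA V)
  [FiniteDimensional ℂ V]

/-- TASK A08. Trace of `h.j1` over `K l`. Here `A x (u i) ∈ K l` for all `i` (`hx`). Proof: take the
inner product of `h.j1 x (u i) x` with `u i` and sum over `i`; note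
`- br (u i) (A x x) = br (A x x) (u i)` (`br_skew`). Expand
`br x (u i) = ∑ k ⟪u k, br x (u i)⟫ u k + ∑ j ⟪w j, br x (u i)⟫ w j` (`F.expand`) in
`⟪u i, A x (br x (u i))⟫` and `A x (u i) = ∑ k ⟪u k, A x (u i)⟫ u k` (`Frame.expand_K`) in
`⟪u i, br x (A x (u i))⟫`; the double sums over `i, k` cancel after renaming
(`Finset.sum_comm`). -/
theorem j1_trace (l : V) (hl : h.IsChar l) {p q : ℕ} (F : h.Frame l p q) (x : V)
    (hx : ∀ i, h.A x (F.u i) ∈ h.K l) :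
    ∑ i, ∑ j, ⟪F.w j, h.br x (F.u i)⟫_ℂ * ⟪F.u i, h.A x (F.w j)⟫_ℂ =
      ∑ i, ⟪F.u i, h.br (h.A x x) (F.u i)⟫_ℂ - ∑ i, ⟪F.u i, h.A (h.A (F.u i) x) x⟫_ℂ
        + ∑ i, ⟪F.u i, h.A (h.A x x) (F.u i)⟫_ℂ := by
  have h1 : ∀ i, ⟪F.u i, h.A x (h.br x (F.u i))⟫_ℂ =
      ∑ k, ⟪F.u k, h.br x (F.u i)⟫_ℂ * ⟪F.u i, h.A x (F.u k)⟫_ℂ
        + ∑ j, ⟪F.w j, h.br x (F.u i)⟫_ℂ * ⟪F.u i, h.A x (F.w j)⟫_ℂ := by
    intro i
    conv_lhs => rw [F.expand (h.br x (F.u i))]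
    rw [map_add, map_sum, map_sum, inner_add_right, inner_sum, inner_sum]
    simp only [map_smul, inner_smul_right]
  have h2 : ∀ i, ⟪F.u i, h.br x (h.A x (F.u i))⟫_ℂ =
      ∑ k, ⟪F.u k, h.A x (F.u i)⟫_ℂ * ⟪F.u i, h.br x (F.u k)⟫_ℂ := by
    intro i
    conv_lhs => rw [Frame.expand_K h l hl F (hx i)]
    rw [map_sum, inner_sum]
    simp only [map_smul, inner_smul_right]
  have h3 : ∀ i, ⟪F.u i, h.A x (h.br x (F.u i))⟫_ℂ = ⟪F.u i, h.br x (h.A x (F.u i))⟫_ℂ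
      + ⟪F.u i, h.br (h.A x x) (F.u i)⟫_ℂ - ⟪F.u i, h.A (h.A (F.u i) x) x⟫_ℂ
      + ⟪F.u i, h.A (h.A x x) (F.u i)⟫_ℂ := by
    intro i
    rw [h.j1 x (F.u i) x, h.br_skew (F.u i) (h.A x x), inner_add_right, inner_sub_right,
      inner_sub_right, inner_neg_right]
    ring
  have h4 : ∑ i, ∑ k, ⟪F.u k, h.br x (F.u i)⟫_ℂ * ⟪F.u i, h.A x (F.u k)⟫_ℂ =
      ∑ i, ∑ k, ⟪F.u k, h.A x (F.u i)⟫_ℂ * ⟪F.u i, h.br x (F.u k)⟫_ℂ := by
    rw [Finset.sum_comm]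
    refine Finset.sum_congr rfl fun i _ => Finset.sum_congr rfl fun k _ => ?_
    rw [mul_comm]
  have h5 : ∑ i, ⟪F.u i, h.A x (h.br x (F.u i))⟫_ℂ =
      ∑ i, ∑ k, ⟪F.u k, h.br x (F.u i)⟫_ℂ * ⟪F.u i, h.A x (F.u k)⟫_ℂ
        + ∑ i, ∑ j, ⟪F.w j, h.br x (F.u i)⟫_ℂ * ⟪F.u i, h.A x (F.w j)⟫_ℂ := by
    rw [← Finset.sum_add_distrib]
    exact Finset.sum_congr rfl fun i _ => h1 i
  have h6 : ∑ i, ⟪F.u i, h.A x (h.br x (F.u i))⟫_ℂ =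
      ∑ i, ∑ k, ⟪F.u k, h.A x (F.u i)⟫_ℂ * ⟪F.u i, h.br x (F.u k)⟫_ℂ
      + ∑ i, ⟪F.u i, h.br (h.A x x) (F.u i)⟫_ℂ - ∑ i, ⟪F.u i, h.A (h.A (F.u i) x) x⟫_ℂ
      + ∑ i, ⟪F.u i, h.A (h.A x x) (F.u i)⟫_ℂ := by
    rw [← Finset.sum_add_distrib, ← Finset.sum_sub_distrib, ← Finset.sum_add_distrib]
    refine Finset.sum_congr rfl fun i _ => ?_
    rw [h3 i, h2 i]
  rw [h5, h4] at h6
  linear_combination h6

end HLA

end Pool.Agent.Lib.CSol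
end

section

open scoped InnerProductSpace ComplexConjugate

namespace Pool.Agent.Lib.CSol

namespace HLA

variable {V : Type*} [NormedAddCommGroup V] [InnerProductSpace ℂ V] (h : HLA V)
  [FiniteDimensional ℂ V]

private theorem b01_A (l : V) (hl : h.IsChar l) (a b z : V) :
    ⟪h.D (h.A a b) l, z⟫_ℂ = ⟪b, h.D a (h.D z l)⟫_ℂ := by
  rw [hl.sym, h.inner_D_right a (h.D z l) b]

private theorem b01_comm (l a z : V) :
    h.D a (h.D z l) = h.D z (h.D a l) + h.D (h.br a z) l := by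
  rw [h.D_br]
  abel

/-- TASK B01. Facts for `x` with `D x l = l`.
(1) `u ∈ K l → br x u ∈ K l`: `D (br x u) l = D x (D u l) - D u (D x l) = 0 - D u l = 0`.
(2) `u ∈ K l → A x u ∈ K l`: for all `z`, `⟪D (A x u) l, z⟫ = ⟪A x u, D z l⟫ = ⟪u, D x (D z l)⟫`
    (`hl.sym`, adjoint), `D x (D z l) = D z (D x l) + D (br x z) l = D z l + D (br x z) l`, and
    `⟪u, D z l⟫ = ⟪D u l, z⟫ = 0`, `⟪u, D (br x z) l⟫ = ⟪D u l, br x z⟫ = 0`.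
(3) `u ∈ K l → A u x ∈ K l`: `⟪D (A u x) l, z⟫ = ⟪A u x, D z l⟫ = ⟪x, D u (D z l)⟫`,
    `D u (D z l) = D z (D u l) + D (br u z) l = D (br u z) l`,
    `⟪x, D (br u z) l⟫ = ⟪D x l, br u z⟫ = ⟪l, br u z⟫ = 0` (`hl.br`).
(4) `D (A x x) l = l`: for all `z`, `⟪D (A x x) l, z⟫ = ⟪A x x, D z l⟫ = ⟪x, D x (D z l)⟫
    = ⟪x, D z l + D (br x z) l⟫ = ⟪D x l, z⟫ + ⟪D x l, br x z⟫ = ⟪l, z⟫ + 0`. -/
theorem step2_facts (l : V) (hl : h.IsChar l) (x : V) (hx : h.D x l = l) :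
    (∀ u ∈ h.K l, h.br x u ∈ h.K l) ∧ (∀ u ∈ h.K l, h.A x u ∈ h.K l) ∧
      (∀ u ∈ h.K l, h.A u x ∈ h.K l) ∧ h.D (h.A x x) l = l := by
  refine ⟨fun u hu => ?_, fun u hu => ?_, fun u hu => ?_, ?_⟩
  · rw [mem_K] at hu ⊢
    rw [h.D_br, hu, hx, hu, map_zero, sub_zero]
  · rw [mem_K] at hu ⊢
    refine ext_inner_right ℂ fun z => ?_
    rw [h.b01_A l hl, h.b01_comm, hx, inner_add_right, ← hl.sym, ← hl.sym, hu, inner_zero_left,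
      inner_zero_left, add_zero]
  · rw [mem_K] at hu ⊢
    refine ext_inner_right ℂ fun z => ?_
    rw [h.b01_A l hl, h.b01_comm, hu, map_zero, zero_add, ← hl.sym, hx, hl.br, inner_zero_left]
  · refine ext_inner_right ℂ fun z => ?_
    rw [h.b01_A l hl, h.b01_comm, hx, inner_add_right, ← hl.sym, ← hl.sym, hx, hl.br, add_zero]

end HLA

end Pool.Agent.Lib.CSol
end

section

open scoped InnerProductSpace ComplexConjugate

namespace Pool.Agent.Lib.CSol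

namespace HLA

variable {V : Type*} [NormedAddCommGroup V] [InnerProductSpace ℂ V] (h : HLA V)
  [FiniteDimensional ℂ V]

/-- TASK B02. Trace identity of Step 2. Put `z = A x x`; `D z l = l` (`step2_facts`).
`j1_trace` for `x`: its left side is `0` because `br x (u i) ∈ K l`, so `⟪w j, br x (u i)⟫ = 0`
(`Frame.mem_iff`). `star_trace` at `z`:
`∑ ⟪u i, br z (u i)⟫ = ∑ ⟪u i, D z (u i)⟫ + ∑ j, (beta j)⁻¹ ⟪w j, D (w j) l⟫ = ... + q`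
(`F.Bw`, `F.ww`). `⟪u i, A (A (u i) x) x⟫ = conj ⟪x, D (A (u i) x) (u i)⟫ = -‖A (u i) x‖²`
(`nice_anti_self` with `v = A (u i) x ∈ K l`). `⟪u i, A z (u i)⟫ = conj ⟪u i, D z (u i)⟫`.
Take real parts. -/
theorem step2_trace (hu : h.Uni) (l : V) (hl : h.IsChar l) {p q : ℕ} (F : h.Frame l p q)
    (N : h.Nice (h.K l)) (x : V) (hx : h.D x l = l) (hxp : x ∈ (h.K l)ᗮ) :
    2 * (∑ i, ⟪F.u i, h.D (h.A x x) (F.u i)⟫_ℂ).re =
      -(∑ i, ‖h.A (F.u i) x‖ ^ 2) - (q : ℝ) := by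
  obtain ⟨f1, f2, f3, f4⟩ := h.step2_facts l hl x hx
  have hj := h.j1_trace l hl F x (fun i => f2 _ (Frame.u_mem h l F i))
  have h0 : ∑ i, ∑ j, ⟪F.w j, h.br x (F.u i)⟫_ℂ * ⟪F.u i, h.A x (F.w j)⟫_ℂ = 0 := by
    refine Finset.sum_eq_zero fun i _ => Finset.sum_eq_zero fun j _ => ?_
    rw [(Frame.mem_iff h l hl F _).1 (f1 _ (Frame.u_mem h l F i)) j, zero_mul]
  have hs := h.star_trace hu l hl F (h.A x x)
  have hq : ∑ j, ((F.beta j : ℂ))⁻¹ * ⟪F.w j, h.D (F.w j) (h.D (h.A x x) l)⟫_ℂ = (q : ℂ) := by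
    have : ∀ j, ((F.beta j : ℂ))⁻¹ * ⟪F.w j, h.D (F.w j) (h.D (h.A x x) l)⟫_ℂ = 1 := by
      intro j
      have hb : (F.beta j : ℂ) ≠ 0 := by exact_mod_cast F.beta_ne j
      rw [f4, F.Bw, inner_smul_right, F.ww, if_pos rfl, mul_one, inv_mul_cancel₀ hb]
    rw [Finset.sum_congr rfl fun j _ => this j]
    simp
  have hA : ∑ i, ⟪F.u i, h.A (h.A (F.u i) x) x⟫_ℂ
      = ((-(∑ i, ‖h.A (F.u i) x‖ ^ 2) : ℝ) : ℂ) := by
    rw [Complex.ofReal_neg, Complex.ofReal_sum, ← Finset.sum_neg_distrib]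
    refine Finset.sum_congr rfl fun i _ => ?_
    have hi := Frame.u_mem h l F i
    have h1 := h.nice_anti_self l N hi (f3 _ hi) hxp rfl
    rw [← inner_conj_symm, ← h.inner_D_right, h1, map_neg, Complex.conj_ofReal]
  have hC : ∑ i, ⟪F.u i, h.A (h.A x x) (F.u i)⟫_ℂ
      = conj (∑ i, ⟪F.u i, h.D (h.A x x) (F.u i)⟫_ℂ) := by
    rw [map_sum]
    refine Finset.sum_congr rfl fun i _ => ?_
    rw [h.inner_D_right, inner_conj_symm]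
  rw [h0, hs, hq, hA, hC] at hj
  have hre := congrArg Complex.re hj
  simp only [Complex.zero_re, Complex.add_re, Complex.sub_re, Complex.conj_re, Complex.ofReal_re,
    Complex.natCast_re] at hre
  linarith

end HLA

end Pool.Agent.Lib.CSol
end
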