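import Pool.Agent.Lib.CSol.Mg.G004

section

open scoped InnerProductSpace ComplexConjugate

namespace Pool.Agent.Lib.CSol

namespace HLA

variable {V : Type*} [NormedAddCommGroup V] [InnerProductSpace ℂ V] (h : HLA V)
  [FiniteDimensional ℂ V]

/-- TASK C02. For `u ∈ K l`: `∑ j ⟪w j, A u (br u (w j))⟫ = ∑ j ⟪w j, br u (A u (w j))⟫`.
Proof: expand `br u (w j)` and `A u (w j)` with `F.expand`. The `u i`-components drop out:
`A u (u i) ∈ K l` and `br u (u i) ∈ K l` (`K_A`, `K_br`) are orthogonal to `w j`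
(`Frame.mem_iff`). The double sums over the `w k`-components agree after `Finset.sum_comm`:
`∑ j k ⟪w k, br u (w j)⟫ ⟪w j, A u (w k)⟫`. -/
theorem comm_trace_w (l : V) (hl : h.IsChar l) {p q : ℕ} (F : h.Frame l p q) {u : V}
    (hu : u ∈ h.K l) :
    ∑ j, ⟪F.w j, h.A u (h.br u (F.w j))⟫_ℂ = ∑ j, ⟪F.w j, h.br u (h.A u (F.w j))⟫_ℂ := by
  have hA : ∀ j i, ⟪F.w j, h.A u (F.u i)⟫_ℂ = 0 := fun j i =>
    (Frame.mem_iff h l hl F _).mp (h.K_A l hl hu (Frame.u_mem h l F i)) j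
  have hB : ∀ j i, ⟪F.w j, h.br u (F.u i)⟫_ℂ = 0 := fun j i =>
    (Frame.mem_iff h l hl F _).mp (h.K_br l hu (Frame.u_mem h l F i)) j
  have hL : ∀ (T : V →ₗ[ℂ] V) (_ : ∀ j i, ⟪F.w j, T (F.u i)⟫_ℂ = 0) (j : Fin q) (y : V),
      ⟪F.w j, T y⟫_ℂ = ∑ k, ⟪F.w k, y⟫_ℂ * ⟪F.w j, T (F.w k)⟫_ℂ := by
    intro T hT j y
    conv_lhs => rw [F.expand y]
    rw [map_add, inner_add_right, map_sum, map_sum, inner_sum, inner_sum]
    have h0 : ∑ i, ⟪F.w j, T (⟪F.u i, y⟫_ℂ • F.u i)⟫_ℂ = 0 := by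
      refine Finset.sum_eq_zero fun i _ => ?_
      rw [map_smul, inner_smul_right, hT, mul_zero]
    rw [h0, zero_add]
    refine Finset.sum_congr rfl fun k _ => ?_
    rw [map_smul, inner_smul_right]
  have e1 : ∀ j, ⟪F.w j, h.A u (h.br u (F.w j))⟫_ℂ =
      ∑ k, ⟪F.w k, h.br u (F.w j)⟫_ℂ * ⟪F.w j, h.A u (F.w k)⟫_ℂ := fun j =>
    hL (h.A u) hA j _
  have e2 : ∀ j, ⟪F.w j, h.br u (h.A u (F.w j))⟫_ℂ =
      ∑ k, ⟪F.w k, h.A u (F.w j)⟫_ℂ * ⟪F.w j, h.br u (F.w k)⟫_ℂ := fun j =>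
    hL (h.br u) hB j _
  rw [Finset.sum_congr rfl fun j _ => e1 j, Finset.sum_congr rfl fun j _ => e2 j,
    Finset.sum_comm]
  refine Finset.sum_congr rfl fun j _ => Finset.sum_congr rfl fun k _ => ?_
  exact mul_comm _ _

end HLA

end Pool.Agent.Lib.CSol
end

section

open scoped InnerProductSpace ComplexConjugate

namespace Pool.Agent.Lib.CSol

namespace HLA

variable {V : Type*} [NormedAddCommGroup V] [InnerProductSpace ℂ V] (h : HLA V)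
  [FiniteDimensional ℂ V]

/-- TASK C03. `∑ i j, ⟪w j, A (A (w j) (u i)) (u i)⟫ = 0`. Proof: take the inner product of
`h.j1 (u i) (w j) (u i)` with `w j`, sum over `j` and `i`:
`A (u i) (br (u i) (w j)) = br (u i) (A (u i) (w j)) - br (w j) (A (u i) (u i))
  - A (A (w j) (u i)) (u i) + A (A (u i) (u i)) (w j)`.
The first two terms cancel (`comm_trace_w`, `Frame.u_mem`), and the sums over `i` of the terms with
`A (u i) (u i)` vanish (`frame_zeta`). -/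
theorem s_trace (l : V) (hl : h.IsChar l) {p q : ℕ} (F : h.Frame l p q)
    (N : h.Nice (h.K l)) :
    ∑ i, ∑ j, ⟪F.w j, h.A (h.A (F.w j) (F.u i)) (F.u i)⟫_ℂ = 0 := by
  have hz : ∑ i, h.A (F.u i) (F.u i) = 0 := h.frame_zeta l hl F N
  have key : ∀ i j, ⟪F.w j, h.A (h.A (F.w j) (F.u i)) (F.u i)⟫_ℂ =
      ⟪F.w j, h.br (F.u i) (h.A (F.u i) (F.w j))⟫_ℂ - ⟪F.w j, h.A (F.u i) (h.br (F.u i) (F.w j))⟫_ℂ
        - ⟪F.w j, h.br (F.w j) (h.A (F.u i) (F.u i))⟫_ℂ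
        + ⟪F.w j, h.A (h.A (F.u i) (F.u i)) (F.w j)⟫_ℂ := by
    intro i j
    rw [h.j1 (F.u i) (F.w j) (F.u i)]
    simp only [inner_add_right, inner_sub_right]
    ring
  have h1 : ∀ i, ∑ j, (⟪F.w j, h.br (F.u i) (h.A (F.u i) (F.w j))⟫_ℂ
      - ⟪F.w j, h.A (F.u i) (h.br (F.u i) (F.w j))⟫_ℂ) = 0 := by
    intro i
    rw [Finset.sum_sub_distrib, sub_eq_zero]
    exact (h.comm_trace_w l hl F (Frame.u_mem h l F i)).symm
  have h2 : ∀ j, ∑ i, ⟪F.w j, h.br (F.w j) (h.A (F.u i) (F.u i))⟫_ℂ = 0 := by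
    intro j
    rw [← inner_sum, ← map_sum, hz, map_zero, inner_zero_right]
  have h3 : ∀ j, ∑ i, ⟪F.w j, h.A (h.A (F.u i) (F.u i)) (F.w j)⟫_ℂ = 0 := by
    intro j
    have h4 : ∑ i, h.A (h.A (F.u i) (F.u i)) (F.w j) = 0 := by
      have h5 : h.A (∑ i, h.A (F.u i) (F.u i)) (F.w j) = 0 := by
        rw [hz, map_zero, LinearMap.zero_apply]
      rw [map_sum, LinearMap.sum_apply] at h5
      exact h5
    rw [← inner_sum, h4, inner_zero_right]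
  simp only [key, Finset.sum_add_distrib]
  have h5 : ∑ i, ∑ j, (⟪F.w j, h.br (F.u i) (h.A (F.u i) (F.w j))⟫_ℂ
      - ⟪F.w j, h.A (F.u i) (h.br (F.u i) (F.w j))⟫_ℂ
      - ⟪F.w j, h.br (F.w j) (h.A (F.u i) (F.u i))⟫_ℂ) = 0 := by
    have h6 : ∀ i, ∑ j, (⟪F.w j, h.br (F.u i) (h.A (F.u i) (F.w j))⟫_ℂ
      - ⟪F.w j, h.A (F.u i) (h.br (F.u i) (F.w j))⟫_ℂ
      - ⟪F.w j, h.br (F.w j) (h.A (F.u i) (F.u i))⟫_ℂ) =
        - ∑ j, ⟪F.w j, h.br (F.w j) (h.A (F.u i) (F.u i))⟫_ℂ := by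
      intro i
      rw [Finset.sum_sub_distrib, h1, zero_sub]
    rw [Finset.sum_congr rfl fun i _ => h6 i, Finset.sum_neg_distrib, Finset.sum_comm,
      Finset.sum_eq_zero fun j _ => h2 j, neg_zero]
  rw [h5, zero_add, Finset.sum_comm]
  exact Finset.sum_eq_zero fun j _ => h3 j

end HLA

end Pool.Agent.Lib.CSol
end
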