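import Pool.Agent.Lib.CSol.Mg.G004
import Pool.Agent.Lib.CSol.Mg.G005
import Pool.Agent.Lib.CSol.Mg.G006
import Pool.Agent.Lib.CSol.Mg.G003
import Pool.Agent.Lib.CSol.Mg.G008

section

open scoped InnerProductSpace ComplexConjugate

namespace Pool.Agent.Lib.CSol

namespace HLA

variable {V : Type*} [NormedAddCommGroup V] [InnerProductSpace ℂ V] (h : HLA V)
  [FiniteDimensional ℂ V]

/-- TASK B03. Sum of `E2_point` over the frame of `K l`. `A x` maps `K l` to itself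
(`step2_facts`), so the terms `∑ i k ‖⟪u k, D x (u i)⟫‖²` and `∑ i ‖A x (u i)‖²` cancel (`hs_K`).
`∑ i ⟪A x x, A (u i) (u i)⟫ = 0` and `∑ i ⟪x, D (A (u i) (u i)) x⟫ = 0` (`frame_zeta`; `D` is
linear). `⟪x, D (A (u i) x) (u i)⟫ = -‖A (u i) x‖²` (`nice_anti_self`, `A (u i) x ∈ K l`).
`-2 re ∑ ⟪u i, D (A x x) (u i)⟫ = ∑ ‖A (u i) x‖² + q` (`step2_trace`). -/
theorem step2_sum (hu : h.Uni) (l : V) (hl : h.IsChar l) {p q : ℕ} (F : h.Frame l p q)
    (N : h.Nice (h.K l)) (x : V) (hx : h.D x l = l) (hxp : x ∈ (h.K l)ᗮ) :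
    ∑ i, h.E2 (F.u i) x =
      ∑ i, ‖h.D (F.u i) x + ∑ j, ⟪F.w j, h.D x (F.u i)⟫_ℂ • F.w j‖ ^ 2
        + 2 * ∑ i, ‖h.A (F.u i) x‖ ^ 2 + q := by
  obtain ⟨f1, f2, f3, f4⟩ := h.step2_facts l hl x hx
  have hm := fun i => Frame.u_mem h l F i
  have hz := h.frame_zeta l hl F N
  have hp : ∀ i, h.E2 (F.u i) x = ‖h.D (F.u i) x + ∑ j, ⟪F.w j, h.D x (F.u i)⟫_ℂ • F.w j‖ ^ 2
      + ∑ k, ‖⟪F.u k, h.D x (F.u i)⟫_ℂ‖ ^ 2 - ‖h.A x (F.u i)‖ ^ 2
      + ‖h.A (F.u i) x‖ ^ 2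
      - 2 * (⟪h.A x x, h.A (F.u i) (F.u i)⟫_ℂ).re
      - 2 * (⟪x, h.D (h.A (F.u i) (F.u i)) x⟫_ℂ).re
      - 2 * (⟪F.u i, h.D (h.A x x) (F.u i)⟫_ℂ).re := by
    intro i
    rw [h.E2_point l hl F (hm i) hxp (f2 _ (hm i)),
      h.nice_anti_self l N (hm i) (f3 _ (hm i)) hxp rfl, Complex.neg_re, Complex.ofReal_re]
    ring
  have ht := h.step2_trace hu l hl F N x hx hxp
  have hh := h.hs_K l hl F x (fun i => f2 _ (hm i))
  have z1 : ∑ i, (⟪h.A x x, h.A (F.u i) (F.u i)⟫_ℂ).re = 0 := by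
    rw [← Complex.re_sum, ← inner_sum, hz, inner_zero_right, Complex.zero_re]
  have z2 : ∑ i, (⟪x, h.D (h.A (F.u i) (F.u i)) x⟫_ℂ).re = 0 := by
    rw [← Complex.re_sum, ← inner_sum]
    have : ∑ i, h.D (h.A (F.u i) (F.u i)) x = h.D (∑ i, h.A (F.u i) (F.u i)) x := by
      rw [map_sum, LinearMap.sum_apply]
    rw [this, hz, map_zero, LinearMap.zero_apply, inner_zero_right, Complex.zero_re]
  rw [Complex.re_sum] at ht
  rw [Finset.sum_congr rfl fun i _ => hp i]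
  simp only [Finset.sum_add_distrib, Finset.sum_sub_distrib, ← Finset.mul_sum]
  rw [z1, z2, hh]
  linarith

end HLA

end Pool.Agent.Lib.CSol
end

section

open scoped InnerProductSpace ComplexConjugate

namespace Pool.Agent.Lib.CSol

namespace HLA

variable {V : Type*} [NormedAddCommGroup V] [InnerProductSpace ℂ V] (h : HLA V)
  [FiniteDimensional ℂ V]

/-- TASK B04. Step 2. Assume `l ≠ 0`. Replace `x` by its orthogonal projection `x'` to `(K l)ᗮ`
(`D x' l = D x l = l` since `x - x' ∈ K l`). Take a frame (`exists_frame`). Every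
`E2 (u i) x' ≤ 0` (`E2_nonpos`, `N.H0`, `Frame.u_mem`), so by `step2_sum` `q ≤ 0`, `q = 0`; then
`F.expand` shows `V = K l`, so `l = D x l = 0`, contradiction. -/
theorem step2 (hu : h.Uni) (hH : ∀ x, h.H x ≤ 0) (l : V) (hl : h.IsChar l)
    (N : h.Nice (h.K l)) (x : V) (hx : h.D x l = l) : l = 0 := by
  obtain ⟨y, hy, z, hz, hyz⟩ := Submodule.exists_add_mem_mem_orthogonal (K := h.K l) x
  have hzl : h.D z l = l := by
    have h1 : h.D y l = 0 := h.mem_K.mp hy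
    rw [hyz, map_add, LinearMap.add_apply, h1, zero_add] at hx
    exact hx
  obtain ⟨p, q, ⟨F⟩⟩ := h.exists_frame l hl
  have hs := h.step2_sum hu l hl F N z hzl hz
  have hle : ∑ i, h.E2 (F.u i) z ≤ 0 :=
    Finset.sum_nonpos fun i _ => h.E2_nonpos hH (F.u i) (N.H0 _ (h.mem_K.mpr (F.Bu i))) z
  have h1 : 0 ≤ ∑ i, ‖h.D (F.u i) z + ∑ j, ⟪F.w j, h.D z (F.u i)⟫_ℂ • F.w j‖ ^ 2 :=
    Finset.sum_nonneg fun i _ => by positivity
  have h2 : 0 ≤ ∑ i, ‖h.A (F.u i) z‖ ^ 2 := Finset.sum_nonneg fun i _ => by positivity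
  have hq : q = 0 := by
    have h3 : (q : ℝ) ≤ 0 := by linarith
    have h4 : q ≤ 0 := by exact_mod_cast h3
    omega
  subst hq
  have hex := F.expand z
  rw [Finset.univ_eq_empty (α := Fin 0), Finset.sum_empty, add_zero] at hex
  have hzK : z ∈ h.K l := by
    rw [hex]
    exact Submodule.sum_mem _ fun i _ => Submodule.smul_mem _ _ (h.mem_K.mpr (F.Bu i))
  rw [← hzl]
  exact h.mem_K.mp hzK

end HLA

end Pool.Agent.Lib.CSol
end

section

open scoped InnerProductSpace ComplexConjugate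

namespace Pool.Agent.Lib.CSol

namespace HLA

variable {V : Type*} [NormedAddCommGroup V] [InnerProductSpace ℂ V] (h : HLA V)
  [FiniteDimensional ℂ V]

/-- TASK C04. If all `beta j > 0`, then `⟪w k, A (w j) (u i)⟫ = 0`. Proof: put
`s i k j = ⟪w k, A (w j) (u i)⟫`. Expand `A (w j) (u i)` with `F.expand`; the `u`-components
contribute `0` to `⟪w j, A (A (w j) (u i)) (u i)⟫` (`K_A`, `Frame.mem_iff`), so
`⟪w j, A (A (w j) (u i)) (u i)⟫ = ∑ k, conj (s i k j) * s i j k`. By `rel_s`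
`beta k * s i k j = beta j * s i j k`, so this is `∑ k, (beta k / beta j) * ‖s i k j‖²`.
By `s_trace` the sum of nonnegative terms vanishes. -/
theorem s_zero (l : V) (hl : h.IsChar l) {p q : ℕ} (F : h.Frame l p q)
    (N : h.Nice (h.K l)) (hb : ∀ j, 0 < F.beta j) (i : Fin p) (j k : Fin q) :
    ⟪F.w k, h.A (F.w j) (F.u i)⟫_ℂ = 0 := by
  have hA : ∀ j a i, ⟪F.w j, h.A (F.u a) (F.u i)⟫_ℂ = 0 := fun j a i =>
    (Frame.mem_iff h l hl F _).mp
      (h.K_A l hl (Frame.u_mem h l F a) (Frame.u_mem h l F i)) j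
  have e1 : ∀ i j, ⟪F.w j, h.A (h.A (F.w j) (F.u i)) (F.u i)⟫_ℂ =
      ∑ k, conj ⟪F.w k, h.A (F.w j) (F.u i)⟫_ℂ * ⟪F.w j, h.A (F.w k) (F.u i)⟫_ℂ := by
    intro i j
    generalize hx : h.A (F.w j) (F.u i) = x
    conv_lhs => rw [F.expand x]
    rw [map_add, LinearMap.add_apply, inner_add_right, map_sum, map_sum, LinearMap.sum_apply,
      LinearMap.sum_apply, inner_sum, inner_sum]
    have h0 : ∑ a, ⟪F.w j, h.A (⟪F.u a, x⟫_ℂ • F.u a) (F.u i)⟫_ℂ = 0 := by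
      refine Finset.sum_eq_zero fun a _ => ?_
      rw [LinearMap.map_smulₛₗ, LinearMap.smul_apply, inner_smul_right, hA, mul_zero]
    rw [h0, zero_add]
    refine Finset.sum_congr rfl fun k _ => ?_
    rw [LinearMap.map_smulₛₗ, LinearMap.smul_apply, inner_smul_right]
  have e2 : ∀ i j k, conj ⟪F.w k, h.A (F.w j) (F.u i)⟫_ℂ * ⟪F.w j, h.A (F.w k) (F.u i)⟫_ℂ =
      ((F.beta k / F.beta j * ‖⟪F.w k, h.A (F.w j) (F.u i)⟫_ℂ‖ ^ 2 : ℝ) : ℂ) := by
    intro i j k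
    have hr := h.rel_s l hl F (Frame.u_mem h l F i) k j
    have hj : (F.beta j : ℂ) ≠ 0 := Complex.ofReal_ne_zero.mpr (F.beta_ne j)
    have h4 : ⟪F.w j, h.A (F.w k) (F.u i)⟫_ℂ =
        (F.beta k : ℂ) / (F.beta j : ℂ) * ⟪F.w k, h.A (F.w j) (F.u i)⟫_ℂ := by
      field_simp
      rw [mul_comm, ← hr]
    rw [h4]
    push_cast
    rw [← Complex.conj_mul']
    ring
  have e3 := h.s_trace l hl F N
  simp only [e1, e2] at e3
  have e4 : ∑ i, ∑ j, ∑ k, F.beta k / F.beta j * ‖⟪F.w k, h.A (F.w j) (F.u i)⟫_ℂ‖ ^ 2 = 0 := by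
    exact_mod_cast e3
  have hn : ∀ i j k, 0 ≤ F.beta k / F.beta j * ‖⟪F.w k, h.A (F.w j) (F.u i)⟫_ℂ‖ ^ 2 :=
    fun i j k => mul_nonneg (div_nonneg (hb k).le (hb j).le) (sq_nonneg _)
  have e5 := (Finset.sum_eq_zero_iff_of_nonneg (fun i _ => Finset.sum_nonneg fun j _ =>
    Finset.sum_nonneg fun k _ => hn i j k)).mp e4 i (Finset.mem_univ _)
  have e6 := (Finset.sum_eq_zero_iff_of_nonneg (fun j _ =>
    Finset.sum_nonneg fun k _ => hn i j k)).mp e5 j (Finset.mem_univ _)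
  have e7 := (Finset.sum_eq_zero_iff_of_nonneg (fun k _ => hn i j k)).mp e6 k (Finset.mem_univ _)
  rcases mul_eq_zero.mp e7 with h8 | h8
  · exact absurd h8 (ne_of_gt (div_pos (hb k) (hb j)))
  · exact norm_eq_zero.mp (pow_eq_zero_iff two_ne_zero |>.mp h8)

end HLA

end Pool.Agent.Lib.CSol
end

section

open scoped InnerProductSpace ComplexConjugate

namespace Pool.Agent.Lib.CSol

namespace HLA

variable {V : Type*} [NormedAddCommGroup V] [InnerProductSpace ℂ V] (h : HLA V)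
  [FiniteDimensional ℂ V]

/-- TASK C05. Under the same hypotheses `K l` is stable under every `A x`: expand `x` in the frame
(conjugate linearity of `A`), use `K_A` for the `u`-part and `s_zero`, `Frame.mem_iff` for the
`w`-part; expand `u` by `Frame.expand_K`. -/
theorem K_stable (l : V) (hl : h.IsChar l) {p q : ℕ} (F : h.Frame l p q)
    (N : h.Nice (h.K l)) (hb : ∀ j, 0 < F.beta j) (x : V) {u : V} (hu : u ∈ h.K l) :
    h.A x u ∈ h.K l := by
  have hw : ∀ j, h.A (F.w j) u ∈ h.K l := by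
    intro j
    rw [Frame.mem_iff h l hl F]
    intro k
    rw [Frame.expand_K h l hl F hu, map_sum, inner_sum]
    refine Finset.sum_eq_zero fun i _ => ?_
    rw [map_smul, inner_smul_right, h.s_zero l hl F N hb, mul_zero]
  rw [F.expand x, map_add, LinearMap.add_apply, map_sum, map_sum, LinearMap.sum_apply,
    LinearMap.sum_apply]
  refine (h.K l).add_mem (Submodule.sum_mem _ fun i _ => ?_) (Submodule.sum_mem _ fun j _ => ?_)
  · rw [LinearMap.map_smulₛₗ, LinearMap.smul_apply]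
    exact (h.K l).smul_mem _ (h.K_A l hl (Frame.u_mem h l F i) hu)
  · rw [LinearMap.map_smulₛₗ, LinearMap.smul_apply]
    exact (h.K l).smul_mem _ (hw j)

end HLA

end Pool.Agent.Lib.CSol
end
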