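import Pool.Agent.Lib.CSol.Mg.G004
import Pool.Agent.Lib.CSol.Mg.G005
import Pool.Agent.Lib.CSol.Mg.G006

section

open scoped InnerProductSpace ComplexConjugate

namespace Pool.Agent.Lib.CSol

namespace HLA

variable {V : Type*} [NormedAddCommGroup V] [InnerProductSpace ℂ V] (h : HLA V)
  [FiniteDimensional ℂ V]

/-- TASK C07. For `u ∈ K l`, `w = w j`: with `d k j = ⟪w k, D u (w j)⟫`,
`lam k j = ⟪w k, D (w j) u⟫` and `PA = ∑ k ⟪u k, A u (w j)⟫ • u k` the `K l`-part of `A u (w j)`: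
`⟪w j, D (A u (w j)) u⟫ = -‖PA‖² + ∑ k, conj (d j k) * lam j k`.
Proof: `A u (w j) = PA + ∑ k ⟪w k, A u (w j)⟫ • w k` (`F.expand`),
`⟪w k, A u (w j)⟫ = conj ⟪w j, D u (w k)⟫ = conj (d j k)`; `D` is linear; for the `PA` part use
`nice_anti_self` with `v = PA` (`⟪PA, A u (w j)⟫ = ⟪PA, PA⟫` as the `w`-part is orthogonal to
`K l`). -/
theorem DAw (l : V) (hl : h.IsChar l) {p q : ℕ} (F : h.Frame l p q)
    (N : h.Nice (h.K l)) {u : V} (hu : u ∈ h.K l) (j : Fin q) :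
    ⟪F.w j, h.D (h.A u (F.w j)) u⟫_ℂ =
      -((‖∑ k, ⟪F.u k, h.A u (F.w j)⟫_ℂ • F.u k‖ ^ 2 : ℝ) : ℂ)
        + ∑ k, conj ⟪F.w j, h.D u (F.w k)⟫_ℂ * ⟪F.w j, h.D (F.w k) u⟫_ℂ := by
  set PA : V := ∑ k, ⟪F.u k, h.A u (F.w j)⟫_ℂ • F.u k with hPA
  have hPAmem : PA ∈ h.K l :=
    Submodule.sum_mem _ fun k _ => Submodule.smul_mem _ _ (Frame.u_mem h l F k)
  have hexp : h.A u (F.w j) = PA + ∑ k, ⟪F.w k, h.A u (F.w j)⟫_ℂ • F.w k := F.expand _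
  have hort : ⟪PA, ∑ k, ⟪F.w k, h.A u (F.w j)⟫_ℂ • F.w k⟫_ℂ = 0 := by
    rw [inner_sum]
    refine Finset.sum_eq_zero fun k _ => ?_
    rw [inner_smul_right, (Submodule.mem_orthogonal _ _).1 (Frame.w_mem h l hl F k) PA hPAmem,
      mul_zero]
  have h1 : ⟪PA, h.A u (F.w j)⟫_ℂ = ⟪PA, PA⟫_ℂ := by
    rw [hexp, inner_add_right, hort, add_zero]
  have h2 := h.nice_anti_self l N hu hPAmem (Frame.w_mem h l hl F j) h1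
  have h3 : h.D (h.A u (F.w j)) u = h.D PA u
      + ∑ k, ⟪F.w k, h.A u (F.w j)⟫_ℂ • h.D (F.w k) u := by
    conv_lhs => rw [hexp]
    rw [map_add, LinearMap.add_apply]
    congr 1
    rw [map_sum, LinearMap.sum_apply]
    simp only [map_smul, LinearMap.smul_apply]
  rw [h3, inner_add_right, h2, inner_sum]
  congr 1
  refine Finset.sum_congr rfl fun k _ => ?_
  have h4 : conj ⟪F.w j, h.D u (F.w k)⟫_ℂ = ⟪F.w k, h.A u (F.w j)⟫_ℂ := by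
    rw [h.inner_D_right, inner_conj_symm]
  rw [inner_smul_right, h4]

end HLA

end Pool.Agent.Lib.CSol
end

section

open scoped InnerProductSpace ComplexConjugate

namespace Pool.Agent.Lib.CSol

namespace HLA

variable {V : Type*} [NormedAddCommGroup V] [InnerProductSpace ℂ V] (h : HLA V)
  [FiniteDimensional ℂ V]

/-- TASK C08. The trace identity (4.5). Notation `d i k j = ⟪w k, D (u i) (w j)⟫`,
`a i k j = ⟪w k, br (u i) (w j)⟫`, `lam i k j = ⟪w k, D (w j) (u i)⟫`,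
`PA i = ∑ k ⟪u k, A (u i) (w j)⟫ • u k`, `z = A (w j) (w j)`,
`ζ' = ∑ m, (beta m)⁻¹ • A (w m) (w m)`. Claim
`2 re ∑ i ⟪u i, D z (u i)⟫ = - re ⟪ζ', D z l⟫ - ∑ i ‖PA i‖²
   + re ∑ i k (d i j k * conj (lam i j k) - conj (lam i k j) * a i k j)`.
Proof: `j1_trace` with `x = w j` (`hst`). Left side: `⟪w k, br (w j) (u i)⟫ = - a i k j`
(`br_skew`), `⟪u i, A (w j) (w k)⟫ = conj ⟪w k, D (w j) (u i)⟫ = conj (lam i k j)`.
Right side: `star_trace` for `z`, with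
`∑ m (beta m)⁻¹ ⟪w m, D (w m) (D z l)⟫ = ∑ m (beta m)⁻¹ ⟪A (w m) (w m), D z l⟫ = ⟪ζ', D z l⟫`
(the `beta m` are real);
`⟪u i, A (A (u i) (w j)) (w j)⟫ = conj ⟪w j, D (A (u i) (w j)) (u i)⟫` and `DAw`;
`⟪u i, A z (u i)⟫ = conj ⟪u i, D z (u i)⟫`. Take real parts. -/
theorem trace45 (hu : h.Uni) (l : V) (hl : h.IsChar l) {p q : ℕ} (F : h.Frame l p q)
    (N : h.Nice (h.K l)) (hst : ∀ x, ∀ u ∈ h.K l, h.A x u ∈ h.K l) (j : Fin q) :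
    2 * (∑ i, ⟪F.u i, h.D (h.A (F.w j) (F.w j)) (F.u i)⟫_ℂ).re =
      -(⟪∑ m, ((F.beta m : ℂ))⁻¹ • h.A (F.w m) (F.w m), h.D (h.A (F.w j) (F.w j)) l⟫_ℂ).re
        - ∑ i, ‖∑ k, ⟪F.u k, h.A (F.u i) (F.w j)⟫_ℂ • F.u k‖ ^ 2
        + (∑ i, ∑ k, (⟪F.w j, h.D (F.u i) (F.w k)⟫_ℂ * conj ⟪F.w j, h.D (F.w k) (F.u i)⟫_ℂ
            - conj ⟪F.w k, h.D (F.w j) (F.u i)⟫_ℂ * ⟪F.w k, h.br (F.u i) (F.w j)⟫_ℂ)).re := by
  have hK : ∀ i, h.A (F.w j) (F.u i) ∈ h.K l := fun i => hst _ _ (Frame.u_mem h l F i)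
  have h1 := h.j1_trace l hl F (F.w j) hK
  have h2 := h.star_trace hu l hl F (h.A (F.w j) (F.w j))
  set z : V := h.A (F.w j) (F.w j) with hz
  -- the term with the characters
  have h3 : ∑ m, ((F.beta m : ℂ))⁻¹ * ⟪F.w m, h.D (F.w m) (h.D z l)⟫_ℂ =
      ⟪∑ m, ((F.beta m : ℂ))⁻¹ • h.A (F.w m) (F.w m), h.D z l⟫_ℂ := by
    rw [sum_inner]
    refine Finset.sum_congr rfl fun m _ => ?_
    rw [inner_smul_left, map_inv₀, Complex.conj_ofReal, h.inner_D_right]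
  -- the term with `PA`
  have h4 : ∀ i, ⟪F.u i, h.A (h.A (F.u i) (F.w j)) (F.w j)⟫_ℂ =
      -((‖∑ k, ⟪F.u k, h.A (F.u i) (F.w j)⟫_ℂ • F.u k‖ ^ 2 : ℝ) : ℂ)
        + ∑ k, ⟪F.w j, h.D (F.u i) (F.w k)⟫_ℂ * conj ⟪F.w j, h.D (F.w k) (F.u i)⟫_ℂ := by
    intro i
    have h5 := h.DAw l hl F N (Frame.u_mem h l F i) j
    have h6 : ⟪F.u i, h.A (h.A (F.u i) (F.w j)) (F.w j)⟫_ℂ =
        conj ⟪F.w j, h.D (h.A (F.u i) (F.w j)) (F.u i)⟫_ℂ := by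
      rw [h.inner_D_right, inner_conj_symm]
    rw [h6, h5, map_add, map_neg, Complex.conj_ofReal, map_sum]
    simp only [map_mul, Complex.conj_conj]
  have h7 : ∑ i, ⟪F.u i, h.A (h.A (F.u i) (F.w j)) (F.w j)⟫_ℂ =
      -((∑ i, ‖∑ k, ⟪F.u k, h.A (F.u i) (F.w j)⟫_ℂ • F.u k‖ ^ 2 : ℝ) : ℂ)
        + ∑ i, ∑ k, ⟪F.w j, h.D (F.u i) (F.w k)⟫_ℂ * conj ⟪F.w j, h.D (F.w k) (F.u i)⟫_ℂ := by
    rw [Complex.ofReal_sum, ← Finset.sum_neg_distrib, ← Finset.sum_add_distrib]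
    exact Finset.sum_congr rfl fun i _ => h4 i
  have h8 : ∑ i, ⟪F.u i, h.A z (F.u i)⟫_ℂ = conj (∑ i, ⟪F.u i, h.D z (F.u i)⟫_ℂ) := by
    rw [map_sum]
    refine Finset.sum_congr rfl fun i _ => ?_
    rw [h.inner_D_right, inner_conj_symm]
  have h9 : ∑ i, ∑ k, ⟪F.w k, h.br (F.w j) (F.u i)⟫_ℂ * ⟪F.u i, h.A (F.w j) (F.w k)⟫_ℂ =
      -∑ i, ∑ k, conj ⟪F.w k, h.D (F.w j) (F.u i)⟫_ℂ * ⟪F.w k, h.br (F.u i) (F.w j)⟫_ℂ := by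
    rw [← Finset.sum_neg_distrib]
    refine Finset.sum_congr rfl fun i _ => ?_
    rw [← Finset.sum_neg_distrib]
    refine Finset.sum_congr rfl fun k _ => ?_
    rw [h.br_skew (F.w j) (F.u i), inner_neg_right, h.inner_D_right, inner_conj_symm]
    ring
  rw [h9, h2, h3, h7, h8] at h1
  have h10 := congrArg Complex.re h1
  have h11 : (∑ i, ∑ k, (⟪F.w j, h.D (F.u i) (F.w k)⟫_ℂ * conj ⟪F.w j, h.D (F.w k) (F.u i)⟫_ℂ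
      - conj ⟪F.w k, h.D (F.w j) (F.u i)⟫_ℂ * ⟪F.w k, h.br (F.u i) (F.w j)⟫_ℂ)) =
      ∑ i, ∑ k, ⟪F.w j, h.D (F.u i) (F.w k)⟫_ℂ * conj ⟪F.w j, h.D (F.w k) (F.u i)⟫_ℂ
      - ∑ i, ∑ k, conj ⟪F.w k, h.D (F.w j) (F.u i)⟫_ℂ * ⟪F.w k, h.br (F.u i) (F.w j)⟫_ℂ := by
    rw [← Finset.sum_sub_distrib]
    refine Finset.sum_congr rfl fun i _ => ?_
    rw [← Finset.sum_sub_distrib]
  rw [h11]
  simp only [Complex.add_re, Complex.sub_re, Complex.neg_re, Complex.conj_re,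
    Complex.ofReal_re] at h10 ⊢
  linarith

end HLA

end Pool.Agent.Lib.CSol
end

section

open scoped InnerProductSpace ComplexConjugate

namespace Pool.Agent.Lib.CSol

namespace HLA

variable {V : Type*} [NormedAddCommGroup V] [InnerProductSpace ℂ V] (h : HLA V)
  [FiniteDimensional ℂ V]

private theorem C09_norm {l : V} {p q : ℕ} (F : h.Frame l p q) (c : Fin q → ℂ) :
    ‖∑ k, c k • F.w k‖ ^ 2 = ∑ k, ‖c k‖ ^ 2 := by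
  have ho : Orthonormal ℂ F.w := orthonormal_iff_ite.2 F.ww
  have h2 : ∀ k, conj (c k) * c k = ((‖c k‖ ^ 2 : ℝ) : ℂ) := by
    intro k
    rw [← Complex.normSq_eq_norm_sq, Complex.normSq_eq_conj_mul_self]
  rw [@norm_sq_eq_re_inner ℂ, ho.inner_sum, Finset.sum_congr rfl fun k _ => h2 k,
    RCLike.re_eq_complex_re, ← Complex.ofReal_sum, Complex.ofReal_re]

/-- TASK C09. Sum over `i` of `E2_point` for `u = u i`, `x = w j`. Notation as in `C08`.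
`‖D (u i) (w j) + ∑ k ⟪w k, D (w j) (u i)⟫ w k‖² = ∑ k ‖d i k j + lam i k j‖²`
(`Frame.expand_perp`, `K_perp`); the terms of `hs_K` cancel; the `frame_zeta` terms vanish;
`‖A (u i) (w j)‖² = ‖PA i‖² + ∑ k ‖d i j k‖²` (since `⟪w k, A (u i) (w j)⟫ = conj (d i j k)`);
`⟪w j, D (A (u i) (w j)) (u i)⟫` by `DAw`; finally `trace45`. Total:
`∑ i E2 (u i) (w j) = ∑ i k (‖d i k j + lam i k j‖² - ‖d i j k‖²
   - 3 re (conj (d i j k) * lam i j k) + re (conj (lam i k j) * a i k j))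
   + 2 ∑ i ‖PA i‖² + re ⟪ζ', D (A (w j) (w j)) l⟫`. -/
theorem E2_sum_w (hu : h.Uni) (l : V) (hl : h.IsChar l) {p q : ℕ} (F : h.Frame l p q)
    (N : h.Nice (h.K l)) (hst : ∀ x, ∀ u ∈ h.K l, h.A x u ∈ h.K l) (j : Fin q) :
    ∑ i, h.E2 (F.u i) (F.w j) =
      ∑ i, ∑ k, (‖⟪F.w k, h.D (F.u i) (F.w j)⟫_ℂ + ⟪F.w k, h.D (F.w j) (F.u i)⟫_ℂ‖ ^ 2
        - ‖⟪F.w j, h.D (F.u i) (F.w k)⟫_ℂ‖ ^ 2
        - 3 * (conj ⟪F.w j, h.D (F.u i) (F.w k)⟫_ℂ * ⟪F.w j, h.D (F.w k) (F.u i)⟫_ℂ).re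
        + (conj ⟪F.w k, h.D (F.w j) (F.u i)⟫_ℂ * ⟪F.w k, h.br (F.u i) (F.w j)⟫_ℂ).re)
      + 2 * ∑ i, ‖∑ k, ⟪F.u k, h.A (F.u i) (F.w j)⟫_ℂ • F.u k‖ ^ 2
      + (⟪∑ m, ((F.beta m : ℂ))⁻¹ • h.A (F.w m) (F.w m),
          h.D (h.A (F.w j) (F.w j)) l⟫_ℂ).re := by
  have hm := fun i => Frame.u_mem h l F i
  have hwp := Frame.w_mem h l hl F j
  have hz := h.frame_zeta l hl F N
  have ea : ∀ i, ‖h.D (F.u i) (F.w j) + ∑ k, ⟪F.w k, h.D (F.w j) (F.u i)⟫_ℂ • F.w k‖ ^ 2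
      = ∑ k, ‖⟪F.w k, h.D (F.u i) (F.w j)⟫_ℂ + ⟪F.w k, h.D (F.w j) (F.u i)⟫_ℂ‖ ^ 2 := by
    intro i
    rw [← h.C09_norm F]
    simp only [add_smul, Finset.sum_add_distrib]
    rw [← Frame.expand_perp h l F (h.K_perp l hl (hm i) hwp)]
  have eb : ∀ i, ‖h.A (F.u i) (F.w j)‖ ^ 2
      = ‖∑ k, ⟪F.u k, h.A (F.u i) (F.w j)⟫_ℂ • F.u k‖ ^ 2
        + ∑ k, ‖⟪F.w j, h.D (F.u i) (F.w k)⟫_ℂ‖ ^ 2 := by
    intro i
    have h1 : ∀ k, ‖⟪F.w j, h.D (F.u i) (F.w k)⟫_ℂ‖ = ‖⟪F.w k, h.A (F.u i) (F.w j)⟫_ℂ‖ := by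
      intro k
      rw [h.inner_D_right, ← inner_conj_symm, Complex.norm_conj]
    simp only [h1]
    rw [← h.C09_norm F]
    have ho : ⟪∑ k, ⟪F.u k, h.A (F.u i) (F.w j)⟫_ℂ • F.u k,
        ∑ k, ⟪F.w k, h.A (F.u i) (F.w j)⟫_ℂ • F.w k⟫_ℂ = 0 := by
      simp only [sum_inner, inner_sum, inner_smul_left, inner_smul_right, F.uw, mul_zero,
        Finset.sum_const_zero]
    have h2 := norm_add_sq_eq_norm_sq_add_norm_sq_of_inner_eq_zero _ _ ho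
    rw [← F.expand] at h2
    linarith
  have hp : ∀ i, h.E2 (F.u i) (F.w j) =
      ∑ k, ‖⟪F.w k, h.D (F.u i) (F.w j)⟫_ℂ + ⟪F.w k, h.D (F.w j) (F.u i)⟫_ℂ‖ ^ 2
      + ∑ k, ‖⟪F.u k, h.D (F.w j) (F.u i)⟫_ℂ‖ ^ 2 - ‖h.A (F.w j) (F.u i)‖ ^ 2
      + ‖∑ k, ⟪F.u k, h.A (F.u i) (F.w j)⟫_ℂ • F.u k‖ ^ 2
      - ∑ k, ‖⟪F.w j, h.D (F.u i) (F.w k)⟫_ℂ‖ ^ 2
      - 2 * (⟪h.A (F.w j) (F.w j), h.A (F.u i) (F.u i)⟫_ℂ).re
      - 2 * (⟪F.w j, h.D (h.A (F.u i) (F.u i)) (F.w j)⟫_ℂ).re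
      - 2 * (⟪F.u i, h.D (h.A (F.w j) (F.w j)) (F.u i)⟫_ℂ).re
      - 2 * ∑ k, (conj ⟪F.w j, h.D (F.u i) (F.w k)⟫_ℂ * ⟪F.w j, h.D (F.w k) (F.u i)⟫_ℂ).re := by
    intro i
    rw [h.E2_point l hl F (hm i) hwp (hst _ _ (hm i)), h.DAw l hl F N (hm i) j, ea i, eb i,
      Complex.add_re, Complex.neg_re, Complex.ofReal_re, Complex.re_sum]
    ring
  have ht := h.trace45 hu l hl F N hst j
  have hh := h.hs_K l hl F (F.w j) (fun i => hst _ _ (hm i))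
  have z1 : ∑ i, (⟪h.A (F.w j) (F.w j), h.A (F.u i) (F.u i)⟫_ℂ).re = 0 := by
    rw [← Complex.re_sum, ← inner_sum, hz, inner_zero_right, Complex.zero_re]
  have z2 : ∑ i, (⟪F.w j, h.D (h.A (F.u i) (F.u i)) (F.w j)⟫_ℂ).re = 0 := by
    rw [← Complex.re_sum, ← inner_sum]
    have : ∑ i, h.D (h.A (F.u i) (F.u i)) (F.w j)
        = h.D (∑ i, h.A (F.u i) (F.u i)) (F.w j) := by
      rw [map_sum, LinearMap.sum_apply]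
    rw [this, hz, map_zero, LinearMap.zero_apply, inner_zero_right, Complex.zero_re]
  have hc : ∀ i k, (⟪F.w j, h.D (F.u i) (F.w k)⟫_ℂ * conj ⟪F.w j, h.D (F.w k) (F.u i)⟫_ℂ).re
      = (conj ⟪F.w j, h.D (F.u i) (F.w k)⟫_ℂ * ⟪F.w j, h.D (F.w k) (F.u i)⟫_ℂ).re := by
    intro i k
    simp only [Complex.mul_re, Complex.conj_re, Complex.conj_im]
    ring
  simp only [Complex.re_sum, Complex.sub_re, hc, Finset.sum_sub_distrib] at ht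
  rw [Finset.sum_congr rfl fun i _ => hp i]
  simp only [Finset.sum_add_distrib, Finset.sum_sub_distrib, ← Finset.mul_sum]
  rw [z1, z2, hh]
  linarith

end HLA

end Pool.Agent.Lib.CSol
end
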