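import Pool.Agent.Lib.CSol.Defs

section

open scoped InnerProductSpace ComplexConjugate

namespace Pool.Agent.Lib.CSol

namespace HLA

variable {V : Type*} [NormedAddCommGroup V] [InnerProductSpace ℂ V] (h : HLA V)
  [FiniteDimensional ℂ V]

private theorem C10_swap {p q : ℕ} (f : Fin q → Fin p → Fin q → ℝ) :
    ∑ j, ∑ i, ∑ k, f j i k = ∑ j, ∑ i, ∑ k, f k i j := by
  rw [Finset.sum_comm]
  conv_rhs => rw [Finset.sum_comm]
  refine Finset.sum_congr rfl fun i _ => ?_
  rw [Finset.sum_comm]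

private theorem C10_norm (d l : ℂ) (r : ℝ) :
    ‖d - (r : ℂ) * d + l‖ ^ 2 =
      (1 - r) ^ 2 * ‖d‖ ^ 2 + ‖l‖ ^ 2 + 2 * (1 - r) * (conj l * d).re := by
  simp only [← Complex.normSq_eq_norm_sq, Complex.normSq_apply, Complex.add_re, Complex.sub_re,
    Complex.mul_re, Complex.ofReal_re, Complex.ofReal_im, Complex.add_im, Complex.sub_im,
    Complex.mul_im, Complex.conj_re, Complex.conj_im]
  ring

/-- TASK C10. Pure algebra for Step 4. Complex families `d a lam : Fin p → Fin q → Fin q → ℂ`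
(`d i k j` etc.) and `beta : Fin q → ℝ`, `beta j > 0`, with
`beta k * a i k j = beta j * d i k j` and
`∑ i m, conj (d i m j) * a i m j = ∑ i m, a i j m * conj (d i j m)` for every `j`. Then
`∑ j beta_j⁻¹ ∑ i k (‖d i k j + lam i k j‖² - ‖d i j k‖² - 3 re (conj (d i j k) * lam i j k)
    + re (conj (lam i k j) * a i k j)) = ∑ j beta_j⁻¹ ∑ i k ‖d i k j - a i k j + lam i k j‖²`.
Proof. Put `X = ∑ i j k beta_k⁻¹ re (conj (lam i k j) * d i k j)`. As
`a i k j = (beta j / beta k) d i k j`: `∑ beta_j⁻¹ re (conj (lam i k j) a i k j) = X`; renaming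
`j ↔ k`, `∑ beta_j⁻¹ re (conj (d i j k) lam i j k) = X`. So the left side is
`∑ beta_j⁻¹ ‖d+lam‖² - ∑ beta_j⁻¹ ‖d i j k‖² - 2 X`. The right side is
`∑ beta_j⁻¹ ‖d+lam‖² + ∑ beta_j⁻¹ ‖a i k j‖² - 2 ∑ beta_j⁻¹ re (conj (a i k j) d i k j) - 2 X`,
with `∑ beta_j⁻¹ re (conj (a i k j) d i k j) = ∑ beta_k⁻¹ ‖d i k j‖² = ∑ beta_j⁻¹ ‖d i j k‖²`
(renaming), and `∑ beta_j⁻¹ ‖a i k j‖² = ∑ beta_j⁻¹ ‖d i j k‖²`: multiply the second hypothesis by
`beta_j⁻¹` and sum over `j`; its left side is `∑ beta_m⁻¹ ‖d i m j‖²`, its right side is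
`∑ beta_j⁻¹ (beta_m / beta_j) ‖d i j m‖² = ∑ (rename) beta_m⁻¹ (beta_j/beta_m) ‖d i m j‖²
 = ∑ beta_j⁻¹ ‖a i m j‖²`. -/
theorem step4_algebra {p q : ℕ} (d a lam : Fin p → Fin q → Fin q → ℂ) (beta : Fin q → ℝ)
    (hb : ∀ j, 0 < beta j)
    (h1 : ∀ i k j, (beta k : ℂ) * a i k j = (beta j : ℂ) * d i k j)
    (h2 : ∀ j, ∑ i, ∑ m, conj (d i m j) * a i m j = ∑ i, ∑ m, a i j m * conj (d i j m)) :
    ∑ j, (beta j)⁻¹ * ∑ i, ∑ k, (‖d i k j + lam i k j‖ ^ 2 - ‖d i j k‖ ^ 2
        - 3 * (conj (d i j k) * lam i j k).re + (conj (lam i k j) * a i k j).re) =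
      ∑ j, (beta j)⁻¹ * ∑ i, ∑ k, ‖d i k j - a i k j + lam i k j‖ ^ 2 := by
  have ha : ∀ i k j, a i k j = ((beta j / beta k : ℝ) : ℂ) * d i k j := by
    intro i k j
    have hk : (beta k : ℂ) ≠ 0 := by exact_mod_cast (hb k).ne'
    have := h1 i k j
    push_cast
    field_simp
    linear_combination this
  have h3 : ∀ j, ∑ i, ∑ m, beta j / beta m * ‖d i m j‖ ^ 2
      = ∑ i, ∑ m, beta m / beta j * ‖d i j m‖ ^ 2 := by
    intro j
    have h := h2 j
    have e1 : ∀ i m, conj (d i m j) * a i m j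
        = ((beta j / beta m * ‖d i m j‖ ^ 2 : ℝ) : ℂ) := by
      intro i m
      rw [ha, Complex.ofReal_mul, ← Complex.normSq_eq_norm_sq, Complex.normSq_eq_conj_mul_self]
      ring
    have e2 : ∀ i m, a i j m * conj (d i j m)
        = ((beta m / beta j * ‖d i j m‖ ^ 2 : ℝ) : ℂ) := by
      intro i m
      rw [ha, Complex.ofReal_mul, ← Complex.normSq_eq_norm_sq, Complex.normSq_eq_conj_mul_self]
      ring
    simp only [e1, e2] at h
    exact_mod_cast h
  have h4 : ∑ j, ∑ i, ∑ m, (beta j)⁻¹ * ‖d i j m‖ ^ 2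
      = ∑ j, ∑ i, ∑ m, (beta m / beta j ^ 2) * ‖d i j m‖ ^ 2 := by
    rw [C10_swap (fun j i m => (beta j)⁻¹ * ‖d i j m‖ ^ 2)]
    refine Finset.sum_congr rfl fun j _ => ?_
    have := congrArg (fun t => (beta j)⁻¹ * t) (h3 j)
    simp only [Finset.mul_sum] at this
    have hj := (hb j).ne'
    calc ∑ i, ∑ m, (beta m)⁻¹ * ‖d i m j‖ ^ 2
        = ∑ i, ∑ m, (beta j)⁻¹ * (beta j / beta m * ‖d i m j‖ ^ 2) := by
          refine Finset.sum_congr rfl fun i _ => Finset.sum_congr rfl fun m _ => ?_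
          have hm := (hb m).ne'
          field_simp
      _ = ∑ i, ∑ m, (beta j)⁻¹ * (beta m / beta j * ‖d i j m‖ ^ 2) := this
      _ = _ := by
          refine Finset.sum_congr rfl fun i _ => Finset.sum_congr rfl fun m _ => ?_
          field_simp
  have hL : ∀ i k j, (beta j)⁻¹ * (‖d i k j + lam i k j‖ ^ 2 - ‖d i j k‖ ^ 2
        - 3 * (conj (d i j k) * lam i j k).re + (conj (lam i k j) * a i k j).re)
      = (beta j)⁻¹ * (‖d i k j‖ ^ 2 + ‖lam i k j‖ ^ 2 + 2 * (conj (lam i k j) * d i k j).re)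
        - (beta j)⁻¹ * ‖d i j k‖ ^ 2 - 3 * ((beta j)⁻¹ * (conj (lam i j k) * d i j k).re)
        + (beta k)⁻¹ * (conj (lam i k j) * d i k j).re := by
    intro i k j
    have hj := (hb j).ne'
    have hk := (hb k).ne'
    have q1 := C10_norm (d i k j) (lam i k j) 0
    rw [Complex.ofReal_zero, zero_mul, sub_zero] at q1
    have q2 : (conj (d i j k) * lam i j k).re = (conj (lam i j k) * d i j k).re := by
      simp only [Complex.mul_re, Complex.conj_re, Complex.conj_im]
      ring
    have q3 : (conj (lam i k j) * a i k j).re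
        = beta j / beta k * (conj (lam i k j) * d i k j).re := by
      rw [ha, show conj (lam i k j) * (((beta j / beta k : ℝ) : ℂ) * d i k j)
        = ((beta j / beta k : ℝ) : ℂ) * (conj (lam i k j) * d i k j) by ring,
        Complex.re_ofReal_mul]
    rw [q1, q2, q3]
    field_simp
    ring
  have hR : ∀ i k j, (beta j)⁻¹ * ‖d i k j - a i k j + lam i k j‖ ^ 2
      = (beta j)⁻¹ * (‖d i k j‖ ^ 2 + ‖lam i k j‖ ^ 2 + 2 * (conj (lam i k j) * d i k j).re)
        + (beta j / beta k ^ 2) * ‖d i k j‖ ^ 2 - 2 * ((beta k)⁻¹ * ‖d i k j‖ ^ 2)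
        - 2 * ((beta k)⁻¹ * (conj (lam i k j) * d i k j).re) := by
    intro i k j
    have hj := (hb j).ne'
    have hk := (hb k).ne'
    rw [ha, C10_norm]
    field_simp
    ring
  have s1 := C10_swap (fun j i k => (beta k)⁻¹ * (conj (lam i k j) * d i k j).re)
  have s2 := C10_swap (fun j i k => (beta j / beta k ^ 2) * ‖d i k j‖ ^ 2)
  have s3 := C10_swap (fun j i k => (beta k)⁻¹ * ‖d i k j‖ ^ 2)
  have hL' := fun (j : Fin q) =>
    (Finset.mul_sum Finset.univ (fun i => ∑ k, (‖d i k j + lam i k j‖ ^ 2 - ‖d i j k‖ ^ 2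
        - 3 * (conj (d i j k) * lam i j k).re + (conj (lam i k j) * a i k j).re)) (beta j)⁻¹).trans
    (Finset.sum_congr rfl fun i _ => (Finset.mul_sum _ _ _).trans
      (Finset.sum_congr rfl fun k _ => hL i k j))
  have hR' := fun (j : Fin q) =>
    (Finset.mul_sum Finset.univ (fun i => ∑ k, ‖d i k j - a i k j + lam i k j‖ ^ 2)
      (beta j)⁻¹).trans
    (Finset.sum_congr rfl fun i _ => (Finset.mul_sum _ _ _).trans
      (Finset.sum_congr rfl fun k _ => hR i k j))
  rw [Finset.sum_congr rfl fun j _ => hL' j, Finset.sum_congr rfl fun j _ => hR' j]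
  simp only [Finset.sum_add_distrib, Finset.sum_sub_distrib]
  simp only [← Finset.mul_sum] at s1 s2 s3 h4 ⊢
  linarith

end HLA

end Pool.Agent.Lib.CSol
end

section

/-! # Subalgebras and quotients -/

open scoped InnerProductSpace ComplexConjugate

namespace Pool.Agent.Lib.CSol

namespace HLA

variable {V : Type*} [NormedAddCommGroup V] [InnerProductSpace ℂ V] (h : HLA V)

/-- Restriction to the subalgebra `U ⊕ Ū`. -/
def sub (U : Submodule ℂ V) (hb : ∀ x ∈ U, ∀ y ∈ U, h.br x y ∈ U)
    (hA : ∀ x ∈ U, ∀ y ∈ U, h.A x y ∈ U) : HLA U where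
  A :=
    { toFun := fun y => (h.A (y : V)).restrict (fun x hx => hA y y.2 x hx)
      map_add' := fun x y => by
        ext z
        simp [LinearMap.restrict_apply]
      map_smul' := fun c y => by
        ext z
        simp [LinearMap.restrict_apply] }
  br :=
    { toFun := fun y => (h.br (y : V)).restrict (fun x hx => hb y y.2 x hx)
      map_add' := fun x y => by
        ext z
        simp [LinearMap.restrict_apply]
      map_smul' := fun c y => by
        ext z
        simp [LinearMap.restrict_apply] }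
  br_self := fun x => Subtype.ext (h.br_self x)
  jac := fun x y z => Subtype.ext (h.jac x y z)
  rep := fun x y z => Subtype.ext (h.rep x y z)
  j1 := fun x y z => Subtype.ext (h.j1 x y z)

@[simp] theorem sub_A (U : Submodule ℂ V) (hb : ∀ x ∈ U, ∀ y ∈ U, h.br x y ∈ U)
    (hA : ∀ x ∈ U, ∀ y ∈ U, h.A x y ∈ U) (x y : U) :
    (((h.sub U hb hA).A x y : U) : V) = h.A x y := rfl

@[simp] theorem sub_br (U : Submodule ℂ V) (hb : ∀ x ∈ U, ∀ y ∈ U, h.br x y ∈ U)
    (hA : ∀ x ∈ U, ∀ y ∈ U, h.A x y ∈ U) (x y : U) :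
    (((h.sub U hb hA).br x y : U) : V) = h.br x y := rfl

variable [FiniteDimensional ℂ V]

/-- The quotient by the ideal `Uᗮ ⊕ conj Uᗮ`, on which `D` and the `A y` act trivially
enough. -/
noncomputable def quo (U : Submodule ℂ V) (hA : ∀ x : V, ∀ y ∈ U, h.A x y ∈ U)
    (hA' : ∀ x : V, ∀ y ∈ Uᗮ, h.A x y ∈ Uᗮ) (hI : ∀ x ∈ Uᗮ, h.A x = 0)
    (hb : ∀ x : V, ∀ y ∈ Uᗮ, h.br x y ∈ Uᗮ) : HLA U where
  A :=
    { toFun := fun y => (h.A (y : V)).restrict (fun x hx => hA y x hx)
      map_add' := fun x y => by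
        ext z
        simp [LinearMap.restrict_apply]
      map_smul' := fun c y => by
        ext z
        simp [LinearMap.restrict_apply] }
  br :=
    { toFun := fun y => (U.orthogonalProjectionOnto : V →ₗ[ℂ] U).comp
        ((h.br (y : V)).comp U.subtype)
      map_add' := fun x y => by
        ext z
        simp
      map_smul' := fun c y => by
        ext z
        simp }
  br_self := fun x => by simp [h.br_self]
  jac := fun x y z => by
    have key : ∀ a b : V, U.orthogonalProjectionOnto (h.br a (U.starProjection b)) =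
        U.orthogonalProjectionOnto (h.br a b) := by
      intro a b
      have h1 : h.br a (b - U.starProjection b) ∈ Uᗮ :=
        hb a _ (U.sub_starProjection_mem_orthogonal b)
      rw [← Submodule.orthogonalProjectionOnto_eq_zero_iff, map_sub, map_sub, sub_eq_zero] at h1
      exact h1.symm
    have key' : ∀ a b : V, U.orthogonalProjectionOnto (h.br (U.starProjection b) a) =
        U.orthogonalProjectionOnto (h.br b a) := by
      intro a b
      rw [h.br_skew, h.br_skew b a, map_neg, map_neg, key]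
    simp only [LinearMap.coe_mk, AddHom.coe_mk, LinearMap.comp_apply, Submodule.subtype_apply,
      ContinuousLinearMap.coe_coe, Submodule.coe_orthogonalProjectionOnto_apply]
    rw [key, key', key, h.jac, map_add]
  rep := fun x y z => by
    apply Subtype.ext
    simp only [LinearMap.coe_mk, AddHom.coe_mk, LinearMap.comp_apply, Submodule.subtype_apply,
      ContinuousLinearMap.coe_coe, Submodule.coe_orthogonalProjectionOnto_apply,
      LinearMap.coe_restrict_apply, AddSubgroupClass.coe_sub]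
    have h1 : h.A (h.br x y - U.starProjection (h.br x y)) = 0 :=
      hI _ (U.sub_starProjection_mem_orthogonal _)
    rw [map_sub, sub_eq_zero] at h1
    rw [← h1, h.rep]
  j1 := fun x y z => by
    have key : ∀ a b : V, U.orthogonalProjectionOnto (h.A a b) =
        U.orthogonalProjectionOnto (h.A a (U.starProjection b)) := by
      intro a b
      have h1 : h.A a (b - U.starProjection b) ∈ Uᗮ :=
        hA' a _ (U.sub_starProjection_mem_orthogonal b)
      rw [← Submodule.orthogonalProjectionOnto_eq_zero_iff, map_sub, map_sub, sub_eq_zero] at h1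
      exact h1
    have e : ∀ v : U, U.orthogonalProjectionOnto (v : V) = v := fun v =>
      Submodule.orthogonalProjectionOnto_mem_subspace_eq_self v
    have h2 := congrArg U.orthogonalProjectionOnto (h.j1 x y z)
    rw [key] at h2
    have h3 : U.orthogonalProjectionOnto (h.A z (U.starProjection (h.br x y))) =
        (h.A (z : V)).restrict (fun x hx => hA z x hx) (U.orthogonalProjectionOnto (h.br x y)) :=
      e ((h.A (z : V)).restrict (fun x hx => hA z x hx) (U.orthogonalProjectionOnto (h.br x y)))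
    rw [h3, map_add, map_sub, map_sub] at h2
    simp only [LinearMap.coe_mk, AddHom.coe_mk, LinearMap.comp_apply, Submodule.subtype_apply,
      ContinuousLinearMap.coe_coe]
    rw [h2]
    have e1 : U.orthogonalProjectionOnto (h.A (h.A (y : V) (z : V)) (x : V)) =
        (h.A (h.A (y : V) (z : V))).restrict (fun a ha => hA _ a ha) x :=
      e ((h.A (h.A (y : V) (z : V))).restrict (fun a ha => hA _ a ha) x)
    have e2 : U.orthogonalProjectionOnto (h.A (h.A (x : V) (z : V)) (y : V)) =
        (h.A (h.A (x : V) (z : V))).restrict (fun a ha => hA _ a ha) y :=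
      e ((h.A (h.A (x : V) (z : V))).restrict (fun a ha => hA _ a ha) y)
    rw [e1, e2]
    rfl

end HLA

end Pool.Agent.Lib.CSol
end

section

open scoped InnerProductSpace ComplexConjugate

namespace Pool.Agent.Lib.CSol

namespace HLA

variable {V : Type*} [NormedAddCommGroup V] [InnerProductSpace ℂ V] (h : HLA V)
  [FiniteDimensional ℂ V]

/-- TASK D02. A subalgebra of a solvable one is solvable: the map
`(h.sub U hb hA).Cx → h.Cx`, `y ↦ h.pr (fst y) (snd y)` is an injective homomorphism of complex Lie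
algebras; use `Function.Injective.lieAlgebra_isSolvable`. -/
theorem sub_solv (U : Submodule ℂ V) (hb : ∀ x ∈ U, ∀ y ∈ U, h.br x y ∈ U)
    (hA : ∀ x ∈ U, ∀ y ∈ U, h.A x y ∈ U) (hs : h.Solv) : (h.sub U hb hA).Solv := by
  let φ : (h.sub U hb hA).Cx →ₗ⁅ℂ⁆ h.Cx :=
    { toFun := fun y => h.pr (((h.sub U hb hA).fst y : U) : V) (((h.sub U hb hA).snd y : U) : V)
      map_add' := fun x y => rfl
      map_smul' := fun c y => rfl
      map_lie' := fun {x y} => rfl }
  have hφ : Function.Injective φ := by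
    intro x y hxy
    have h1 : (((h.sub U hb hA).fst x : U) : V) = (((h.sub U hb hA).fst y : U) : V) :=
      congrArg h.fst hxy
    have h2 : (((h.sub U hb hA).snd x : U) : V) = (((h.sub U hb hA).snd y : U) : V) :=
      congrArg h.snd hxy
    exact (h.sub U hb hA).cx_ext (Subtype.ext h1) (Subtype.ext h2)
  have : LieAlgebra.IsSolvable h.Cx := hs
  exact hφ.lieAlgebra_isSolvable

end HLA

end Pool.Agent.Lib.CSol
end

section

open scoped InnerProductSpace ComplexConjugate

namespace Pool.Agent.Lib.CSol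

namespace HLA

variable {V : Type*} [NormedAddCommGroup V] [InnerProductSpace ℂ V] (h : HLA V)
  [FiniteDimensional ℂ V]

section quo

variable (U : Submodule ℂ V) (hA : ∀ x : V, ∀ y ∈ U, h.A x y ∈ U)
    (hA' : ∀ x : V, ∀ y ∈ Uᗮ, h.A x y ∈ Uᗮ) (hI : ∀ x ∈ Uᗮ, h.A x = 0)
    (hb : ∀ x : V, ∀ y ∈ Uᗮ, h.br x y ∈ Uᗮ)

theorem quo_A (x y : U) : (((h.quo U hA hA' hI hb).A x y : U) : V) = h.A x y := rfl

/-- TASK G04. `D` of the quotient is the restriction of `D` (`D x` maps `U` to `U` since `A x`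
maps `Uᗮ` to `Uᗮ`). -/
theorem quo_D (x y : U) : (((h.quo U hA hA' hI hb).D x y : U) : V) = h.D x y := by
  have hmem : h.D x y ∈ U := by
    have h1 : h.D x y ∈ Uᗮᗮ := by
      rw [Submodule.mem_orthogonal]
      intro w hw
      rw [h.inner_D_right]
      exact Submodule.inner_left_of_mem_orthogonal y.2 (hA' x w hw)
    rwa [Submodule.orthogonal_orthogonal U] at h1
  have e : (h.quo U hA hA' hI hb).D x y = ⟨h.D x y, hmem⟩ := by
    refine ext_inner_right ℂ fun w => ?_
    rw [inner_D_left, Submodule.coe_inner, Submodule.coe_inner, quo_A]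
    exact (h.inner_D_left x y w).symm
  rw [e]

theorem quo_H (x : U) : (h.quo U hA hA' hI hb).H x = h.H x := by
  rw [H, H, Submodule.coe_norm, Submodule.coe_norm, quo_D, quo_A, Submodule.coe_inner, quo_D,
    quo_A]

/-- The quotient is solvable: the map `h.Cx → (h.quo ..).Cx`, `y ↦ pr (P (fst y)) (P (snd y))`
with `P = U.orthogonalProjectionOnto` is a surjective homomorphism of complex Lie algebras
(`P (br x y) = P (br (P x) (P y))` by `hb` and skewness, `P (A y x) = A (P y) (P x)` by `hI`,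
`hA'`). -/
theorem quo_solv (hs : h.Solv) : (h.quo U hA hA' hI hb).Solv := by
  let P : V →ₗ[ℂ] U := U.orthogonalProjectionOnto
  have hPU : ∀ x : U, P (x : V) = x := fun x =>
    Submodule.orthogonalProjectionOnto_mem_subspace_eq_self x
  have hP0 : ∀ x ∈ Uᗮ, P x = 0 := fun x hx =>
    Submodule.orthogonalProjectionOnto_eq_zero_iff.mpr hx
  have hsub : ∀ x : V, x - (P x : V) ∈ Uᗮ := fun x => U.sub_starProjection_mem_orthogonal x
  have hbr1 : ∀ x y : V, P (h.br x y) = P (h.br x (P y : V)) := by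
    intro x y
    have h1 := hP0 _ (hb x _ (hsub y))
    rw [map_sub, map_sub, sub_eq_zero] at h1
    exact h1
  have hbr : ∀ x y : V, P (h.br x y) = (h.quo U hA hA' hI hb).br (P x) (P y) := by
    intro x y
    change P (h.br x y) = P (h.br (P x : V) (P y : V))
    rw [hbr1, h.br_skew, map_neg, hbr1, ← map_neg, ← h.br_skew]
  have hAA : ∀ x y : V, P (h.A x y) = (h.quo U hA hA' hI hb).A (P x) (P y) := by
    intro x y
    have h1 : h.A x = h.A (P x : V) := by
      have h2 := hI _ (hsub x)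
      rw [map_sub, sub_eq_zero] at h2
      exact h2
    have h3 : P (h.A x y) = P (h.A x (P y : V)) := by
      have h4 := hP0 _ (hA' x _ (hsub y))
      rw [map_sub, map_sub, sub_eq_zero] at h4
      exact h4
    rw [h3, h1]
    exact hPU ((h.quo U hA hA' hI hb).A (P x) (P y))
  let Q := h.quo U hA hA' hI hb
  let φ : h.Cx →ₗ⁅ℂ⁆ Q.Cx :=
    { toFun := fun y => Q.pr (P (h.fst y)) (P (h.snd y))
      map_add' := fun y z => Q.cx_ext (by simp) (by simp)
      map_smul' := fun c y => Q.cx_ext (by simp) (by simp)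
      map_lie' := fun {y z} => Q.cx_ext
        (by simp only [fst_lie, fst_pr, snd_pr, map_add, map_sub, hbr, hAA]; rfl)
        (by simp only [snd_lie, fst_pr, snd_pr, map_add, map_sub, hbr, hAA]; rfl) }
  have hφ : Function.Surjective φ := by
    intro y
    refine ⟨h.pr (Q.fst y : V) (Q.snd y : V), ?_⟩
    exact Q.cx_ext (hPU _) (hPU _)
  have : LieAlgebra.IsSolvable h.Cx := hs
  exact hφ.lieAlgebra_isSolvable

end quo

end HLA

end Pool.Agent.Lib.CSol
end
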