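import Pool.Agent.Lib.CSol.Mg.G001
import Pool.Agent.Lib.ThZ.Mg.G006
import Pool.Agent.Lib.CSol.Mg.G007
import Pool.Agent.Lib.CSol.Mg.G003
import Pool.Agent.Lib.CSol.Mg.G005
import Pool.Agent.Lib.CSol.Mg.G009
import Pool.Agent.Lib.CSol.Mg.G010
import Pool.Agent.Lib.CSol.Mg.G004

section

open scoped InnerProductSpace ComplexConjugate TensorProduct

namespace Pool.Agent.Lib.CSol

open Pool.Agent.Lib.MP_a150d7_gt Pool.Agent.Lib.ThZ

variable {E : Type*} [NormedAddCommGroup E] [InnerProductSpace ℝ E] [FiniteDimensional ℝ E]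

/-- The component of the Jacobi identity which is linear in all three variables. -/
private theorem M02_jac {br : E →ₗ[ℝ] E →ₗ[ℝ] E} {J : E →ₗ[ℝ] E} (h : HermLie br J) (x y z : E) :
    Bc br J x (Bc br J y z) = Bc br J (Bc br J x y) z + Bc br J y (Bc br J x z) := by
  have hbr := h.br_eq
  have hA1 : ∀ u v, Ac br J (J u) v = -J (Ac br J u v) := h.chern.A1
  have hA2 : ∀ u v, Ac br J u (J v) = J (Ac br J u v) := h.chern.A2
  have hB1 := h.Bc_J1
  have hB2 := h.Bc_J2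
  have hJJ := h.JJ
  have h000 := h.jacobi x y z
  have h100 := congrArg J (h.jacobi (J x) y z)
  have h010 := congrArg J (h.jacobi x (J y) z)
  have h001 := congrArg J (h.jacobi x y (J z))
  have h110 := h.jacobi (J x) (J y) z
  have h101 := h.jacobi (J x) y (J z)
  have h011 := h.jacobi x (J y) (J z)
  have h111 := congrArg J (h.jacobi (J x) (J y) (J z))
  simp only [hbr, hA1, hA2, hB1, hB2, hJJ, map_add, map_sub, map_neg, LinearMap.add_apply,
    LinearMap.sub_apply, LinearMap.neg_apply, neg_neg] at h000 h100 h010 h001 h110 h101 h011 h111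
  linear_combination (norm := module) (1 / 8 : ℝ) • h000 - (1 / 8 : ℝ) • h100 -
    (1 / 8 : ℝ) • h010 - (1 / 8 : ℝ) • h001 - (1 / 8 : ℝ) • h110 - (1 / 8 : ℝ) • h101 -
    (1 / 8 : ℝ) • h011 + (1 / 8 : ℝ) • h111

/-- TASK M02. Existence of a model. With `ψ` from `exists_psi` define
`g.A y x = -ψ (Ac br J (ψ⁻¹ y) (ψ⁻¹ x))` (conjugate linear in `y` by `h.chern.A1`:
`Ac (J x) y = -J (Ac x y)`, linear in `x` by `h.chern.A2`; a real linear map commuting with `J` is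
complex linear: `c • v = c.re • v + c.im • (I • v)`) and
`g.br x y = ψ (B (ψ⁻¹ x) (ψ⁻¹ y))`, `B X Y = br X Y + Ac Y X - Ac X Y`, which is `J`-bilinear
(see `Bc`, `HermLie.Bc_J2`, `HermLie.br_eq` etc. in `ThZ/Z14*.lean`, or prove it from
`h.integ`). The laws `br_self`, `jac`, `rep`, `j1` follow from the Jacobi identity `h.jacobi`
of `br` by separating the parts that are linear / antilinear in each of the three variables
(replace `(x, y, z)` by `(J x, y, z)` etc. and combine): for real `X, Y, Z`, with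
`[X, Y] = b(x,y) + A_y x - A_x y`. In detail, put `F(x,y,z) = ` the Jacobi expression
`⟦x, ⟦y, z⟧⟧ - ⟦⟦x, y⟧, z⟧ - ⟦y, ⟦x, z⟧⟧ = 0`; its component which is linear in `x, y, z` is
`jac`; its component linear in `x, y` and antilinear in `z` gives `j1` (the part in `V`), and its
component antilinear in `x, y` and linear in `z` gives `rep`.
(The component linear in `x` and antilinear in `y`, say, of `F` is
`(F(x,y) - I F(I x, y) + I F(x, I y) + F(I x, I y)) / 4`.) -/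
theorem exists_model {br : E →ₗ[ℝ] E →ₗ[ℝ] E} {J : E →ₗ[ℝ] E} (h : HermLie br J) :
    ∃ n : ℕ, Nonempty (Model br J n) := by
  obtain ⟨n, ψ, hψJ, hinn⟩ := exists_psi J h.JJ h.isoJ
  have hA1 : ∀ u v, Ac br J (J u) v = -J (Ac br J u v) := h.chern.A1
  have hA2 : ∀ u v, Ac br J u (J v) = J (Ac br J u v) := h.chern.A2
  have hdec : ∀ (c : ℂ) (v : EuclideanSpace ℂ (Fin n)),
      c • v = c.re • v + c.im • (Complex.I • v) := by
    intro c v
    ext k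
    simp only [PiLp.smul_apply, PiLp.add_apply, smul_eq_mul, Complex.real_smul]
    conv_lhs => rw [← Complex.re_add_im c]
    ring
  have hsymm : ∀ (c : ℂ) (v : EuclideanSpace ℂ (Fin n)),
      ψ.symm (c • v) = c.re • ψ.symm v + c.im • J (ψ.symm v) := by
    intro c v
    apply ψ.injective
    rw [LinearEquiv.apply_symm_apply, map_add, map_smul, map_smul, hψJ,
      LinearEquiv.apply_symm_apply]
    exact hdec c v
  have hψc : ∀ (c : ℂ) (X : E), ψ (c.re • X + c.im • J X) = c • ψ X := by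
    intro c X
    rw [map_add, map_smul, map_smul, hψJ]
    exact (hdec c _).symm
  have hψc' : ∀ (c : ℂ) (X : E), ψ (c.re • X - c.im • J X) = conj c • ψ X := by
    intro c X
    have h1 := hψc (conj c) X
    rw [Complex.conj_re, Complex.conj_im, neg_smul, ← sub_eq_add_neg] at h1
    exact h1
  let A : EuclideanSpace ℂ (Fin n) →ₗ⋆[ℂ] EuclideanSpace ℂ (Fin n) →ₗ[ℂ]
      EuclideanSpace ℂ (Fin n) :=
    LinearMap.mk₂'ₛₗ (starRingEnd ℂ) (RingHom.id ℂ)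
      (fun y x => -ψ (Ac br J (ψ.symm y) (ψ.symm x)))
      (fun y1 y2 x => by
        rw [map_add, map_add, LinearMap.add_apply, map_add, neg_add])
      (fun c y x => by
        rw [hsymm, map_add, map_smul, map_smul, LinearMap.add_apply, LinearMap.smul_apply,
          LinearMap.smul_apply, hA1, smul_neg, ← sub_eq_add_neg, hψc', smul_neg])
      (fun y x1 x2 => by
        rw [map_add, map_add, map_add, neg_add])
      (fun c y x => by
        rw [hsymm, map_add, map_smul, map_smul, hA2, hψc, smul_neg, RingHom.id_apply])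
  have hA : ∀ y x, A y x = -ψ (Ac br J (ψ.symm y) (ψ.symm x)) := fun y x => rfl
  let B : EuclideanSpace ℂ (Fin n) →ₗ[ℂ] EuclideanSpace ℂ (Fin n) →ₗ[ℂ]
      EuclideanSpace ℂ (Fin n) :=
    LinearMap.mk₂'ₛₗ (RingHom.id ℂ) (RingHom.id ℂ)
      (fun x y => ψ (Bc br J (ψ.symm x) (ψ.symm y)))
      (fun y1 y2 x => by
        rw [map_add, map_add, LinearMap.add_apply, map_add])
      (fun c y x => by
        rw [hsymm, map_add, map_smul, map_smul, LinearMap.add_apply, LinearMap.smul_apply,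
          LinearMap.smul_apply, h.Bc_J1, hψc, RingHom.id_apply])
      (fun y x1 x2 => by
        rw [map_add, map_add, map_add])
      (fun c y x => by
        rw [hsymm, map_add, map_smul, map_smul, h.Bc_J2, hψc, RingHom.id_apply])
  have hB : ∀ x y, B x y = ψ (Bc br J (ψ.symm x) (ψ.symm y)) := fun x y => rfl
  let g : HLA (EuclideanSpace ℂ (Fin n)) :=
    { A := A
      br := B
      br_self := by
        intro x
        have h1 := h.Bc_anti (ψ.symm x) (ψ.symm x)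
        have h2 : Bc br J (ψ.symm x) (ψ.symm x) = 0 := by
          have h3 : (2 : ℝ) • Bc br J (ψ.symm x) (ψ.symm x) = 0 := by
            rw [two_smul]
            nth_rewrite 1 [h1]
            exact neg_add_cancel _
          exact (smul_eq_zero.1 h3).resolve_left two_ne_zero
        rw [hB, h2, map_zero]
      jac := by
        intro x y z
        simp only [hB, LinearEquiv.symm_apply_apply]
        rw [M02_jac h, map_add]
      rep := by
        intro x y z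
        simp only [hA, hB, LinearEquiv.symm_apply_apply, map_neg, neg_neg]
        rw [← h.A_rep, map_sub]
        abel
      j1 := by
        intro x y z
        simp only [hA, hB, LinearEquiv.symm_apply_apply, map_neg, neg_neg, LinearMap.neg_apply]
        rw [h.A_jac, h.Bc_anti (ψ.symm y) (Ac br J (ψ.symm z) (ψ.symm x)), map_add, map_sub,
          map_add, map_neg]
        abel }
  refine ⟨n, ⟨⟨g, ψ, hψJ, hinn, ?_, ?_⟩⟩⟩
  · intro x y
    change ψ (Ac br J x y) = -(A (ψ x) (ψ y))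
    rw [hA, LinearEquiv.symm_apply_apply, LinearEquiv.symm_apply_apply, neg_neg]
  · intro x y
    change ψ (br x y) = B (ψ x) (ψ y) + A (ψ y) (ψ x) - A (ψ x) (ψ y)
    rw [hA, hA, hB, LinearEquiv.symm_apply_apply, LinearEquiv.symm_apply_apply, h.br_eq, map_sub,
      map_add]
    abel

end Pool.Agent.Lib.CSol
end

section

open scoped InnerProductSpace ComplexConjugate

namespace Pool.Agent.Lib.CSol

namespace HLA

variable {V : Type*} [NormedAddCommGroup V] [InnerProductSpace ℂ V] (h : HLA V)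
  [FiniteDimensional ℂ V]

/-- TASK C06. Summed commutator relation. Assume `K l` is stable under every `A x` (`hst`).
With `a i k j = ⟪w k, br (u i) (w j)⟫`, `d i k j = ⟪w k, D (u i) (w j)⟫`:
`∑ i m, conj (d i m j) * a i m j = ∑ i m, a i j m * conj (d i j m)`.
Proof: inner product of `h.j1 (u i) (w j) (u i)` with `w j`, summed over `i` only:
`⟪w j, A (u i) (br (u i) (w j))⟫ = ⟪D (u i) (w j), br (u i) (w j)⟫ = ∑ m conj (d i m j) * a i m j`
(both vectors expanded; `D (u i) (w j) ∈ (K l)ᗮ` by `K_perp`).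
`⟪w j, br (u i) (A (u i) (w j))⟫ = ∑ m ⟪w m, A (u i) (w j)⟫ * a i j m` (the `u`-components of
`A (u i) (w j)` drop out by `K_br`) and `⟪w m, A (u i) (w j)⟫ = conj (d i j m)`.
`A (A (w j) (u i)) (u i) ∈ K l` (`hst`) is orthogonal to `w j`. The sums over `i` of
`br (w j) (A (u i) (u i))` and `A (A (u i) (u i)) (w j)` vanish (`frame_zeta`). -/
theorem comm_rel (l : V) (hl : h.IsChar l) {p q : ℕ} (F : h.Frame l p q)
    (N : h.Nice (h.K l)) (hst : ∀ x, ∀ u ∈ h.K l, h.A x u ∈ h.K l) (j : Fin q) :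
    ∑ i, ∑ m, conj ⟪F.w m, h.D (F.u i) (F.w j)⟫_ℂ * ⟪F.w m, h.br (F.u i) (F.w j)⟫_ℂ =
      ∑ i, ∑ m, ⟪F.w j, h.br (F.u i) (F.w m)⟫_ℂ * conj ⟪F.w j, h.D (F.u i) (F.w m)⟫_ℂ := by
  have hz : ∑ i, h.A (F.u i) (F.u i) = 0 := h.frame_zeta l hl F N
  have hB : ∀ i a, ⟪F.w j, h.br (F.u i) (F.u a)⟫_ℂ = 0 := fun i a =>
    (Frame.mem_iff h l hl F _).mp
      (h.K_br l (Frame.u_mem h l F i) (Frame.u_mem h l F a)) j
  have e1 : ∀ i, ⟪F.w j, h.A (F.u i) (h.br (F.u i) (F.w j))⟫_ℂ =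
      ∑ m, conj ⟪F.w m, h.D (F.u i) (F.w j)⟫_ℂ * ⟪F.w m, h.br (F.u i) (F.w j)⟫_ℂ := by
    intro i
    have h1 : h.D (F.u i) (F.w j) ∈ (h.K l)ᗮ :=
      h.K_perp l hl (Frame.u_mem h l F i) (Frame.w_mem h l hl F j)
    rw [← h.inner_D_left]
    conv_lhs => rw [Frame.expand_perp h l F h1]
    rw [sum_inner]
    refine Finset.sum_congr rfl fun m _ => ?_
    rw [inner_smul_left]
  have e2 : ∀ i, ⟪F.w j, h.br (F.u i) (h.A (F.u i) (F.w j))⟫_ℂ =
      ∑ m, ⟪F.w j, h.br (F.u i) (F.w m)⟫_ℂ * conj ⟪F.w j, h.D (F.u i) (F.w m)⟫_ℂ := by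
    intro i
    conv_lhs => rw [F.expand (h.A (F.u i) (F.w j))]
    rw [map_add, inner_add_right, map_sum, map_sum, inner_sum, inner_sum]
    have h0 : ∑ a, ⟪F.w j, h.br (F.u i) (⟪F.u a, h.A (F.u i) (F.w j)⟫_ℂ • F.u a)⟫_ℂ = 0 := by
      refine Finset.sum_eq_zero fun a _ => ?_
      rw [map_smul, inner_smul_right, hB, mul_zero]
    rw [h0, zero_add]
    refine Finset.sum_congr rfl fun m _ => ?_
    rw [map_smul, inner_smul_right, ← h.inner_D_left, inner_conj_symm, mul_comm]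
  have e3 : ∀ i, ⟪F.w j, h.A (h.A (F.w j) (F.u i)) (F.u i)⟫_ℂ = 0 := fun i =>
    (Frame.mem_iff h l hl F _).mp (hst _ _ (Frame.u_mem h l F i)) j
  have h2 : ∑ i, ⟪F.w j, h.br (F.w j) (h.A (F.u i) (F.u i))⟫_ℂ = 0 := by
    rw [← inner_sum, ← map_sum, hz, map_zero, inner_zero_right]
  have h3 : ∑ i, ⟪F.w j, h.A (h.A (F.u i) (F.u i)) (F.w j)⟫_ℂ = 0 := by
    have h4 : ∑ i, h.A (h.A (F.u i) (F.u i)) (F.w j) = 0 := by
      have h5 : h.A (∑ i, h.A (F.u i) (F.u i)) (F.w j) = 0 := by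
        rw [hz, map_zero, LinearMap.zero_apply]
      rw [map_sum, LinearMap.sum_apply] at h5
      exact h5
    rw [← inner_sum, h4, inner_zero_right]
  have e4 : ∀ i, ⟪F.w j, h.A (F.u i) (h.br (F.u i) (F.w j))⟫_ℂ =
      ⟪F.w j, h.br (F.u i) (h.A (F.u i) (F.w j))⟫_ℂ
        - ⟪F.w j, h.br (F.w j) (h.A (F.u i) (F.u i))⟫_ℂ
        + ⟪F.w j, h.A (h.A (F.u i) (F.u i)) (F.w j)⟫_ℂ := by
    intro i
    rw [h.j1 (F.u i) (F.w j) (F.u i)]
    simp only [inner_add_right, inner_sub_right]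
    rw [e3, sub_zero]
  rw [← Finset.sum_congr rfl fun i _ => e1 i, ← Finset.sum_congr rfl fun i _ => e2 i,
    Finset.sum_congr rfl fun i _ => e4 i, Finset.sum_add_distrib, Finset.sum_sub_distrib, h2, h3,
    sub_zero, add_zero]

end HLA

end Pool.Agent.Lib.CSol
end

section

open scoped InnerProductSpace ComplexConjugate

namespace Pool.Agent.Lib.CSol

namespace HLA

variable {V : Type*} [NormedAddCommGroup V] [InnerProductSpace ℂ V] (h : HLA V)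
  [FiniteDimensional ℂ V]

private theorem c11_Dl (l : V) {p q : ℕ} (F : h.Frame l p q) (x : V) :
    h.D x l = ∑ j, (⟪F.w j, x⟫_ℂ * (F.beta j : ℂ)) • F.w j := by
  have h1 : h.D x l = h.D.flip l x := rfl
  rw [h1]
  conv_lhs => rw [F.expand x]
  rw [map_add, map_sum, map_sum]
  have h2 : ∀ i, (h.D.flip l) (⟪F.u i, x⟫_ℂ • F.u i) = 0 := by
    intro i
    rw [map_smul, LinearMap.flip_apply, F.Bu, smul_zero]
  rw [Finset.sum_eq_zero (fun i _ => h2 i), zero_add]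
  refine Finset.sum_congr rfl fun j _ => ?_
  rw [map_smul, LinearMap.flip_apply, F.Bw, smul_smul]

private theorem c11_quad (l : V) {p q : ℕ} (F : h.Frame l p q) (x : V) :
    (⟪x, h.D x l⟫_ℂ).re = ∑ j, F.beta j * ‖⟪F.w j, x⟫_ℂ‖ ^ 2 := by
  rw [c11_Dl, inner_sum, Complex.re_sum]
  refine Finset.sum_congr rfl fun j _ => ?_
  rw [inner_smul_right, ← inner_conj_symm x (F.w j)]
  have h1 : ⟪F.w j, x⟫_ℂ * (F.beta j : ℂ) * conj ⟪F.w j, x⟫_ℂ =
      ((F.beta j * ‖⟪F.w j, x⟫_ℂ‖ ^ 2 : ℝ) : ℂ) := by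
    have h2 := Complex.mul_conj' ⟪F.w j, x⟫_ℂ
    push_cast
    rw [← h2]
    ring
  rw [h1, Complex.ofReal_re]

private theorem c11_Z (l : V) {p q : ℕ} (F : h.Frame l p q) (z : V) :
    ∑ j, (F.beta j)⁻¹ * (⟪z, h.D (h.A (F.w j) (F.w j)) l⟫_ℂ).re =
      (⟪z, h.D (∑ m, ((F.beta m : ℂ))⁻¹ • h.A (F.w m) (F.w m)) l⟫_ℂ).re := by
  rw [map_sum, LinearMap.sum_apply, inner_sum, Complex.re_sum]
  refine Finset.sum_congr rfl fun j _ => ?_
  rw [map_smul, LinearMap.smul_apply, inner_smul_right, ← Complex.ofReal_inv,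
    Complex.re_ofReal_mul]

/-- TASK C11. Conclusion of the weighted sum. By `E2_nonpos` (`N.H0`) each `E2 (u i) (w j) ≤ 0`.
`∑ j beta_j⁻¹ ∑ i E2 (u i) (w j)` is, by `E2_sum_w` and `step4_algebra` (with `rel_a`,
`comm_rel`), equal to `∑ j beta_j⁻¹ ∑ i k ‖d i k j - a i k j + lam i k j‖²
+ 2 ∑ j beta_j⁻¹ ∑ i ‖PA‖² + re ⟪ζ', D ζ' l⟫`
(`∑ j beta_j⁻¹ • A (w j) (w j) = ζ'`, `D` linear), and
`re ⟪ζ', D ζ' l⟫ = ∑ j beta_j ‖⟪w j, ζ'⟫‖² ≥ 0` (expand `ζ'` in the frame; `F.Bu`, `F.Bw`).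
So all terms vanish. -/
theorem step4_vanish (hu : h.Uni) (hH : ∀ x, h.H x ≤ 0) (l : V) (hl : h.IsChar l) {p q : ℕ}
    (F : h.Frame l p q) (N : h.Nice (h.K l)) (hst : ∀ x, ∀ u ∈ h.K l, h.A x u ∈ h.K l)
    (hb : ∀ j, 0 < F.beta j) :
    (∀ i k j, ⟪F.w k, h.D (F.w j) (F.u i)⟫_ℂ =
      ⟪F.w k, h.br (F.u i) (F.w j)⟫_ℂ - ⟪F.w k, h.D (F.u i) (F.w j)⟫_ℂ) ∧
    ∀ k, ⟪F.w k, ∑ m, ((F.beta m : ℂ))⁻¹ • h.A (F.w m) (F.w m)⟫_ℂ = 0 := by
  set ζ : V := ∑ m, ((F.beta m : ℂ))⁻¹ • h.A (F.w m) (F.w m) with hζ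
  have hbi : ∀ j, 0 < (F.beta j)⁻¹ := fun j => inv_pos.mpr (hb j)
  have hS : ∑ j, (F.beta j)⁻¹ * ∑ i, h.E2 (F.u i) (F.w j) ≤ 0 := by
    refine Finset.sum_nonpos fun j _ => ?_
    refine mul_nonpos_of_nonneg_of_nonpos (hbi j).le ?_
    refine Finset.sum_nonpos fun i _ => ?_
    exact h.E2_nonpos hH (F.u i) (N.H0 _ (Frame.u_mem h l F i)) (F.w j)
  have halg := step4_algebra
    (fun i k j => ⟪F.w k, h.D (F.u i) (F.w j)⟫_ℂ)
    (fun i k j => ⟪F.w k, h.br (F.u i) (F.w j)⟫_ℂ)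
    (fun i k j => ⟪F.w k, h.D (F.w j) (F.u i)⟫_ℂ) F.beta hb
    (fun i k j => h.rel_a l hl F (Frame.u_mem h l F i) k j)
    (fun j => h.comm_rel l hl F N hst j)
  have hrw : ∑ j, (F.beta j)⁻¹ * ∑ i, h.E2 (F.u i) (F.w j) =
      ∑ j, (F.beta j)⁻¹ * ∑ i, ∑ k, ‖⟪F.w k, h.D (F.u i) (F.w j)⟫_ℂ -
          ⟪F.w k, h.br (F.u i) (F.w j)⟫_ℂ + ⟪F.w k, h.D (F.w j) (F.u i)⟫_ℂ‖ ^ 2
      + ∑ j, (F.beta j)⁻¹ * (2 * ∑ i, ‖∑ k, ⟪F.u k, h.A (F.u i) (F.w j)⟫_ℂ • F.u k‖ ^ 2)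
      + ∑ j, F.beta j * ‖⟪F.w j, ζ⟫_ℂ‖ ^ 2 := by
    rw [← halg, ← h.c11_quad l F ζ, hζ, ← h.c11_Z l F _, ← Finset.sum_add_distrib,
      ← Finset.sum_add_distrib]
    refine Finset.sum_congr rfl fun j _ => ?_
    rw [h.E2_sum_w hu l hl F N hst j]
    ring
  rw [hrw] at hS
  have p1 : ∀ j ∈ (Finset.univ : Finset (Fin q)), 0 ≤ (F.beta j)⁻¹ *
      ∑ i, ∑ k, ‖⟪F.w k, h.D (F.u i) (F.w j)⟫_ℂ -
          ⟪F.w k, h.br (F.u i) (F.w j)⟫_ℂ + ⟪F.w k, h.D (F.w j) (F.u i)⟫_ℂ‖ ^ 2 := by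
    intro j _
    refine mul_nonneg (hbi j).le ?_
    exact Finset.sum_nonneg fun i _ => Finset.sum_nonneg fun k _ => sq_nonneg _
  have p2 : ∀ j ∈ (Finset.univ : Finset (Fin q)), 0 ≤ (F.beta j)⁻¹ *
      (2 * ∑ i, ‖∑ k, ⟪F.u k, h.A (F.u i) (F.w j)⟫_ℂ • F.u k‖ ^ 2) := by
    intro j _
    refine mul_nonneg (hbi j).le (mul_nonneg zero_le_two ?_)
    exact Finset.sum_nonneg fun i _ => sq_nonneg _
  have p3 : ∀ j ∈ (Finset.univ : Finset (Fin q)), 0 ≤ F.beta j * ‖⟪F.w j, ζ⟫_ℂ‖ ^ 2 := by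
    intro j _
    exact mul_nonneg (hb j).le (sq_nonneg _)
  have q1 := Finset.sum_nonneg p1
  have q2 := Finset.sum_nonneg p2
  have q3 := Finset.sum_nonneg p3
  constructor
  · intro i k j
    have e1 := (Finset.sum_eq_zero_iff_of_nonneg p1).mp (by linarith) j (Finset.mem_univ j)
    have e2 := (mul_eq_zero.mp e1).resolve_left (hbi j).ne'
    have e3 := (Finset.sum_eq_zero_iff_of_nonneg
      (fun i _ => Finset.sum_nonneg fun k _ => sq_nonneg _)).mp e2 i (Finset.mem_univ i)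
    have e4 := (Finset.sum_eq_zero_iff_of_nonneg (fun k _ => sq_nonneg _)).mp e3 k
      (Finset.mem_univ k)
    have e5 := norm_eq_zero.mp (pow_eq_zero_iff (two_ne_zero)|>.mp e4)
    linear_combination e5
  · intro k
    have e1 := (Finset.sum_eq_zero_iff_of_nonneg p3).mp (by linarith) k (Finset.mem_univ k)
    have e2 := (mul_eq_zero.mp e1).resolve_left (hb k).ne'
    exact norm_eq_zero.mp (pow_eq_zero_iff (two_ne_zero)|>.mp e2)

end HLA

end Pool.Agent.Lib.CSol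
end

section

open scoped InnerProductSpace ComplexConjugate

namespace Pool.Agent.Lib.CSol

namespace HLA

variable {V : Type*} [NormedAddCommGroup V] [InnerProductSpace ℂ V] (h : HLA V)
  [FiniteDimensional ℂ V]

/-- TASK C12. Step 4: if `x ↦ D x l` is positive semidefinite then it is `0`. Proof: take a frame
`F` (`exists_frame`); `beta j > 0` since `beta j = re ⟪w j, D (w j) l⟫ ≥ 0` and `≠ 0`.
`K_stable` gives `hst`; `step4_vanish`. Now
`q = ∑ j beta_j⁻¹ ⟪w j, D (w j) l⟫` and `l = ∑ i ⟪u i, l⟫ u i + ∑ k ⟪w k, l⟫ w k`: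
`∑ j beta_j⁻¹ ⟪w j, D (w j) (u i)⟫ = ∑ j beta_j⁻¹ (⟪w j, br (u i) (w j)⟫ - ⟪w j, D (u i) (w j)⟫)
 = 0` by `rel_a` (`k = j`), and
`∑ j beta_j⁻¹ ⟪w j, D (w j) (w k)⟫ = ∑ j beta_j⁻¹ ⟪A (w j) (w j), w k⟫ = ⟪ζ', w k⟫ = 0`.
So `q = 0`, `V = K l` by `F.expand`. -/
theorem step4 (hu : h.Uni) (hH : ∀ x, h.H x ≤ 0) (l : V) (hl : h.IsChar l)
    (N : h.Nice (h.K l)) (hpos : ∀ x, 0 ≤ (⟪x, h.D x l⟫_ℂ).re) (x : V) : h.D x l = 0 := by
  obtain ⟨p, q, ⟨F⟩⟩ := h.exists_frame l hl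
  have hb : ∀ j, 0 < F.beta j := by
    intro j
    have h1 := hpos (F.w j)
    rw [F.Bw j, inner_smul_right, F.ww j j, if_pos rfl, mul_one, Complex.ofReal_re] at h1
    exact lt_of_le_of_ne h1 (F.beta_ne j).symm
  have hst : ∀ x, ∀ u ∈ h.K l, h.A x u ∈ h.K l := fun x u hu' => h.K_stable l hl F N hb x hu'
  obtain ⟨v1, v2⟩ := h.step4_vanish hu hH l hl F N hst hb
  have hu0 : ∀ i, ∑ j, ((F.beta j : ℂ))⁻¹ * ⟪F.w j, h.D (F.w j) (F.u i)⟫_ℂ = 0 := by
    intro i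
    refine Finset.sum_eq_zero fun j _ => ?_
    have hbj : (F.beta j : ℂ) ≠ 0 := Complex.ofReal_ne_zero.2 (F.beta_ne j)
    have h2 := h.rel_a l hl F (h.mem_K.2 (F.Bu i)) j j
    rw [v1 i j j, mul_left_cancel₀ hbj h2, sub_self, mul_zero]
  have hw0 : ∀ k, ∑ j, ((F.beta j : ℂ))⁻¹ * ⟪F.w j, h.D (F.w j) (F.w k)⟫_ℂ = 0 := by
    intro k
    have h3 : ⟪∑ m, ((F.beta m : ℂ))⁻¹ • h.A (F.w m) (F.w m), F.w k⟫_ℂ = 0 := by
      rw [← inner_conj_symm, v2 k, map_zero]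
    rw [sum_inner] at h3
    rw [← h3]
    refine Finset.sum_congr rfl fun j _ => ?_
    rw [h.inner_D_right, inner_smul_left, map_inv₀, Complex.conj_ofReal]
  have hq : (q : ℂ) = 0 := by
    have h4 : (q : ℂ) = ∑ j, ((F.beta j : ℂ))⁻¹ * ⟪F.w j, h.D (F.w j) l⟫_ℂ := by
      have : ∀ j, ((F.beta j : ℂ))⁻¹ * ⟪F.w j, h.D (F.w j) l⟫_ℂ = 1 := by
        intro j
        have hbj : (F.beta j : ℂ) ≠ 0 := Complex.ofReal_ne_zero.2 (F.beta_ne j)
        rw [F.Bw j, inner_smul_right, F.ww j j, if_pos rfl, mul_one, inv_mul_cancel₀ hbj]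
      rw [Finset.sum_congr rfl fun j _ => this j]
      simp
    have h5 : ∀ j, ⟪F.w j, h.D (F.w j) l⟫_ℂ =
        ∑ i, ⟪F.u i, l⟫_ℂ * ⟪F.w j, h.D (F.w j) (F.u i)⟫_ℂ +
        ∑ k, ⟪F.w k, l⟫_ℂ * ⟪F.w j, h.D (F.w j) (F.w k)⟫_ℂ := by
      intro j
      have h7 : h.D (F.w j) l = h.D (F.w j) (∑ i, ⟪F.u i, l⟫_ℂ • F.u i
          + ∑ k, ⟪F.w k, l⟫_ℂ • F.w k) := congrArg _ (F.expand l)
      rw [h7]
      simp only [map_add, map_sum, map_smul, inner_add_right, inner_sum, inner_smul_right]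
    rw [h4]
    have h6 : ∀ j, ((F.beta j : ℂ))⁻¹ * ⟪F.w j, h.D (F.w j) l⟫_ℂ =
        ∑ i, ⟪F.u i, l⟫_ℂ * (((F.beta j : ℂ))⁻¹ * ⟪F.w j, h.D (F.w j) (F.u i)⟫_ℂ) +
        ∑ k, ⟪F.w k, l⟫_ℂ * (((F.beta j : ℂ))⁻¹ * ⟪F.w j, h.D (F.w j) (F.w k)⟫_ℂ) := by
      intro j
      rw [h5 j, mul_add, Finset.mul_sum, Finset.mul_sum]
      congr 1 <;> exact Finset.sum_congr rfl fun _ _ => by ring
    rw [Finset.sum_congr rfl fun j _ => h6 j, Finset.sum_add_distrib, Finset.sum_comm,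
      Finset.sum_comm (f := fun j k => ⟪F.w k, l⟫_ℂ *
        (((F.beta j : ℂ))⁻¹ * ⟪F.w j, h.D (F.w j) (F.w k)⟫_ℂ))]
    simp only [← Finset.mul_sum, hu0, hw0, mul_zero, Finset.sum_const_zero, add_zero]
  have hq0 : q = 0 := by exact_mod_cast hq
  subst hq0
  conv_lhs => rw [F.expand x]
  simp only [Finset.univ_eq_empty, Finset.sum_empty, add_zero, map_sum, map_smul,
    LinearMap.sum_apply, LinearMap.smul_apply, F.Bu, smul_zero, Finset.sum_const_zero]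

end HLA

end Pool.Agent.Lib.CSol
end
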