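import Pool.Agent.Lib.CSol.Mg.G001
import Pool.Agent.Lib.CSol.Mg.G013
import Pool.Agent.Lib.CSol.Mg.G003

section

open scoped InnerProductSpace ComplexConjugate

namespace Pool.Agent.Lib.CSol

namespace HLA

variable {V : Type*} [NormedAddCommGroup V] [InnerProductSpace ℂ V] (h : HLA V)
  [FiniteDimensional ℂ V]

private theorem e07_comm (m m' η θ : V) (hw : h.IsWt m m' η θ) (hv : WtV m m' η θ) (x : V) :
    h.A η (h.A θ x) = h.A θ (h.A η x) := by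
  have h1 := h.rep η θ x
  rw [h.wt_br m m' η θ hw hv, map_zero, LinearMap.zero_apply] at h1
  exact (sub_eq_zero.mp h1.symm).symm

private theorem e07_Av (η θ : V) (z : ℂ) :
    h.A (z • η + conj z • θ) = conj z • h.A η + z • h.A θ := by
  rw [map_add, LinearMap.map_smulₛₗ, LinearMap.map_smulₛₗ, Complex.conj_conj]

private theorem e07_nil (m m' η θ : V) (hw : h.IsWt m m' η θ) (hv : WtV m m' η θ)
    (n1 : IsNilpotent (h.A η)) (n2 : IsNilpotent (h.A θ)) (z : ℂ) :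
    IsNilpotent (h.A (z • η + conj z • θ)) := by
  rw [e07_Av]
  have hc : Commute (h.A η) (h.A θ) := by
    refine LinearMap.ext fun x => ?_
    exact h.e07_comm m m' η θ hw hv x
  exact Commute.isNilpotent_add ((hc.smul_left _).smul_right _) (n1.smul _) (n2.smul _)

private theorem e07_pow (v a b : V) (n : ℕ) :
    ⟪a, (h.D v ^ n) b⟫_ℂ = ⟪(h.A v ^ n) a, b⟫_ℂ := by
  induction n generalizing a with
  | zero => rfl
  | succ n ih =>
    rw [pow_succ', pow_succ]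
    change ⟪a, h.D v ((h.D v ^ n) b)⟫_ℂ = ⟪(h.A v ^ n) (h.A v a), b⟫_ℂ
    rw [h.inner_D_right v _ a, ih]

/-- TASK E07. If `A η`, `A θ` are nilpotent then `(A v)² = 0` for `v = z • η + conj z • θ`.
`A η` and `A θ` commute: `A (br η θ) = [A θ, A η]` (`h.rep`) and `br η θ = 0` (`wt_br`). So
`T = A v = conj z • A η + z • A θ` is nilpotent. Suppose `T² ≠ 0`; let `N ≥ 2` with `T^N ≠ 0`,
`T^(N+1) = 0`. For every `x'` put `x = T^N x'`. `wt_top` (`y = T^(N-1) x'`): `D v x = - D x v`.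
`wt_DAv_pow`: `D x v = (D v)^N (D x' v - p)`. So
`‖x‖² = ⟪T^(N-1) x', ...⟫`: precisely `⟪x, x⟫ = ⟪A v (T^(N-1) x'), x⟫ = ⟪T^(N-1) x', D v x⟫
= -⟪T^(N-1) x', (D v)^N (D x' v - p)⟫ = -⟪T^N (T^(N-1) x'), D x' v - p⟫ = 0` as
`2N - 1 ≥ N + 1`. So `T^N = 0`, contradiction. -/
theorem wt_sq_zero (hH : ∀ x, h.H x ≤ 0) (m m' η θ : V) (hm : h.IsChar2 m m')
    (hw : h.IsWt m m' η θ) (hv : WtV m m' η θ) (n1 : IsNilpotent (h.A η))
    (n2 : IsNilpotent (h.A θ)) (z : ℂ) (x : V) :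
    h.A (z • η + conj z • θ) (h.A (z • η + conj z • θ) x) = 0 := by
  have hnil := h.e07_nil m m' η θ hw hv n1 n2 z
  have htop := fun x y => h.wt_top hH m m' η θ hm hw hv z x y
  have hpow := fun x k => h.wt_DAv_pow hH m m' η θ hm hw hv z x k
  generalize z • η + conj z • θ = v at *
  have key : ∀ k, 1 ≤ k → h.A v ^ (k + 2) = 0 → h.A v ^ (k + 1) = 0 := by
    intro k hk h0
    refine LinearMap.ext fun x' => ?_
    rw [LinearMap.zero_apply]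
    have e1 : (h.A v ^ (k + 1)) x' = h.A v ((h.A v ^ k) x') := by
      rw [pow_succ']; rfl
    have e2 : h.A v ((h.A v ^ (k + 1)) x') = 0 := by
      have e3 : h.A v ((h.A v ^ (k + 1)) x') = (h.A v ^ (k + 2)) x' := by
        rw [pow_succ' (h.A v) (k + 1)]; rfl
      rw [e3, h0, LinearMap.zero_apply]
    have e4 := htop ((h.A v ^ (k + 1)) x') ((h.A v ^ k) x') e1 e2
    rw [hpow x' k] at e4
    have e5 : ⟪(h.A v ^ (k + 1)) x', (h.A v ^ (k + 1)) x'⟫_ℂ = 0 := by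
      have e6 : ⟪(h.A v ^ (k + 1)) x', (h.A v ^ (k + 1)) x'⟫_ℂ =
          ⟪(h.A v ^ k) x', h.D v ((h.A v ^ (k + 1)) x')⟫_ℂ := by
        rw [h.inner_D_right v _ ((h.A v ^ k) x'), ← e1]
      rw [e6, eq_neg_of_add_eq_zero_left e4, inner_neg_right, h.e07_pow]
      have e7 : (h.A v ^ (k + 1)) ((h.A v ^ k) x') = 0 := by
        have e8 : (h.A v ^ (k + 1)) ((h.A v ^ k) x') = (h.A v ^ (k + 1 + k)) x' := by
          rw [pow_add (h.A v) (k + 1) k]; rfl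
        rw [e8, show k + 1 + k = (k + 2) + (k - 1) by omega, pow_add, h0, zero_mul,
          LinearMap.zero_apply]
      rw [e7, inner_zero_left, neg_zero]
    exact inner_self_eq_zero.mp e5
  have hdesc : ∀ n, h.A v ^ (n + 2) = 0 → h.A v ^ 2 = 0 := by
    intro n
    induction n with
    | zero => exact fun h0 => h0
    | succ n ih => exact fun h0 => ih (key (n + 1) (by omega) h0)
  obtain ⟨n, hn⟩ := hnil
  have h2 : h.A v ^ 2 = 0 := hdesc n (by rw [pow_add, hn, zero_mul])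
  have h3 : h.A v (h.A v x) = (h.A v ^ 2) x := by rw [pow_two]; rfl
  rw [h3, h2, LinearMap.zero_apply]

private theorem e07_exp (η θ : V) (z : ℂ) (x : V) :
    h.A (z • η + conj z • θ) (h.A (z • η + conj z • θ) x) =
      (conj z * conj z) • h.A η (h.A η x) + (z * conj z) • (h.A η (h.A θ x) + h.A θ (h.A η x))
        + (z * z) • h.A θ (h.A θ x) := by
  rw [e07_Av]
  simp only [LinearMap.add_apply, LinearMap.smul_apply, map_add, map_smul]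
  module

/-- Taking `z = 1, I, 1 + I`: `A η (A η x) = A θ (A θ x) = A η (A θ x) = A θ (A η x) = 0`. -/
theorem wt_sq_zero' (hH : ∀ x, h.H x ≤ 0) (m m' η θ : V) (hm : h.IsChar2 m m')
    (hw : h.IsWt m m' η θ) (hv : WtV m m' η θ) (n1 : IsNilpotent (h.A η))
    (n2 : IsNilpotent (h.A θ)) (x : V) :
    h.A η (h.A η x) = 0 ∧ h.A θ (h.A θ x) = 0 ∧ h.A η (h.A θ x) = 0 ∧ h.A θ (h.A η x) = 0 := by
  have hc := h.e07_comm m m' η θ hw hv x
  have h1 := h.wt_sq_zero hH m m' η θ hm hw hv n1 n2 1 x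
  have h2 := h.wt_sq_zero hH m m' η θ hm hw hv n1 n2 Complex.I x
  have h3 := h.wt_sq_zero hH m m' η θ hm hw hv n1 n2 (1 + Complex.I) x
  rw [e07_exp] at h1 h2 h3
  rw [hc] at h1 h2 h3 ⊢
  generalize h.A η (h.A η x) = a at *
  generalize h.A θ (h.A η x) = b at *
  generalize h.A θ (h.A θ x) = d at *
  rw [map_one, one_mul, one_smul, one_smul, one_smul] at h1
  have i1 : conj Complex.I * conj Complex.I = -1 := by
    rw [Complex.conj_I, neg_mul_neg, Complex.I_mul_I]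
  have i2 : Complex.I * conj Complex.I = 1 := by
    rw [Complex.conj_I, mul_neg, Complex.I_mul_I, neg_neg]
  have i3 : conj (1 + Complex.I) * conj (1 + Complex.I) = -(2 * Complex.I) := by
    rw [map_add, map_one, Complex.conj_I]
    linear_combination Complex.I_mul_I
  have i4 : (1 + Complex.I) * conj (1 + Complex.I) = 2 := by
    rw [map_add, map_one, Complex.conj_I]
    linear_combination -Complex.I_mul_I
  have i5 : (1 + Complex.I) * (1 + Complex.I) = 2 * Complex.I := by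
    linear_combination Complex.I_mul_I
  rw [i1, i2, Complex.I_mul_I] at h2
  rw [i3, i4, i5] at h3
  have b0 : b = 0 := by
    have e : (4 : ℂ) • b = 0 := by
      have e' : (4 : ℂ) • b = (a + (b + b) + d) +
        ((-1 : ℂ) • a + (1 : ℂ) • (b + b) + (-1 : ℂ) • d) := by module
      rw [e', h1, h2, add_zero]
    exact (smul_eq_zero.mp e).resolve_left (by norm_num)
  rw [b0] at h1 h3 ⊢
  rw [add_zero, add_zero] at h1
  have hd : d = -a := by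
    rw [eq_neg_iff_add_eq_zero, add_comm]; exact h1
  rw [hd] at h3 ⊢
  have a0 : a = 0 := by
    have e : (-4 * Complex.I : ℂ) • a = 0 := by
      rw [← h3]
      module
    exact (smul_eq_zero.mp e).resolve_left
      (mul_ne_zero (by norm_num) Complex.I_ne_zero)
  rw [a0, neg_zero]
  exact ⟨rfl, rfl, rfl, rfl⟩

end HLA

end Pool.Agent.Lib.CSol
end

section

open scoped InnerProductSpace ComplexConjugate

namespace Pool.Agent.Lib.CSol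

namespace HLA

variable {V : Type*} [NormedAddCommGroup V] [InnerProductSpace ℂ V] (h : HLA V)
  [FiniteDimensional ℂ V]

/-- TASK E08. General formula for `E2 η x` for a weight vector:
`A η η = 0`, `D η η = 0`, `A x η = -⟪x, m'⟫ • η`, `⟪η, D (A x x) η⟫ = ⟪A (A x x) η, η⟫
= -conj(⟪A x x, m'⟫) ‖η‖² = -⟪m', A x x⟫ ‖η‖²`, `⟪η, D (A x η) x⟫ = -⟪m', x⟫... ⟪η, D η x⟫ = 0`
(`⟪η, D η x⟫ = ⟪A η η, x⟫ = 0`). So
`E2 η x = ‖D η x + D x η‖² - ‖A η x‖² - ‖⟪m', x⟫‖² ‖η‖² + 2 re ⟪m', A x x⟫ ‖η‖²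
  - 2 re ⟪x, D (A η x) η⟫`. -/
theorem wt_E2 (hH : ∀ x, h.H x ≤ 0) (m m' η θ : V) (hw : h.IsWt m m' η θ)
    (hv : WtV m m' η θ) (x : V) :
    h.E2 η x = ‖h.D η x + h.D x η‖ ^ 2 - ‖h.A η x‖ ^ 2 - ‖⟪m', x⟫_ℂ‖ ^ 2 * ‖η‖ ^ 2
      + 2 * (⟪m', h.A x x⟫_ℂ).re * ‖η‖ ^ 2 - 2 * (⟪x, h.D (h.A η x) η⟫_ℂ).re := by
  obtain ⟨h1, h2, h3, h4⟩ := h.wt_A m m' η θ hw hv
  have hxm : ‖⟪x, m'⟫_ℂ‖ = ‖⟪m', x⟫_ℂ‖ := norm_inner_symm _ _
  have e1 : ‖h.A x η‖ ^ 2 = ‖⟪m', x⟫_ℂ‖ ^ 2 * ‖η‖ ^ 2 := by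
    rw [hw.w1, norm_neg, norm_smul, hxm, mul_pow]
  have e2 : (⟪η, h.D (h.A x x) η⟫_ℂ).re = -((⟪m', h.A x x⟫_ℂ).re * ‖η‖ ^ 2) := by
    rw [h.inner_D_right, hw.w1, inner_neg_left, inner_smul_left, inner_conj_symm,
      inner_self_eq_norm_sq_to_K, Complex.neg_re]
    have h5 : ((RCLike.ofReal ‖η‖ : ℂ) ^ 2) = ((‖η‖ ^ 2 : ℝ) : ℂ) := by
      rw [Complex.ofReal_pow]; rfl
    rw [h5, Complex.mul_re, Complex.ofReal_re, Complex.ofReal_im]
    ring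
  have e3 : (⟪η, h.D (h.A x η) x⟫_ℂ).re = 0 := by
    rw [hw.w1, map_neg, map_smul, LinearMap.neg_apply, LinearMap.smul_apply, inner_neg_right,
      inner_smul_right, h.inner_D_right, h1, inner_zero_left, mul_zero, neg_zero, Complex.zero_re]
  rw [E2, e1, e2, e3, h1, map_zero, LinearMap.zero_apply, inner_zero_right, inner_zero_right,
    Complex.zero_re]
  ring

/-- `H η = 0`, so `E2 η x ≤ 0`. -/
theorem wt_E2_nonpos (hH : ∀ x, h.H x ≤ 0) (m m' η θ : V) (hw : h.IsWt m m' η θ)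
    (hv : WtV m m' η θ) (x : V) : h.E2 η x ≤ 0 := by
  refine h.E2_nonpos hH η ?_ x
  obtain ⟨h1, h2, h3, h4⟩ := h.wt_A m m' η θ hw hv
  have hD : h.D η η = 0 := by
    have h5 := h.wt_Dvv hH m m' η θ hw hv 1 0
    rw [one_smul, zero_smul, add_zero] at h5
    exact h5
  rw [H, hD, h1, map_zero, LinearMap.zero_apply, inner_zero_right, norm_zero, Complex.zero_re]
  ring

/-- `‖⟪m', x⟫‖ * ‖η‖ ^ 2 ≤ ‖D η x + D x η‖ * ‖η‖`: `⟪η, D η x⟫ = ⟪A η η, x⟫ = 0`,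
`⟪η, D x η⟫ = ⟪A x η, η⟫ = -⟪m', x⟫ ‖η‖²`, Cauchy-Schwarz. -/
theorem wt_CS (m m' η θ : V) (hw : h.IsWt m m' η θ)
    (hv : WtV m m' η θ) (x : V) :
    ‖⟪m', x⟫_ℂ‖ ^ 2 * ‖η‖ ^ 2 ≤ ‖h.D η x + h.D x η‖ ^ 2 := by
  obtain ⟨h1, h2, h3, h4⟩ := h.wt_A m m' η θ hw hv
  have e1 : ⟪η, h.D η x + h.D x η⟫_ℂ = -(⟪m', x⟫_ℂ * (‖η‖ : ℂ) ^ 2) := by
    rw [inner_add_right, h.inner_D_right, h1, inner_zero_left, zero_add, h.inner_D_right, hw.w1,
      inner_neg_left, inner_smul_left, inner_conj_symm, inner_self_eq_norm_sq_to_K]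
    rfl
  have e2 : ‖⟪m', x⟫_ℂ‖ * ‖η‖ ^ 2 ≤ ‖η‖ * ‖h.D η x + h.D x η‖ := by
    have h5 := norm_inner_le_norm (𝕜 := ℂ) η (h.D η x + h.D x η)
    rw [e1, norm_neg, norm_mul, norm_pow, Complex.norm_real, norm_norm] at h5
    exact h5
  rcases eq_or_ne η 0 with h0 | h0
  · have h6 := sq_nonneg ‖h.D η x + h.D x η‖
    rw [show ‖η‖ = 0 by rw [h0, norm_zero]]
    linarith
  · have hpos : 0 < ‖η‖ := norm_pos_iff.2 h0
    have e3 : ‖⟪m', x⟫_ℂ‖ * ‖η‖ ≤ ‖h.D η x + h.D x η‖ := by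
      refine le_of_mul_le_mul_left ?_ hpos
      calc ‖η‖ * (‖⟪m', x⟫_ℂ‖ * ‖η‖) = ‖⟪m', x⟫_ℂ‖ * ‖η‖ ^ 2 := by ring
        _ ≤ _ := e2
    rw [← mul_pow]
    exact pow_le_pow_left₀ (mul_nonneg (norm_nonneg _) (norm_nonneg _)) e3 2

end HLA

end Pool.Agent.Lib.CSol
end

section

open scoped InnerProductSpace ComplexConjugate

namespace Pool.Agent.Lib.CSol

namespace HLA

variable {V : Type*} [NormedAddCommGroup V] [InnerProductSpace ℂ V] (h : HLA V)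
  [FiniteDimensional ℂ V]

/-- TASK E09. If `A θ (A η x) = 0`, `A η (A η x) = 0` for all `x` then
`D (A η x) η = - D η (A η x)` for all `x`. Proof: put `x₁ = A η x`; `wt_E2`, `wt_E2_nonpos` for
`x₁`: `A η x₁ = 0`; `⟪m', x₁⟫ = 0` (`wt_mA`); `⟪m', A x₁ x₁⟫ = ⟪D x₁ m', x₁⟫`,
`D x₁ m' = D θ (D x m')` (`wt_DAm`), `⟪D θ (D x m'), x₁⟫ = ⟪D x m', A θ x₁⟫ = 0`. So
`‖D η x₁ + D x₁ η‖² ≤ 0`. -/
theorem wt_anti (hH : ∀ x, h.H x ≤ 0) (m m' η θ : V) (hm : h.IsChar2 m m')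
    (hw : h.IsWt m m' η θ) (hv : WtV m m' η θ)
    (h1 : ∀ x, h.A η (h.A η x) = 0) (h2 : ∀ x, h.A θ (h.A η x) = 0) (x : V) :
    h.D (h.A η x) η = -h.D η (h.A η x) := by
  have e1 := h.wt_E2 hH m m' η θ hw hv (h.A η x)
  have e2 := h.wt_E2_nonpos hH m m' η θ hw hv (h.A η x)
  have e3 : ⟪m', h.A η x⟫_ℂ = 0 := (h.wt_mA m m' η θ hm hw hv x).2.1
  have e4 : ⟪m', h.A (h.A η x) (h.A η x)⟫_ℂ = 0 := by
    rw [← h.inner_D_left, (h.wt_DAm m m' η θ hm hw hv x).2.2.1, h.inner_D_left, h2,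
      inner_zero_right]
  rw [h1 x, e3, e4] at e1
  simp only [norm_zero, Complex.zero_re, map_zero, LinearMap.zero_apply, inner_zero_right,
    mul_zero, zero_mul, sub_zero, add_zero, ne_eq, OfNat.ofNat_ne_zero, not_false_eq_true,
    zero_pow] at e1
  rw [e1] at e2
  have e5 : ‖h.D η (h.A η x) + h.D (h.A η x) η‖ = 0 := by
    have := sq_nonneg ‖h.D η (h.A η x) + h.D (h.A η x) η‖
    exact pow_eq_zero_iff (two_ne_zero) |>.1 (le_antisymm e2 this)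
  rw [norm_eq_zero] at e5
  exact eq_neg_of_add_eq_zero_right e5

/-- Then `re ⟪m', A x x⟫ ≤ 0` if `η ≠ 0`: in `wt_E2`,
`⟪x, D (A η x) η⟫ = -⟪x, D η (A η x)⟫ = -‖A η x‖²`, so
`0 ≥ E2 η x = ‖D η x + D x η‖² + ‖A η x‖² - ‖⟪m', x⟫‖² ‖η‖² + 2 re ⟪m', A x x⟫ ‖η‖²`
and `wt_CS`. -/
theorem wt_sign (hH : ∀ x, h.H x ≤ 0) (m m' η θ : V) (hm : h.IsChar2 m m')
    (hw : h.IsWt m m' η θ) (hv : WtV m m' η θ)
    (h1 : ∀ x, h.A η (h.A η x) = 0) (h2 : ∀ x, h.A θ (h.A η x) = 0) (hη : η ≠ 0) (x : V) :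
    (⟪m', h.A x x⟫_ℂ).re ≤ 0 := by
  have e1 := h.wt_E2 hH m m' η θ hw hv x
  have e2 := h.wt_E2_nonpos hH m m' η θ hw hv x
  have e3 := h.wt_CS m m' η θ hw hv x
  have e4 : (⟪x, h.D (h.A η x) η⟫_ℂ).re = -‖h.A η x‖ ^ 2 := by
    rw [h.wt_anti hH m m' η θ hm hw hv h1 h2 x, inner_neg_right, h.inner_D_right,
      inner_self_eq_norm_sq_to_K, Complex.neg_re]
    congr 1
    norm_cast
  rw [e4] at e1
  have hpos : 0 < ‖η‖ ^ 2 := by
    have := norm_pos_iff.2 hη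
    positivity
  by_contra hcon
  push Not at hcon
  have := mul_pos hcon hpos
  have h5 := sq_nonneg ‖h.A η x‖
  nlinarith

end HLA

end Pool.Agent.Lib.CSol
end

section

open scoped InnerProductSpace ComplexConjugate

namespace Pool.Agent.Lib.CSol

namespace HLA

variable {V : Type*} [NormedAddCommGroup V] [InnerProductSpace ℂ V] (h : HLA V)
  [FiniteDimensional ℂ V]

/-- TASK E11. If `D x (m + m') = 0` for all `x` then `η` is split: `D x η = -⟪m', x⟫ • η`.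
Proof. `re ⟪m', A x x⟫ = 0`: `⟪m', A x x⟫ = ⟪D x m', x⟫`, `⟪m, A x x⟫ = ⟪D x m, x⟫
= ⟪x, D x m'⟫ = conj ⟪m', A x x⟫` (`hm.sym`) and the sum is `⟪D x (m + m'), x⟫ = 0`. Sum `wt_E2`
over an orthonormal basis `e i` (`stdOrthonormalBasis`):
`∑ ‖D η (e i) + D (e i) η‖² = ∑ ‖D η (e i)‖² + ∑ ‖D (e i) η‖² + 2 re ∑ ⟪D η (e i), D (e i) η⟫`;
`∑ ‖D η (e i)‖² = ∑ ‖A η (e i)‖²` (Hilbert-Schmidt norm of the adjoint);
with `L x = D x η`: `∑ ⟪D η (e i), L (e i)⟫ = ∑ ⟪e i, A η (L (e i))⟫ = trace (A η ∘ L)` and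
`∑ ⟪e i, D (A η (e i)) η⟫ = trace (L ∘ A η)`: equal. So
`0 ≥ ∑ E2 η (e i) = ∑ (‖D (e i) η‖² - ‖⟪m', e i⟫‖² ‖η‖²)`. Each term is `≥ 0`
(`⟪η, D x η⟫ = -⟪m', x⟫ ‖η‖²`, Cauchy-Schwarz), so each is `0`, and equality in Cauchy-Schwarz
gives `D (e i) η = -⟪m', e i⟫ • η` (e.g. `‖D x η + ⟪m', x⟫ • η‖² = ‖D x η‖² - ‖⟪m', x⟫‖² ‖η‖²`).
Extend by linearity. -/
theorem wt_split (hH : ∀ x, h.H x ≤ 0) (m m' η θ : V) (hm : h.IsChar2 m m')
    (hw : h.IsWt m m' η θ) (hv : WtV m m' η θ) (hp : ∀ x, h.D x (m + m') = 0) (x : V) :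
    h.D x η = -(⟪m', x⟫_ℂ • η) := by
  have hre : ∀ x, (⟪m', h.A x x⟫_ℂ).re = 0 := by
    intro x
    have h1 : ⟪m', h.A x x⟫_ℂ = ⟪h.D x m', x⟫_ℂ := (h.inner_D_left x m' x).symm
    have h2 : ⟪h.D x m, x⟫_ℂ = conj ⟪h.D x m', x⟫_ℂ := by
      rw [hm.sym x x, inner_conj_symm]
    have h3 : ⟪h.D x m, x⟫_ℂ + ⟪h.D x m', x⟫_ℂ = 0 := by
      rw [← inner_add_left, ← map_add, hp, inner_zero_left]
    rw [h2] at h3
    have h4 := congrArg Complex.re h3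
    simp only [Complex.add_re, Complex.conj_re, Complex.zero_re] at h4
    rw [h1]
    linarith
  have hsq : ∀ x, ‖h.D x η + ⟪m', x⟫_ℂ • η‖ ^ 2
      = ‖h.D x η‖ ^ 2 - ‖⟪m', x⟫_ℂ‖ ^ 2 * ‖η‖ ^ 2 := by
    intro x
    have h1 : ⟪h.D x η, ⟪m', x⟫_ℂ • η⟫_ℂ = ((-(‖⟪m', x⟫_ℂ‖ ^ 2 * ‖η‖ ^ 2) : ℝ) : ℂ) := by
      rw [inner_smul_right, h.inner_D_left, hw.w1, inner_neg_right, inner_smul_right,
        inner_self_eq_norm_sq_to_K, ← Complex.normSq_eq_norm_sq ⟪m', x⟫_ℂ]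
      push_cast
      rw [← Complex.mul_conj, inner_conj_symm]
      simp only [Complex.coe_algebraMap]
      ring
    rw [@norm_add_sq ℂ, h1, norm_smul, mul_pow]
    simp only [RCLike.re_eq_complex_re, Complex.ofReal_re]
    ring
  set e := stdOrthonormalBasis ℂ V
  have hHS : ∑ i, ‖h.D η (e i)‖ ^ 2 = ∑ i, ‖h.A η (e i)‖ ^ 2 := by
    simp only [← e.sum_sq_norm_inner_right]
    rw [Finset.sum_comm]
    refine Finset.sum_congr rfl fun i _ => Finset.sum_congr rfl fun k _ => ?_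
    rw [h.inner_D_right, ← inner_conj_symm, Complex.norm_conj]
  have hT : ∑ i, ⟪h.D η (e i), h.D (e i) η⟫_ℂ = ∑ i, ⟪e i, h.D (h.A η (e i)) η⟫_ℂ := by
    have h1 := LinearMap.trace_eq_sum_inner ((h.A η) ∘ₗ (h.D.flip η)) e
    have h2 := LinearMap.trace_eq_sum_inner ((h.D.flip η) ∘ₗ (h.A η)) e
    have h3 := LinearMap.trace_comp_comm' (h.A η) (h.D.flip η)
    rw [h1, h2] at h3
    simp only [LinearMap.comp_apply, LinearMap.flip_apply] at h3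
    rw [h3]
    exact Finset.sum_congr rfl fun i _ => h.inner_D_left _ _ _
  have hs : ∑ i, ‖h.D (e i) η + ⟪m', e i⟫_ℂ • η‖ ^ 2 ≤ 0 := by
    have h1 : ∑ i, h.E2 η (e i) ≤ 0 :=
      Finset.sum_nonpos fun i _ => h.wt_E2_nonpos hH m m' η θ hw hv (e i)
    have h2 : ∑ i, h.E2 η (e i) = ∑ i, ‖h.D (e i) η + ⟪m', e i⟫_ℂ • η‖ ^ 2 := by
      have h3 : ∀ i, h.E2 η (e i) = ‖h.D η (e i)‖ ^ 2 - ‖h.A η (e i)‖ ^ 2
          + 2 * (⟪h.D η (e i), h.D (e i) η⟫_ℂ).re - 2 * (⟪e i, h.D (h.A η (e i)) η⟫_ℂ).re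
          + ‖h.D (e i) η + ⟪m', e i⟫_ℂ • η‖ ^ 2 := by
        intro i
        rw [h.wt_E2 hH m m' η θ hw hv, hre, hsq, @norm_add_sq ℂ]
        simp only [RCLike.re_eq_complex_re]
        ring
      rw [Finset.sum_congr rfl fun i _ => h3 i]
      simp only [Finset.sum_add_distrib, Finset.sum_sub_distrib, ← Finset.mul_sum,
        ← Complex.re_sum]
      rw [hHS, hT]
      ring
    rw [← h2]
    exact h1
  have h0 : ∀ i, h.D (e i) η + ⟪m', e i⟫_ℂ • η = 0 := by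
    intro i
    have h1 := (Finset.sum_eq_zero_iff_of_nonneg
      (fun i _ => sq_nonneg ‖h.D (e i) η + ⟪m', e i⟫_ℂ • η‖)).1
      (le_antisymm hs (Finset.sum_nonneg fun i _ => sq_nonneg _)) i (Finset.mem_univ i)
    exact norm_eq_zero.1 ((pow_eq_zero_iff (two_ne_zero)).1 h1)
  have hx := e.sum_repr' x
  have h5 : h.D x η + ⟪m', x⟫_ℂ • η = 0 := by
    rw [← hx]
    simp only [map_sum, map_smul, LinearMap.sum_apply, LinearMap.smul_apply, inner_sum,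
      inner_smul_right, Finset.sum_smul, mul_smul]
    rw [← Finset.sum_add_distrib]
    refine Finset.sum_eq_zero fun i _ => ?_
    rw [← smul_add, h0, smul_zero]
  exact eq_neg_of_add_eq_zero_left h5

end HLA

end Pool.Agent.Lib.CSol
end
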