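import Pool.Agent.Lib.CSol.Mg.G003
import Pool.Agent.Lib.CSol.Mg.G016

section

open scoped InnerProductSpace ComplexConjugate

namespace Pool.Agent.Lib.CSol

namespace HLA

variable {V : Type*} [NormedAddCommGroup V] [InnerProductSpace ℂ V] (h : HLA V)
  [FiniteDimensional ℂ V]

/-- TASK F06. `D e` is normal: `D e (A e z) = A e (D e z)`. Proof: `H e = 0` (`De`, `Ae`). For
every `x`, `E2 e x`: `D x e = 0`, `A x e = 0`, `A e e = 0`, and
`⟪x, D (A e x) e⟫ = 0`, `⟪e, D (A x x) e⟫ = 0`, so `E2 e x = ‖D e x‖² - ‖A e x‖² ≤ 0`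
(`E2_nonpos`). The operator `S = D e ∘ A e - A e ∘ D e` satisfies
`⟪x, S x⟫ = ‖A e x‖² - ‖D e x‖² ≥ 0` and has trace `0`; so over an orthonormal basis all
`⟪b i, S (b i)⟫ = 0`, for every orthonormal basis, hence `⟪x, S x⟫ = 0` for every `x` (extend the
unit vector to an orthonormal basis; or: a positive operator with trace `0` is `0`), and then
`S = 0` (`inner_map_self_eq_zero`). -/
theorem De_normal (hH : ∀ x, h.H x ≤ 0) (e : V) (s : h.SplitE e) (z : V) :
    h.D e (h.A e z) = h.A e (h.D e z) := by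
  have hHe : h.H e = 0 := by
    unfold H
    rw [s.De, s.Ae]
    simp
  have key : ∀ x, ‖h.D e x‖ ^ 2 ≤ ‖h.A e x‖ ^ 2 := by
    intro x
    have h1 := h.E2_nonpos hH e hHe x
    unfold E2 at h1
    simp only [s.De, s.Ae, map_zero, LinearMap.zero_apply, inner_zero_right,
      add_zero, norm_zero, Complex.zero_re, mul_zero, sub_zero] at h1
    have h2 : (0 : ℝ) ^ 2 = 0 := by norm_num
    rw [h2] at h1
    linarith
  let T : V →ₗ[ℂ] V := (h.D e).comp (h.A e) - (h.A e).comp (h.D e)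
  have hTdef : ∀ x, T x = h.D e (h.A e x) - h.A e (h.D e x) := fun x => rfl
  have hTi : ∀ x y, ⟪x, T y⟫_ℂ = ⟪h.A e x, h.A e y⟫_ℂ - ⟪h.D e x, h.D e y⟫_ℂ := by
    intro x y
    rw [hTdef, inner_sub_right, h.inner_D_right, h.inner_D_left]
  have hTsym : T.IsSymmetric := by
    intro x y
    rw [← inner_conj_symm, hTi, hTi, map_sub, inner_conj_symm, inner_conj_symm]
  have hTx : ∀ x, ⟪x, T x⟫_ℂ = ((‖h.A e x‖ ^ 2 - ‖h.D e x‖ ^ 2 : ℝ) : ℂ) := by
    intro x
    rw [hTi, inner_self_eq_norm_sq_to_K, inner_self_eq_norm_sq_to_K]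
    push_cast
    rfl
  have htr : LinearMap.trace ℂ V T = 0 := by
    change LinearMap.trace ℂ V ((h.D e) * (h.A e) - (h.A e) * (h.D e)) = 0
    rw [map_sub, LinearMap.trace_mul_comm, sub_self]
  have hn : Module.finrank ℂ V = Module.finrank ℂ V := rfl
  have hsum : ∑ i, ⟪hTsym.eigenvectorBasis hn i, T (hTsym.eigenvectorBasis hn i)⟫_ℂ = 0 := by
    rw [← LinearMap.trace_eq_sum_inner, htr]
  have hsum2 : ∑ i, (‖h.A e (hTsym.eigenvectorBasis hn i)‖ ^ 2
      - ‖h.D e (hTsym.eigenvectorBasis hn i)‖ ^ 2) = 0 := by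
    simp only [hTx] at hsum
    exact_mod_cast hsum
  have hz : ∀ i, T (hTsym.eigenvectorBasis hn i) = 0 := by
    intro i
    have h1 := (Finset.sum_eq_zero_iff_of_nonneg (fun i _ => sub_nonneg.2 (key _))).1 hsum2 i
      (Finset.mem_univ i)
    have h2 := hTx (hTsym.eigenvectorBasis hn i)
    rw [h1, hTsym.apply_eigenvectorBasis hn i, inner_smul_right, inner_self_eq_norm_sq_to_K,
      OrthonormalBasis.norm_eq_one] at h2
    rw [hTsym.apply_eigenvectorBasis hn i]
    have h3 : (hTsym.eigenvalues hn i : ℂ) = 0 := by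
      simpa using h2
    have h4 : hTsym.eigenvalues hn i = 0 := by exact_mod_cast h3
    rw [h4]
    simp
  have hT0 : T = 0 := by
    refine (hTsym.eigenvectorBasis hn).toBasis.ext (fun i => ?_)
    rw [OrthonormalBasis.coe_toBasis, hz i, LinearMap.zero_apply]
  have h5 := hTdef z
  rw [hT0, LinearMap.zero_apply] at h5
  exact (sub_eq_zero.1 h5.symm)

end HLA

end Pool.Agent.Lib.CSol
end

section

open scoped InnerProductSpace ComplexConjugate

namespace Pool.Agent.Lib.CSol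

namespace HLA

variable {V : Type*} [NormedAddCommGroup V] [InnerProductSpace ℂ V] (h : HLA V)
  [FiniteDimensional ℂ V]

/-- TASK F08. All `D x`, `A y` commute. Write `x = a • e + u`, `y = b • e + v` with `u, v ∈ U`.
`D u, A v`: `commU`. `D e, A e`: `De_normal`. `D e, A v`: `fuglede` with `N = D v` (normal by
`commU`), `T = D e` (`D_br_e`). `D u, A e`: the adjoint of the relation for `D e, A u`. -/
theorem comm_all (hH : ∀ x, h.H x ≤ 0) (e : V) (s : h.SplitE e) (x y z : V) :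
    h.D x (h.A y z) = h.A y (h.D x z) := by
  have hadj : ∀ v, LinearMap.adjoint (h.D v) = h.A v := by
    intro v
    rw [D_def, LinearMap.adjoint_adjoint]
  have hDeA : ∀ v ∈ (ℂ ∙ e)ᗮ, ∀ z, h.D e (h.A v z) = h.A v (h.D e z) := by
    intro v hv z
    have h1 := fuglede (h.D v) (h.D e) (by
      rw [hadj]
      ext w
      exact s.commU v hv v hv w) (by
      ext w
      exact h.D_br_e e s hv w)
    rw [hadj] at h1
    exact LinearMap.congr_fun h1 z
  have hDAe : ∀ u ∈ (ℂ ∙ e)ᗮ, ∀ z, h.D u (h.A e z) = h.A e (h.D u z) := by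
    intro u hu z
    refine ext_inner_right ℂ fun w => ?_
    rw [inner_D_left]
    have e1 : ⟪h.A e (h.D u z), w⟫_ℂ = ⟪h.D u z, h.D e w⟫_ℂ := (h.inner_D_right e w (h.D u z)).symm
    have e2 : ⟪h.A e z, h.A u w⟫_ℂ = ⟪z, h.D e (h.A u w)⟫_ℂ := (h.inner_D_right e (h.A u w) z).symm
    rw [e1, e2, inner_D_left, hDeA u hu w]
  have hdec : ∀ x : V, ∃ (a : ℂ) (u : V), u ∈ (ℂ ∙ e)ᗮ ∧ x = a • e + u := by
    intro x
    refine ⟨⟪e, x⟫_ℂ, x - ⟪e, x⟫_ℂ • e, ?_, by abel⟩
    rw [Submodule.mem_orthogonal_singleton_iff_inner_right, inner_sub_right, inner_smul_right,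
      inner_self_eq_norm_sq_to_K, s.norm]
    simp
  obtain ⟨a, u, hu, rfl⟩ := hdec x
  obtain ⟨b, v, hv, rfl⟩ := hdec y
  have k1 := h.De_normal hH e s z
  have k2 := hDeA v hv z
  have k3 := hDAe u hu z
  have k4 := s.commU u hu v hv z
  simp only [map_add, map_smul, LinearMap.add_apply, LinearMap.smul_apply, LinearMap.map_smulₛₗ,
    k1, k2, k3, k4, smul_add]
  rw [smul_comm a]
  abel

end HLA

end Pool.Agent.Lib.CSol
end

section

open scoped InnerProductSpace ComplexConjugate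

namespace Pool.Agent.Lib.CSol

namespace HLA

variable {V : Type*} [NormedAddCommGroup V] [InnerProductSpace ℂ V] (h : HLA V)
  [FiniteDimensional ℂ V]

/-- TASK F09. `D (A e u) u = 0` for `u ∈ U = (ℂ ∙ e)ᗮ`. Proof. All vectors `D x y`, `A x y` lie
in `U` (`⟪e, D x y⟫ = ⟪A x e, y⟫ = 0`, etc.). By normality (`comm_all` with `x = y`)
`‖D x x‖ = ‖A x x‖`, so `H x = -2 re ⟪x, D (A x x) x⟫`. For `x = u + c • e`:
`A x x = A u u + conj c • A e u`, `D (A u u) = 0` (adjoint of `killU`), `D y e = 0`, so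
`H x = -2 re (conj c * ⟪u, D (A e u) u⟫) ≤ 0` for all `c : ℂ`: `⟪u, D (A e u) u⟫ = 0` for all
`u ∈ U`. Replace `u` by `u + t • v` (`t : ℂ`, `v ∈ U`); the coefficient of `conj t` is
`⟪v, D (A e u) u⟫` (the expression is a polynomial in `t, conj t` vanishing identically; the
monomials `conj t * t^k`, `t^k`, `k ≤ 2`; e.g. average over `t = 1, I, -1, -I` times `t`, and
`t = 2, ...`). So `D (A e u) u ∈ U ∩ Uᗮ = 0`. -/
theorem DAeu (hH : ∀ x, h.H x ≤ 0) (e : V) (s : h.SplitE e) {u : V} (hu : u ∈ (ℂ ∙ e)ᗮ) :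
    h.D (h.A e u) u = 0 := by
  have hnorm : ∀ x, ‖h.D x x‖ ^ 2 = ‖h.A x x‖ ^ 2 := by
    intro x
    have e1 : ⟪h.D x x, h.D x x⟫_ℂ = ⟪h.A x x, h.A x x⟫_ℂ := by
      rw [inner_D_left, ← h.comm_all hH e s x x x, inner_D_right]
    rw [inner_self_eq_norm_sq_to_K, inner_self_eq_norm_sq_to_K] at e1
    exact_mod_cast e1
  have heD : ∀ y z, ⟪e, h.D y z⟫_ℂ = 0 := by
    intro y z
    rw [inner_D_right, s.Ae, inner_zero_left]
  -- the quadratic expression vanishes
  have hF : ∀ u ∈ (ℂ ∙ e)ᗮ, ⟪u, h.D (h.A e u) u⟫_ℂ = 0 := by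
    intro u hu
    have hD0 : h.D (h.A u u) = 0 := by
      have hA0 : h.A (h.A u u) = 0 := by
        ext z
        exact s.killU u hu u hu z
      rw [D_def, hA0, map_zero]
    have key : ∀ c : ℂ, h.H (u + c • e) = -2 * (conj c * ⟪u, h.D (h.A e u) u⟫_ℂ).re := by
      intro c
      have hA : h.A (u + c • e) (u + c • e) = h.A u u + conj c • h.A e u := by
        rw [map_add (h.A (u + c • e)), map_smul (h.A (u + c • e)), s.Ae, smul_zero, add_zero,
          map_add, LinearMap.add_apply, LinearMap.map_smulₛₗ, LinearMap.smul_apply]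
      have hD : h.D (h.A (u + c • e) (u + c • e)) (u + c • e) = conj c • h.D (h.A e u) u := by
        rw [hA, map_add h.D, hD0, zero_add, map_smul h.D, LinearMap.smul_apply, map_add, map_smul,
          s.De, smul_zero, add_zero]
      unfold H
      rw [hnorm, hD, inner_smul_right, inner_add_left, inner_smul_left, heD, mul_zero, add_zero]
      ring
    have h1 := hH (u + (-⟪u, h.D (h.A e u) u⟫_ℂ) • e)
    rw [key] at h1
    have h2 : (conj (-⟪u, h.D (h.A e u) u⟫_ℂ) * ⟪u, h.D (h.A e u) u⟫_ℂ).re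
        = -‖⟪u, h.D (h.A e u) u⟫_ℂ‖ ^ 2 := by
      rw [map_neg, neg_mul, Complex.conj_mul']
      rw [Complex.neg_re]
      congr 1
      exact_mod_cast Complex.ofReal_re _
    rw [h2] at h1
    have h3 : ‖⟪u, h.D (h.A e u) u⟫_ℂ‖ ^ 2 ≤ 0 := by linarith
    have h4 : ‖⟪u, h.D (h.A e u) u⟫_ℂ‖ = 0 := by
      nlinarith [norm_nonneg ⟪u, h.D (h.A e u) u⟫_ℂ]
    exact norm_eq_zero.mp h4
  have hpol : ∀ v ∈ (ℂ ∙ e)ᗮ, ⟪v, h.D (h.A e u) u⟫_ℂ = 0 := by
    intro v hv
    have f1 := hF (u + v) (Submodule.add_mem _ hu hv)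
    have f2 := hF (u - v) (Submodule.sub_mem _ hu hv)
    have f3 := hF (u + Complex.I • v) (Submodule.add_mem _ hu (Submodule.smul_mem _ _ hv))
    have f4 := hF (u - Complex.I • v) (Submodule.sub_mem _ hu (Submodule.smul_mem _ _ hv))
    simp only [map_add, map_sub, map_smul, LinearMap.add_apply, LinearMap.sub_apply,
      LinearMap.smul_apply, inner_add_left, inner_add_right, inner_sub_left, inner_sub_right,
      inner_smul_left, inner_smul_right, Complex.conj_I, smul_add, smul_sub] at f1 f2 f3 f4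
    have hI := Complex.I_mul_I
    have h4 : (4 : ℂ) * ⟪v, h.D (h.A e u) u⟫_ℂ = 0 := by
      linear_combination f1 - f2 + Complex.I * f3 - Complex.I * f4
        + (2 * ⟪v, h.D (h.A e u) u⟫_ℂ - 2 * ⟪u, h.D (h.A e v) u⟫_ℂ - 2 * ⟪u, h.D (h.A e u) v⟫_ℂ
          - 2 * ⟪v, h.D (h.A e v) v⟫_ℂ * (1 - Complex.I ^ 2)) * hI
    exact (mul_eq_zero.mp h4).resolve_left (by norm_num)
  have hmem : h.D (h.A e u) u ∈ (ℂ ∙ e)ᗮ := by
    rw [Submodule.mem_orthogonal_singleton_iff_inner_right]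
    exact heD _ _
  exact inner_self_eq_zero.mp (hpol _ hmem)

end HLA

end Pool.Agent.Lib.CSol
end
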