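import Pool.Agent.Lib.CSol.Mg.G013
import Pool.Agent.Lib.CSol.Mg.G014
import Pool.Agent.Lib.CSol.Mg.G017
import Pool.Agent.Lib.CSol.Mg.G011
import Pool.Agent.Lib.CSol.Mg.G003

section

open scoped InnerProductSpace ComplexConjugate

namespace Pool.Agent.Lib.CSol

namespace HLA

variable {V : Type*} [NormedAddCommGroup V] [InnerProductSpace ℂ V] (h : HLA V)
  [FiniteDimensional ℂ V]

/-- Weight vectors are symmetric under `(m, m', η, θ) ↦ (m', m, θ, η)`, and characters under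
`(m, m') ↦ (m', m)`. -/
theorem IsWt.swap (m m' η θ : V) (hw : h.IsWt m m' η θ) : h.IsWt m' m θ η :=
  ⟨hw.w2, hw.w1, hw.w4, hw.w3⟩

theorem IsChar2.swap (m m' : V) (hm : h.IsChar2 m m') : h.IsChar2 m' m := by
  refine ⟨hm.br', hm.br, fun x y => ?_⟩
  have h1 := hm.sym y x
  rw [← inner_conj_symm (h.D x m') y, ← h1, inner_conj_symm]

private theorem e10_core (hH : ∀ x, h.H x ≤ 0)
    (S4 : ∀ l, h.IsChar l → (∀ x, 0 ≤ (⟪x, h.D x l⟫_ℂ).re) → ∀ x, h.D x l = 0)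
    (m m' η θ : V) (hm : h.IsChar2 m m') (hw : h.IsWt m m' η θ) (hv : WtV m m' η θ)
    (n1 : IsNilpotent (h.A η)) (n2 : IsNilpotent (h.A θ)) (hη : η ≠ 0) (x : V) :
    h.D x (m + m') = 0 := by
  have hsq := h.wt_sq_zero' hH m m' η θ hm hw hv n1 n2
  have hs := h.wt_sign hH m m' η θ hm hw hv (fun x => (hsq x).1) (fun x => (hsq x).2.2.2) hη
  have hl := IsChar2.real h m m' hm (-1)
  have hle : conj (-1 : ℂ) • m + (-1 : ℂ) • m' = -(m + m') := by
    rw [map_neg, map_one]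
    module
  rw [hle] at hl
  have key := S4 _ hl (fun x => by
    have e1 : ⟪x, h.D x m⟫_ℂ = ⟪h.A x x, m⟫_ℂ := h.inner_D_right x m x
    have e2 : ⟪x, h.D x m'⟫_ℂ = ⟪h.A x x, m'⟫_ℂ := h.inner_D_right x m' x
    have e3 : ⟪m, h.A x x⟫_ℂ = ⟪h.A x x, m'⟫_ℂ := by
      rw [← h.inner_D_left, hm.sym, e2]
    have e4 : (⟪h.A x x, m⟫_ℂ).re = (⟪m', h.A x x⟫_ℂ).re := by
      rw [← inner_conj_symm (h.A x x) m, Complex.conj_re, e3, ← inner_conj_symm (h.A x x) m',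
        Complex.conj_re]
    have e5 : (⟪h.A x x, m'⟫_ℂ).re = (⟪m', h.A x x⟫_ℂ).re := by
      rw [← inner_conj_symm (h.A x x) m', Complex.conj_re]
    rw [map_neg, inner_neg_right, map_add, inner_add_right, e1, e2, Complex.neg_re,
      Complex.add_re, e4, e5]
    have := hs x
    linarith) x
  rw [map_neg, neg_eq_zero] at key
  exact key

/-- TASK E10. The character `m + m'` (`2 Re w`) is parallel. Hypotheses: `S2`, `S4` (Steps 2
and 4) and `SF`: if `x ↦ D x l` is nonzero then `K l` satisfies the `kill` property.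
Proof. Let `l = -(m + m')` (real character; `K l = K (m+m')`). Suppose `D x l ≠ 0` for some `x`.
`η, θ ∈ K l` (`wt_Dm`). `l ∉ (K l)ᗮ`: otherwise, as `(K l)ᗮ` is the range of `B x = D x l`
(`B` symmetric with kernel `K l`), `l = D x l` for some `x`, so `l = 0` by `S2`, contradiction.
So there is `u ∈ K l` with `⟪l, u⟫ ≠ 0`, hence `⟪m', u⟫ ≠ 0` or `⟪m, u⟫ ≠ 0`; rescale it to `1`.
Case `⟪m', u⟫ = 1`: `SF` with `v = u`, `u = η`, `w`: `A (A u η) w = 0` for `w ∈ K l`, and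
`A u η = -⟪u, m'⟫ • η = -η`, so `A η w = 0` for `w ∈ K l`; `wt_nilp1`.
Case `⟪m, u⟫ = 1`: similarly `A u θ = -θ`, `A θ w = 0`; `wt_nilp2`.
So `A η`, `A θ` are nilpotent; `wt_sq_zero'`. If `η ≠ 0`: `wt_sign` gives
`re ⟪m', A x x⟫ ≤ 0`. Now `⟪m', A x x⟫ = ⟪D x m', x⟫` and `⟪m, A x x⟫ = ⟪D x m, x⟫
= ⟪x, D x m'⟫ = conj ⟪D x m', x⟫`, so `re ⟪x, D x l⟫ = -2 re ⟪m', A x x⟫ ≥ 0`: `S4` gives
`D x l = 0`, contradiction. If `η = 0`, then `θ ≠ 0` (`hne`); use `IsWt.swap`. -/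
theorem wt_parallel (hH : ∀ x, h.H x ≤ 0)
    (S2 : ∀ l, h.IsChar l → ∀ x, h.D x l = l → l = 0)
    (S4 : ∀ l, h.IsChar l → (∀ x, 0 ≤ (⟪x, h.D x l⟫_ℂ).re) → ∀ x, h.D x l = 0)
    (SF : ∀ l, h.IsChar l → (∃ x, h.D x l ≠ 0) →
      ∀ u ∈ h.K l, ∀ v ∈ h.K l, ∀ w ∈ h.K l, h.A (h.A v u) w = 0)
    (m m' η θ : V) (hm : h.IsChar2 m m') (hw : h.IsWt m m' η θ) (hne : η ≠ 0 ∨ θ ≠ 0) (x : V) :
    h.D x (m + m') = 0 := by
  by_contra hx
  obtain ⟨v1, v2, v3, v4⟩ := h.wt_vanish S2 m m' η θ hm hw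
  have hv : WtV m m' η θ := ⟨v1, v2, v3, v4⟩
  have hl : h.IsChar (m + m') := by
    have h1 := IsChar2.real h m m' hm 1
    rw [map_one, one_smul, one_smul] at h1
    exact h1
  have hD := h.wt_Dm m m' η θ hm hw hv
  have hηK : η ∈ h.K (m + m') := by
    rw [mem_K, map_add, hD.1, hD.2.1, add_zero]
  have hθK : θ ∈ h.K (m + m') := by
    rw [mem_K, map_add, hD.2.2.1, hD.2.2.2, add_zero]
  -- a vector of `K l` not orthogonal to `l`
  have hnot : m + m' ∉ (h.K (m + m'))ᗮ := by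
    intro hmem
    have hsym : (h.D.flip (m + m')).IsSymmetric := fun a b => hl.sym a b
    have e1 : (h.K (m + m'))ᗮ = LinearMap.range (h.D.flip (m + m')) := by
      change (LinearMap.ker (h.D.flip (m + m')))ᗮ = _
      rw [← hsym.orthogonal_range, Submodule.orthogonal_orthogonal]
    rw [e1] at hmem
    obtain ⟨x0, hx0⟩ := hmem
    have hx1 : h.D x0 (m + m') = m + m' := hx0
    have := S2 _ hl x0 hx1
    apply hx
    rw [this, map_zero]
  have hexu : ∃ u ∈ h.K (m + m'), ⟪u, m + m'⟫_ℂ ≠ 0 := by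
    by_contra hcon
    push Not at hcon
    exact hnot ((Submodule.mem_orthogonal _ _).mpr hcon)
  obtain ⟨u, huK, hu⟩ := hexu
  have hSF := SF _ hl ⟨x, hx⟩
  have hnil : IsNilpotent (h.A η) ∧ IsNilpotent (h.A θ) := by
    by_cases hu' : ⟪u, m'⟫_ℂ = 0
    · have hu2 : ⟪u, m⟫_ℂ ≠ 0 := by
        intro h0
        apply hu
        rw [inner_add_right, hu', h0, add_zero]
      have hu3 : ⟪m, u⟫_ℂ ≠ 0 := fun h0 => hu2 (inner_eq_zero_symm.mp h0)
      have hu4 : ⟪m, (⟪m, u⟫_ℂ)⁻¹ • u⟫_ℂ = 1 := by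
        rw [inner_smul_right, inv_mul_cancel₀ hu3]
      have hu5 : (⟪m, u⟫_ℂ)⁻¹ • u ∈ h.K (m + m') := Submodule.smul_mem _ _ huK
      generalize (⟪m, u⟫_ℂ)⁻¹ • u = w at hu4 hu5
      have hu6 : ⟪w, m⟫_ℂ = 1 := by
        rw [← inner_conj_symm w m, hu4, map_one]
      refine h.wt_nilp2 m m' η θ hm hw hv w hu4 ?_
      have e := hSF θ hθK w hu5 w hu5
      rw [hw.w2, hu6, one_smul, map_neg, LinearMap.neg_apply, neg_eq_zero] at e
      exact e
    · have hu3 : ⟪m', u⟫_ℂ ≠ 0 := fun h0 => hu' (inner_eq_zero_symm.mp h0)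
      have hu4 : ⟪m', (⟪m', u⟫_ℂ)⁻¹ • u⟫_ℂ = 1 := by
        rw [inner_smul_right, inv_mul_cancel₀ hu3]
      have hu5 : (⟪m', u⟫_ℂ)⁻¹ • u ∈ h.K (m + m') := Submodule.smul_mem _ _ huK
      generalize (⟪m', u⟫_ℂ)⁻¹ • u = w at hu4 hu5
      have hu6 : ⟪w, m'⟫_ℂ = 1 := by
        rw [← inner_conj_symm w m', hu4, map_one]
      refine h.wt_nilp1 m m' η θ hm hw hv w hu4 ?_
      have e := hSF η hηK w hu5 w hu5
      rw [hw.w1, hu6, one_smul, map_neg, LinearMap.neg_apply, neg_eq_zero] at e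
      exact e
  by_cases hη : η = 0
  · have hθ : θ ≠ 0 := hne.resolve_left (fun hn => hn hη)
    have e := h.e10_core hH S4 m' m θ η (IsChar2.swap h m m' hm) (IsWt.swap h m m' η θ hw)
      ⟨v4, v3, v2, v1⟩ hnil.2 hnil.1 hθ x
    apply hx
    rw [add_comm]
    exact e
  · exact hx (h.e10_core hH S4 m m' η θ hm hw hv hnil.1 hnil.2 hη x)

end HLA

end Pool.Agent.Lib.CSol
end

section

open scoped InnerProductSpace ComplexConjugate

namespace Pool.Agent.Lib.CSol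

namespace HLA

variable {V : Type*} [NormedAddCommGroup V] [InnerProductSpace ℂ V] (h : HLA V)
  [FiniteDimensional ℂ V]

/-- TASK F10. `h` is flat. `comm` is `comm_all`. `kill`: `A (A y x) z = 0`. Polarising `DAeu`:
`D (A e u) u' = - D (A e u') u` for `u, u' ∈ U`. For `v ∈ U`:
`A v (D (A e u) u') = D (A e u) (A v u') = - D (A e (A v u')) u = - D (A v (A e u')) u = 0`
(`comm_all`; `A e`, `A v` commute: adjoint of `D_br_e`; `D (A v w) = 0` for `v, w ∈ U`: adjoint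
of `killU`). Take `v = A e u ∈ U`: `‖D v u'‖² = ⟪u', A v (D v u')⟫ = 0`. So `D (A e u) = 0` (also
on `e`), hence `A (A e u) = 0`. Together with `killU` and `A y e = 0` (linearity in `x`, conjugate
linearity in `y`) this gives `kill`. -/
theorem flat_of_split (hH : ∀ x, h.H x ≤ 0) (e : V) (s : h.SplitE e) : h.Flat := by
  have hmem : ∀ {v : V}, v ∈ (ℂ ∙ e)ᗮ ↔ ⟪e, v⟫_ℂ = 0 := fun {v} =>
    Submodule.mem_orthogonal_singleton_iff_inner_right
  have hA : ∀ y x : V, h.A y x ∈ (ℂ ∙ e)ᗮ := by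
    intro y x
    rw [hmem, ← h.inner_D_left, s.De, inner_zero_left]
  have hdec : ∀ x : V, ∃ u ∈ (ℂ ∙ e)ᗮ, ∃ c : ℂ, x = u + c • e := by
    intro x
    refine ⟨x - ⟪e, x⟫_ℂ • e, ?_, ⟪e, x⟫_ℂ, by abel⟩
    rw [hmem, inner_sub_right, inner_smul_right, inner_self_eq_norm_sq_to_K, s.norm]
    simp
  have hcommA : ∀ v ∈ (ℂ ∙ e)ᗮ, ∀ z, h.A v (h.A e z) = h.A e (h.A v z) := by
    intro v hv z
    refine ext_inner_left ℂ fun w => ?_
    rw [← h.inner_D_left, ← h.inner_D_left, ← h.inner_D_left, ← h.inner_D_left,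
      h.D_br_e e s hv w]
  have hD0 : ∀ v ∈ (ℂ ∙ e)ᗮ, ∀ u ∈ (ℂ ∙ e)ᗮ, ∀ z, h.D (h.A v u) z = 0 := by
    intro v hv u hu z
    refine ext_inner_right ℂ fun w => ?_
    rw [h.inner_D_left, s.killU u hu v hv w, inner_zero_right, inner_zero_left]
  have hpol : ∀ u ∈ (ℂ ∙ e)ᗮ, ∀ u' ∈ (ℂ ∙ e)ᗮ, h.D (h.A e u) u' = -h.D (h.A e u') u := by
    intro u hu u' hu'
    have h1 := h.DAeu hH e s (Submodule.add_mem _ hu hu')
    simp only [map_add, LinearMap.add_apply, h.DAeu hH e s hu, h.DAeu hH e s hu', zero_add,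
      add_zero] at h1
    rw [add_comm] at h1
    exact eq_neg_of_add_eq_zero_left h1
  have hDe : ∀ u ∈ (ℂ ∙ e)ᗮ, ∀ z, h.D (h.A e u) z = 0 := by
    intro u hu z
    obtain ⟨u', hu', c, rfl⟩ := hdec z
    rw [map_add, map_smul, s.De, smul_zero, add_zero]
    have h1 : h.A (h.A e u) (h.D (h.A e u) u') = 0 := by
      rw [← h.comm_all hH e s, hpol u hu _ (hA _ _), ← hcommA _ (hA e u),
        hD0 _ (hA e u) _ (hA e u'), neg_zero]
    rw [← inner_self_eq_zero (𝕜 := ℂ), h.inner_D_left, h1, inner_zero_right]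
  have hAe : ∀ u ∈ (ℂ ∙ e)ᗮ, ∀ z, h.A (h.A e u) z = 0 := by
    intro u hu z
    refine ext_inner_left ℂ fun w => ?_
    rw [← h.inner_D_left, hDe u hu w, inner_zero_left, inner_zero_right]
  refine ⟨h.comm_all hH e s, fun x y z => ?_⟩
  obtain ⟨u, hu, c, rfl⟩ := hdec x
  obtain ⟨v, hv, d, rfl⟩ := hdec y
  rw [map_add (h.A (v + d • e)), map_smul (h.A (v + d • e)), s.Ae, smul_zero, add_zero, map_add,
    LinearMap.map_smulₛₗ, LinearMap.add_apply, LinearMap.smul_apply, map_add,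
    LinearMap.map_smulₛₗ, LinearMap.add_apply, LinearMap.smul_apply, s.killU u hu v hv z,
    hAe u hu z, smul_zero, add_zero]

end HLA

end Pool.Agent.Lib.CSol
end

section

open scoped InnerProductSpace ComplexConjugate

namespace Pool.Agent.Lib.CSol

namespace HLA

variable {V : Type*} [NormedAddCommGroup V] [InnerProductSpace ℂ V] (h : HLA V)
  [FiniteDimensional ℂ V]

/-- TASK F11. Step 6 (A): if `e` is a unit vector with `D x e = 0`, `⟪e, br x y⟫ = 0` for all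
`x, y`, and the subalgebra `U = (ℂ ∙ e)ᗮ` is flat, then `h` is flat. Proof: `nice_of_flat`,
`A_e_zero`; then `D x y ∈ U` for all `x, y` (`⟪e, D x y⟫ = ⟪A x e, y⟫ = 0`), so `D^U u v = D u v`
(`sub_D`), and `commU`, `killU` follow from the flatness of `U` (for `z = u' + c • e`,
`D x e = A x e = 0`). Conclude with `flat_of_split`. -/
theorem step6A (hu : h.Uni) (hH : ∀ x, h.H x ≤ 0) (e : V) (he : ‖e‖ = 1)
    (he1 : ∀ x, h.D x e = 0) (he2 : ∀ x y, ⟪e, h.br x y⟫_ℂ = 0)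
    (hf : (h.sub (ℂ ∙ e)ᗮ (fun x _ y _ => h.perp_br e he2 x y)
      (fun x _ y _ => h.perp_A e he1 x y)).Flat) : h.Flat := by
  have N := h.nice_of_flat hH (ℂ ∙ e)ᗮ (fun x _ y _ => h.perp_br e he2 x y)
    (fun x _ y _ => h.perp_A e he1 x y) hf
  have hAe : ∀ x, h.A x e = 0 := h.A_e_zero hu hH e he he1 N
  have hmem : ∀ {v : V}, v ∈ (ℂ ∙ e)ᗮ ↔ ⟪e, v⟫_ℂ = 0 := fun {v} =>
    Submodule.mem_orthogonal_singleton_iff_inner_right
  have hDU : ∀ x y, h.D x y ∈ (ℂ ∙ e)ᗮ := by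
    intro x y
    rw [hmem, h.inner_D_right, hAe, inner_zero_left]
  have hdec : ∀ x : V, ∃ u ∈ (ℂ ∙ e)ᗮ, ∃ c : ℂ, x = u + c • e := by
    intro x
    refine ⟨x - ⟪e, x⟫_ℂ • e, ?_, ⟪e, x⟫_ℂ, by abel⟩
    rw [hmem, inner_sub_right, inner_smul_right, inner_self_eq_norm_sq_to_K, he]
    simp
  have hproj : ∀ v ∈ (ℂ ∙ e)ᗮ, ((ℂ ∙ e)ᗮ).starProjection v = v := fun v hv =>
    Submodule.starProjection_eq_self_iff.2 hv
  have hs : h.SplitE e := by
    refine ⟨he, he1, hAe, he2, ?_, ?_⟩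
    · intro u hu' v hv z
      obtain ⟨w, hw, c, rfl⟩ := hdec z
      have h1 := congrArg (fun t : ((ℂ ∙ e)ᗮ : Submodule ℂ V) => (t : V))
        (hf.comm ⟨u, hu'⟩ ⟨v, hv⟩ ⟨w, hw⟩)
      simp only [sub_D, sub_A] at h1
      rw [hproj _ (hDU _ _), hproj _ (hDU _ _)] at h1
      simp only [map_add, map_smul, hAe, he1, smul_zero, add_zero]
      exact h1
    · intro u hu' v hv z
      obtain ⟨w, hw, c, rfl⟩ := hdec z
      have h1 := congrArg (fun t : ((ℂ ∙ e)ᗮ : Submodule ℂ V) => (t : V))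
        (hf.kill ⟨u, hu'⟩ ⟨v, hv⟩ ⟨w, hw⟩)
      rw [map_add, map_smul, hAe, smul_zero, add_zero]
      exact h1
  exact h.flat_of_split hH e hs

end HLA

end Pool.Agent.Lib.CSol
end
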