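import Pool.Agent.Lib.CSol.Defs

section

open scoped InnerProductSpace ComplexConjugate

namespace Pool.Agent.Lib.CSol

namespace HLA

variable {V : Type*} [NormedAddCommGroup V] [InnerProductSpace ℂ V] (h : HLA V)
  [FiniteDimensional ℂ V]

/-- TASK G02. `y` is a joint eigenvector of `ad` with weight `(m, m')` iff
`IsWt m m' (fst y) (snd y)`. Proof: compute `⁅pr a b, y⁆` by `fst_lie`, `snd_lie`; take `b = 0`
and `a = 0`. -/
theorem isWt_iff (m m' : V) (y : h.Cx) : h.IsWt m m' (h.fst y) (h.snd y) ↔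
    ∀ z : h.Cx, ⁅z, y⁆ = (⟪m, h.fst z⟫_ℂ + ⟪h.snd z, m'⟫_ℂ) • y := by
  constructor
  · intro hw z
    refine h.cx_ext ?_ ?_
    · rw [fst_lie, fst_smul, hw.w3, hw.w1]
      module
    · rw [snd_lie, snd_smul, hw.w4, hw.w2, map_add, inner_conj_symm, inner_conj_symm]
      module
  · intro H
    have hf : ∀ a b : V, h.br a (h.fst y) + h.A (h.snd y) a - h.A b (h.fst y)
        = (⟪m, a⟫_ℂ + ⟪b, m'⟫_ℂ) • h.fst y := by
      intro a b
      have := congrArg h.fst (H (h.pr a b))
      rw [fst_lie, fst_smul] at this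
      exact this
    have hs : ∀ a b : V, h.br b (h.snd y) + h.A (h.fst y) b - h.A a (h.snd y)
        = (⟪a, m⟫_ℂ + ⟪m', b⟫_ℂ) • h.snd y := by
      intro a b
      have := congrArg h.snd (H (h.pr a b))
      rw [snd_lie, snd_smul, map_add, inner_conj_symm, inner_conj_symm] at this
      exact this
    refine ⟨fun x => ?_, fun x => ?_, fun x => ?_, fun x => ?_⟩
    · have := hf 0 x
      rw [map_zero, LinearMap.zero_apply, map_zero, inner_zero_right, zero_add, zero_add,
        zero_sub] at this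
      rw [← this, neg_neg]
    · have := hs x 0
      rw [map_zero, LinearMap.zero_apply, map_zero, inner_zero_right, zero_add, add_zero,
        zero_sub] at this
      rw [← this, neg_neg]
    · have := hf x 0
      rw [map_zero h.A, LinearMap.zero_apply, inner_zero_left, sub_zero, add_zero] at this
      rw [← this, add_sub_cancel_right]
    · have := hs 0 x
      rw [map_zero h.A, LinearMap.zero_apply, inner_zero_left, sub_zero, zero_add] at this
      rw [← this, add_sub_cancel_right]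

end HLA

end Pool.Agent.Lib.CSol
end

section

open scoped InnerProductSpace ComplexConjugate

namespace Pool.Agent.Lib.CSol

namespace HLA

variable {V : Type*} [NormedAddCommGroup V] [InnerProductSpace ℂ V] (h : HLA V)
  [FiniteDimensional ℂ V]

/-- TASK G08. Minimal support. Let `b : ι → h.Cx` be a linearly independent finite family of weight
vectors, `IsWt (m k) (-(m k)) (fst (b k)) (snd (b k))`, with
`D x (snd (b k)) = -⟪m k, x⟫ • snd (b k)`. If some nonzero `y` in the span of the `b k` has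
`snd y = 0`, then there are `e ≠ 0` and `μ` with `IsWt μ (-μ) e 0`. Proof. By `isWt_iff`,
`⁅z, b k⁆ = χ k z • b k`, `χ k z = ⟪m k, fst z⟫ - ⟪snd z, m k⟫`. Among all nonzero
`y = ∑ a k • b k` with `snd y = 0` take one with the least number of nonzero coefficients
(`Finset.card (univ.filter (a k ≠ 0))`, strong induction or `Nat.find`), and let `k₀` be in its
support. (1) For `x : V`, `⁅pr x 0, y⁆ - χ k₀ (pr x 0) • y` has smaller support and `snd = 0`
(`snd ⁅pr x 0, y⁆ = -A x (snd y) + ... = 0`), so it is `0`: `⟪m k, x⟫ = ⟪m k₀, x⟫` for all `k` in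
the support, all `x`, i.e. `m k = m k₀ =: μ`. Then for all `z`, `⁅z, b k⁆ = χ z • b k` with the
same `χ` for all `k` in the support (the weight `(m k, -(m k))` is determined by `m k`!), so
`⁅z, y⁆ = (⟪μ, fst z⟫ + ⟪snd z, -μ⟫) • y`, and `isWt_iff` gives `IsWt μ (-μ) (fst y) 0`,
`fst y ≠ 0`. -/
theorem min_support {ι : Type*} [Fintype ι] (b : ι → h.Cx) (hb : LinearIndependent ℂ b)
    (m : ι → V) (hw : ∀ k, h.IsWt (m k) (-(m k)) (h.fst (b k)) (h.snd (b k)))
    (y : h.Cx) (hy : y ∈ Submodule.span ℂ (Set.range b)) (hy0 : y ≠ 0) (hy1 : h.snd y = 0) :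
    ∃ e μ : V, e ≠ 0 ∧ h.IsWt μ (-μ) e 0 := by
  classical
  have hχ : ∀ (k : ι) (z : h.Cx),
      ⁅z, b k⁆ = (⟪m k, h.fst z⟫_ℂ + ⟪h.snd z, -(m k)⟫_ℂ) • b k := by
    intro k z
    exact (h.isWt_iff (m k) (-(m k)) (b k)).1 (hw k) z
  have key : ∀ (n : ℕ) (a : ι → ℂ), (Finset.univ.filter (fun k => a k ≠ 0)).card ≤ n →
      (∑ k, a k • b k) ≠ 0 → h.snd (∑ k, a k • b k) = 0 →
      ∃ e μ : V, e ≠ 0 ∧ h.IsWt μ (-μ) e 0 := by
    intro n
    induction n with
    | zero =>
      intro a ha h0 _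
      exfalso
      apply h0
      have h1 : Finset.univ.filter (fun k => a k ≠ 0) = ∅ :=
        Finset.card_eq_zero.1 (Nat.le_zero.1 ha)
      apply Finset.sum_eq_zero
      intro k _
      have h2 : k ∉ Finset.univ.filter (fun k => a k ≠ 0) := by rw [h1]; exact Finset.notMem_empty k
      have h3 : a k = 0 := by
        by_contra h4
        exact h2 (Finset.mem_filter.2 ⟨Finset.mem_univ k, h4⟩)
      rw [h3, zero_smul]
    | succ n ih =>
      intro a ha h0 h1
      obtain ⟨k0, hk0⟩ : ∃ k0, a k0 ≠ 0 := by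
        by_contra hcon
        push Not at hcon
        apply h0
        apply Finset.sum_eq_zero
        intro k _
        rw [hcon k, zero_smul]
      by_cases hall : ∀ k, a k ≠ 0 → m k = m k0
      · refine ⟨h.fst (∑ k, a k • b k), m k0, ?_, ?_⟩
        · intro h2
          exact h0 (h.cx_ext (by rw [h2]; rfl) (by rw [h1]; rfl))
        · have h2 := (h.isWt_iff (m k0) (-(m k0)) (∑ k, a k • b k)).2 (by
            intro z
            rw [lie_sum, Finset.smul_sum]
            apply Finset.sum_congr rfl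
            intro k _
            by_cases hk : a k = 0
            · rw [hk]; simp
            · rw [lie_smul, hχ k z, hall k hk, smul_smul, smul_smul, mul_comm])
          rw [h1] at h2
          exact h2
      · push Not at hall
        obtain ⟨k1, hk1, hne⟩ := hall
        obtain ⟨x, hx⟩ : ∃ x : V, ⟪m k1, x⟫_ℂ ≠ ⟪m k0, x⟫_ℂ := by
          by_contra hcon
          push Not at hcon
          exact hne (ext_inner_right ℂ hcon)
        let a' : ι → ℂ := fun k => a k * (⟪m k, x⟫_ℂ - ⟪m k0, x⟫_ℂ)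
        have hy' : (∑ k, a' k • b k) =
            ⁅h.pr x 0, ∑ k, a k • b k⁆ - ⟪m k0, x⟫_ℂ • ∑ k, a k • b k := by
          rw [lie_sum, Finset.smul_sum, ← Finset.sum_sub_distrib]
          apply Finset.sum_congr rfl
          intro k _
          rw [lie_smul, hχ k, smul_smul, smul_smul, ← sub_smul]
          congr 1
          simp only [a', fst_pr, snd_pr, inner_zero_left, add_zero]
          ring
        apply ih a'
        · have hlt : (Finset.univ.filter (fun k => a' k ≠ 0)).card <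
              (Finset.univ.filter (fun k => a k ≠ 0)).card := by
            apply Finset.card_lt_card
            rw [Finset.ssubset_iff_of_subset]
            · refine ⟨k0, Finset.mem_filter.2 ⟨Finset.mem_univ _, hk0⟩, ?_⟩
              intro h2
              have h3 := (Finset.mem_filter.1 h2).2
              apply h3
              simp [a']
            · intro k hk
              have h3 := (Finset.mem_filter.1 hk).2
              refine Finset.mem_filter.2 ⟨Finset.mem_univ _, ?_⟩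
              intro h4
              apply h3
              simp [a', h4]
          omega
        · intro h2
          have h3 := (Fintype.linearIndependent_iff.1 hb) a' h2 k1
          have h4 : a k1 * (⟪m k1, x⟫_ℂ - ⟪m k0, x⟫_ℂ) = 0 := h3
          rcases mul_eq_zero.1 h4 with h5 | h5
          · exact hk1 h5
          · exact hx (sub_eq_zero.1 h5)
        · rw [hy', snd_sub, snd_smul, h1, snd_lie, h1]
          simp
  obtain ⟨a, rfl⟩ := (Submodule.mem_span_range_iff_exists_fun ℂ).1 hy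
  exact key _ a le_rfl hy0 hy1

end HLA

end Pool.Agent.Lib.CSol
end

section

open scoped InnerProductSpace ComplexConjugate

namespace Pool.Agent.Lib.CSol

namespace HLA

variable {V : Type*} [NormedAddCommGroup V] [InnerProductSpace ℂ V] (h : HLA V)
  [FiniteDimensional ℂ V]

/-- A maximal family of independent weight vectors in the situation of Step 6 (B). -/
structure WtBasis {n : ℕ} (b : Fin n → h.Cx) (m : Fin n → V) : Prop where
  li : LinearIndependent ℂ b
  ch : ∀ k, h.IsChar2 (m k) (-(m k))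
  wt : ∀ k, h.IsWt (m k) (-(m k)) (h.fst (b k)) (h.snd (b k))
  max : ∀ (y : h.Cx) (a a' : V), h.IsChar2 a a' → h.IsWt a a' (h.fst y) (h.snd y) →
    y ∈ Submodule.span ℂ (Set.range b)
  D1 : ∀ k x, h.D x (h.fst (b k)) = ⟪m k, x⟫_ℂ • h.fst (b k)
  D2 : ∀ k x, h.D x (h.snd (b k)) = -(⟪m k, x⟫_ℂ • h.snd (b k))
  i1 : ∀ y ∈ Submodule.span ℂ (Set.range b), h.fst y = 0 → y = 0
  i2 : ∀ y ∈ Submodule.span ℂ (Set.range b), h.snd y = 0 → y = 0

end HLA

end Pool.Agent.Lib.CSol
end

section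

open scoped InnerProductSpace ComplexConjugate

namespace Pool.Agent.Lib.CSol

namespace HLA

variable {V : Type*} [NormedAddCommGroup V] [InnerProductSpace ℂ V] (h : HLA V)
  [FiniteDimensional ℂ V]

omit [FiniteDimensional ℂ V] in
private theorem g10_fst {n : ℕ} (b : Fin n → h.Cx) (v : V) (hv : ∀ k, ⟪h.fst (b k), v⟫_ℂ = 0)
    (s : h.Cx) (hs : s ∈ Submodule.span ℂ (Set.range b)) : ⟪h.fst s, v⟫_ℂ = 0 := by
  induction hs using Submodule.span_induction with
  | mem x hx => obtain ⟨k, rfl⟩ := hx; exact hv k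
  | zero => rw [fst_zero, inner_zero_left]
  | add x y _ _ hx hy => rw [fst_add, inner_add_left, hx, hy, add_zero]
  | smul c x _ hx => rw [fst_smul, inner_smul_left, hx, mul_zero]

omit [FiniteDimensional ℂ V] in
private theorem g10_snd {n : ℕ} (b : Fin n → h.Cx) (v : V) (hv : ∀ k, ⟪h.snd (b k), v⟫_ℂ = 0)
    (s : h.Cx) (hs : s ∈ Submodule.span ℂ (Set.range b)) : ⟪h.snd s, v⟫_ℂ = 0 := by
  induction hs using Submodule.span_induction with
  | mem x hx => obtain ⟨k, rfl⟩ := hx; exact hv k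
  | zero => rw [snd_zero, inner_zero_left]
  | add x y _ _ hx hy => rw [snd_add, inner_add_left, hx, hy, add_zero]
  | smul c x _ hx => rw [snd_smul, inner_smul_left, hx, mul_zero]

/-- TASK G10. Let `y` satisfy `⁅z, y⁆ - χ z • y ∈ S := span (range b)` for all `z`, with
`χ z = ⟪n, fst z⟫ + ⟪snd z, n'⟫`. If `fst y ⟂ fst (b k)` for all `k`, then
`⁅pr 0 x, y⁆ = ⟪x, n'⟫ • y`. Proof: `c = ⁅pr 0 x, y⁆ - ⟪x, n'⟫ • y ∈ S`,
`fst c = -A x (fst y) - ⟪x, n'⟫ • fst y`. For each `k`,
`⟪fst (b k), A x (fst y)⟫ = ⟪D x (fst (b k)), fst y⟫ = 0` (`D1`), so `fst c ⟂ fst (b k)` for all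
`k`; but `fst c` is in the span of the `fst (b k)` (`c ∈ S`, `fst` linear), so `fst c = 0` and
`c = 0` (`i1`). -/
theorem lie_pr0 {n : ℕ} (b : Fin n → h.Cx) (m : Fin n → V) (W : h.WtBasis b m) (a a' : V)
    (y : h.Cx) (hy : ∀ z : h.Cx, ⁅z, y⁆ - (⟪a, h.fst z⟫_ℂ + ⟪h.snd z, a'⟫_ℂ) • y ∈
      Submodule.span ℂ (Set.range b)) (hp : ∀ k, ⟪h.fst (b k), h.fst y⟫_ℂ = 0) (x : V) :
    ⁅h.pr 0 x, y⁆ = ⟪x, a'⟫_ℂ • y := by
  have hc := hy (h.pr 0 x)
  rw [fst_pr, snd_pr, inner_zero_right, zero_add] at hc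
  have hf : h.fst (⁅h.pr 0 x, y⁆ - ⟪x, a'⟫_ℂ • y) = -h.A x (h.fst y) - ⟪x, a'⟫_ℂ • h.fst y := by
    rw [fst_sub, fst_smul, fst_lie, fst_pr, snd_pr, map_zero, LinearMap.zero_apply, map_zero,
      zero_add, zero_sub]
  have ho : ∀ k, ⟪h.fst (b k), h.fst (⁅h.pr 0 x, y⁆ - ⟪x, a'⟫_ℂ • y)⟫_ℂ = 0 := by
    intro k
    rw [hf, inner_sub_right, inner_neg_right, inner_smul_right, hp k, ← h.inner_D_left, W.D1,
      inner_smul_left, hp k, mul_zero, mul_zero, neg_zero, sub_zero]
  have h0 := g10_fst h b _ ho _ hc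
  exact sub_eq_zero.mp (W.i1 _ hc (inner_self_eq_zero.mp h0))

/-- The same for `snd` (`D2`, `i2`; `snd` is conjugate linear): if `snd y ⟂ snd (b k)` for all
`k`, then `⁅pr x 0, y⁆ = ⟪a, x⟫ • y`. -/
theorem lie_prx {n : ℕ} (b : Fin n → h.Cx) (m : Fin n → V) (W : h.WtBasis b m) (a a' : V)
    (y : h.Cx) (hy : ∀ z : h.Cx, ⁅z, y⁆ - (⟪a, h.fst z⟫_ℂ + ⟪h.snd z, a'⟫_ℂ) • y ∈
      Submodule.span ℂ (Set.range b)) (hp : ∀ k, ⟪h.snd (b k), h.snd y⟫_ℂ = 0) (x : V) :
    ⁅h.pr x 0, y⁆ = ⟪a, x⟫_ℂ • y := by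
  have hc := hy (h.pr x 0)
  rw [fst_pr, snd_pr, inner_zero_left, add_zero] at hc
  have hf : h.snd (⁅h.pr x 0, y⁆ - ⟪a, x⟫_ℂ • y)
      = -h.A x (h.snd y) - conj ⟪a, x⟫_ℂ • h.snd y := by
    rw [snd_sub, snd_smul, snd_lie, fst_pr, snd_pr, map_zero, LinearMap.zero_apply, map_zero,
      zero_add, zero_sub]
  have ho : ∀ k, ⟪h.snd (b k), h.snd (⁅h.pr x 0, y⁆ - ⟪a, x⟫_ℂ • y)⟫_ℂ = 0 := by
    intro k
    rw [hf, inner_sub_right, inner_neg_right, inner_smul_right, hp k, ← h.inner_D_left, W.D2,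
      inner_neg_left, inner_smul_left, hp k, mul_zero, mul_zero, neg_zero, neg_zero, sub_zero]
  have h0 := g10_snd h b _ ho _ hc
  exact sub_eq_zero.mp (W.i2 _ hc (inner_self_eq_zero.mp h0))

end HLA

end Pool.Agent.Lib.CSol
end
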