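import Pool.Agent.Lib.CSol.Mg.G020
import Pool.Agent.Lib.CSol.Mg.G018
import Pool.Agent.Lib.CSol.Mg.G016

section

open scoped InnerProductSpace ComplexConjugate

namespace Pool.Agent.Lib.CSol

namespace HLA

variable {V : Type*} [NormedAddCommGroup V] [InnerProductSpace ℂ V] (h : HLA V)
  [FiniteDimensional ℂ V]

private theorem G12_hyp {n : ℕ} (b : Fin n → h.Cx) (m : Fin n → V) (W : h.WtBasis b m) (a a' : V)
    (y s : h.Cx)
    (hy : ∀ z : h.Cx, ⁅z, y⁆ - (⟪a, h.fst z⟫_ℂ + ⟪h.snd z, a'⟫_ℂ) • y ∈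
      Submodule.span ℂ (Set.range b)) (hs : s ∈ Submodule.span ℂ (Set.range b)) (z : h.Cx) :
    ⁅z, y - s⁆ - (⟪a, h.fst z⟫_ℂ + ⟪h.snd z, a'⟫_ℂ) • (y - s) ∈
      Submodule.span ℂ (Set.range b) := by
  have h1 : ⁅z, y - s⁆ - (⟪a, h.fst z⟫_ℂ + ⟪h.snd z, a'⟫_ℂ) • (y - s) =
      (⁅z, y⁆ - (⟪a, h.fst z⟫_ℂ + ⟪h.snd z, a'⟫_ℂ) • y) -
      (⁅z, s⁆ - (⟪a, h.fst z⟫_ℂ + ⟪h.snd z, a'⟫_ℂ) • s) := by
    rw [lie_sub, smul_sub]; abel
  rw [h1]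
  exact Submodule.sub_mem _ (hy z) (Submodule.sub_mem _ (h.span_lie b m W z s hs)
    (Submodule.smul_mem _ _ hs))

/-- TASK G12. No proper extension. Let `y ∉ S = span (range b)` with
`⁅z, y⁆ - χ z • y ∈ S` for all `z`, `χ z = ⟪a, fst z⟫ + ⟪snd z, a'⟫`, `IsChar2 a a'`. Then
`False`. Proof. Take `s₁`, `s₂ ∈ S` from `adjust1`, `adjust2` and put `y₁ = y - s₁`,
`y₂ = y - s₂`. Both satisfy the same hypothesis (`span_lie`), so (`lie_pr0`, `lie_prx`)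
`⁅pr 0 w, y₁⁆ = ⟪w, a'⟫ • y₁` and `⁅pr x 0, y₂⁆ = ⟪a, x⟫ • y₂`. Write
`s = y₁ - y₂ = ∑ c k • b k`. Then
`⁅pr x 0, y₁⁆ = ⟪a, x⟫ • y₁ + ∑ k (c k * ⟪m k - a, x⟫) • b k` (`isWt_iff`).
Jacobi (`leibniz_lie`/`lie_lie`) for `z = pr x 0`, `z' = pr 0 w`, `y₁`, with
`⁅z, z'⁆ = pr (A w x) (-A x w)`, where
`⁅pr (A w x) (-A x w), y₁⁆ = ⁅pr (A w x) 0, y₁⁆ + ⁅pr 0 (-A x w), y₁⁆`, gives (the multiples of
`y₁` cancel because `(a, a')` is a character: `⟪a, A w x⟫ = ⟪A x w, a'⟫`):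
`∑ k c k ⟪m k - a, A w x⟫ • b k = ∑ k c k (⟪w, a'⟫ - ⟪w, -(m k)⟫) ⟪m k - a, x⟫ • b k`.
By independence, for `c k ≠ 0` and `ν = m k - a`, `ν' = -(m k) - a'`:
`⟪ν, A w x⟫ = -⟪w, ν'⟫ ⟪ν, x⟫`, i.e. `D w ν = -⟪ν', w⟫ • ν`; `nu_zero` (with `IsChar2 ν ν'`,
the difference of two characters) gives `m k = a`. So `⁅pr x 0, y₁⁆ = ⟪a, x⟫ • y₁`, and `y₁` is a
weight vector (`isWt_iff`), so `y₁ ∈ S` by `max`, `y ∈ S`, contradiction. -/
theorem no_extension (S2 : ∀ l, h.IsChar l → ∀ x, h.D x l = l → l = 0)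
    (NC : ∀ l, (∀ x, h.D x l = 0) → (∀ x y, ⟪l, h.br x y⟫_ℂ = 0) → l = 0)
    {n : ℕ} (b : Fin n → h.Cx) (m : Fin n → V) (W : h.WtBasis b m) (a a' : V)
    (ha : h.IsChar2 a a') (y : h.Cx)
    (hy : ∀ z : h.Cx, ⁅z, y⁆ - (⟪a, h.fst z⟫_ℂ + ⟪h.snd z, a'⟫_ℂ) • y ∈
      Submodule.span ℂ (Set.range b)) (hyS : y ∉ Submodule.span ℂ (Set.range b)) : False := by
  obtain ⟨s₁, hs₁, ho₁⟩ := h.adjust1 b y
  obtain ⟨s₂, hs₂, ho₂⟩ := h.adjust2 b y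
  obtain ⟨y₁, hy₁⟩ : ∃ y₁ : h.Cx, y₁ = y - s₁ := ⟨_, rfl⟩
  obtain ⟨y₂, hy₂⟩ : ∃ y₂ : h.Cx, y₂ = y - s₂ := ⟨_, rfl⟩
  rw [← hy₁] at ho₁
  rw [← hy₂] at ho₂
  have hyp₁ := G12_hyp h b m W a a' y s₁ hy hs₁
  have hyp₂ := G12_hyp h b m W a a' y s₂ hy hs₂
  rw [← hy₁] at hyp₁
  rw [← hy₂] at hyp₂
  have E2 : ∀ w : V, ⁅h.pr 0 w, y₁⁆ = ⟪w, a'⟫_ℂ • y₁ :=
    fun w => h.lie_pr0 b m W a a' y₁ hyp₁ ho₁ w
  have E0 : ∀ x : V, ⁅h.pr x 0, y₂⁆ = ⟪a, x⟫_ℂ • y₂ :=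
    fun x => h.lie_prx b m W a a' y₂ hyp₂ ho₂ x
  have hsm : s₂ - s₁ ∈ Submodule.span ℂ (Set.range b) := Submodule.sub_mem _ hs₂ hs₁
  obtain ⟨c, hc⟩ := (Submodule.mem_span_range_iff_exists_fun ℂ).1 hsm
  have hy12 : y₁ = y₂ + ∑ k, c k • b k := by
    rw [hc, hy₁, hy₂]; abel
  have hb : ∀ (k : Fin n) (z : h.Cx), ⁅z, b k⁆ =
      (⟪m k, h.fst z⟫_ℂ + ⟪h.snd z, -(m k)⟫_ℂ) • b k := fun k z =>
    (h.isWt_iff (m k) (-(m k)) (b k)).1 (W.wt k) z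
  have hlsum : ∀ (z : h.Cx) (d : Fin n → ℂ), ⁅z, ∑ k, d k • b k⁆ =
      ∑ k, (d k * (⟪m k, h.fst z⟫_ℂ + ⟪h.snd z, -(m k)⟫_ℂ)) • b k := by
    intro z d
    rw [lie_sum]
    refine Finset.sum_congr rfl fun k _ => ?_
    rw [lie_smul, hb, smul_smul]
  have E1 : ∀ x : V, ⁅h.pr x 0, y₁⁆ = ⟪a, x⟫_ℂ • y₁ + ∑ k, (c k * ⟪m k - a, x⟫_ℂ) • b k := by
    intro x
    rw [hy12, lie_add, E0, hlsum, smul_add, add_assoc, add_right_inj, Finset.smul_sum,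
      ← Finset.sum_add_distrib]
    refine Finset.sum_congr rfl fun k _ => ?_
    rw [smul_smul, ← add_smul, fst_pr, snd_pr, inner_zero_left, inner_sub_left]
    congr 1
    ring
  -- the character
  have hchar : ∀ x w : V, ⟪a, h.A w x⟫_ℂ = ⟪h.A x w, a'⟫_ℂ := by
    intro x w
    rw [← h.inner_D_left, ha.sym, h.inner_D_right]
  -- Jacobi
  have key : ∀ (x w : V) (k : Fin n),
      c k * (⟪m k - a, h.A w x⟫_ℂ + ⟪w, -(m k) - a'⟫_ℂ * ⟪m k - a, x⟫_ℂ) = 0 := by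
    intro x w
    have hJ := leibniz_lie (h.pr x 0) (h.pr 0 w) y₁
    have hzz : ⁅h.pr x 0, h.pr 0 w⁆ = h.pr (h.A w x) 0 + h.pr 0 (-(h.A x w)) := by
      refine h.cx_ext ?_ ?_
      · simp only [fst_lie, fst_add, fst_pr, snd_pr, map_zero]
        abel
      · simp only [snd_lie, snd_add, fst_pr, snd_pr, map_zero, LinearMap.zero_apply]
        abel
    rw [E2, lie_smul, E1, hzz, add_lie, E1, E2, lie_add, lie_smul, E2, hlsum] at hJ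
    simp only [fst_pr, snd_pr, inner_zero_right, zero_add] at hJ
    have hz : ∑ k, (c k * (⟪m k - a, h.A w x⟫_ℂ + ⟪w, -(m k) - a'⟫_ℂ * ⟪m k - a, x⟫_ℂ)) • b k
        = 0 := by
      have e1 : ∑ k, (c k * (⟪m k - a, h.A w x⟫_ℂ + ⟪w, -(m k) - a'⟫_ℂ * ⟪m k - a, x⟫_ℂ)) • b k
          = ∑ k, (c k * ⟪m k - a, h.A w x⟫_ℂ) • b k
            + ∑ k, (c k * ⟪m k - a, x⟫_ℂ * ⟪w, -(m k)⟫_ℂ) • b k
            - ⟪w, a'⟫_ℂ • ∑ k, (c k * ⟪m k - a, x⟫_ℂ) • b k := by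
        rw [Finset.smul_sum, ← Finset.sum_add_distrib, ← Finset.sum_sub_distrib]
        refine Finset.sum_congr rfl fun k _ => ?_
        rw [smul_smul, ← add_smul, ← sub_smul, inner_sub_right]
        congr 1
        ring
      rw [e1]
      have e2 := hchar x w
      have e3 : ⟪-(h.A x w), a'⟫_ℂ = -⟪h.A x w, a'⟫_ℂ := inner_neg_left _ _
      rw [e3, ← e2] at hJ
      have e4 : ⟪a, h.A w x⟫_ℂ • y₁ + -⟪a, h.A w x⟫_ℂ • y₁ = 0 := by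
        rw [← add_smul, add_neg_cancel, zero_smul]
      have e5 : ⟪w, a'⟫_ℂ • ⟪a, x⟫_ℂ • y₁ = ⟪a, x⟫_ℂ • ⟪w, a'⟫_ℂ • y₁ := smul_comm _ _ _
      rw [smul_add, e5] at hJ
      have e6 : ⟪w, a'⟫_ℂ • ∑ k, (c k * ⟪m k - a, x⟫_ℂ) • b k =
          (⟪a, h.A w x⟫_ℂ • y₁ + -⟪a, h.A w x⟫_ℂ • y₁)
          + ∑ k, (c k * ⟪m k - a, h.A w x⟫_ℂ) • b k
          + ∑ k, (c k * ⟪m k - a, x⟫_ℂ * ⟪w, -(m k)⟫_ℂ) • b k := by
        have := congrArg (fun t => t - ⟪a, x⟫_ℂ • ⟪w, a'⟫_ℂ • y₁) hJ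
        simp only [add_sub_cancel_left] at this
        rw [this]
        abel
      rw [e6, e4]
      abel
    exact fun k => (Fintype.linearIndependent_iff.1 W.li _ hz) k
  have hck : ∀ k, c k = 0 ∨ m k = a := by
    intro k
    by_cases h0 : c k = 0
    · exact Or.inl h0
    · right
      have hν : h.IsChar2 (m k - a) (-(m k) - a') := by
        refine ⟨fun x y => ?_, fun x y => ?_, fun x y => ?_⟩
        · rw [inner_sub_left, (W.ch k).br, ha.br, sub_zero]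
        · rw [inner_sub_left, (W.ch k).br', ha.br', sub_zero]
        · rw [map_sub, map_sub, inner_sub_left, inner_sub_right, (W.ch k).sym, ha.sym]
      have hD : ∀ w, h.D w (m k - a) = -(⟪-(m k) - a', w⟫_ℂ • (m k - a)) := by
        intro w
        refine ext_inner_right ℂ fun x => ?_
        rw [h.inner_D_left, inner_neg_left, inner_smul_left, inner_conj_symm]
        have h1 := (mul_eq_zero.1 (key x w k)).resolve_left h0
        exact eq_neg_of_add_eq_zero_left h1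
      exact sub_eq_zero.1 (h.nu_zero S2 NC _ _ hν hD)
  have E1' : ∀ x : V, ⁅h.pr x 0, y₁⁆ = ⟪a, x⟫_ℂ • y₁ := by
    intro x
    rw [E1, Finset.sum_eq_zero, add_zero]
    intro k _
    rcases hck k with h0 | h0
    · rw [h0, zero_mul, zero_smul]
    · rw [h0, sub_self, inner_zero_left, mul_zero, zero_smul]
  have hwt : h.IsWt a a' (h.fst y₁) (h.snd y₁) := by
    rw [h.isWt_iff]
    intro z
    have hz : z = h.pr (h.fst z) 0 + h.pr 0 (h.snd z) := by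
      refine h.cx_ext ?_ ?_
      · simp
      · simp
    conv_lhs => rw [hz, add_lie, E1', E2]
    rw [add_smul]
  have hmem := W.max y₁ a a' ha hwt
  apply hyS
  have : y = y₁ + s₁ := by rw [hy₁]; abel
  rw [this]
  exact Submodule.add_mem _ hmem hs₁

end HLA

end Pool.Agent.Lib.CSol
end

section

open scoped InnerProductSpace ComplexConjugate

namespace Pool.Agent.Lib.CSol

namespace HLA

variable {V : Type*} [NormedAddCommGroup V] [InnerProductSpace ℂ V] (h : HLA V)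
  [FiniteDimensional ℂ V]

/-- `S = span (range b)` as a Lie submodule. -/
private def G13_S {n : ℕ} (b : Fin n → h.Cx) (m : Fin n → V) (W : h.WtBasis b m) :
    LieSubmodule ℂ h.Cx h.Cx where
  toSubmodule := Submodule.span ℂ (Set.range b)
  lie_mem := fun {x s} hs => h.span_lie b m W x s hs

/-- TASK G13. Lie's theorem for `h.Cx ⧸ S`, `S = span (range b)` a Lie submodule (`span_lie`),
`S ≠ ⊤`: there is `y ∉ S` and a functional `f` with `⁅z, y⁆ - f z • y ∈ S` for all `z`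
(`LieModule.exists_nontrivial_weightSpace_of_isSolvable` for the `h.Cx`-module `h.Cx ⧸ S`, finite
dimensional over the algebraically closed field `ℂ`). `f` kills brackets: modulo `S`,
`f ⁅z, z'⁆ • y = ⁅⁅z, z'⁆, y⁆ = (f z' f z - f z f z') • y = 0` and `y ∉ S`. So
`f z = ⟪a, fst z⟫ + ⟪snd z, a'⟫` with `IsChar2 a a'` (`char_of_functional`). -/
theorem exists_ext (hs : h.Solv) {n : ℕ} (b : Fin n → h.Cx) (m : Fin n → V)
    (W : h.WtBasis b m) (hS : Submodule.span ℂ (Set.range b) ≠ ⊤) :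
    ∃ (a a' : V) (y : h.Cx), h.IsChar2 a a' ∧ y ∉ Submodule.span ℂ (Set.range b) ∧
      ∀ z : h.Cx, ⁅z, y⁆ - (⟪a, h.fst z⟫_ℂ + ⟪h.snd z, a'⟫_ℂ) • y ∈
        Submodule.span ℂ (Set.range b) := by
  have : LieAlgebra.IsSolvable h.Cx := hs
  set S := G13_S h b m W with hSd
  have hmem : ∀ y : h.Cx, y ∈ S ↔ y ∈ Submodule.span ℂ (Set.range b) := fun y => Iff.rfl
  have : Module.Finite ℂ (h.Cx ⧸ S) := inferInstanceAs (Module.Finite ℂ (h.Cx ⧸ S.toSubmodule))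
  have : Nontrivial (h.Cx ⧸ S) := by
    have h1 : Nontrivial (h.Cx ⧸ (Submodule.span ℂ (Set.range b))) :=
      Submodule.Quotient.nontrivial_iff.2 hS
    exact h1
  obtain ⟨f, hf⟩ := LieModule.exists_nontrivial_weightSpace_of_isSolvable ℂ h.Cx (h.Cx ⧸ S)
  obtain ⟨⟨v, hv⟩, hv0⟩ := exists_ne (0 : LieModule.weightSpace (h.Cx ⧸ S) f)
  rw [LieModule.mem_weightSpace] at hv
  have hv0' : v ≠ 0 := by
    intro h0
    exact hv0 (Subtype.ext h0)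
  obtain ⟨y, rfl⟩ := LieSubmodule.Quotient.surjective_mk' S v
  have hyS : y ∉ Submodule.span ℂ (Set.range b) := by
    intro hy
    apply hv0'
    exact (LieSubmodule.Quotient.mk_eq_zero').2 ((hmem y).2 hy)
  have hyz : ∀ z : h.Cx, ⁅z, y⁆ - f z • y ∈ Submodule.span ℂ (Set.range b) := by
    intro z
    rw [← hmem]
    have h1 := hv z
    rw [← LieModuleHom.map_lie, ← map_smul, ← sub_eq_zero,
      ← map_sub] at h1
    exact (LieSubmodule.Quotient.mk_eq_zero').1 h1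
  have hfl : ∀ z z' : h.Cx, f ⁅z, z'⁆ = 0 := by
    intro z z'
    have h1 := hv ⁅z, z'⁆
    rw [lie_lie, hv z', hv z, lie_smul, lie_smul, hv z, hv z', smul_smul, smul_smul,
      mul_comm, sub_self] at h1
    exact (smul_eq_zero.1 h1.symm).resolve_right hv0'
  obtain ⟨a, a', ha, hfa⟩ := h.char_of_functional f hfl
  refine ⟨a, a', y, ha, hyS, fun z => ?_⟩
  rw [← hfa z]
  exact hyz z

end HLA

end Pool.Agent.Lib.CSol
end
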