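import Pool.Agent.Lib.CSol.Mg.G018
import Pool.Agent.Lib.CSol.Mg.G016
import Pool.Agent.Lib.CSol.Mg.G015
import Pool.Agent.Lib.CSol.Mg.G011
import Pool.Agent.Lib.CSol.Mg.G021
import Pool.Agent.Lib.CSol.Mg.G007
import Pool.Agent.Lib.CSol.Mg.G002
import Pool.Agent.Lib.CSol.Mg.G010
import Pool.Agent.Lib.CSol.Mg.G013
import Pool.Agent.Lib.CSol.Mg.G014

section

open scoped InnerProductSpace ComplexConjugate

namespace Pool.Agent.Lib.CSol

namespace HLA

variable {V : Type*} [NormedAddCommGroup V] [InnerProductSpace ℂ V] (h : HLA V)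
  [FiniteDimensional ℂ V]

/-- TASK G09. Existence of a `WtBasis`. Let `s` be the set of all `y ≠ 0` in `h.Cx` with
`IsChar2 a a'` and `IsWt a a' (fst y) (snd y)` for some `a, a'`. By `exists_linearIndependent` and
finite dimension (instance in `G03`) there are `b : Fin n → h.Cx` linearly independent, with values
in `s`, and `span (range b) = span s`. By `WT`, `a' = -a` for each, and `D1`, `D2` hold. `max` is
clear (also for `y = 0`). `i2`: a nonzero `y` in the span with `snd y = 0` gives by `min_support`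
`e ≠ 0` with `IsWt μ (-μ) e 0`, contradicting `NV`. `i1`: let `y = ∑ a k • b k`, `fst y = 0`. Put
`y' = pr (snd y) (fst y) = ∑ conj (a k) • pr (snd (b k)) (fst (b k))`; each
`pr (snd (b k)) (fst (b k))` is a weight vector for `(-(m k), m k)` (`IsWt.swap`, `IsChar2.swap`
in `E10`), so it is in the span (`max`); `snd y' = 0`, so `y' = 0` by `i2` and `y = 0`. -/
theorem exists_wtBasis
    (WT : ∀ a a' η θ : V, h.IsChar2 a a' → h.IsWt a a' η θ → (η ≠ 0 ∨ θ ≠ 0) →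
      a' = -a ∧ (∀ x, h.D x η = ⟪a, x⟫_ℂ • η) ∧ ∀ x, h.D x θ = -(⟪a, x⟫_ℂ • θ))
    (NV : ∀ e μ : V, h.IsWt μ (-μ) e 0 → e = 0) :
    ∃ (n : ℕ) (b : Fin n → h.Cx) (m : Fin n → V), h.WtBasis b m := by
  classical
  let s : Set h.Cx := {y | y ≠ 0 ∧ ∃ a a' : V, h.IsChar2 a a' ∧ h.IsWt a a' (h.fst y) (h.snd y)}
  obtain ⟨t, hts, hspan, hli⟩ := exists_linearIndependent ℂ s
  have hfin : t.Finite := hli.setFinite
  have : Fintype t := hfin.fintype
  let e : Fin (Fintype.card t) ≃ t := (Fintype.equivFin t).symm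
  let b : Fin (Fintype.card t) → h.Cx := fun k => (e k : h.Cx)
  have hb : ∀ k, b k ∈ s := fun k => hts (e k).2
  have hbli : LinearIndependent ℂ b := hli.comp e e.injective
  have hrange : Set.range b = t := by
    ext y
    constructor
    · rintro ⟨k, rfl⟩
      exact (e k).2
    · intro hy
      exact ⟨e.symm ⟨y, hy⟩, by simp [b]⟩
  have hspan' : Submodule.span ℂ (Set.range b) = Submodule.span ℂ s := by
    rw [hrange, hspan]
  have hdat : ∀ k, ∃ a : V, h.IsChar2 a (-a) ∧ h.IsWt a (-a) (h.fst (b k)) (h.snd (b k)) ∧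
      (∀ x, h.D x (h.fst (b k)) = ⟪a, x⟫_ℂ • h.fst (b k)) ∧
      ∀ x, h.D x (h.snd (b k)) = -(⟪a, x⟫_ℂ • h.snd (b k)) := by
    intro k
    obtain ⟨hne, a, a', hc, hw⟩ := hb k
    have hne' : h.fst (b k) ≠ 0 ∨ h.snd (b k) ≠ 0 := by
      by_contra hcon
      push Not at hcon
      exact hne (h.cx_ext hcon.1 hcon.2)
    obtain ⟨h1, h2, h3⟩ := WT a a' _ _ hc hw hne'
    subst h1
    exact ⟨a, hc, hw, h2, h3⟩
  choose m hch hwt hD1 hD2 using hdat
  have hmax : ∀ (y : h.Cx) (a a' : V), h.IsChar2 a a' → h.IsWt a a' (h.fst y) (h.snd y) →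
      y ∈ Submodule.span ℂ (Set.range b) := by
    intro y a a' hc hw
    rw [hspan']
    by_cases hy : y = 0
    · rw [hy]; exact Submodule.zero_mem _
    · exact Submodule.subset_span ⟨hy, a, a', hc, hw⟩
  have hi2 : ∀ y ∈ Submodule.span ℂ (Set.range b), h.snd y = 0 → y = 0 := by
    intro y hy hy1
    by_contra hy0
    obtain ⟨e', μ, he, hw⟩ := h.min_support b hbli m hwt y hy hy0 hy1
    exact he (NV e' μ hw)
  have hi1 : ∀ y ∈ Submodule.span ℂ (Set.range b), h.fst y = 0 → y = 0 := by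
    intro y hy hy1
    obtain ⟨a, rfl⟩ := (Submodule.mem_span_range_iff_exists_fun ℂ).1 hy
    have hfs : ∀ (f : Fin (Fintype.card t) → h.Cx), h.fst (∑ k, f k) = ∑ k, h.fst (f k) := by
      intro f
      exact map_sum (⟨⟨h.fst, rfl⟩, fun _ _ => rfl⟩ : h.Cx →+ V) f Finset.univ
    have hss : ∀ (f : Fin (Fintype.card t) → h.Cx), h.snd (∑ k, f k) = ∑ k, h.snd (f k) := by
      intro f
      exact map_sum (⟨⟨h.snd, rfl⟩, fun _ _ => rfl⟩ : h.Cx →+ V) f Finset.univ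
    set y' : h.Cx := ∑ k, conj (a k) • h.pr (h.snd (b k)) (h.fst (b k)) with hy'
    have hf' : h.fst y' = h.snd (∑ k, a k • b k) := by
      rw [hy', hfs, hss]
      apply Finset.sum_congr rfl
      intro k _
      rw [fst_smul, fst_pr, snd_smul]
    have hs' : h.snd y' = h.fst (∑ k, a k • b k) := by
      rw [hy', hfs, hss]
      apply Finset.sum_congr rfl
      intro k _
      rw [snd_smul, snd_pr, fst_smul, Complex.conj_conj]
    have hmem : y' ∈ Submodule.span ℂ (Set.range b) := by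
      rw [hy']
      apply Submodule.sum_mem
      intro k _
      apply Submodule.smul_mem
      apply hmax _ (-(m k)) (m k)
      · exact IsChar2.swap h _ _ (hch k)
      · rw [fst_pr, snd_pr]
        exact IsWt.swap h _ _ _ _ (hwt k)
    have h0 := hi2 y' hmem (by rw [hs', hy1])
    apply h.cx_ext
    · rw [hy1]; rfl
    · rw [← hf', h0]; rfl
  exact ⟨Fintype.card t, b, m, ⟨hbli, hch, hwt, hmax, hD1, hD2, hi1, hi2⟩⟩

end HLA

end Pool.Agent.Lib.CSol
end

section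

open scoped InnerProductSpace ComplexConjugate

namespace Pool.Agent.Lib.CSol

namespace HLA

variable {V : Type*} [NormedAddCommGroup V] [InnerProductSpace ℂ V] (h : HLA V)
  [FiniteDimensional ℂ V]

/-- TASK G14. Step 6 (B) is impossible for `V ≠ 0`. `NV` from `no_wt_in_V` (with `WT` for
`η = e`, `θ = 0`: if `e ≠ 0`... note `WT` needs `IsChar2 μ (-μ)`: from `IsWt μ (-μ) e 0` with
`e ≠ 0` it follows by applying the Jacobi identity / `isWt_iff`: the weight of a nonzero joint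
eigenvector kills brackets; then compare types as in `char_of_functional`). `exists_wtBasis` gives
`b, m`. `S ≠ ⊤`: take `v ≠ 0` in `V`; if `pr v 0 ∈ S`, `i2` gives `pr v 0 = 0`, contradiction.
Then `exists_ext`, `no_extension`. -/
theorem step6B [Nontrivial V] (hu : h.Uni) (hH : ∀ x, h.H x ≤ 0) (hs : h.Solv)
    (S2 : ∀ l, h.IsChar l → ∀ x, h.D x l = l → l = 0)
    (NC : ∀ l, (∀ x, h.D x l = 0) → (∀ x y, ⟪l, h.br x y⟫_ℂ = 0) → l = 0)
    (WT : ∀ a a' η θ : V, h.IsChar2 a a' → h.IsWt a a' η θ → (η ≠ 0 ∨ θ ≠ 0) →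
      a' = -a ∧ (∀ x, h.D x η = ⟪a, x⟫_ℂ • η) ∧ ∀ x, h.D x θ = -(⟪a, x⟫_ℂ • θ))
    (IH : ∀ (U : Submodule ℂ V) (g : HLA U), U ≠ ⊤ → g.Solv → g.Uni → (∀ x, g.H x ≤ 0) →
      g.Flat) : False := by
  have NV : ∀ e μ : V, h.IsWt μ (-μ) e 0 → e = 0 := by
    intro e μ hw
    by_contra he
    have hy : ∀ z : h.Cx, ⁅z, h.pr e 0⁆ = (⟪μ, h.fst z⟫_ℂ + ⟪h.snd z, -μ⟫_ℂ) • h.pr e 0 :=
      (h.isWt_iff μ (-μ) (h.pr e 0)).mp hw
    have hy0 : h.pr e 0 ≠ 0 := fun h1 => he (congrArg h.fst h1)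
    have hf : ∀ z w : h.Cx, ⟪μ, h.fst ⁅z, w⁆⟫_ℂ + ⟪h.snd ⁅z, w⁆, -μ⟫_ℂ = 0 := by
      intro z w
      have h1 := hy ⁅z, w⁆
      rw [lie_lie, hy w, hy z, lie_smul, lie_smul, hy z, hy w, smul_smul, smul_smul,
        mul_comm, sub_self] at h1
      exact (smul_eq_zero.mp h1.symm).resolve_right hy0
    have hbr : ∀ x y, ⟪μ, h.br x y⟫_ℂ = 0 := by
      intro x y
      have h1 := hf (h.pr x 0) (h.pr y 0)
      rw [fst_lie, snd_lie] at h1
      simpa using h1
    have hch : h.IsChar2 μ (-μ) := by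
      refine ⟨hbr, fun x y => ?_, fun x y => ?_⟩
      · rw [inner_neg_left, hbr, neg_zero]
      · have h1 := hf (h.pr y 0) (h.pr 0 x)
        rw [fst_lie, snd_lie] at h1
        have h2 : ⟪μ, h.A x y⟫_ℂ + ⟪h.A y x, μ⟫_ℂ = 0 := by simpa using h1
        rw [h.inner_D_left, h.inner_D_right, inner_neg_right]
        exact eq_neg_of_add_eq_zero_left h2
    exact he (h.no_wt_in_V hu hH hs NC IH e μ hw (WT μ (-μ) e 0 hch hw (Or.inl he)).2.1)
  obtain ⟨n, b, m, W⟩ := h.exists_wtBasis WT NV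
  have hS : Submodule.span ℂ (Set.range b) ≠ ⊤ := by
    intro h1
    obtain ⟨v, hv⟩ := exists_ne (0 : V)
    have h2 : h.pr v 0 = 0 := W.i2 (h.pr v 0) (h1 ▸ Submodule.mem_top) rfl
    exact hv (congrArg h.fst h2)
  obtain ⟨a, a', y, ha, hyS, hy⟩ := h.exists_ext hs b m W hS
  exact h.no_extension S2 NC b m W a a' ha y hy hyS

end HLA

end Pool.Agent.Lib.CSol
end

section

open scoped InnerProductSpace ComplexConjugate

namespace Pool.Agent.Lib.CSol

namespace HLA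

/-- Steps 2, 4, SF, given flatness of smaller algebras. -/
theorem main_aux {V : Type*} [NormedAddCommGroup V] [InnerProductSpace ℂ V]
    [FiniteDimensional ℂ V] (h : HLA V) (hs : h.Solv) (hu : h.Uni) (hH : ∀ x, h.H x ≤ 0)
    (IH : ∀ (U : Submodule ℂ V) (g : HLA U), U ≠ ⊤ → g.Solv → g.Uni → (∀ x, g.H x ≤ 0) →
      g.Flat) : h.Flat := by
  have HS : ∀ (U : Submodule ℂ V) (hb : ∀ x ∈ U, ∀ y ∈ U, h.br x y ∈ U)
      (hA : ∀ x ∈ U, ∀ y ∈ U, h.A x y ∈ U) (u : U), (h.sub U hb hA).H u ≤ 0 := by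
    intro U hb hA u
    rw [h.sub_H]
    have := hH u
    nlinarith [sq_nonneg ‖h.D u u - U.starProjection (h.D u u)‖]
  -- nice kernels
  have NK : ∀ l, h.IsChar l → (∃ x, h.D x l ≠ 0) → h.Nice (h.K l) := by
    intro l hl ⟨x, hx⟩
    have hne : h.K l ≠ ⊤ := by
      intro h1
      have : x ∈ h.K l := by rw [h1]; trivial
      exact hx (h.mem_K.1 this)
    exact h.nice_of_flat hH _ _ _ (IH _ _ hne (h.sub_solv _ _ _ hs) (h.K_uni hu l hl)
      (HS _ _ _))
  have S2 : ∀ l, h.IsChar l → ∀ x, h.D x l = l → l = 0 := by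
    intro l hl x hx
    by_contra hne
    exact hne (h.step2 hu hH l hl (NK l hl ⟨x, by rw [hx]; exact hne⟩) x hx)
  have S4 : ∀ l, h.IsChar l → (∀ x, 0 ≤ (⟪x, h.D x l⟫_ℂ).re) → ∀ x, h.D x l = 0 := by
    intro l hl hpos x
    by_contra hne
    exact hne (h.step4 hu hH l hl (NK l hl ⟨x, hne⟩) hpos x)
  have SF : ∀ l, h.IsChar l → (∃ x, h.D x l ≠ 0) →
      ∀ u ∈ h.K l, ∀ v ∈ h.K l, ∀ w ∈ h.K l, h.A (h.A v u) w = 0 :=
    fun l hl hx => (NK l hl hx).kill
  rcases subsingleton_or_nontrivial V with hV | hV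
  · exact ⟨fun x y z => Subsingleton.elim _ _, fun x y z => Subsingleton.elim _ _⟩
  by_cases hA : ∃ l : V, l ≠ 0 ∧ (∀ x, h.D x l = 0) ∧ ∀ x y, ⟪l, h.br x y⟫_ℂ = 0
  · obtain ⟨l, hl0, hl1, hl2⟩ := hA
    have hn : ‖l‖ ≠ 0 := norm_ne_zero_iff.2 hl0
    have hc : ((‖l‖ : ℝ) : ℂ) ≠ 0 := by exact_mod_cast hn
    have he : ‖(((‖l‖ : ℝ) : ℂ))⁻¹ • l‖ = 1 := by
      rw [norm_smul, norm_inv, Complex.norm_real, norm_norm, inv_mul_cancel₀ hn]
    have he1 : ∀ x, h.D x ((((‖l‖ : ℝ) : ℂ))⁻¹ • l) = 0 := fun x => by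
      rw [map_smul, hl1, smul_zero]
    have he2 : ∀ x y, ⟪(((‖l‖ : ℝ) : ℂ))⁻¹ • l, h.br x y⟫_ℂ = 0 := fun x y => by
      rw [inner_smul_left, hl2, mul_zero]
    refine h.step6A hu hH _ he he1 he2 ?_
    refine IH _ _ ?_ (h.sub_solv _ _ _ hs) (h.perp_uni hu _ he he1 he2) (HS _ _ _)
    intro h1
    have h2 : (((‖l‖ : ℝ) : ℂ))⁻¹ • l ∈ (ℂ ∙ ((((‖l‖ : ℝ) : ℂ))⁻¹ • l))ᗮ := by
      rw [h1]; trivial
    have h3 := Submodule.mem_orthogonal_singleton_iff_inner_right.1 h2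
    rw [inner_self_eq_zero] at h3
    rw [h3, norm_zero] at he
    exact zero_ne_one he
  · exfalso
    have NC : ∀ l, (∀ x, h.D x l = 0) → (∀ x y, ⟪l, h.br x y⟫_ℂ = 0) → l = 0 := by
      intro l h1 h2
      by_contra hne
      exact hA ⟨l, hne, h1, h2⟩
    have WT : ∀ a a' η θ : V, h.IsChar2 a a' → h.IsWt a a' η θ → (η ≠ 0 ∨ θ ≠ 0) →
      a' = -a ∧ (∀ x, h.D x η = ⟪a, x⟫_ℂ • η) ∧ ∀ x, h.D x θ = -(⟪a, x⟫_ℂ • θ) := by
      intro a a' η θ hm hw hne
      have hp := h.wt_parallel hH S2 S4 SF a a' η θ hm hw hne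
      have hre := IsChar2.real h a a' hm 1
      rw [map_one, one_smul, one_smul] at hre
      have h0 : a + a' = 0 := NC _ hp hre.br
      have ha : a' = -a := (neg_eq_of_add_eq_zero_right h0).symm
      obtain ⟨v1, v2, v3, v4⟩ := h.wt_vanish S2 a a' η θ hm hw
      refine ⟨ha, fun x => ?_, fun x => ?_⟩
      · rw [h.wt_split hH a a' η θ hm hw ⟨v1, v2, v3, v4⟩ hp x, ha, inner_neg_left, neg_smul,
          neg_neg]
      · have hp' : ∀ x, h.D x (a' + a) = 0 := fun x => by rw [add_comm]; exact hp x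
        exact h.wt_split hH a' a θ η (IsChar2.swap h a a' hm) (IsWt.swap h a a' η θ hw)
          ⟨v4, v3, v2, v1⟩ hp' x
    exact h.step6B hu hH hs S2 NC WT IH

end HLA

/-- The main theorem in complex form: a solvable unimodular Hermitian Lie algebra with `H ≤ 0` is
flat. -/
theorem main_flat (n : ℕ) : ∀ (V : Type) [NormedAddCommGroup V] [InnerProductSpace ℂ V]
    [FiniteDimensional ℂ V] (h : HLA V), Module.finrank ℂ V = n → h.Solv → h.Uni →
      (∀ x, h.H x ≤ 0) → h.Flat := by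
  induction n using Nat.strong_induction_on with
  | _ n ih =>
    intro V _ _ _ h hn hs hu hH
    refine h.main_aux hs hu hH fun U g hU gs gu gH => ?_
    exact ih _ (hn ▸ Submodule.finrank_lt (lt_top_iff_ne_top.2 hU).ne) U g rfl gs gu gH

end Pool.Agent.Lib.CSol
end
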