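import Pool.Agent.Lib.CSol.Mg.G012
import Pool.Agent.Lib.CSol.Mg.G018

section

open scoped InnerProductSpace ComplexConjugate

namespace Pool.Agent.Lib.CSol

namespace HLA

variable {V : Type*} [NormedAddCommGroup V] [InnerProductSpace ℂ V] (h : HLA V)
  [FiniteDimensional ℂ V]

/-- TASK G06. A complex character `(ν, ν')` with `D w ν = -⟪ν', w⟫ • ν` for all `w` is `0` in its
first slot, given Step 2 (`S2`) and `NC` (no closed `(1,0)`-form: a real character... precisely: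
`D x l = 0` for all `x` and `⟪l, br x y⟫ = 0` for all `x, y` imply `l = 0`). Proof. Suppose `ν ≠ 0`.
From `hn.sym`: `⟪x, D y ν'⟫ = ⟪D x ν, y⟫ = -⟪x, ν'⟫ * ⟪ν, y⟫`, so `D y ν' = -⟪ν, y⟫ • ν'`.
`l = ν + ν'` is a real character (`IsChar2.real` with `c = 1`) and
`D x l = -⟪ν', x⟫ • ν - ⟪ν, x⟫ • ν'`.
If `ν, ν'` are linearly independent there is `x` with `⟪ν', x⟫ = ⟪ν, x⟫ = -1` (Gram matrix), so
`D x l = l`, `S2` gives `ν' = -ν`, contradiction. Otherwise `ν' = κ • ν`; then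
`D x l = -(2 re κ) * ⟪ν, x⟫ • ν` and `l = (1 + κ) • ν`. If `re κ ≠ 0`, take `x = c • ν` with
`c = -(1 + κ) / (2 re κ ‖ν‖²)`: `D x l = l`, so `l = 0`, `κ = -1`; but then
`0 = D ν l = 2 ‖ν‖² • ν ≠ 0`. If `re κ = 0`, `D x l = 0` for all `x`, so `l = 0` by `NC`, but
`1 + κ ≠ 0`. -/
theorem nu_zero (S2 : ∀ l, h.IsChar l → ∀ x, h.D x l = l → l = 0)
    (NC : ∀ l, (∀ x, h.D x l = 0) → (∀ x y, ⟪l, h.br x y⟫_ℂ = 0) → l = 0)
    (ν ν' : V) (hn : h.IsChar2 ν ν') (hD : ∀ w, h.D w ν = -(⟪ν', w⟫_ℂ • ν)) : ν = 0 := by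
  by_contra hν
  have hD' : ∀ y, h.D y ν' = -(⟪ν, y⟫_ℂ • ν') := by
    intro y
    refine ext_inner_left ℂ fun x => ?_
    rw [← hn.sym, hD, inner_neg_left, inner_smul_left, inner_conj_symm, inner_neg_right,
      inner_smul_right, mul_comm]
  have hl : h.IsChar (ν + ν') := by
    have h1 := IsChar2.real h ν ν' hn 1
    rwa [map_one, one_smul, one_smul] at h1
  have hDl : ∀ x, h.D x (ν + ν') = -(⟪ν', x⟫_ℂ • ν) - ⟪ν, x⟫_ℂ • ν' := by
    intro x
    rw [map_add, hD, hD']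
    abel
  obtain ⟨N, hN⟩ : ∃ N : ℂ, N = ⟪ν, ν⟫_ℂ := ⟨_, rfl⟩
  have hN0 : N ≠ 0 := by
    rw [hN]
    exact inner_self_ne_zero.mpr hν
  obtain ⟨κ, hκ⟩ : ∃ κ : ℂ, κ = ⟪ν, ν'⟫_ℂ / N := ⟨_, rfl⟩
  obtain ⟨ρ, hρ⟩ : ∃ ρ : V, ρ = ν' - κ • ν := ⟨_, rfl⟩
  have hνρ : ⟪ν, ρ⟫_ℂ = 0 := by
    rw [hρ, inner_sub_right, inner_smul_right, ← hN, hκ]
    field_simp
    ring
  have hρν : ⟪ρ, ν⟫_ℂ = 0 := inner_eq_zero_symm.mp hνρ
  have hν' : ν' = κ • ν + ρ := by
    rw [hρ]
    abel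
  by_cases h0 : ρ = 0
  · rw [h0, add_zero] at hν'
    have hl2 : ν + ν' = (1 + κ) • ν := by
      rw [hν', add_smul, one_smul]
    have hDl2 : ∀ x, h.D x (ν + ν') = (-((2 * κ.re : ℝ) : ℂ) * ⟪ν, x⟫_ℂ) • ν := by
      intro x
      have e1 : ((2 * κ.re : ℝ) : ℂ) = κ + conj κ := by
        rw [Complex.add_conj]
      rw [hDl, hν', inner_smul_left, smul_smul, e1]
      module
    have key : ν + ν' = 0 → κ = -1 := by
      intro h1
      rw [hl2, smul_eq_zero] at h1
      rcases h1 with h1 | h1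
      · exact (neg_eq_of_add_eq_zero_right h1).symm
      · exact absurd h1 hν
    by_cases hre : κ.re = 0
    · have h1 : ν + ν' = 0 := by
        refine NC _ (fun x => ?_) hl.br
        rw [hDl2, hre]
        simp
      have h2 := key h1
      rw [h2] at hre
      norm_num at hre
    · have h1 : ν + ν' = 0 := by
        refine S2 _ hl ((-(1 + κ) / (((2 * κ.re : ℝ) : ℂ) * N)) • ν) ?_
        rw [hDl2, hl2, inner_smul_right, ← hN]
        congr 1
        have h3 : ((2 * κ.re : ℝ) : ℂ) ≠ 0 := by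
          exact_mod_cast mul_ne_zero two_ne_zero hre
        field_simp
      have h2 := key h1
      have h3 := hDl2 ν
      rw [h1, map_zero, h2, ← hN] at h3
      have h4 := (smul_eq_zero.mp h3.symm).resolve_right hν
      have h5 := (mul_eq_zero.mp h4).resolve_right hN0
      norm_num at h5
  · obtain ⟨R, hR⟩ : ∃ R : ℂ, R = ⟪ρ, ρ⟫_ℂ := ⟨_, rfl⟩
    have hR0 : R ≠ 0 := by
      rw [hR]
      exact inner_self_ne_zero.mpr h0
    have h1 : ν + ν' = 0 := by
      refine S2 _ hl ((-1 / N) • ν + ((conj κ - 1) / R) • ρ) ?_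
      have e1 : ⟪ν, (-1 / N) • ν + ((conj κ - 1) / R) • ρ⟫_ℂ = -1 := by
        rw [inner_add_right, inner_smul_right, inner_smul_right, hνρ, ← hN, mul_zero, add_zero]
        field_simp
      have e2 : ⟪ν', (-1 / N) • ν + ((conj κ - 1) / R) • ρ⟫_ℂ = -1 := by
        rw [hν', inner_add_left, inner_smul_left, e1, inner_add_right, inner_smul_right,
          inner_smul_right, hρν, ← hR]
        field_simp
        ring
      rw [hDl, e1, e2]
      module
    have h2 : ⟪ρ, ν'⟫_ℂ = 0 := by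
      rw [(neg_eq_of_add_eq_zero_right h1).symm, inner_neg_right, hρν, neg_zero]
    rw [hν', inner_add_right, inner_smul_right, hρν, mul_zero, zero_add, ← hR] at h2
    exact hR0 h2

end HLA

end Pool.Agent.Lib.CSol
end

section

open scoped InnerProductSpace ComplexConjugate

namespace Pool.Agent.Lib.CSol

namespace HLA

variable {V : Type*} [NormedAddCommGroup V] [InnerProductSpace ℂ V] (h : HLA V)
  [FiniteDimensional ℂ V]

/-- TASK G11. `S = span (range b)` is stable under `ad`: `⁅z, s⁆ ∈ S` for `s ∈ S`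
(`⁅z, b k⁆` is a multiple of `b k` by `isWt_iff`). -/
theorem span_lie {n : ℕ} (b : Fin n → h.Cx) (m : Fin n → V) (W : h.WtBasis b m) (z s : h.Cx)
    (hs : s ∈ Submodule.span ℂ (Set.range b)) : ⁅z, s⁆ ∈ Submodule.span ℂ (Set.range b) := by
  induction hs using Submodule.span_induction with
  | mem x hx =>
    obtain ⟨k, rfl⟩ := hx
    rw [(h.isWt_iff (m k) (-(m k)) (b k)).1 (W.wt k) z]
    exact Submodule.smul_mem _ _ (Submodule.subset_span ⟨k, rfl⟩)
  | zero => rw [lie_zero]; exact Submodule.zero_mem _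
  | add x y _ _ hx hy => rw [lie_add]; exact Submodule.add_mem _ hx hy
  | smul a x _ hx => rw [lie_smul]; exact Submodule.smul_mem _ _ hx

/-- For every `y` there is `s ∈ S` with `fst (y - s) ⟂ fst (b k)` for all `k` (orthogonal
projection of `fst y` to the span of the `fst (b k)`; `fst` is linear). -/
theorem adjust1 {n : ℕ} (b : Fin n → h.Cx) (y : h.Cx) :
    ∃ s ∈ Submodule.span ℂ (Set.range b), ∀ k, ⟪h.fst (b k), h.fst (y - s)⟫_ℂ = 0 := by
  set U : Submodule ℂ V := Submodule.span ℂ (Set.range fun k => h.fst (b k)) with hU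
  have key : ∀ u ∈ U, ∃ s ∈ Submodule.span ℂ (Set.range b), h.fst s = u := by
    intro u hu
    induction hu using Submodule.span_induction with
    | mem x hx =>
      obtain ⟨k, rfl⟩ := hx
      exact ⟨b k, Submodule.subset_span ⟨k, rfl⟩, rfl⟩
    | zero => exact ⟨0, Submodule.zero_mem _, rfl⟩
    | add x y _ _ hx hy =>
      obtain ⟨s, hs, rfl⟩ := hx
      obtain ⟨t, ht, rfl⟩ := hy
      exact ⟨s + t, Submodule.add_mem _ hs ht, rfl⟩
    | smul a x _ hx =>
      obtain ⟨s, hs, rfl⟩ := hx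
      exact ⟨a • s, Submodule.smul_mem _ _ hs, rfl⟩
  obtain ⟨s, hs, hsu⟩ := key (U.starProjection (h.fst y)) (U.starProjection_apply_mem _)
  refine ⟨s, hs, fun k => ?_⟩
  rw [fst_sub, hsu]
  have h1 : h.fst y - U.starProjection (h.fst y) ∈ Uᗮ := U.sub_starProjection_mem_orthogonal _
  exact (Submodule.mem_orthogonal U _).1 h1 _ (Submodule.subset_span ⟨k, rfl⟩)

/-- For every `y` there is `s ∈ S` with `snd (y - s) ⟂ snd (b k)` for all `k` (`snd` is conjugate
linear: if the projection of `snd y` is `∑ c k • snd (b k)` take `s = ∑ conj (c k) • b k`). -/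
theorem adjust2 {n : ℕ} (b : Fin n → h.Cx) (y : h.Cx) :
    ∃ s ∈ Submodule.span ℂ (Set.range b), ∀ k, ⟪h.snd (b k), h.snd (y - s)⟫_ℂ = 0 := by
  set U : Submodule ℂ V := Submodule.span ℂ (Set.range fun k => h.snd (b k)) with hU
  have key : ∀ u ∈ U, ∃ s ∈ Submodule.span ℂ (Set.range b), h.snd s = u := by
    intro u hu
    induction hu using Submodule.span_induction with
    | mem x hx =>
      obtain ⟨k, rfl⟩ := hx
      exact ⟨b k, Submodule.subset_span ⟨k, rfl⟩, rfl⟩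
    | zero => exact ⟨0, Submodule.zero_mem _, rfl⟩
    | add x y _ _ hx hy =>
      obtain ⟨s, hs, rfl⟩ := hx
      obtain ⟨t, ht, rfl⟩ := hy
      exact ⟨s + t, Submodule.add_mem _ hs ht, rfl⟩
    | smul a x _ hx =>
      obtain ⟨s, hs, rfl⟩ := hx
      refine ⟨conj a • s, Submodule.smul_mem _ _ hs, ?_⟩
      rw [snd_smul, Complex.conj_conj]
  obtain ⟨s, hs, hsu⟩ := key (U.starProjection (h.snd y)) (U.starProjection_apply_mem _)
  refine ⟨s, hs, fun k => ?_⟩
  rw [snd_sub, hsu]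
  have h1 : h.snd y - U.starProjection (h.snd y) ∈ Uᗮ := U.sub_starProjection_mem_orthogonal _
  exact (Submodule.mem_orthogonal U _).1 h1 _ (Submodule.subset_span ⟨k, rfl⟩)

end HLA

end Pool.Agent.Lib.CSol
end
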